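import Pool.Agent.Lib.MP_bec39b_co.AType

set_option autoImplicit false

namespace Pool.Agent.Lib.MP_bec39b_co

theorem apP_zero (Y : List ℕ) (p w t1 t2 q : ℕ) : apP Y p w t1 t2 q 0 = [] := by
  unfold apP
  rw [if_neg (by omega), if_neg (by omega)]

theorem apP_cons_succ (y : ℕ) (Y : List ℕ) (p w t1 t2 q : ℕ) {l : ℕ} (hl : 1 ≤ l) :
    apP (y :: Y) p w t1 t2 q (l + 1) = (apP Y p w t1 t2 q l).map (insert y) := by
  unfold apP
  simp only [List.length_cons]
  by_cases h1 : l = Y.length + 3
  · subst h1
    rw [if_pos rfl, if_pos (by omega)]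
    simp only [List.map_cons, List.map_nil, List.toFinset_cons, List.cons.injEq, and_true]
    constructor
    · ext x; simp only [Finset.mem_insert]; tauto
    · ext x; simp only [Finset.mem_insert]; tauto
  · rw [if_neg h1, if_neg (by omega)]
    by_cases h2 : 1 ≤ l ∧ l ≤ Y.length + 1 ∧ (l + Y.length) % 2 = 1
    · rw [if_pos h2, if_pos (by omega)]
      obtain ⟨l, rfl⟩ : ∃ l', l = l' + 1 := ⟨l - 1, by omega⟩
      simp only [Nat.add_sub_cancel, fl_cons_succ, List.map_cons, List.map_nil,
        List.cons.injEq, and_true]
      constructor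
      · ext x; simp only [Finset.mem_insert]; tauto
      · ext x; simp only [Finset.mem_insert]; tauto
    · rw [if_neg h2, if_neg (by omega)]
      rfl

theorem card_fl_le (σ : List ℕ) (k : ℕ) : (fl σ k).card ≤ k := by
  unfold fl
  exact (List.toFinset_card_le _).trans (by rw [List.length_take]; omega)

theorem apP_top {Y : List ℕ} {p w t1 t2 q : ℕ} {l : ℕ} {x : Finset ℕ}
    (hx : x ∈ apP Y p w t1 t2 q l) (hc : x.card = l + 1) :
    (l = Y.length + 3 ∧ x = insert q (p :: t1 :: t2 :: Y).toFinset) ∨
    (1 ≤ l ∧ l ≤ Y.length + 1 ∧ (l + Y.length) % 2 = 1 ∧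
      x = insert w (insert p (fl Y (l - 1)))) := by
  unfold apP at hx
  split_ifs at hx with h1 h2
  · simp only [List.mem_cons, List.not_mem_nil, or_false] at hx
    rcases hx with rfl | rfl
    · exfalso
      have := List.toFinset_card_le (p :: t1 :: t2 :: Y)
      simp only [List.length_cons] at this
      omega
    · exact Or.inl ⟨h1, rfl⟩
  · simp only [List.mem_cons, List.not_mem_nil, or_false] at hx
    rcases hx with rfl | rfl
    · exfalso
      have := Finset.card_insert_le p (fl Y (l - 1))
      have := card_fl_le Y (l - 1)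
      omega
    · exact Or.inr ⟨h2.1, h2.2.1, h2.2.2, rfl⟩
  · simp at hx

theorem cp_preA_apP (y : ℕ) (Y : List ℕ) (p w t1 t2 q : ℕ) (h : Y.length % 2 = 1) :
    cp y (preA w p) (apP Y p w t1 t2 q) = apP (y :: Y) p w t1 t2 q := by
  funext l
  cases l with
  | zero => rw [cp_zero, apP_zero]; simp [preA]
  | succ l =>
    rw [cp_succ]
    cases l with
    | zero =>
      rw [apP_zero]
      unfold apP preA
      simp only [List.length_cons]
      rw [if_pos trivial, if_neg (by omega), if_pos (by omega)]
      simp
    | succ l =>
      rw [apP_cons_succ _ _ _ _ _ _ _ (by omega)]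
      unfold preA
      rw [if_neg (by omega), List.nil_append]

theorem cp_nil_apP (y : ℕ) (Y : List ℕ) (p w t1 t2 q : ℕ) (h : Y.length % 2 = 0) :
    cp y (fun _ => []) (apP Y p w t1 t2 q) = apP (y :: Y) p w t1 t2 q := by
  funext l
  cases l with
  | zero => rw [cp_zero, apP_zero]
  | succ l =>
    rw [cp_succ, List.nil_append]
    cases l with
    | zero =>
      rw [apP_zero]
      unfold apP
      simp only [List.length_cons]
      rw [if_neg (by omega), if_neg (by omega)]
      simp
    | succ l =>
      rw [apP_cons_succ _ _ _ _ _ _ _ (by omega)]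

theorem erase_second {S : Finset ℕ} {w X : ℕ} (h1 : w ≠ X) (h2 : X ∉ S) :
    (insert w (insert X S)).erase X = insert w S := by
  rw [Finset.erase_insert_of_ne h1, Finset.erase_insert h2]

theorem erase_first {S : Finset ℕ} {w X : ℕ} (h1 : w ≠ X) (h2 : w ∉ S) :
    (insert w (insert X S)).erase w = insert X S := by
  rw [Finset.erase_insert]
  simp only [Finset.mem_insert, not_or]
  exact ⟨h1, h2⟩

theorem cp_nil_nil (y : ℕ) : cp y (fun _ => []) (fun _ => []) = fun _ => [] := by
  funext l
  cases l <;> simp

theorem AP_even (t1 t2 p w R1 X q : ℕ) (ρ : List ℕ) (hq : q = w ∨ q = X) (y y2 y3 : ℕ)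
    (Y : List ℕ) (hY : 1 ≤ Y.length) (hev : Y.length % 2 = 1)
    (nd : (y :: y2 :: y3 :: (Y ++ [t1, t2, p, w, R1, X])).Nodup)
    (ih : ∃ m, AB ([R1, y3] ++ Y ++ [t1, t2, X, p, w, y2]) (y2 :: y3 :: Y ++ ρ)
      (apP (y2 :: y3 :: Y) p w t1 t2 q) m) :
    ∃ m, AB ([w, X, p, y2, y3] ++ Y ++ [t1, t2, R1, y]) (y :: y2 :: y3 :: Y ++ ρ)
      (apP (y :: y2 :: y3 :: Y) p w t1 t2 q) m := by
  obtain ⟨mU, hU⟩ := ih
  have hy3t2 : y3 ≠ t2 := by
    have : [y3, t2].Nodup := by (rw [List.nodup_iff_count_le_one]; intro xq; have hxq := List.nodup_iff_count_le_one.1 nd xq; simp only [List.count_append, List.count_cons, List.count_nil, List.cons_append, List.nil_append, List.append_assoc] at hxq ⊢; omega)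
    simpa using this
  have hy3w : y3 ≠ w := by
    have : [y3, w].Nodup := by (rw [List.nodup_iff_count_le_one]; intro xq; have hxq := List.nodup_iff_count_le_one.1 nd xq; simp only [List.count_append, List.count_cons, List.count_nil, List.cons_append, List.nil_append, List.append_assoc] at hxq ⊢; omega)
    simpa using this
  have hy3X : y3 ≠ X := by
    have : [y3, X].Nodup := by (rw [List.nodup_iff_count_le_one]; intro xq; have hxq := List.nodup_iff_count_le_one.1 nd xq; simp only [List.count_append, List.count_cons, List.count_nil, List.cons_append, List.nil_append, List.append_assoc] at hxq ⊢; omega)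
    simpa using this
  have hwX : w ≠ X := by
    have : [w, X].Nodup := by (rw [List.nodup_iff_count_le_one]; intro xq; have hxq := List.nodup_iff_count_le_one.1 nd xq; simp only [List.count_append, List.count_cons, List.count_nil, List.cons_append, List.nil_append, List.append_assoc] at hxq ⊢; omega)
    simpa using this
  have hwn : w ∉ p :: t1 :: t2 :: y2 :: y3 :: Y := by
    have : (w :: (p :: t1 :: t2 :: y2 :: y3 :: Y)).Nodup := by (rw [List.nodup_iff_count_le_one]; intro xq; have hxq := List.nodup_iff_count_le_one.1 nd xq; simp only [List.count_append, List.count_cons, List.count_nil, List.cons_append, List.nil_append, List.append_assoc] at hxq ⊢; omega)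
    exact (List.nodup_cons.1 this).1
  have hXn : X ∉ p :: t1 :: t2 :: y2 :: y3 :: Y := by
    have : (X :: (p :: t1 :: t2 :: y2 :: y3 :: Y)).Nodup := by (rw [List.nodup_iff_count_le_one]; intro xq; have hxq := List.nodup_iff_count_le_one.1 nd xq; simp only [List.count_append, List.count_cons, List.count_nil, List.cons_append, List.nil_append, List.append_assoc] at hxq ⊢; omega)
    exact (List.nodup_cons.1 this).1
  have hyσ : y ∉ w :: X :: p :: y2 :: y3 :: (Y ++ [t1, t2, R1]) := by
    have : (y :: (w :: X :: p :: y2 :: y3 :: (Y ++ [t1, t2, R1]))).Nodup := by (rw [List.nodup_iff_count_le_one]; intro xq; have hxq := List.nodup_iff_count_le_one.1 nd xq; simp only [List.count_append, List.count_cons, List.count_nil, List.cons_append, List.nil_append, List.append_assoc] at hxq ⊢; omega)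
    exact (List.nodup_cons.1 this).1
  obtain ⟨mL, hL⟩ := A_exists w X p (y2 :: y3 :: (Y ++ [t1, t2, R1]))
    ([R1, y3] ++ Y ++ [t1, t2, X, p, w, y2]) (by simp; omega)
    (by (rw [List.nodup_iff_count_le_one]; intro xq; have hxq := List.nodup_iff_count_le_one.1 nd xq; simp only [List.count_append, List.count_cons, List.count_nil, List.cons_append, List.nil_append, List.append_assoc] at hxq ⊢; omega)) (by (rw [List.perm_iff_count]; intro xq; simp only [List.count_append, List.count_cons, List.count_nil, List.cons_append, List.nil_append, List.append_assoc]; omega)) (by simp [List.getLast?_cons])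
    (by
      have e1 : (y2 :: y3 :: (Y ++ [t1, t2, R1])).length - 2 = Y.length + 3 := by simp
      rw [e1]
      simp only [List.cons_append, List.nil_append, List.getElem?_cons_succ,
        List.getElem?_cons_zero]
      rw [List.getElem?_append_right (by omega)]
      simpa using hy3t2)
  have key := hL.ab.comp hU (z := y) hyσ ?_ ?_
  · rw [cp_preA_apP _ _ _ _ _ _ _ (by simp; omega)] at key
    refine ⟨cp y mL mU, ?_⟩
    · convert key using 1
      · simp
      · simp
  · intro l
    cases l with
    | zero => right; exact apP_zero _ _ _ _ _ _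
    | succ l => left; unfold preA; rw [if_neg (by omega)]
  · intro l x hx hc
    have hK := hL.K R1 y3 (Y ++ [t1, t2, X, p, w, y2]) (by simp) hy3w hy3X
    rcases apP_top hx hc with ⟨h1, h2⟩ | ⟨h1, h2, h3, h4⟩
    · simp only [List.length_cons] at h1
      have hK' := hK (Y.length + 7) (by omega) (by simp)
      have e : fl (w :: X :: p :: (y2 :: y3 :: (Y ++ [t1, t2, R1]))) (Y.length + 7) =
          insert w (insert X ((p :: t1 :: t2 :: y2 :: y3 :: Y).toFinset)) := by
        have : w :: X :: p :: (y2 :: y3 :: (Y ++ [t1, t2, R1])) =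
          (w :: X :: p :: y2 :: y3 :: (Y ++ [t1, t2])) ++ [R1] := by simp
        rw [this, fl_append_left (by simp), fl_of_le (by simp)]
        ext a; simp only [List.mem_toFinset, List.mem_cons, List.mem_append, List.not_mem_nil,
          Finset.mem_insert]; tauto
      rw [e] at hK'
      have h5 : Early (preA w p) mL x := by
        rw [h2]
        rcases hq with rfl | rfl
        · rw [erase_second hwX (by rwa [List.mem_toFinset])] at hK'
          exact hK'.2
        · rw [erase_first hwX (by rwa [List.mem_toFinset])] at hK'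
          exact hK'.1
      unfold Early at h5
      rwa [hc] at h5
    · simp only [List.length_cons] at h2 h3
      have hK' := (hK (l + 2) (by omega) (by simp; omega)).2
      have h5 : Early (preA w p) mL x := by
        rw [h4]
        obtain ⟨l, rfl⟩ : ∃ l', l = l' + 1 := ⟨l - 1, by omega⟩
        have e : w :: X :: p :: (y2 :: y3 :: (Y ++ [t1, t2, R1])) =
          (w :: X :: p :: (y2 :: y3 :: Y)) ++ [t1, t2, R1] := by simp
        rw [e, fl_append_left (by simp; omega)] at hK'
        rw [show l + 1 + 2 = l + 3 from rfl, fl_cons_succ, fl_cons_succ, fl_cons_succ] at hK'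
        rw [erase_second hwX ?_] at hK'
        · exact hK'
        · intro h
          apply hXn
          rw [Finset.mem_insert] at h
          rcases h with h | h
          · rw [h]; simp
          · have := List.mem_toFinset.1 (fl_subset _ _ h)
            simp only [List.mem_cons] at this ⊢
            tauto
      unfold Early at h5
      rwa [hc] at h5

theorem AP_odd (t1 t2 p w R1 X q : ℕ) (ρ : List ℕ) (hq : q = w ∨ q = X) (y y2 c : ℕ)
    (Y κ0 : List ℕ) (hY : 3 ≤ Y.length) (hodd : Y.length % 2 = 1)
    (nd : (y :: y2 :: (Y ++ [t1, t2, p, w, R1, X])).Nodup)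
    (hκ : (κ0 ++ [c, p, w, y]).Perm (y :: y2 :: (Y ++ [t1, t2, p, w, R1, X]))) (hc : c ≠ y2)
    (ih : ∃ m, AB ([w, X, p] ++ Y ++ [t1, t2, R1, y2]) (y2 :: Y ++ ρ)
      (apP (y2 :: Y) p w t1 t2 q) m) :
    ∃ m, AB (κ0 ++ [c, p, w, y]) (y :: y2 :: Y ++ ρ) (apP (y :: y2 :: Y) p w t1 t2 q) m := by
  obtain ⟨mU, hU⟩ := ih
  have ndσ : (κ0 ++ [c, p, w, y]).Nodup := hκ.nodup_iff.2 nd
  have hlen : κ0.length = Y.length + 4 := by
    have := hκ.length_eq
    simp at this
    omega
  have hcount := List.perm_iff_count.1 hκ
  have hperm1 : (p :: y2 :: (Y ++ [t1, t2, R1, X])).Perm (κ0 ++ [c, p]) := by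
    rw [List.perm_iff_count]
    intro x
    have := hcount x
    simp only [List.count_append, List.count_cons, List.count_nil] at this ⊢
    omega
  have hpR1 : p ≠ R1 := by
    have : [p, R1].Nodup := by (rw [List.nodup_iff_count_le_one]; intro xq; have hxq := List.nodup_iff_count_le_one.1 nd xq; simp only [List.count_append, List.count_cons, List.count_nil, List.cons_append, List.nil_append, List.append_assoc] at hxq ⊢; omega)
    simpa using this
  have hXR1 : X ≠ R1 := by
    have : [X, R1].Nodup := by (rw [List.nodup_iff_count_le_one]; intro xq; have hxq := List.nodup_iff_count_le_one.1 nd xq; simp only [List.count_append, List.count_cons, List.count_nil, List.cons_append, List.nil_append, List.append_assoc] at hxq ⊢; omega)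
    simpa using this
  have hwn : w ∉ p :: y2 :: (Y ++ [t1, t2, R1, X]) := by
    have : (w :: (p :: y2 :: (Y ++ [t1, t2, R1, X]))).Nodup := by (rw [List.nodup_iff_count_le_one]; intro xq; have hxq := List.nodup_iff_count_le_one.1 nd xq; simp only [List.count_append, List.count_cons, List.count_nil, List.cons_append, List.nil_append, List.append_assoc] at hxq ⊢; omega)
    exact (List.nodup_cons.1 this).1
  have hyn : y ∉ κ0 ++ [c, p] ++ [w] := by
    have : (y :: (κ0 ++ [c, p] ++ [w])).Nodup := by (rw [List.nodup_iff_count_le_one]; intro xq; have hxq := List.nodup_iff_count_le_one.1 ndσ xq; simp only [List.count_append, List.count_cons, List.count_nil, List.cons_append, List.nil_append, List.append_assoc] at hxq ⊢; omega)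
    exact (List.nodup_cons.1 this).1
  obtain ⟨m1, h1⟩ := F_exists (κ0 ++ [c, p]) (p :: y2 :: (Y ++ [t1, t2, R1, X]))
    (by simp; omega) (by (rw [List.nodup_iff_count_le_one]; intro xq; have hxq := List.nodup_iff_count_le_one.1 ndσ xq; simp only [List.count_append, List.count_cons, List.count_nil, List.cons_append, List.nil_append, List.append_assoc] at hxq ⊢; omega)) hperm1 (by simp)
    (by
      have e1 : (κ0 ++ [c, p]).length - 2 = κ0.length := by simp
      rw [e1, List.getElem?_append_right (by omega)]
      simpa using hc.symm)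
  obtain ⟨m2, h2⟩ := F_exists (p :: y2 :: (Y ++ [t1, t2, R1, X]))
    (X :: p :: (Y ++ [t1, t2, R1, y2]))
    (by simp; omega) (by (rw [List.nodup_iff_count_le_one]; intro xq; have hxq := List.nodup_iff_count_le_one.1 nd xq; simp only [List.count_append, List.count_cons, List.count_nil, List.cons_append, List.nil_append, List.append_assoc] at hxq ⊢; omega)) (by (rw [List.perm_iff_count]; intro xq; simp only [List.count_append, List.count_cons, List.count_nil, List.cons_append, List.nil_append, List.append_assoc]; omega)) (by simp [List.getLast?_cons])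
    (by
      have e1 : (p :: y2 :: (Y ++ [t1, t2, R1, X])).length - 2 = Y.length + 4 := by simp
      rw [e1]
      simp only [List.getElem?_cons_succ, List.getElem?_cons_zero]
      rw [List.getElem?_append_right (by omega)]
      simpa using hpR1)
  have hwσ : w ∉ κ0 ++ [c, p] := fun h => hwn (hperm1.mem_iff.2 h)
  have hL := h1.ab.comp h2.ab (z := w) hwσ (fun l => Or.inl rfl) (fun l x hx => by simp at hx)
  rw [cp_nil_nil] at hL
  have hL' : AB (κ0 ++ [c, p] ++ [w]) ([w, X, p] ++ Y ++ [t1, t2, R1, y2])
      (fun _ => []) (cp w m1 m2) := by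
    convert hL using 1
    simp
  have key := hL'.comp hU (z := y) hyn (fun l => Or.inl rfl) ?_
  · rw [cp_nil_apP _ _ _ _ _ _ _ (by simp; omega)] at key
    refine ⟨cp y (cp w m1 m2) mU, ?_⟩
    · convert key using 1
      · simp
      · simp
  · intro l x hx hcx
    have h5 : Early (fun _ => []) (cp w m1 m2) x := by
      rcases apP_top hx hcx with ⟨h3, h4⟩ | ⟨h3, h4, h5, h6⟩
      · simp only [List.length_cons] at h3
        rw [h4]
        rcases hq with rfl | rfl
        · have e := h2.ab.early_head (k := Y.length + 4) (by omega) (by simp)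
          have e2 : fl (p :: y2 :: (Y ++ [t1, t2, R1, X])) (Y.length + 4) =
              (p :: t1 :: t2 :: y2 :: Y).toFinset := by
            have : p :: y2 :: (Y ++ [t1, t2, R1, X]) =
              (p :: y2 :: (Y ++ [t1, t2])) ++ [R1, X] := by simp
            rw [this, fl_append_left (by simp), fl_of_le (by simp)]
            ext a; simp only [List.mem_toFinset, List.mem_cons, List.mem_append,
              List.not_mem_nil]; tauto
          rw [e2] at e
          have e3 := early_comp_right (pL := fun _ => []) (mL := m1) (z := q) ?_ e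
          · rw [cp_nil_nil] at e3
            exact e3
          · intro h
            apply hwn
            simp only [List.mem_toFinset, List.mem_cons, List.mem_append] at h ⊢
            tauto
        · have hR1σ : R1 ∈ κ0 ++ [c, p] := hperm1.mem_iff.1 (by simp)
          have e := h1.ab.early_erase rfl (x := R1) hR1σ (by
            simpa [List.getLast?_cons] using hXR1)
          have e3 := early_comp_left (pU := fun _ => []) (mU := m2) (z := w) e
          rw [cp_nil_nil] at e3
          convert e3 using 1
          have : (κ0 ++ [c, p]).toFinset = (p :: y2 :: (Y ++ [t1, t2, R1, q])).toFinset :=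
            (List.toFinset_eq_of_perm _ _ hperm1).symm
          rw [this]
          have hn : (R1 :: (p :: y2 :: (Y ++ [t1, t2, q]))).Nodup := by (rw [List.nodup_iff_count_le_one]; intro xq; have hxq := List.nodup_iff_count_le_one.1 nd xq; simp only [List.count_append, List.count_cons, List.count_nil, List.cons_append, List.nil_append, List.append_assoc] at hxq ⊢; omega)
          have hn' := (List.nodup_cons.1 hn).1
          have e4 : (p :: y2 :: (Y ++ [t1, t2, R1, q])).toFinset =
              insert R1 (p :: y2 :: (Y ++ [t1, t2, q])).toFinset := by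
            ext a
            simp only [Finset.mem_insert, List.mem_toFinset, List.mem_cons,
              List.mem_append, List.not_mem_nil, or_false]
            tauto
          rw [e4, Finset.erase_insert (by rwa [List.mem_toFinset])]
          ext a
          simp only [Finset.mem_insert, List.mem_toFinset, List.mem_cons,
            List.mem_append, List.not_mem_nil, or_false]
          tauto
      · simp only [List.length_cons] at h4 h5
        rw [h6]
        have e := h2.ab.early_head (k := l) (by omega) (by simp; omega)
        have e2 : fl (p :: y2 :: (Y ++ [t1, t2, R1, X])) l =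
            insert p (fl (y2 :: Y) (l - 1)) := by
          have : p :: y2 :: (Y ++ [t1, t2, R1, X]) =
            (p :: (y2 :: Y)) ++ [t1, t2, R1, X] := by simp
          rw [this, fl_append_left (by simp; omega)]
          obtain ⟨l, rfl⟩ : ∃ l', l = l' + 1 := ⟨l - 1, by omega⟩
          simp only [Nat.add_sub_cancel]
          rw [fl_cons_succ]
        have hw2 : w ∉ fl (p :: y2 :: (Y ++ [t1, t2, R1, X])) l := fun h =>
          hwn (List.mem_toFinset.1 (fl_subset _ _ h))
        have e3 := early_comp_right (pL := fun _ => []) (mL := m1) (z := w) hw2 e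
        rw [cp_nil_nil, e2] at e3
        exact e3
    unfold Early at h5
    rwa [hcx] at h5

/-- The general form for odd length `≥ 5`. -/
theorem AP_exists (t1 t2 p w R1 X q : ℕ) (ρ : List ℕ) (hq : q = w ∨ q = X)
    (hbase : ∀ y1 y2 y3, [y1, y2, y3, t1, t2, p, w, R1, X].Nodup →
      ∃ m, AB [R1, y2, y3, t1, t2, X, p, w, y1] ([y1, y2, y3] ++ ρ)
        (apP [y1, y2, y3] p w t1 t2 q) m)
    (y y2 c : ℕ) (Y κ0 : List ℕ) (hY : 3 ≤ Y.length) (hodd : Y.length % 2 = 1)
    (nd : (y :: y2 :: (Y ++ [t1, t2, p, w, R1, X])).Nodup)
    (hκ : (κ0 ++ [c, p, w, y]).Perm (y :: y2 :: (Y ++ [t1, t2, p, w, R1, X]))) (hc : c ≠ y2) :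
    ∃ m, AB (κ0 ++ [c, p, w, y]) (y :: y2 :: Y ++ ρ) (apP (y :: y2 :: Y) p w t1 t2 q) m := by
  obtain ⟨n, hn⟩ : ∃ n, Y.length = n := ⟨_, rfl⟩
  induction n using Nat.strong_induction_on generalizing y y2 c Y κ0 with
  | _ n IH =>
    subst hn
    obtain ⟨Y1, Y2, Y', rfl⟩ : ∃ Y1 Y2 Y', Y = Y1 :: Y2 :: Y' := by
      match Y, hY with
      | Y1 :: Y2 :: Y', _ => exact ⟨Y1, Y2, Y', rfl⟩
    simp only [List.length_cons] at hY hodd
    refine AP_odd t1 t2 p w R1 X q ρ hq y y2 c _ κ0 (by simpa using hY) (by simpa using hodd)
      nd hκ hc ?_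
    refine AP_even t1 t2 p w R1 X q ρ hq y2 Y1 Y2 Y' (by omega) (by omega) ?_ ?_
    · (rw [List.nodup_iff_count_le_one]; intro xq; have hxq := List.nodup_iff_count_le_one.1 nd xq; simp only [List.count_append, List.count_cons, List.count_nil, List.cons_append, List.nil_append, List.append_assoc] at hxq ⊢; omega)
    · rcases Nat.lt_or_ge Y'.length 3 with h3 | h3
      · have h1 : Y'.length = 1 := by omega
        obtain ⟨Y3, rfl⟩ := List.length_eq_one_iff.1 h1
        exact hbase Y1 Y2 Y3 (by (rw [List.nodup_iff_count_le_one]; intro xq; have hxq := List.nodup_iff_count_le_one.1 nd xq; simp only [List.count_append, List.count_cons, List.count_nil, List.cons_append, List.nil_append, List.append_assoc] at hxq ⊢; omega))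
      · have hX : X ≠ Y2 := by
          have : [X, Y2].Nodup := by (rw [List.nodup_iff_count_le_one]; intro xq; have hxq := List.nodup_iff_count_le_one.1 nd xq; simp only [List.count_append, List.count_cons, List.count_nil, List.cons_append, List.nil_append, List.append_assoc] at hxq ⊢; omega)
          simpa using this
        have := IH Y'.length (by simp) Y1 Y2 X Y' (R1 :: Y2 :: (Y' ++ [t1, t2])) h3 (by omega)
          (by (rw [List.nodup_iff_count_le_one]; intro xq; have hxq := List.nodup_iff_count_le_one.1 nd xq; simp only [List.count_append, List.count_cons, List.count_nil, List.cons_append, List.nil_append, List.append_assoc] at hxq ⊢; omega)) (by (rw [List.perm_iff_count]; intro xq; simp only [List.count_append, List.count_cons, List.count_nil, List.cons_append, List.nil_append, List.append_assoc]; omega)) hX rfl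
        obtain ⟨m, hm⟩ := this
        refine ⟨m, ?_⟩
        convert hm using 1
        simp

end Pool.Agent.Lib.MP_bec39b_co
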