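import Pool.Agent.Lib.MP_bec39b_co.FLemma

set_option autoImplicit false

namespace Pool.Agent.Lib.MP_bec39b_co

/-- All visited sets of a system are different. -/
theorem Sys.nodup_m {N : Finset ℕ} {p m : ℕ → List (Finset ℕ)} (h : Sys N p m) :
    (m 0).Nodup := by
  classical
  set A : List (Finset ℕ) := (List.range (N.card + 1)).flatMap (fun l => p l ++ m l) with hA
  have hlen : A.length = 2 ^ N.card := by
    rw [hA, List.length_flatMap, ← h.len]
    simp only [List.length_append]
    rfl
  have hsub : N.powerset ⊆ A.toFinset := by
    intro x hx
    rw [Finset.mem_powerset] at hx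
    obtain ⟨k, hk, hx'⟩ := h.comp N.card x hx (Finset.card_le_card hx)
    rw [List.mem_toFinset, hA, List.mem_flatMap]
    exact ⟨k, List.mem_range.2 hk, List.mem_append.2 hx'⟩
  have hcard : A.toFinset.card = A.length := by
    refine le_antisymm (List.toFinset_card_le A) ?_
    rw [hlen, ← Finset.card_powerset]
    exact Finset.card_le_card hsub
  have hnd : A.Nodup := by
    have : (A : Multiset (Finset ℕ)).Nodup := by
      rw [← Multiset.toFinset_card_eq_card_iff_nodup]
      exact hcard
    exact Multiset.coe_nodup.1 this
  rw [hA, List.nodup_flatMap] at hnd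
  exact (List.nodup_append.1 (hnd.1 0 (List.mem_range.2 (by omega)))).2.1

theorem m0_eq {a : ℕ} {σ τ : List ℕ} {m : ℕ → List (Finset ℕ)}
    (h : AB (a :: σ) τ (fun _ => []) m) : m 0 = [{a}, ∅] := by
  have hnd := h.sys.nodup_m
  have h1 := h.hd 0 (by simp)
  have h2 := h.lt 0 (by simp)
  have h3 := h.sys.okm 0
  cases hm : m 0 with
  | nil => rw [hm] at h1; simp at h1
  | cons x L =>
    rw [hm] at h1 h2 h3 hnd
    have hx : x = {a} := by simpa using h1
    subst hx
    have hV : (vis (fun _ => []) m 0 ∪ {x | x ∈ (fun _ => ([] : List (Finset ℕ))) 0} :
        Set (Finset ℕ)) = ∅ := by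
      ext y
      simp only [Set.mem_union, Set.mem_ofPred_eq, List.not_mem_nil, or_false,
        Set.mem_empty_iff_false, iff_false]
      rintro ⟨k, hk, _⟩
      omega
    rw [hV, Ok_cons] at h3
    have h4 := h3.1 a (by simp)
    rcases h4 with h4 | h4
    · exact absurd h4 (by simp)
    · cases L with
      | nil => simp at h4
      | cons y L =>
        have hy : y = ∅ := by simpa using h4
        subst hy
        cases L with
        | nil => rfl
        | cons z L =>
          exfalso
          rw [List.getLast?_cons_cons, List.getLast?_cons_cons] at h2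
          have h5 : ∅ ∈ z :: L := List.mem_of_mem_getLast? (by rw [h2]; rfl)
          rw [List.nodup_cons, List.nodup_cons] at hnd
          exact hnd.2.1 h5

theorem fl_rot (a b c : ℕ) (σ' : List ℕ) (k : ℕ) :
    fl (c :: a :: b :: σ') (k + 3) = fl (a :: b :: c :: σ') (k + 3) := by
  simp only [fl_cons_succ]
  ext x
  simp only [Finset.mem_insert]
  tauto

theorem toFinset_rot (a b c : ℕ) (σ' : List ℕ) :
    (c :: a :: b :: σ').toFinset = (a :: b :: c :: σ').toFinset := by
  ext x
  simp only [List.toFinset_cons, Finset.mem_insert]
  tauto

/-- The main segments of the system of type `A`. -/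
def mA (a : ℕ) (m0 : ℕ → List (Finset ℕ)) : ℕ → List (Finset ℕ)
  | 0 => [{a}, ∅]
  | 1 => (m0 1).drop 2
  | l + 2 => m0 (l + 2)

theorem A_of_FS (a b c : ℕ) (σ' τ : List ℕ) (m0 : ℕ → List (Finset ℕ)) (hl : 2 ≤ σ'.length)
    (h : FS (c :: a :: b :: σ') τ m0) : ∃ m, AS a b c σ' τ m := by
  have hab := h.ab
  have hnd := hab.nd
  have hac : a ≠ c := by
    rintro rfl; simp at hnd
  have hbc : b ≠ c := by
    rintro rfl; simp at hnd
  have hab' : a ≠ b := by
    rintro rfl; simp at hnd
  have hm0 : m0 0 = [{c}, ∅] := m0_eq hab
  obtain ⟨r, hm1⟩ := h.m1 c a b σ' rfl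
  have hdrop : (m0 1).drop 2 = {a, b} :: {b} :: r := by rw [hm1]; rfl
  have hperm : (a :: b :: c :: σ').Perm (c :: a :: b :: σ') := by
    refine List.Perm.symm ?_
    exact (List.Perm.swap a c (b :: σ')).trans (List.Perm.cons a (List.Perm.swap b c σ'))
  have hnd' : (a :: b :: c :: σ').Nodup := hperm.nodup_iff.2 hnd
  have hN : (c :: a :: b :: σ').toFinset = (a :: b :: c :: σ').toFinset := toFinset_rot a b c σ'
  have hcard : (c :: a :: b :: σ').toFinset.card = σ'.length + 3 := by
    rw [List.toFinset_card_of_nodup hnd]; rfl
  -- visited sets
  have hvis2 : vis (preA a c) (mA a m0) 2 = vis (fun _ => []) m0 2 := by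
    rw [vis_succ, vis_succ, vis_succ, vis_succ]
    ext x
    simp only [Set.mem_union, Set.mem_ofPred_eq, mA, preA, hm0, hm1, List.drop_succ_cons,
      List.drop_zero]
    have e0 : ∀ p m : ℕ → List (Finset ℕ), x ∉ vis p m 0 := by
      rintro p m ⟨k, hk, _⟩; omega
    simp only [e0, false_or, List.not_mem_nil, if_true, List.mem_cons, or_false,
      show ((0 : ℕ) = 1) = False by simp, if_false]
    rw [Finset.pair_comm c a]
    tauto
  have hvis : ∀ l, 2 ≤ l → vis (preA a c) (mA a m0) l = vis (fun _ => []) m0 l := by
    intro l hl2
    induction l, hl2 using Nat.le_induction with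
    | base => exact hvis2
    | succ l hl2 ih =>
      rw [vis_succ, vis_succ, ih]
      obtain ⟨k, rfl⟩ : ∃ k, l = k + 2 := ⟨l - 2, by omega⟩
      have e : preA a c (k + 2) = [] := by
        rw [preA, if_neg (by omega)]
      rw [e]
      rfl
  have hpre : ∀ l, 2 ≤ l → preA a c l = [] := by
    intro l hl2
    rw [preA, if_neg (by omega)]
  have hmA : ∀ l, 2 ≤ l → mA a m0 l = m0 l := by
    intro l hl2
    obtain ⟨k, rfl⟩ : ∃ k, l = k + 2 := ⟨l - 2, by omega⟩
    rfl
  have hp1 : preA a c 1 = [{c}, {a, c}] := rfl
  have hp0 : preA a c 0 = [] := rfl
  have hearly : ∀ x : Finset ℕ, 2 ≤ x.card → Early (fun _ => []) m0 x →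
      Early (preA a c) (mA a m0) x := by
    intro x hx hE
    unfold Early at *
    rw [hvis _ hx]
    exact hE
  have hV0 : ∀ p m : ℕ → List (Finset ℕ), vis p m 0 = ∅ := by
    intro p m
    ext x
    simp only [Set.mem_empty_iff_false, iff_false]
    rintro ⟨k, hk, _⟩
    omega
  refine ⟨mA a m0, ?_, ?_, ?_⟩
  · refine ⟨?_, hnd', ?_, by simp, ?_, ?_, ?_, ?_, ?_, rfl⟩
    · -- the system
      rw [← hN]
      refine ⟨?_, ?_, ?_, ?_, ?_, ?_⟩
      · intro l
        rcases Nat.lt_or_ge l 2 with hl2 | hl2
        · interval_cases l
          · trivial
          · rw [hp1, Ok_cons, Ok_cons]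
            have hmem : ∀ y : Finset ℕ, y = {a} ∨ y = ∅ → y ∈ vis (preA a c) (mA a m0) 1 := by
              intro y hy
              refine ⟨0, by omega, Or.inr ?_⟩
              rcases hy with rfl | rfl <;> simp [mA]
            refine ⟨?_, ?_, ?_, ?_, trivial⟩
            · intro d hd
              rw [Finset.mem_singleton] at hd
              subst hd
              left
              apply hmem
              right
              simp
            · intro y hy
              simp only [nx_cons, Option.some.injEq] at hy
              subst hy
              exact Or.inl ⟨a, by simpa using hac, rfl⟩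
            · intro d hd
              left
              rw [Finset.mem_insert, Finset.mem_singleton] at hd
              rcases hd with rfl | rfl
              · left
                rw [Finset.erase_insert (by simpa using hac)]
              · right
                apply hmem
                left
                ext x
                simp only [Finset.mem_erase, Finset.mem_insert, Finset.mem_singleton]
                constructor
                · rintro ⟨h1, h2 | h2⟩
                  · exact h2
                  · exact absurd h2 h1
                · rintro rfl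
                  exact ⟨hac, Or.inl rfl⟩
            · intro y hy
              simp at hy
        · rw [hpre l hl2]; trivial
      · intro l
        rcases Nat.lt_or_ge l 2 with hl2 | hl2
        · interval_cases l
          · show Ok _ [{a}, ∅] none
            rw [Ok_cons, Ok_cons]
            refine ⟨?_, ?_, ?_, ?_, trivial⟩
            · intro d hd
              rw [Finset.mem_singleton] at hd
              subst hd
              right
              simp
            · intro y hy
              simp only [nx_cons, Option.some.injEq] at hy
              subst hy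
              exact Or.inr ⟨a, by simp, by simp⟩
            · intro d hd
              simp at hd
            · intro y hy
              simp at hy
          · show Ok _ ((m0 1).drop 2) none
            rw [hdrop]
            have h1 := hab.sys.okm 1
            rw [hm1, Ok_cons, Ok_cons] at h1
            refine Ok.mono h1.2.2.2.2 ?_
            intro x hx
            have hx' : x = {a} ∨ x = {c, a} ∨ x ∈ m0 0 := by
              rcases hx with hx | hx | hx | hx
              · exact Or.inl hx
              · exact Or.inr (Or.inl hx)
              · obtain ⟨k, hk, hx⟩ := hx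
                interval_cases k
                simp only [List.not_mem_nil, false_or] at hx
                exact Or.inr (Or.inr hx)
              · simp at hx
            rcases hx' with rfl | rfl | hx'
            · left
              exact ⟨0, by omega, Or.inr (by simp [mA])⟩
            · right
              show _ ∈ preA a c 1
              rw [hp1, Finset.pair_comm c a]
              simp
            · rw [hm0] at hx'
              simp only [List.mem_cons, List.not_mem_nil, or_false] at hx'
              rcases hx' with rfl | rfl
              · right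
                show _ ∈ preA a c 1
                rw [hp1]
                simp
              · left
                exact ⟨0, by omega, Or.inr (by simp [mA])⟩
        · rw [hpre l hl2, hmA l hl2, hvis l hl2]
          exact hab.sys.okm l
      · intro l x hx
        rcases Nat.lt_or_ge l 2 with hl2 | hl2
        · interval_cases l
          · rw [hp0] at hx
            simp only [List.not_mem_nil, false_or, mA, List.mem_cons, or_false] at hx
            rcases hx with rfl | rfl
            · simp
            · simp
          · rcases hx with hx | hx
            · rw [hp1] at hx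
              simp only [List.mem_cons, List.not_mem_nil, or_false] at hx
              rcases hx with rfl | rfl
              · simp
              · refine ⟨?_, Finset.card_le_two⟩
                intro d hd
                rw [Finset.mem_insert, Finset.mem_singleton] at hd
                rcases hd with rfl | rfl <;> simp
            · exact hab.sys.sub 1 x (Or.inr (List.mem_of_mem_drop hx))
        · rw [hpre l hl2, hmA l hl2] at hx
          exact hab.sys.sub l x hx
      · intro l x hx hc
        rcases Nat.eq_zero_or_pos l with rfl | hl0
        · have hx0 : x = ∅ := by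
            rw [← Finset.card_eq_zero]; omega
          subst hx0
          exact ⟨0, by omega, Or.inr (by simp [mA])⟩
        · rw [hvis (l + 1) (by omega)]
          exact hab.sys.comp l x hx hc
      · intro l hl2
        rw [hcard] at hl2
        rw [hpre l (by omega), hmA l (by omega)]
        exact hab.sys.fin l (by rw [hcard]; exact hl2)
      · have hlen := hab.sys.len
        rw [hcard] at hlen ⊢
        have hs : ∀ f : ℕ → ℕ, ∑ l ∈ Finset.range (σ'.length + 3 + 1), f l =
            (∑ l ∈ Finset.range (σ'.length + 2), f (l + 2)) + f 1 + f 0 := by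
          intro f
          rw [show σ'.length + 3 + 1 = (σ'.length + 2 + 1) + 1 by ring, Finset.sum_range_succ',
            Finset.sum_range_succ']
        rw [hs] at hlen ⊢
        have e2 : ∀ l, (preA a c (l + 2)).length + (mA a m0 (l + 2)).length =
            ((fun _ => []) (l + 2) : List (Finset ℕ)).length + (m0 (l + 2)).length := by
          intro l
          rw [hpre (l + 2) (by omega), hmA (l + 2) (by omega)]
        simp only [e2]
        rw [hm0, hm1] at hlen
        have e1 : (mA a m0 1).length = r.length + 2 := by
          show ((m0 1).drop 2).length = _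
          rw [hdrop]; rfl
        rw [hp0, hp1, e1]
        simp only [List.length_cons, List.length_nil, mA] at hlen ⊢
        omega
    · exact hab.perm.trans hperm.symm
    · intro l hl2
      simp only [List.length_cons] at hl2
      rcases Nat.lt_or_ge l 2 with hl3 | hl3
      · interval_cases l
        · rfl
        · show ((m0 1).drop 2).head? = _
          rw [hdrop]
          simp [fl]
      · rw [hmA l hl3, hab.hd l (by simp only [List.length_cons]; omega)]
        obtain ⟨k, rfl⟩ : ∃ k, l = k + 2 := ⟨l - 2, by omega⟩
        rw [show k + 2 + 1 = k + 3 by ring, fl_rot]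
    · intro l hl2
      simp only [List.length_cons] at hl2
      rcases Nat.lt_or_ge l 2 with hl3 | hl3
      · interval_cases l
        · rfl
        · show ((m0 1).drop 2).getLast? = _
          have h1 := hab.lt 1 (by simp)
          rw [← h1, hdrop, hm1]
          simp only [List.getLast?_cons_cons]
      · rw [hmA l hl3, hab.lt l (by simp only [List.length_cons]; omega)]
    · have h1 := hab.top
      simp only [List.length_cons, Nat.add_sub_cancel] at h1 ⊢
      rw [hmA _ (by omega), h1, show σ'.length + 1 + 1 + 1 = σ'.length + 3 by ring, fl_rot]
    · simp only [List.length_cons]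
      exact hpre _ (by omega)
    · have h1 := hab.endm
      simp only [List.length_cons] at h1 ⊢
      rw [hmA _ (by omega), h1]
  · -- ek
    intro i hi hi2 t ht x hx hxt
    have hx' : x ∈ c :: a :: b :: σ' := hperm.mem_iff.1 hx
    have h1 := h.ek i hi ?_ t ht x hx' hxt
    · rw [hN] at h1
      refine hearly _ ?_ h1
      have h2 := Finset.pred_card_le_card_erase (s := (a :: b :: c :: σ').toFinset) (a := t)
      have h3 := Finset.pred_card_le_card_erase (s := (a :: b :: c :: σ').toFinset.erase t)
        (a := x)
      rw [← hN, hcard] at h2
      rw [← hN] at h3 ⊢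
      omega
    · intro h2
      have := hi2 h2
      have e : (c :: a :: b :: σ')[(c :: a :: b :: σ').length - 2]? = σ'[σ'.length - 2]? := by
        obtain ⟨k, hk⟩ : ∃ k, σ'.length = k + 2 := ⟨σ'.length - 2, by omega⟩
        simp only [List.length_cons]
        rw [hk, show k + 2 + 1 + 1 + 1 - 2 = k + 1 + 1 + 1 by omega, Nat.add_sub_cancel,
          List.getElem?_cons_succ, List.getElem?_cons_succ, List.getElem?_cons_succ]
      rw [e]
      exact this
  · -- K
    intro t1 t2 τ' hτ h2a h2b k hk1 hk2
    have h1 := h.K c a b σ' t1 t2 τ' rfl hτ h2a h2b k hk1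
      (by simp only [List.length_cons]; omega)
    obtain ⟨j, rfl⟩ : ∃ j, k = j + 3 := ⟨k - 3, by omega⟩
    rw [fl_rot] at h1
    have hc : (fl (a :: b :: c :: σ') (j + 3)).card = j + 3 :=
      card_fl hnd' (by simp only [List.length_cons]; omega)
    refine ⟨hearly _ ?_ h1.1, hearly _ ?_ h1.2⟩
    · have := Finset.pred_card_le_card_erase (s := fl (a :: b :: c :: σ') (j + 3)) (a := a)
      omega
    · have := Finset.pred_card_le_card_erase (s := fl (a :: b :: c :: σ') (j + 3)) (a := b)
      omega

theorem A_exists (a b c : ℕ) (σ' τ : List ℕ) (hn : 6 ≤ σ'.length)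
    (nd : (a :: b :: c :: σ').Nodup) (hp : τ.Perm (a :: b :: c :: σ'))
    (h1 : τ.head? = σ'.getLast?) (h2 : τ[1]? ≠ σ'[σ'.length - 2]?) : ∃ m, AS a b c σ' τ m := by
  have hperm : (a :: b :: c :: σ').Perm (c :: a :: b :: σ') := by
    refine List.Perm.symm ?_
    exact (List.Perm.swap a c (b :: σ')).trans (List.Perm.cons a (List.Perm.swap b c σ'))
  have e1 : τ.head? = (c :: a :: b :: σ').getLast? := by
    rw [h1]
    cases σ' with
    | nil => simp at hn
    | cons x L => simp only [List.getLast?_cons_cons]
  have e2 : τ[1]? ≠ (c :: a :: b :: σ')[(c :: a :: b :: σ').length - 2]? := by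
    have e : (c :: a :: b :: σ')[(c :: a :: b :: σ').length - 2]? = σ'[σ'.length - 2]? := by
      obtain ⟨k, hk⟩ : ∃ k, σ'.length = k + 2 := ⟨σ'.length - 2, by omega⟩
      simp only [List.length_cons]
      rw [hk, show k + 2 + 1 + 1 + 1 - 2 = k + 1 + 1 + 1 by omega, Nat.add_sub_cancel,
        List.getElem?_cons_succ, List.getElem?_cons_succ, List.getElem?_cons_succ]
    rw [e]
    exact h2
  obtain ⟨m0, hm0⟩ := F_exists (c :: a :: b :: σ') τ (by simp only [List.length_cons]; omega)
    (hperm.nodup_iff.1 nd) (hp.trans hperm) e1 e2
  exact A_of_FS a b c σ' τ m0 (by omega) hm0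

end Pool.Agent.Lib.MP_bec39b_co
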