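import Pool.Agent.Lib.MP_bec39b_co.Defs

set_option autoImplicit false

namespace Pool.Agent.Lib.MP_bec39b_co

/-- The concatenation of the phases before `k`. -/
def cat (m : ℕ → List (Finset ℕ)) : ℕ → List (Finset ℕ)
  | 0 => []
  | k + 1 => cat m k ++ m k

theorem mem_cat (m : ℕ → List (Finset ℕ)) (k : ℕ) (x : Finset ℕ) :
    x ∈ cat m k ↔ x ∈ vis (fun _ => []) m k := by
  induction k with
  | zero => simp [cat, vis]
  | succ k ih =>
    rw [cat, List.mem_append, ih, vis_succ]
    simp

theorem length_cat (m : ℕ → List (Finset ℕ)) (k : ℕ) :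
    (cat m k).length = ∑ l ∈ Finset.range k, (([] : List (Finset ℕ)).length + (m l).length) := by
  induction k with
  | zero => simp [cat]
  | succ k ih =>
    rw [cat, List.length_append, ih, Finset.sum_range_succ]
    simp

theorem getLast?_cat (m : ℕ → List (Finset ℕ)) (k : ℕ) (x : Finset ℕ)
    (h : (m k).getLast? = some x) : (cat m (k + 1)).getLast? = some x := by
  rw [cat, List.getLast?_append, h]; rfl

theorem sys_nodup {N : Finset ℕ} {m : ℕ → List (Finset ℕ)} (hS : Sys N (fun _ => []) m) :
    (cat m (N.card + 1)).Nodup := by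
  have h1 : (cat m (N.card + 1)).length = 2 ^ N.card := by
    rw [length_cat]; exact hS.len
  have h2 : N.powerset ⊆ (cat m (N.card + 1)).toFinset := by
    intro x hx
    rw [List.mem_toFinset, mem_cat]
    rw [Finset.mem_powerset] at hx
    exact hS.comp _ x hx (Finset.card_le_card hx)
  have h3 := Finset.card_le_card h2
  rw [Finset.card_powerset] at h3
  have h4 := List.toFinset_card_le (cat m (N.card + 1))
  have h5 : ((cat m (N.card + 1) : List (Finset ℕ)) : Multiset (Finset ℕ)).toFinset.card =
      Multiset.card ((cat m (N.card + 1) : List (Finset ℕ)) : Multiset (Finset ℕ)) := by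
    have : (cat m (N.card + 1)).toFinset.card = (cat m (N.card + 1)).length := by omega
    exact this
  exact Multiset.coe_nodup.1 (Multiset.toFinset_card_eq_card_iff_nodup.1 h5)

theorem nodup_phase {m : ℕ → List (Finset ℕ)} {K : ℕ} (h : (cat m K).Nodup) {l : ℕ}
    (hl : l < K) : (m l).Nodup := by
  induction K with
  | zero => omega
  | succ K ih =>
    rw [cat] at h
    have h1 := List.nodup_append.1 h
    rcases Nat.lt_succ_iff_lt_or_eq.1 hl with h2 | rfl
    · exact ih h1.1 h2
    · exact h1.2.1

theorem listing_of_sys {M : Finset ℕ} {m : ℕ → List (Finset ℕ)} (hS : Sys M (fun _ => []) m)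
    (h0 : m 0 = [∅]) (hlink : ∀ k y, (m (k + 1)).head? = some y →
      ∃ x, (m k).getLast? = some x ∧ Adj x y) : Listing M := by
  have hok : ∀ k, Ok ∅ (cat m k) none := by
    intro k
    induction k with
    | zero => trivial
    | succ k ih =>
      rw [cat, Ok_append]
      constructor
      · refine ih.exit ?_
        intro x y hx hy
        have hy' : (m k).head? = some y := by
          cases hm : m k with
          | nil => rw [hm] at hy; simp at hy
          | cons y' B => rw [hm] at hy; simpa using hy
        cases k with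
        | zero => simp [cat] at hx
        | succ k =>
          obtain ⟨x', h1, h2⟩ := hlink k y hy'
          rw [getLast?_cat m k x' h1] at hx
          simp only [Option.some.injEq] at hx
          rw [← hx]; exact h2
      · refine (hS.okm k).mono ?_
        rintro x (hx | hx)
        · right
          exact (mem_cat m k x).2 hx
        · simp at hx
  refine ⟨cat m (M.card + 1), ?_, hok _, ?_, ?_⟩
  · have : ∀ k, (cat m (k + 1)).head? = some ∅ := by
      intro k
      induction k with
      | zero => simp [cat, h0]
      | succ k ih => rw [cat, List.head?_append, ih]; rfl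
    exact this _
  · rw [length_cat]; exact hS.len
  · intro x hx
    rw [mem_cat]
    exact hS.comp _ x hx (Finset.card_le_card hx)

section
variable {N : Finset ℕ} {p m : ℕ → List (Finset ℕ)}

/-- moving the first segment of a phase with empty second segment -/
def mvp (n : ℕ) (p : ℕ → List (Finset ℕ)) : ℕ → List (Finset ℕ) := fun l =>
  if l = n then [] else p l

/-- see `mvp` -/
def mvm (n : ℕ) (p m : ℕ → List (Finset ℕ)) : ℕ → List (Finset ℕ) := fun l =>
  if l = n then p l else m l

theorem Sys.mv (hS : Sys N p m) {n : ℕ} (hn : m n = []) : Sys N (mvp n p) (mvm n p m) := by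
  have hmem : ∀ l x, (x ∈ mvp n p l ∨ x ∈ mvm n p m l) ↔ (x ∈ p l ∨ x ∈ m l) := by
    intro l x
    unfold mvp mvm
    by_cases h : l = n
    · subst h; simp [hn]
    · simp [h]
  have hvis : ∀ l, vis (mvp n p) (mvm n p m) l = vis p m l := by
    intro l
    ext x
    constructor
    · rintro ⟨k, hk, hx⟩; exact ⟨k, hk, (hmem k x).1 hx⟩
    · rintro ⟨k, hk, hx⟩; exact ⟨k, hk, (hmem k x).2 hx⟩
  refine ⟨?_, ?_, ?_, ?_, ?_, ?_⟩
  · intro l
    rw [hvis]
    unfold mvp
    split_ifs with h
    · trivial
    · exact hS.okp l
  · intro l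
    rw [hvis]
    by_cases h : l = n
    · subst h
      have e1 : mvp l p l = [] := by simp [mvp]
      have e2 : mvm l p m l = p l := by simp [mvm]
      rw [e1, e2]
      refine (hS.okp l).mono (fun x hx => Or.inl hx)
    · have e1 : mvp n p l = p l := by simp [mvp, h]
      have e2 : mvm n p m l = m l := by simp [mvm, h]
      rw [e1, e2]
      exact hS.okm l
  · intro l x hx
    exact hS.sub l x ((hmem l x).1 hx)
  · intro l x hx hc
    rw [hvis]
    exact hS.comp l x hx hc
  · intro l hl
    obtain ⟨h1, h2⟩ := hS.fin l hl
    unfold mvp mvm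
    split_ifs <;> simp [h1, h2]
  · rw [← hS.len]
    apply Finset.sum_congr rfl
    intro l _
    unfold mvp mvm
    by_cases h : l = n
    · subst h; simp [hn]
    · simp [h]

end

theorem card_toFinset_insert {E : List ℕ} {z : ℕ} (hnd : E.Nodup) (hz : z ∉ E) :
    (insert z E.toFinset).card = E.length + 1 := by
  rw [Finset.card_insert_of_notMem (by simpa using hz), List.toFinset_card_of_nodup hnd]

theorem listing_Q1 {E : List ℕ} {G g : ℕ → Finset ℕ} {mB pQ mQ : ℕ → List (Finset ℕ)} {z : ℕ}
    (hB : BB E G mB) (hQ : Q1 E g pQ mQ) (hz : z ∉ E) (hev : E.length % 2 = 0)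
    (hg : ∀ l, 1 ≤ l → l + 1 < E.length → G (l + 1) = g l) :
    Listing (insert z E.toFinset) := by
  have hzN : z ∉ E.toFinset := by simpa using hz
  have hcardE : E.toFinset.card = E.length := List.toFinset_card_of_nodup hB.nd
  have h6 := hB.len
  obtain ⟨n, hn⟩ : ∃ n, E.length = n + 1 := ⟨E.length - 1, by omega⟩
  have hmtop := hQ.mtop
  have hBtop := hB.even_top hev
  rw [hn] at hmtop hBtop
  simp only [Nat.add_sub_cancel] at hmtop
  have hBend : ∀ l, n + 1 ≤ l → mB l = [] := by
    intro l hl
    rcases Nat.eq_or_lt_of_le hl with rfl | hl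
    · exact hBtop
    · exact (hB.sys.fin l (by omega)).2
  have hQend : ∀ l, n + 1 ≤ l → pQ l = [] ∧ mQ l = [] := by
    intro l hl
    rcases Nat.eq_or_lt_of_le hl with rfl | hl
    · rw [← hn]; exact ⟨hQ.endp, hQ.endm⟩
    · exact hQ.sys.fin l (by omega)
  have hU := hQ.sys.mv hmtop
  set pU := mvp n pQ with hpU
  set mU := mvm n pQ mQ with hmU
  have hpUn : pU n = [] := by simp [hpU, mvp]
  have hmUn : mU n = pQ n := by simp [hmU, mvm]
  have hpUl : ∀ l, l ≠ n → pU l = pQ l := fun l hl => by simp [hpU, mvp, hl]
  have hmUl : ∀ l, l ≠ n → mU l = mQ l := fun l hl => by simp [hmU, mvm, hl]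
  have hsys : Sys (insert z E.toFinset) (fun _ => []) (c2 z mB pU mU) := by
    refine Sys.comp2 hB.sys hU hzN ?_ ?_
    · intro l
      by_cases hl0 : l = 0
      · left; subst hl0; rw [hpUl 0 (by omega), hQ.p0]
      · by_cases hln : l < n
        · right
          obtain ⟨f, e, h1, h2, -, -⟩ := hQ.pp l (by omega) (by omega)
          refine ⟨[f], g l, by rw [hpUl l (by omega), h1]; rfl, ?_, ?_⟩
          · rw [hB.hd (l + 1) (by omega) (by omega), hg l (by omega) (by omega)]
          · intro x hx hc
            simp only [List.mem_singleton] at hx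
            subst hx; omega
        · left
          by_cases hl : l = n
          · subst hl; exact hpUn
          · rw [hpUl l hl, (hQend l (by omega)).1]
    · intro l x y hx hy
      by_cases hl : l < n
      · rw [hB.lt (l + 1) (by omega) (by omega)] at hx
        rw [hmUl l (by omega), hQ.hd l (by omega)] at hy
        simp only [Option.some.injEq] at hx hy
        rw [← hx, ← hy]
      · rw [hBend (l + 1) (by omega)] at hx
        simp at hx
  refine listing_of_sys hsys (by rw [c2_zero, hB.m0]) ?_
  intro k y hy
  -- the last elements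
  have hlast : ∀ l, l + 1 ≤ n → ∃ e, (mQ l).getLast? = some e ∧
      (c2 z mB pU mU (l + 1)).getLast? = some (insert z e) ∧ ∀ f rest,
        pQ (l + 1) = f :: rest → (∃ e' f' g', pQ (l + 1) = [f', g'] ∧
          (mQ l).getLast? = some e' ∧ Adj e' f') → z ∉ f → z ∉ e → Adj (insert z e) (insert z f) := by
    intro l hl
    obtain ⟨f, e, h1, h2, h3, h4⟩ := hQ.pp (l + 1) (by omega) (by omega)
    simp only [Nat.add_sub_cancel] at h3
    refine ⟨e, h3, ?_, ?_⟩
    · rw [c2_succ, hmUl l (by omega), List.getLast?_append, List.getLast?_append,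
        List.getLast?_map, h3]
      rfl
    · rintro f0 rest hf ⟨e', f', g', h5, h6, h7⟩ hzf hze
      rw [h6] at h3
      simp only [Option.some.injEq] at h3
      rw [h5] at hf
      simp only [List.cons.injEq] at hf
      rw [← hf.1, ← h3]
      refine h7.insert ?_ ?_
      · rw [h3]; exact hze
      · rw [hf.1]; exact hzf
  have hzQ : ∀ l x, x ∈ pQ l ∨ x ∈ mQ l → z ∉ x := fun l x hx =>
    notMem_of_sub hQ.sys hzN hx
  rcases Nat.eq_zero_or_pos k with rfl | hk
  · -- from phase 0 to phase 1
    refine ⟨∅, by rw [c2_zero, hB.m0]; rfl, ?_⟩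
    obtain ⟨x, hx⟩ := hB.m1
    rw [c2_succ, hpUl 0 (by omega), hQ.p0, List.map_nil, List.nil_append, List.head?_append, hx]
      at hy
    simp only [Option.some_or, Option.some.injEq] at hy
    rw [← hy]
    exact Or.inl ⟨x, by simp, by simp⟩
  · obtain ⟨l, rfl⟩ : ∃ l, k = l + 1 := ⟨k - 1, by omega⟩
    by_cases hl : l + 1 ≤ n
    · obtain ⟨e, he1, he2, -⟩ := hlast l hl
      obtain ⟨f, e', h1, h2, h3, h4⟩ := hQ.pp (l + 1) (by omega) (by omega)
      simp only [Nat.add_sub_cancel] at h3
      rw [he1] at h3
      simp only [Option.some.injEq] at h3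
      subst h3
      refine ⟨_, he2, ?_⟩
      -- the head of the next phase
      have hhead : (c2 z mB pU mU (l + 1 + 1)).head? = some (insert z f) := by
        by_cases hl2 : l + 1 = n
        · rw [c2_succ, hl2, hpUn, hmUn, hBend (n + 1) le_rfl, ← hl2, h1]
          rfl
        · rw [c2_succ, hpUl (l + 1) hl2, h1]
          rfl
      rw [hhead] at hy
      simp only [Option.some.injEq] at hy
      rw [← hy]
      refine h4.insert ?_ ?_
      · exact hzQ l e (Or.inr (List.mem_of_mem_getLast? (by rw [he1]; rfl)))
      · exact hzQ (l + 1) f (Or.inl (by rw [h1]; simp))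
    · -- beyond the last phase
      exfalso
      have e1 : c2 z mB pU mU (l + 1 + 1) = [] := by
        rw [c2_succ, hpUl (l + 1) (by omega), hmUl (l + 1) (by omega),
          (hQend (l + 1) (by omega)).1, (hQend (l + 1) (by omega)).2, hBend _ (by omega)]
        rfl
      rw [e1] at hy
      simp at hy

theorem listing_Q3 {E : List ℕ} {G g : ℕ → Finset ℕ} {mB pQ mQ : ℕ → List (Finset ℕ)} {z : ℕ}
    (hB : BB E G mB) (hQ : Q3 E g pQ mQ) (hz : z ∉ E) (hodd : E.length % 2 = 1)
    (hg : ∀ l, 1 ≤ l → l + 2 < E.length → G (l + 1) = g l) :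
    Listing (insert z E.toFinset) := by
  have hzN : z ∉ E.toFinset := by simpa using hz
  have hcardE : E.toFinset.card = E.length := List.toFinset_card_of_nodup hB.nd
  have h6 := hB.len
  obtain ⟨n, hn⟩ : ∃ n, E.length = n + 3 := ⟨E.length - 3, by omega⟩
  obtain ⟨hBtop, hG⟩ := hB.odd_top hodd
  obtain ⟨A, B0, e0, hA, hB0, he0, hadj0, hA2⟩ := hQ.plong
  have hm2 := hQ.m2
  have hp1 := hQ.p1
  obtain ⟨y0, hy0⟩ := hQ.mtop
  have e1 : E.length - 1 = n + 2 := by omega
  have e2 : E.length - 2 = n + 1 := by omega
  have e3 : E.length - 3 = n := by omega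
  rw [e1] at hG hA hp1 hy0
  rw [e2] at hA hB0 hm2
  rw [e3] at he0
  rw [hn] at hBtop
  have hBend : ∀ l, n + 4 ≤ l → mB l = [] := by
    intro l hl
    exact (hB.sys.fin l (by omega)).2
  have hQend : ∀ l, n + 3 ≤ l → pQ l = [] ∧ mQ l = [] := by
    intro l hl
    rcases Nat.eq_or_lt_of_le hl with rfl | hl
    · rw [← hn]; exact ⟨hQ.endp, hQ.endm⟩
    · exact hQ.sys.fin l (by omega)
  -- phase n + 2 of `B` consists of one set
  have hBn2 : mB (n + 2) = [fl E (n + 2)] := by
    have hh := hB.hd (n + 2) (by omega) (by omega)
    have hl := hB.lt (n + 2) (by omega) (by omega)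
    rw [hG] at hh
    have hnd : (mB (n + 2)).Nodup := nodup_phase (sys_nodup hB.sys) (by rw [hcardE]; omega)
    cases hm : mB (n + 2) with
    | nil => rw [hm] at hh; simp at hh
    | cons x L =>
      rw [hm] at hh hl hnd
      simp only [List.head?_cons, Option.some.injEq] at hh
      subst hh
      cases L with
      | nil => rfl
      | cons x' L =>
        exfalso
        have h7 : fl E (n + 2) ∈ (x' :: L) := by
          rw [List.getLast?_cons_cons] at hl
          exact List.mem_of_mem_getLast? (by rw [hl]; rfl)
        exact (List.nodup_cons.1 hnd).1 h7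
  have hsys : Sys (insert z E.toFinset) (fun _ => []) (c2 z mB pQ mQ) := by
    refine Sys.comp2 hB.sys hQ.sys hzN ?_ ?_
    · intro l
      by_cases hl0 : l = 0
      · left; subst hl0; exact hQ.p0
      · by_cases hl1 : l < n + 1
        · right
          obtain ⟨f, e, h1, h2, -, -⟩ := hQ.pp l (by omega) (by omega)
          refine ⟨[f], g l, by rw [h1]; rfl, ?_, ?_⟩
          · rw [hB.hd (l + 1) (by omega) (by omega), hg l (by omega) (by omega)]
          · intro x hx hc
            simp only [List.mem_singleton] at hx
            subst hx; omega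
        · by_cases hl2 : l = n + 1
          · subst hl2
            right
            refine ⟨A, fl E (n + 2), hA, ?_, ?_⟩
            · rw [hBn2]; rfl
            · intro x hx hc
              have h7 := hQ.sys.sub (n + 1) x (Or.inl (by rw [hA]; simp [hx]))
              have h8 := hB.sys.comp (n + 1 + 1) x h7.1 (by omega)
              rw [vis_succ] at h8
              rcases h8 with (h8 | h8) | h8
              · exact h8
              · simp at h8
              · exfalso
                rw [hBn2] at h8
                simp only [Set.mem_ofPred_eq, List.mem_singleton] at h8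
                exact hA2 x hx (by rw [h8, e1])
          · left
            by_cases hl3 : l = n + 2
            · subst hl3; exact hp1
            · exact (hQend l (by omega)).1
    · intro l x y hx hy
      by_cases hl : l < n + 1
      · rw [hB.lt (l + 1) (by omega) (by omega)] at hx
        rw [hQ.hd l (by omega)] at hy
        simp only [Option.some.injEq] at hx hy
        rw [← hx, ← hy]
      · by_cases hl2 : l = n + 1
        · subst hl2; rw [hm2] at hy; simp at hy
        · by_cases hl3 : l = n + 2
          · subst hl3
            rw [hBtop] at hx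
            rw [hy0] at hy
            simp only [List.getLast?_singleton, Option.some.injEq, List.head?_cons] at hx hy
            rw [← hx, ← hy]
          · rw [(hQend l (by omega)).2] at hy; simp at hy
  refine listing_of_sys hsys (by rw [c2_zero, hB.m0]) ?_
  intro k y hy
  have hzQ : ∀ l x, x ∈ pQ l ∨ x ∈ mQ l → z ∉ x := fun l x hx =>
    notMem_of_sub hQ.sys hzN hx
  rcases Nat.eq_zero_or_pos k with rfl | hk
  · -- from phase 0 to phase 1
    refine ⟨∅, by rw [c2_zero, hB.m0]; rfl, ?_⟩
    obtain ⟨x, hx⟩ := hB.m1
    rw [c2_succ, hQ.p0, List.map_nil, List.nil_append, List.head?_append, hx] at hy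
    simp only [Option.some_or, Option.some.injEq] at hy
    rw [← hy]
    exact Or.inl ⟨x, by simp, by simp⟩
  · obtain ⟨l, rfl⟩ : ∃ l, k = l + 1 := ⟨k - 1, by omega⟩
    by_cases hl : l + 1 < n + 2
    · -- the next phase starts with the additional segment
      have key : ∃ f rest e, pQ (l + 1) = f :: rest ∧ (mQ l).getLast? = some e ∧ Adj e f := by
        by_cases hl1 : l + 1 < n + 1
        · obtain ⟨f, e', h1, h2, h3, h4⟩ := hQ.pp (l + 1) (by omega) (by omega)
          exact ⟨f, [g (l + 1)], e', h1, h3, h4⟩
        · have hl2 : l = n := by omega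
          subst hl2
          cases hp : pQ (l + 1) with
          | nil => rw [hp] at hB0; simp at hB0
          | cons f rest =>
            rw [hp] at hB0
            simp only [List.head?_cons, Option.some.injEq] at hB0
            exact ⟨f, rest, e0, rfl, he0, by rw [hB0]; exact hadj0⟩
      obtain ⟨f, rest, e, h1, h2, h3⟩ := key
      refine ⟨insert z e, ?_, ?_⟩
      · rw [c2_succ, List.getLast?_append, List.getLast?_append, List.getLast?_map, h2]
        rfl
      · rw [c2_succ, h1] at hy
        simp only [List.map_cons, List.cons_append, List.head?_cons, Option.some.injEq] at hy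
        rw [← hy]
        refine h3.insert ?_ ?_
        · exact hzQ l e (Or.inr (List.mem_of_mem_getLast? (by rw [h2]; rfl)))
        · exact hzQ (l + 1) f (Or.inl (by rw [h1]; simp))
    · by_cases hl2 : l = n + 1
      · -- from phase n + 2 to phase n + 3
        subst hl2
        refine ⟨fl E (n + 2), ?_, ?_⟩
        · rw [c2_succ, hm2, hBn2]
          simp
        · rw [c2_succ, hp1, hBtop] at hy
          simp only [List.map_nil, List.nil_append, List.cons_append, List.head?_cons,
            Option.some.injEq] at hy
          rw [← hy]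
          have hne : E ≠ [] := by
            intro h; rw [h] at hn; simp at hn
          have hsplit := List.dropLast_append_getLast hne
          have hdl : E.dropLast = E.take (n + 2) := by
            rw [List.dropLast_eq_take, e1]
          left
          refine ⟨E.getLast hne, ?_, ?_⟩
          · rw [fl, ← hdl, List.mem_toFinset]
            have hnd := hB.nd
            rw [← hsplit] at hnd
            exact fun h => (List.nodup_append.1 hnd).2.2 _ h _ (by simp) rfl
          · rw [fl, ← hdl]
            nth_rewrite 1 [← hsplit]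
            rw [List.toFinset_append]
            ext a; simp
      · exfalso
        have e5 : c2 z mB pQ mQ (l + 1 + 1) = [] := by
          rw [c2_succ, (hQend (l + 1) (by omega)).1, (hQend (l + 1) (by omega)).2,
            hBend _ (by omega)]
          rfl
        rw [e5] at hy
        simp at hy

end Pool.Agent.Lib.MP_bec39b_co
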