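import Pool.Agent.Lib.MP_bec39b_co.Defs

set_option autoImplicit false

namespace Pool.Agent.Lib.MP_bec39b_co

/-- Move the full set of an `AB` system from phase `n - 1` to phase `n`. -/
theorem AB.shift_top {E υ : List ℕ} {pU mU : ℕ → List (Finset ℕ)} (hU : AB E υ pU mU)
    (hp : pU (E.length - 1) = []) :
    Sys E.toFinset pU (fun l => if l = E.length - 1 then [fl υ (E.length - 1)] else
      if l = E.length then [E.toFinset] else mU l) := by
  obtain ⟨n, hn⟩ : ∃ n, E.length = n + 1 := ⟨E.length - 1, by have := hU.len2; omega⟩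
  have hn2 := hU.len2
  have hcard := hU.card
  have htop := hU.top
  have hendp := hU.endp
  have hendm := hU.endm
  have hυlen := hU.tau_length
  have hυnd : υ.Nodup := hU.perm.nodup_iff.2 hU.nd
  rw [hn] at hp htop hendp hendm hcard hυlen
  simp only [Nat.add_sub_cancel] at hp htop
  have hflE : fl E (n + 1) = E.toFinset := fl_of_le (by omega)
  rw [hflE] at htop
  have hvcard : (fl υ n).card = n := card_fl hυnd (by omega)
  have hvsub : fl υ n ⊆ E.toFinset := by
    refine (fl_subset υ n).trans ?_
    rw [List.toFinset_eq_of_perm _ _ hU.perm]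
  simp only [hn, Nat.add_sub_cancel]
  set m' : ℕ → List (Finset ℕ) := fun l => if l = n then [fl υ n] else
      if l = n + 1 then [E.toFinset] else mU l with hm'
  have hm'n : m' n = [fl υ n] := by simp [hm']
  have hm'n1 : m' (n + 1) = [E.toFinset] := by simp [hm']
  have hm'lt : ∀ l, l < n → m' l = mU l := fun l hl => by
    simp only [hm']; rw [if_neg (by omega), if_neg (by omega)]
  have hm'gt : ∀ l, n + 1 < l → m' l = mU l := fun l hl => by
    simp only [hm']; rw [if_neg (by omega), if_neg (by omega)]
  have hvis : ∀ l, l ≤ n → vis pU m' l = vis pU mU l := by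
    intro l hl
    ext x
    constructor
    · rintro ⟨k, hk, hx⟩
      rw [hm'lt k (by omega)] at hx
      exact ⟨k, hk, hx⟩
    · rintro ⟨k, hk, hx⟩
      refine ⟨k, hk, ?_⟩
      rw [hm'lt k (by omega)]
      exact hx
  -- the sets visited before the top
  have hokn := hU.sys.okm n
  rw [htop, hp] at hokn
  obtain ⟨ha, -, hb, -, -⟩ := hokn
  have hN : ∀ a ∈ E.toFinset, E.toFinset.erase a ∈ vis pU mU n ∨
      E.toFinset.erase a = fl υ n := by
    intro a haE
    rcases ha a haE with h | h
    · rcases h with h | h
      · exact Or.inl h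
      · simp at h
    · right
      simpa using h.symm
  have hv : ∀ a ∈ fl υ n, (fl υ n).erase a ∈ vis pU mU n := by
    intro a ha'
    rcases hb a ha' with h | h
    · rcases h with h | h | h
      · have := congrArg Finset.card h
        rw [Finset.card_erase_of_mem ha', hvcard, hcard] at this
        omega
      · exact h
      · simp at h
    · simp at h
  have hvisn1 : vis pU m' (n + 1) = vis pU mU n ∪ {fl υ n} := by
    rw [vis_succ, hvis n le_rfl, hp, hm'n]
    ext x; simp
  refine ⟨?_, ?_, ?_, ?_, ?_, ?_⟩
  · intro l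
    rcases lt_trichotomy l n with h | h | h
    · rw [hvis l h.le]; exact hU.sys.okp l
    · rw [h, hp]; trivial
    · rcases Nat.eq_or_lt_of_le (Nat.succ_le_of_lt h) with h' | h'
      · have : l = n + 1 := by omega
        rw [this, hendp]; trivial
      · rw [(hU.m_eq_nil (by omega : E.length ≤ l)).1]; trivial
  · intro l
    rcases lt_trichotomy l n with h | h | h
    · rw [hvis l h.le, hm'lt l h]; exact hU.sys.okm l
    · rw [h, hp, hm'n, hvis n le_rfl]
      refine ⟨fun a ha' => Or.inl (Or.inl (hv a ha')), fun y hy => by simp at hy, trivial⟩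
    · rcases Nat.eq_or_lt_of_le (Nat.succ_le_of_lt h) with h' | h'
      · have : l = n + 1 := by omega
        rw [this, hendp, hm'n1, hvisn1]
        refine ⟨fun a ha' => Or.inl (Or.inl ?_), fun y hy => by simp at hy, trivial⟩
        rcases hN a ha' with h | h
        · exact Or.inl h
        · exact Or.inr h
      · rw [hm'gt l (by omega), (hU.m_eq_nil (by omega : E.length ≤ l)).2]; trivial
  · intro l x hx
    rcases lt_trichotomy l n with h | h | h
    · rw [hm'lt l h] at hx; exact hU.sys.sub l x hx
    · rw [h, hp, hm'n] at hx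
      simp only [List.not_mem_nil, List.mem_singleton, false_or] at hx
      subst hx
      exact ⟨hvsub, by rw [hvcard]; omega⟩
    · rcases Nat.eq_or_lt_of_le (Nat.succ_le_of_lt h) with h' | h'
      · have : l = n + 1 := by omega
        rw [this, hendp, hm'n1] at hx
        simp only [List.not_mem_nil, List.mem_singleton, false_or] at hx
        subst hx
        exact ⟨Finset.Subset.refl _, by rw [hcard]; omega⟩
      · rw [hm'gt l (by omega), (hU.m_eq_nil (by omega : E.length ≤ l)).1,
          (hU.m_eq_nil (by omega : E.length ≤ l)).2] at hx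
        simp at hx
  · intro l x hx hc
    rcases lt_trichotomy l n with h | h | h
    · rw [hvis (l + 1) (by omega)]; exact hU.sys.comp l x hx hc
    · subst h
      have := hU.sys.comp l x hx hc
      rw [hvisn1]
      rw [vis_succ, hp, htop] at this
      rcases this with (h' | h') | h'
      · exact Or.inl h'
      · simp at h'
      · simp only [Set.mem_ofPred_eq, List.mem_cons, List.not_mem_nil, or_false] at h'
        rcases h' with h' | h'
        · rw [h', hcard] at hc; omega
        · exact Or.inr h'
    · refine vis_mono pU m' (show n + 1 + 1 ≤ l + 1 by omega) ?_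
      rw [vis_succ, hvisn1, hm'n1]
      by_cases hxN : x = E.toFinset
      · right; simp [hxN]
      · left; left
        have hlt : x.card < E.toFinset.card :=
          Finset.card_lt_card (Finset.ssubset_iff_subset_ne.2 ⟨hx, hxN⟩)
        rw [hcard] at hlt
        have := hU.sys.comp n x hx (by omega)
        rw [vis_succ, hp, htop] at this
        rcases this with (h' | h') | h'
        · exact Or.inl h'
        · simp at h'
        · simp only [Set.mem_ofPred_eq, List.mem_cons, List.not_mem_nil, or_false] at h'
          rcases h' with h' | h'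
          · exact absurd h' hxN
          · exact Or.inr h'
  · intro l hl
    rw [hcard] at hl
    rw [hm'gt l hl]
    exact hU.m_eq_nil (by omega)
  · have hlen := hU.sys.len
    rw [hcard] at hlen ⊢
    rw [Finset.sum_range_succ, Finset.sum_range_succ] at hlen ⊢
    rw [hendp, hendm, hp, htop] at hlen
    rw [hendp, hm'n1, hp, hm'n]
    have : ∑ l ∈ Finset.range n, ((pU l).length + (m' l).length) =
        ∑ l ∈ Finset.range n, ((pU l).length + (mU l).length) :=
      Finset.sum_congr rfl (fun l hl => by rw [hm'lt l (Finset.mem_range.1 hl)])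
    rw [this]
    simp only [List.length_nil, List.length_cons, zero_add, Nat.add_zero] at hlen ⊢
    omega

theorem BB_step {E υ : List ℕ} {G G' : ℕ → Finset ℕ} {mL pU mU : ℕ → List (Finset ℕ)} {z : ℕ}
    (hL : BB E G mL) (hU : AB E υ pU mU) (hz : z ∉ E)
    (hp : ∀ l, E.length - 1 ≤ l → pU l = [])
    (hG2 : ∀ a b c E', z :: υ = a :: b :: c :: E' → G' 2 = {a, c})
    (hG : ∀ l, 2 ≤ l → l < E.length → (pU (l - 1) = [] ∧ G' l = G l) ∨
      ∃ f, pU (l - 1) = [f, G l] ∧ f.card = l - 1 ∧ G' l = insert z f)
    (hGn : G' E.length = if E.length % 2 = 0 then fl (z :: υ) E.length else E.toFinset) :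
    ∃ m, BB (z :: υ) G' m := by
  have hzN : z ∉ E.toFinset := by simpa using hz
  have hυE : υ.toFinset = E.toFinset := List.toFinset_eq_of_perm _ _ hU.perm
  have hE6 := hL.len
  have hυlen := hU.tau_length
  have hzυ : (z :: υ).toFinset = insert z E.toFinset := by
    rw [List.toFinset_cons, hυE]
  have hzυlen : (z :: υ).length = E.length + 1 := by simp [hυlen]
  have hnd : (z :: υ).Nodup := by
    rw [List.nodup_cons]
    exact ⟨fun h => hz (hU.perm.mem_iff.1 h), hU.perm.nodup_iff.2 hU.nd⟩
  have hp1 : ∀ l, pU l = [] ∨ ∃ A g, pU l = A ++ [g] ∧ (mL (l + 1)).head? = some g ∧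
      ∀ x ∈ A, x.card = l + 1 → x ∈ vis (fun _ => []) mL (l + 1) := by
    intro l
    rcases Nat.eq_zero_or_pos l with h | h
    · left; rw [h]; exact hU.p0
    · rcases Nat.lt_or_ge (l + 1) E.length with h' | h'
      · rcases hG (l + 1) (by omega) h' with ⟨h1, -⟩ | ⟨f, h1, h2, -⟩
        · left; simpa using h1
        · right
          refine ⟨[f], G (l + 1), by simpa using h1, hL.hd (l + 1) (by omega) h', ?_⟩
          intro x hx hc
          simp only [List.mem_singleton] at hx
          subst hx
          omega
      · left; exact hp l (by omega)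
  have hhd : ∀ (mU' : ℕ → List (Finset ℕ)), ∀ l, 2 ≤ l → l < E.length →
      (c2 z mL pU mU' l).head? = some (G' l) := by
    intro mU' l h2 hl
    obtain ⟨k, rfl⟩ : ∃ k, l = k + 1 := ⟨l - 1, by omega⟩
    rw [c2_succ]
    rcases hG (k + 1) h2 hl with ⟨h1, h3⟩ | ⟨f, h1, -, h3⟩
    · simp only [Nat.add_sub_cancel] at h1
      rw [h1, List.map_nil, List.nil_append, List.head?_append, hL.hd _ h2 hl, h3]
      rfl
    · simp only [Nat.add_sub_cancel] at h1
      rw [h1, h3]
      simp
  have hlast : ∀ (mU' : ℕ → List (Finset ℕ)) (l : ℕ), (mU' l).getLast? = some (fl υ l) →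
      (c2 z mL pU mU' (l + 1)).getLast? = some (fl (z :: υ) (l + 1)) := by
    intro mU' l h
    rw [c2_succ, List.getLast?_append, List.getLast?_append, List.getLast?_map, h]
    simp
  have hj1 : ∀ l x y, l + 1 < E.length → (mL (l + 1)).getLast? = some x →
      (mU l).head? = some y → y = x := by
    intro l x y hl hx hy
    rw [hL.lt (l + 1) (by omega) hl] at hx
    rw [hU.hd l (by omega)] at hy
    simp only [Option.some.injEq] at hx hy
    rw [← hx, ← hy]
  have hmLnil : ∀ l, E.length < l → mL l = [] := fun l hl => (hL.sys.fin l (by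
    rw [List.toFinset_card_of_nodup hL.nd]; exact hl)).2
  have hm1' : ∀ (mU' : ℕ → List (Finset ℕ)), ∃ x, (c2 z mL pU mU' 1).head? = some {x} := by
    intro mU'
    obtain ⟨x, hx⟩ := hL.m1
    refine ⟨x, ?_⟩
    have : c2 z mL pU mU' 1 = (pU 0).map (insert z) ++ (mL 1 ++ (mU' 0).map (insert z)) := rfl
    rw [this, hU.p0, List.map_nil, List.nil_append, List.head?_append, hx]
    rfl
  rcases Nat.mod_two_eq_zero_or_one E.length with hpar | hpar
  · -- even length
    have hev := hL.even_top hpar
    set m' : ℕ → List (Finset ℕ) := fun l => if l = E.length - 1 then [fl υ (E.length - 1)] else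
      if l = E.length then [E.toFinset] else mU l with hm'
    have hsys : Sys E.toFinset pU m' := hU.shift_top (hp _ le_rfl)
    have hm'n : m' (E.length - 1) = [fl υ (E.length - 1)] := by simp [hm']
    have hm'n1 : m' E.length = [E.toFinset] := by
      simp only [hm']; rw [if_neg (by omega)]; simp
    have hm'lt : ∀ l, l < E.length - 1 → m' l = mU l := fun l hl => by
      simp only [hm']; rw [if_neg (by omega), if_neg (by omega)]
    have hn1 : E.length - 1 + 1 = E.length := by omega
    have hcn : c2 z mL pU m' E.length = [fl (z :: υ) E.length] := by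
      obtain ⟨k, hk⟩ : ∃ k, E.length = k + 1 := ⟨E.length - 1, by omega⟩
      have e1 : pU k = [] := hp k (by omega)
      have e2 : m' k = [fl υ k] := by
        have := hm'n; rw [hk] at this; simpa using this
      rw [hk] at hev ⊢
      rw [c2_succ, e1, hev, e2]
      simp
    have hcn1 : c2 z mL pU m' (E.length + 1) = [(z :: υ).toFinset] := by
      rw [c2_succ, hp E.length (by omega), hmLnil _ (by omega), hm'n1, hzυ]
      simp
    refine ⟨c2 z mL pU m', ?_, hnd, by omega, ?_, hm1' _, ?_, ?_, hG2, ?_, ?_⟩
    · rw [hzυ]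
      refine hL.sys.comp2 hsys hzN hp1 ?_
      intro l x y hx hy
      rcases Nat.lt_or_ge (l + 1) E.length with hl | hl
      · rw [hm'lt l (by omega)] at hy
        exact hj1 l x y hl hx hy
      · rcases Nat.eq_or_lt_of_le hl with h | h
        · rw [← h, hev] at hx; simp at hx
        · rw [hmLnil _ h] at hx; simp at hx
    · rw [c2_zero]; exact hL.m0
    · intro l h2 hl
      rcases Nat.lt_or_ge l E.length with h | h
      · exact hhd _ l h2 h
      · have : l = E.length := by omega
        rw [this, hcn, hGn, if_pos hpar]; rfl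
    · intro l h1 hl
      rcases Nat.lt_or_ge l E.length with h | h
      · obtain ⟨k, rfl⟩ : ∃ k, l = k + 1 := ⟨l - 1, by omega⟩
        refine hlast _ k ?_
        rw [hm'lt k (by omega)]
        exact hU.lt k (by omega)
      · have : l = E.length := by omega
        rw [this, hcn]; rfl
    · intro h; rw [hzυlen] at h; omega
    · intro _
      rw [hzυlen]
      refine ⟨hcn1, ?_⟩
      simp only [Nat.add_sub_cancel]
      rw [hGn, if_pos hpar]
  · -- odd length
    obtain ⟨hodd, -⟩ := hL.odd_top hpar
    have hcn : c2 z mL pU mU E.length =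
        [E.toFinset, insert z E.toFinset, fl (z :: υ) E.length] := by
      obtain ⟨k, hk⟩ : ∃ k, E.length = k + 1 := ⟨E.length - 1, by omega⟩
      have e1 : pU k = [] := hp k (by omega)
      have e2 := hU.top
      have e3 : fl E (k + 1) = E.toFinset := fl_of_le (by omega)
      rw [hk] at hodd e2 ⊢
      simp only [Nat.add_sub_cancel] at e2
      rw [c2_succ, e1, hodd, e2, e3]
      simp
    have hcn1 : c2 z mL pU mU (E.length + 1) = [] := by
      rw [c2_succ, hp E.length (by omega), hmLnil _ (by omega), hU.endm]
      rfl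
    refine ⟨c2 z mL pU mU, ?_, hnd, by omega, ?_, hm1' _, ?_, ?_, hG2, ?_, ?_⟩
    · rw [hzυ]
      refine hL.sys.comp2 hU.sys hzN hp1 ?_
      intro l x y hx hy
      rcases Nat.lt_or_ge (l + 1) E.length with hl | hl
      · exact hj1 l x y hl hx hy
      · rcases Nat.eq_or_lt_of_le hl with h | h
        · rw [← h, hodd] at hx
          rw [hU.hd l (by omega), fl_of_le (by omega)] at hy
          simp only [List.getLast?_singleton, Option.some.injEq] at hx hy
          rw [← hx, ← hy]
        · rw [hmLnil _ h] at hx; simp at hx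
    · rw [c2_zero]; exact hL.m0
    · intro l h2 hl
      rcases Nat.lt_or_ge l E.length with h | h
      · exact hhd _ l h2 h
      · have : l = E.length := by omega
        rw [this, hcn, hGn, if_neg (by omega)]; rfl
    · intro l h1 hl
      obtain ⟨k, rfl⟩ : ∃ k, l = k + 1 := ⟨l - 1, by omega⟩
      refine hlast _ k ?_
      exact hU.lt k (by omega)
    · intro _; rw [hzυlen, hcn1]
    · intro h; rw [hzυlen] at h; omega

end Pool.Agent.Lib.MP_bec39b_co
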