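import Pool.Agent.Lib.MP_bec39b_co.Conv1

set_option autoImplicit false

namespace Pool.Agent.Lib.MP_bec39b_co

/-- `G` after the second conversion (split `b`). -/
def GM2 (Y : List ℕ) (y2 w ws wt a b : ℕ) (top top2 : Finset ℕ) : ℕ → Finset ℕ := fun l =>
  if l = 2 then {b, y2}
  else if l ≤ Y.length + 2 then
    (if l % 2 = 0 then insert b (insert a (fl Y (l - 2))) else insert w (insert ws (fl Y (l - 2))))
  else if l = Y.length + 3 then insert w (insert ws (insert wt Y.toFinset))
  else if l = Y.length + 4 then top else top2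

theorem conv2_apP_early {y2 w t1 t2 a y3 : ℕ} {Yr ζ k1 : List ℕ} {mA : ℕ → List (Finset ℕ)}
    (hY : Yr.length % 2 = 1)
    (nd2 : (w :: y2 :: t1 :: t2 :: a :: y3 :: Yr).Nodup)
    (hA : AB (a :: w :: y2 :: (y3 :: (Yr ++ ζ))) k1 (preA a y2) mA)
    (htA : Early (preA a y2) mA (insert w (y2 :: t1 :: t2 :: a :: y3 :: Yr).toFinset))
    (l : ℕ) (x : Finset ℕ) (hx : x ∈ apP (a :: y3 :: Yr) y2 w t1 t2 w l) (hc : x.card = l + 1) :
    x ∈ vis (preA a y2) mA (l + 1) := by
  have nd3 : (y2 :: t1 :: t2 :: a :: y3 :: Yr).Nodup := (List.nodup_cons.1 nd2).2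
  have nd4 : (a :: y3 :: Yr).Nodup := by
    have := nd3
    simp only [List.nodup_cons] at this ⊢
    tauto
  have hy2 : y2 ∉ a :: y3 :: Yr := by
    have := nd3
    simp only [List.nodup_cons, List.mem_cons, not_or] at this ⊢
    tauto
  unfold apP at hx
  split_ifs at hx with h1 h2
  · simp only [List.mem_cons, List.not_mem_nil, or_false] at hx
    rcases hx with rfl | rfl
    · rw [List.toFinset_card_of_nodup nd3] at hc
      simp only [List.length_cons] at hc h1
      omega
    · rw [← hc]
      exact htA
  · simp only [List.mem_cons, List.not_mem_nil, or_false] at hx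
    simp only [List.length_cons] at h2
    obtain ⟨l', rfl⟩ : ∃ l', l = l' + 2 := ⟨l - 2, by omega⟩
    rcases hx with rfl | rfl
    · have h3 : y2 ∉ fl (a :: y3 :: Yr) (l' + 2 - 1) := fun h =>
        hy2 (List.mem_toFinset.1 (fl_subset _ _ h))
      rw [Finset.card_insert_of_notMem h3, card_fl nd4 (by simp only [List.length_cons]; omega)] at hc
      omega
    · have e : insert w (insert y2 (fl (a :: y3 :: Yr) (l' + 2 - 1))) =
          fl (a :: w :: y2 :: (y3 :: (Yr ++ ζ))) (l' + 2 + 1) := by
        have e1 : l' + 2 - 1 = l' + 1 := by omega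
        have e2 : y3 :: (Yr ++ ζ) = (y3 :: Yr) ++ ζ := rfl
        rw [e1, e2, fl_cons_succ, fl_cons_succ, fl_cons_succ, fl_cons_succ,
          fl_append_left (by simp only [List.length_cons]; omega)]
        ext z; simp only [Finset.mem_insert]; tauto
      have h := hA.early_head (k := l' + 2 + 1) (by omega)
        (by simp only [List.length_cons, List.length_append]; omega)
      rw [← e] at h
      rw [← hc]
      exact h
  · simp at hx

theorem conv2_core (y1 y2 y3 : ℕ) (Yr : List ℕ) (t1 t2 w ws wt a b c : ℕ) (ζ k1 υ1 S : List ℕ)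
    (top : Finset ℕ) (mA mW mF mB : ℕ → List (Finset ℕ))
    (hY : Yr.length % 2 = 1) (hζ : ζ.length = 4)
    (nd : (b :: c :: y1 :: a :: w :: y2 :: y3 :: (Yr ++ ζ)).Nodup)
    (nd2 : (y1 :: a :: w :: y2 :: y3 :: (Yr ++ [t1, t2])).Nodup)
    (hA : AB (a :: w :: y2 :: (y3 :: (Yr ++ ζ))) k1 (preA a y2) mA)
    (hW : AB k1 υ1 (apP (a :: y3 :: Yr) y2 w t1 t2 w) mW)
    (htA : Early (preA a y2) mA (insert w (y2 :: t1 :: t2 :: a :: y3 :: Yr).toFinset))
    (hF : AB (y1 :: υ1) (y2 :: S) (fun _ => []) mF)
    (hB : BB (a :: w :: y2 :: y3 :: (Yr ++ (ζ ++ [y1, c])))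
      (GM1 (y1 :: y2 :: y3 :: (Yr ++ [t1, t2])) y2 w ws wt a top) mB) :
    ∃ m, BB (b :: c :: y2 :: S)
      (GM2 (y1 :: y2 :: y3 :: (Yr ++ [t1, t2])) y2 w ws wt a b top (c :: y2 :: S).toFinset) m := by
  have nd3 : (w :: y2 :: t1 :: t2 :: a :: y3 :: Yr).Nodup := by (rw [List.nodup_iff_count_le_one]; intro xq; have hxq := List.nodup_iff_count_le_one.1 nd2 xq; simp only [List.count_append, List.count_cons, List.count_nil, List.cons_append, List.nil_append, List.append_assoc] at hxq ⊢; omega)
  have nd4 : (y1 :: y2 :: t1 :: t2 :: a :: y3 :: Yr).Nodup := by (rw [List.nodup_iff_count_le_one]; intro xq; have hxq := List.nodup_iff_count_le_one.1 nd2 xq; simp only [List.count_append, List.count_cons, List.count_nil, List.cons_append, List.nil_append, List.append_assoc] at hxq ⊢; omega)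
  have nd5 : (y1 :: y2 :: a :: y3 :: Yr).Nodup := by (rw [List.nodup_iff_count_le_one]; intro xq; have hxq := List.nodup_iff_count_le_one.1 nd2 xq; simp only [List.count_append, List.count_cons, List.count_nil, List.cons_append, List.nil_append, List.append_assoc] at hxq ⊢; omega)
  have hL1 : AB ((a :: w :: y2 :: (y3 :: (Yr ++ ζ))) ++ [y1]) (y1 :: υ1)
      (cp y1 (preA a y2) (apP (a :: y3 :: Yr) y2 w t1 t2 w)) (cp y1 mA mW) := by
    refine hA.comp hW ?_ ?_ ?_
    · have := nd
      simp only [List.nodup_cons] at this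
      exact this.2.2.1
    · intro l
      cases l with
      | zero => right; exact hW.p0
      | succ l => left; simp [preA]
    · exact conv2_apP_early hY nd3 hA htA
  have hcz : c ∉ (a :: w :: y2 :: (y3 :: (Yr ++ ζ))) ++ [y1] := by
    have := nd
    simp only [List.nodup_cons, List.mem_cons, List.mem_append, not_or,
      List.not_mem_nil] at this ⊢
    tauto
  have hL2 := hL1.comp hF hcz (fun l => Or.inr rfl) (by simp)
  have eE : (a :: w :: y2 :: (y3 :: (Yr ++ ζ))) ++ [y1] ++ [c] =
      a :: w :: y2 :: y3 :: (Yr ++ (ζ ++ [y1, c])) := by simp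
  rw [eE] at hL2
  have hElen : (a :: w :: y2 :: y3 :: (Yr ++ (ζ ++ [y1, c]))).length = Yr.length + 10 := by
    simp only [List.length_cons, List.length_append, hζ, List.length_nil]
  have hEset : (a :: w :: y2 :: y3 :: (Yr ++ (ζ ++ [y1, c]))).toFinset = (c :: y2 :: S).toFinset :=
    (List.toFinset_eq_of_perm _ _ hL2.perm).symm
  have hbz : b ∉ a :: w :: y2 :: y3 :: (Yr ++ (ζ ++ [y1, c])) := by
    have := nd
    simp only [List.nodup_cons, List.mem_cons, List.mem_append, not_or,
      List.not_mem_nil] at this ⊢
    tauto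
  refine BB_step hB hL2 hbz ?_ ?_ ?_ ?_
  · intro l hl
    rw [hElen] at hl
    obtain ⟨l', rfl⟩ : ∃ l', l = l' + 2 := ⟨l - 2, by omega⟩
    simp only [cp_succ, preA, apP, List.length_cons]
    rw [if_neg (by omega), if_neg (by omega), if_neg (by omega)]
    rfl
  · intro a' b' c' E' h
    simp only [List.cons.injEq] at h
    obtain ⟨rfl, rfl, rfl, rfl⟩ := h
    simp [GM2]
  · intro l hl2 hl
    rw [hElen] at hl
    obtain ⟨l', rfl⟩ : ∃ l', l = l' + 2 := ⟨l - 2, by omega⟩
    have e0 : l' + 2 - 1 = l' + 1 := by omega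
    rw [e0]
    cases l' with
    | zero =>
      right
      refine ⟨{y2}, ?_, by simp, ?_⟩
      · simp only [cp_succ, preA]
        simp [apP, GM1]
      · simp [GM2]
    | succ k =>
      have hpre : cp c (cp y1 (preA a y2) (apP (a :: y3 :: Yr) y2 w t1 t2 w)) (fun _ => [])
          (k + 1 + 1) = (apP (a :: y3 :: Yr) y2 w t1 t2 w (k + 1)).map (insert y1) := by
        simp [cp_succ, preA]
      rw [hpre]
      have eY : ∀ j, j ≤ Yr.length + 1 → fl (y3 :: (Yr ++ [t1, t2])) j = fl (y3 :: Yr) j := by
        intro j hj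
        have : y3 :: (Yr ++ [t1, t2]) = (y3 :: Yr) ++ [t1, t2] := rfl
        rw [this, fl_append_left (by simp only [List.length_cons]; omega)]
      simp only [apP, GM1, GM2, List.length_cons, List.length_append, List.length_nil]
      by_cases c1 : k + 1 = Yr.length + 5
      · right
        have c2 : k + 1 + 2 ≤ Yr.length + (0 + 1 + 1) + 1 + 1 + 1 + 2 := by omega
        have c3 : (k + 1 + 2) % 2 = 0 := by omega
        have eF : fl (y1 :: y2 :: y3 :: (Yr ++ [t1, t2])) (k + 1 + 2 - 2) =
            (y1 :: y2 :: y3 :: (Yr ++ [t1, t2])).toFinset :=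
          fl_of_le (by simp only [List.length_cons, List.length_append, List.length_nil]; omega)
        refine ⟨(y1 :: y2 :: t1 :: t2 :: a :: y3 :: Yr).toFinset, ?_, ?_, ?_⟩
        · rw [if_pos (by omega), if_neg (by omega), if_pos c2, if_pos c3, eF]
          simp only [List.map_cons, List.map_nil, List.cons.injEq, and_true]
          constructor
          · ext z; simp only [List.toFinset_cons, Finset.mem_insert]
          · ext z
            simp only [List.toFinset_cons, List.toFinset_append, Finset.mem_insert,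
              Finset.mem_union, List.toFinset_nil, Finset.notMem_empty]
            tauto
        · rw [List.toFinset_card_of_nodup nd4]
          simp only [List.length_cons]; omega
        · rw [if_neg (by omega), if_pos c2, if_pos c3, eF]
          ext z
          simp only [List.toFinset_cons, List.toFinset_append, Finset.mem_insert,
            Finset.mem_union, List.toFinset_nil, Finset.notMem_empty]
          tauto
      · by_cases c4 : k + 1 ≤ Yr.length + 3 ∧ k % 2 = 1
        · right
          obtain ⟨c4, c5⟩ := c4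
          have c2 : k + 1 + 2 ≤ Yr.length + (0 + 1 + 1) + 1 + 1 + 1 + 2 := by omega
          have c3 : (k + 1 + 2) % 2 = 0 := by omega
          obtain ⟨j, rfl⟩ : ∃ j, k = j + 1 := ⟨k - 1, by omega⟩
          have e1 : j + 1 + 1 - 1 = j + 1 := by omega
          have e2 : j + 1 + 1 + 2 - 2 = j + 1 + 1 := by omega
          have e3 : fl (a :: y3 :: Yr) (j + 1) = insert a (fl (y3 :: Yr) j) := fl_cons_succ _ _ _
          have e4 : fl (y1 :: y2 :: y3 :: (Yr ++ [t1, t2])) (j + 1 + 1) =
              insert y1 (insert y2 (fl (y3 :: Yr) j)) := by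
            rw [fl_cons_succ, fl_cons_succ, eY j (by omega)]
          have hsub : fl (a :: y3 :: Yr) (j + 1) ⊆ (a :: y3 :: Yr).toFinset := fl_subset _ _
          have nd6 : (a :: y3 :: Yr).Nodup := by
            have := nd5
            simp only [List.nodup_cons] at this ⊢
            tauto
          have hy2 : y2 ∉ fl (a :: y3 :: Yr) (j + 1) := by
            intro h
            have h' := List.mem_toFinset.1 (hsub h)
            have := (List.nodup_cons.1 (List.nodup_cons.1 nd5).2).1
            exact this h'
          have hy1 : y1 ∉ insert y2 (fl (a :: y3 :: Yr) (j + 1)) := by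
            intro h
            have := (List.nodup_cons.1 nd5).1
            rcases Finset.mem_insert.1 h with h | h
            · exact this (by rw [h]; simp)
            · exact this (List.mem_cons_of_mem _ (List.mem_toFinset.1 (hsub h)))
          refine ⟨insert y1 (insert y2 (fl (a :: y3 :: Yr) (j + 1))), ?_, ?_, ?_⟩
          · rw [if_neg (by omega), if_pos (by omega), if_neg (by omega), if_pos c2, if_pos c3, e1,
              e2, e4, e3]
            simp only [List.map_cons, List.map_nil, List.cons.injEq, and_true, true_and]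
            ext z
            simp only [Finset.mem_insert]
            tauto
          · rw [Finset.card_insert_of_notMem hy1, Finset.card_insert_of_notMem hy2,
              card_fl nd6 (by simp only [List.length_cons]; omega)]
          · rw [if_neg (by omega), if_pos c2, if_pos c3, e2, e4, e3]
            ext z
            simp only [Finset.mem_insert]
            tauto
        · left
          constructor
          · rw [if_neg (by omega), if_neg (by omega)]; rfl
          · split_ifs <;> first | rfl | (exfalso; omega)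
  · rw [hElen, if_neg (by omega), hEset]
    simp only [GM2, List.length_cons, List.length_append, List.length_nil]
    rw [if_neg (by omega), if_neg (by omega), if_neg (by omega), if_neg (by omega)]

/-- Second conversion, variant 1: `ρ = [t1, t2, ws, wt, y1, e]`, `c = e`. -/
theorem conv2_V1 (y1 y2 y3 : ℕ) (Yr : List ℕ) (t1 t2 w ws wt e a b : ℕ) (S : List ℕ)
    (hY : Yr.length % 2 = 1)
    (nd : (b :: a :: w :: ws :: wt :: e :: y1 :: y2 :: y3 :: (Yr ++ [t1, t2])).Nodup)
    (hS : S.Perm (a :: w :: ws :: wt :: y1 :: y3 :: (Yr ++ [t1, t2]))) (hS1 : S.head? ≠ some w)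
    (hAP : ∃ m, AB ([wt, y3] ++ Yr ++ [t1, t2, ws, y2, w, a])
      ([a, y3] ++ Yr ++ [t1, t2, ws, wt, w, y2]) (apP (a :: y3 :: Yr) y2 w t1 t2 w) m)
    (hB : ∃ m, BB (a :: w :: y2 :: y3 :: (Yr ++ [t1, t2, ws, wt, y1, e]))
      (GM1 (y1 :: y2 :: y3 :: (Yr ++ [t1, t2])) y2 w ws wt a
        (fl (a :: w :: y2 :: y3 :: (Yr ++ [t1, t2, ws, wt, y1, e])) (Yr.length + 9))) m) :
    ∃ m, BB (b :: e :: y2 :: S)
      (GM2 (y1 :: y2 :: y3 :: (Yr ++ [t1, t2])) y2 w ws wt a b
        (fl (a :: w :: y2 :: y3 :: (Yr ++ [t1, t2, ws, wt, y1, e])) (Yr.length + 9))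
        (e :: y2 :: S).toFinset) m := by
  obtain ⟨mW, hW⟩ := hAP
  obtain ⟨mB, hB⟩ := hB
  have hy3 : y3 ≠ ws := by
    rintro rfl
    simp at nd
  obtain ⟨mA, hA⟩ := A_exists a w y2 (y3 :: (Yr ++ [t1, t2, ws, wt]))
    ([wt, y3] ++ Yr ++ [t1, t2, ws, y2, w, a])
    (by simp only [List.length_cons, List.length_append, List.length_nil]; omega)
    (by (rw [List.nodup_iff_count_le_one]; intro xq; have hxq := List.nodup_iff_count_le_one.1 nd xq; simp only [List.count_append, List.count_cons, List.count_nil, List.cons_append, List.nil_append, List.append_assoc] at hxq ⊢; omega)) (by (rw [List.perm_iff_count]; intro xq; simp only [List.count_append, List.count_cons, List.count_nil, List.cons_append, List.nil_append, List.append_assoc]; omega))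
    (by
      have e : y3 :: (Yr ++ [t1, t2, ws, wt]) = (y3 :: (Yr ++ [t1, t2, ws])) ++ [wt] := by simp
      rw [e, List.getLast?_append]
      rfl)
    (by
      have e : y3 :: (Yr ++ [t1, t2, ws, wt]) = (y3 :: (Yr ++ [t1, t2])) ++ [ws, wt] := by simp
      have e2 : (y3 :: (Yr ++ [t1, t2, ws, wt])).length - 2 = (y3 :: (Yr ++ [t1, t2])).length := by
        simp only [List.length_cons, List.length_append, List.length_nil]; omega
      rw [e2, e, List.getElem?_append_right le_rfl]
      simpa using hy3)
  obtain ⟨mF, hF⟩ := F_exists (y1 :: ([a, y3] ++ Yr ++ [t1, t2, ws, wt, w, y2])) (y2 :: S)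
    (by simp only [List.length_cons, List.length_append, List.length_nil]; omega)
    (by (rw [List.nodup_iff_count_le_one]; intro xq; have hxq := List.nodup_iff_count_le_one.1 nd xq; simp only [List.count_append, List.count_cons, List.count_nil, List.cons_append, List.nil_append, List.append_assoc] at hxq ⊢; omega))
    ((List.Perm.cons y2 hS).trans (by (rw [List.perm_iff_count]; intro xq; simp only [List.count_append, List.count_cons, List.count_nil, List.cons_append, List.nil_append, List.append_assoc]; omega)))
    (by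
      have e : y1 :: ([a, y3] ++ Yr ++ [t1, t2, ws, wt, w, y2]) =
        (y1 :: ([a, y3] ++ Yr ++ [t1, t2, ws, wt, w])) ++ [y2] := by simp
      rw [e, List.getLast?_append]
      rfl)
    (by
      have e : y1 :: ([a, y3] ++ Yr ++ [t1, t2, ws, wt, w, y2]) =
        (y1 :: ([a, y3] ++ Yr ++ [t1, t2, ws, wt])) ++ [w, y2] := by simp
      have e2 : (y1 :: ([a, y3] ++ Yr ++ [t1, t2, ws, wt, w, y2])).length - 2 =
          (y1 :: ([a, y3] ++ Yr ++ [t1, t2, ws, wt])).length := by
        simp only [List.length_cons, List.length_append, List.length_nil]; omega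
      rw [e2, e, List.getElem?_append_right le_rfl]
      rw [List.head?_eq_getElem?] at hS1
      simpa using hS1)
  refine conv2_core y1 y2 y3 Yr t1 t2 w ws wt a b e [t1, t2, ws, wt] _ _ S _ mA mW mF mB hY rfl
    (by (rw [List.nodup_iff_count_le_one]; intro xq; have hxq := List.nodup_iff_count_le_one.1 nd xq; simp only [List.count_append, List.count_cons, List.count_nil, List.cons_append, List.nil_append, List.append_assoc] at hxq ⊢; omega)) (by (rw [List.nodup_iff_count_le_one]; intro xq; have hxq := List.nodup_iff_count_le_one.1 nd xq; simp only [List.count_append, List.count_cons, List.count_nil, List.cons_append, List.nil_append, List.append_assoc] at hxq ⊢; omega)) hA.ab hW ?_ hF.ab ?_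
  · have h := hA.ab.early_head (k := Yr.length + 6) (by omega)
      (by simp only [List.length_cons, List.length_append, List.length_nil]; omega)
    have e1 : fl (a :: w :: y2 :: (y3 :: (Yr ++ [t1, t2, ws, wt]))) (Yr.length + 6) =
        insert w (y2 :: t1 :: t2 :: a :: y3 :: Yr).toFinset := by
      have e2 : a :: w :: y2 :: (y3 :: (Yr ++ [t1, t2, ws, wt])) =
        (a :: w :: y2 :: y3 :: (Yr ++ [t1, t2])) ++ [ws, wt] := by simp
      have e3 : (a :: w :: y2 :: y3 :: (Yr ++ [t1, t2])).length = Yr.length + 6 := by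
        simp only [List.length_cons, List.length_append, List.length_nil]
      rw [e2, fl_append_left (by omega), fl_of_le (by omega)]
      ext z
      simp only [List.toFinset_cons, List.toFinset_append, Finset.mem_insert,
        Finset.mem_union, List.toFinset_nil, Finset.notMem_empty]
      tauto
    rw [← e1]; exact h
  · exact hB

/-- Second conversion, variant 3: `ρ = [t1, e, ws, t2, y1, wt]`, `c = wt`. -/
theorem conv2_V3 (y1 y2 y3 : ℕ) (Yr : List ℕ) (t1 t2 w ws wt e a b : ℕ) (S : List ℕ)
    (hY : Yr.length % 2 = 1)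
    (nd : (b :: a :: w :: ws :: wt :: e :: y1 :: y2 :: y3 :: (Yr ++ [t1, t2])).Nodup)
    (hS : S.Perm (a :: w :: ws :: e :: y1 :: y3 :: (Yr ++ [t1, t2]))) (hS1 : S.head? ≠ some w)
    (hAP : ∃ m, AB ([t2, e, y3] ++ Yr ++ [t1, ws, y2, w, a])
      ([a, y3] ++ Yr ++ [t1, t2, ws, e, w, y2]) (apP (a :: y3 :: Yr) y2 w t1 t2 w) m)
    (hB : ∃ m, BB (a :: w :: y2 :: y3 :: (Yr ++ [t1, e, ws, t2, y1, wt]))
      (GM1 (y1 :: y2 :: y3 :: (Yr ++ [t1, t2])) y2 w ws wt a
        (fl (a :: w :: y2 :: y3 :: (Yr ++ [t1, e, ws, t2, y1, wt])) (Yr.length + 9))) m) :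
    ∃ m, BB (b :: wt :: y2 :: S)
      (GM2 (y1 :: y2 :: y3 :: (Yr ++ [t1, t2])) y2 w ws wt a b
        (fl (a :: w :: y2 :: y3 :: (Yr ++ [t1, e, ws, t2, y1, wt])) (Yr.length + 9))
        (wt :: y2 :: S).toFinset) m := by
  obtain ⟨mW, hW⟩ := hAP
  obtain ⟨mB, hB⟩ := hB
  have hews : e ≠ ws := by
    rintro rfl
    simp at nd
  obtain ⟨mA, hA⟩ := A_exists a w y2 (y3 :: (Yr ++ [t1, e, ws, t2]))
    ([t2, e, y3] ++ Yr ++ [t1, ws, y2, w, a])
    (by simp only [List.length_cons, List.length_append, List.length_nil]; omega)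
    (by (rw [List.nodup_iff_count_le_one]; intro xq; have hxq := List.nodup_iff_count_le_one.1 nd xq; simp only [List.count_append, List.count_cons, List.count_nil, List.cons_append, List.nil_append, List.append_assoc] at hxq ⊢; omega)) (by (rw [List.perm_iff_count]; intro xq; simp only [List.count_append, List.count_cons, List.count_nil, List.cons_append, List.nil_append, List.append_assoc]; omega))
    (by
      have e : y3 :: (Yr ++ [t1, e, ws, t2]) = (y3 :: (Yr ++ [t1, e, ws])) ++ [t2] := by simp
      rw [e, List.getLast?_append]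
      rfl)
    (by
      have e1 : y3 :: (Yr ++ [t1, e, ws, t2]) = (y3 :: (Yr ++ [t1, e])) ++ [ws, t2] := by simp
      have e2 : (y3 :: (Yr ++ [t1, e, ws, t2])).length - 2 = (y3 :: (Yr ++ [t1, e])).length := by
        simp only [List.length_cons, List.length_append, List.length_nil]; omega
      rw [e2, e1, List.getElem?_append_right le_rfl]
      simpa using hews)
  obtain ⟨mF, hF⟩ := F_exists (y1 :: ([a, y3] ++ Yr ++ [t1, t2, ws, e, w, y2])) (y2 :: S)
    (by simp only [List.length_cons, List.length_append, List.length_nil]; omega)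
    (by (rw [List.nodup_iff_count_le_one]; intro xq; have hxq := List.nodup_iff_count_le_one.1 nd xq; simp only [List.count_append, List.count_cons, List.count_nil, List.cons_append, List.nil_append, List.append_assoc] at hxq ⊢; omega))
    ((List.Perm.cons y2 hS).trans (by (rw [List.perm_iff_count]; intro xq; simp only [List.count_append, List.count_cons, List.count_nil, List.cons_append, List.nil_append, List.append_assoc]; omega)))
    (by
      have e1 : y1 :: ([a, y3] ++ Yr ++ [t1, t2, ws, e, w, y2]) =
        (y1 :: ([a, y3] ++ Yr ++ [t1, t2, ws, e, w])) ++ [y2] := by simp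
      rw [e1, List.getLast?_append]
      rfl)
    (by
      have e1 : y1 :: ([a, y3] ++ Yr ++ [t1, t2, ws, e, w, y2]) =
        (y1 :: ([a, y3] ++ Yr ++ [t1, t2, ws, e])) ++ [w, y2] := by simp
      have e2 : (y1 :: ([a, y3] ++ Yr ++ [t1, t2, ws, e, w, y2])).length - 2 =
          (y1 :: ([a, y3] ++ Yr ++ [t1, t2, ws, e])).length := by
        simp only [List.length_cons, List.length_append, List.length_nil]; omega
      rw [e2, e1, List.getElem?_append_right le_rfl]
      rw [List.head?_eq_getElem?] at hS1
      simpa using hS1)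
  refine conv2_core y1 y2 y3 Yr t1 t2 w ws wt a b wt [t1, e, ws, t2] _ _ S _ mA mW mF mB hY rfl
    (by (rw [List.nodup_iff_count_le_one]; intro xq; have hxq := List.nodup_iff_count_le_one.1 nd xq; simp only [List.count_append, List.count_cons, List.count_nil, List.cons_append, List.nil_append, List.append_assoc] at hxq ⊢; omega)) (by (rw [List.nodup_iff_count_le_one]; intro xq; have hxq := List.nodup_iff_count_le_one.1 nd xq; simp only [List.count_append, List.count_cons, List.count_nil, List.cons_append, List.nil_append, List.append_assoc] at hxq ⊢; omega)) hA.ab hW ?_ hF.ab ?_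
  · have hws : ws ∉ ([t2, e, y3] ++ Yr ++ [t1, ws, y2, w, a]).take (1 + 2) := by
      simp only [List.cons_append, List.nil_append, List.take_succ_cons, List.take_zero,
        List.mem_cons, List.not_mem_nil, or_false]
      rintro (h | h | h)
      · subst h; simp at nd
      · subst h; simp at nd
      · subst h; simp at nd
    have h := hA.ek 1 (by norm_num) (by norm_num) e (by simp) ws (by simp) hws
    have e1 : ((a :: w :: y2 :: (y3 :: (Yr ++ [t1, e, ws, t2]))).toFinset.erase e).erase ws =
        insert w (y2 :: t1 :: t2 :: a :: y3 :: Yr).toFinset := by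
      have hnd : (e :: ws :: w :: y2 :: t1 :: t2 :: a :: y3 :: Yr).Nodup := by (rw [List.nodup_iff_count_le_one]; intro xq; have hxq := List.nodup_iff_count_le_one.1 nd xq; simp only [List.count_append, List.count_cons, List.count_nil, List.cons_append, List.nil_append, List.append_assoc] at hxq ⊢; omega)
      have h1 : ws ∉ (w :: y2 :: t1 :: t2 :: a :: y3 :: Yr) :=
        (List.nodup_cons.1 (List.nodup_cons.1 hnd).2).1
      have h2 : e ∉ (w :: y2 :: t1 :: t2 :: a :: y3 :: Yr) := fun h =>
        (List.nodup_cons.1 hnd).1 (List.mem_cons_of_mem _ h)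
      ext z
      simp only [Finset.mem_erase, List.toFinset_cons, List.toFinset_append, Finset.mem_insert,
        Finset.mem_union, List.toFinset_nil, Finset.notMem_empty, List.mem_toFinset]
      constructor
      · tauto
      · intro hz
        have hz' : z ∈ w :: y2 :: t1 :: t2 :: a :: y3 :: Yr := by
          simp only [List.mem_cons]; tauto
        have hz1 : z ≠ ws := fun h => h1 (h ▸ hz')
        have hz2 : z ≠ e := fun h => h2 (h ▸ hz')
        tauto
    rw [← e1]; exact h
  · exact hB

end Pool.Agent.Lib.MP_bec39b_co
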