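import Pool.Agent.Lib.MP_bec39b_co.QStep
import Pool.Agent.Lib.MP_bec39b_co.AType

set_option autoImplicit false

namespace Pool.Agent.Lib.MP_bec39b_co

/-- The sets `g` of the first family. -/
def gT1 (j : ℕ) : ℕ → Finset ℕ := fun l =>
  if l ≤ j + 3 then (if (j + l) % 2 = 1 then {5, 6} else {0, 2}) ∪ fl (Zl 7 j ++ [7, 3]) (l - 1)
  else if l = j + 4 then {0, 2, 3, 4, 7} ∪ (Zl 7 j).toFinset
  else if l = j + 5 then {0, 2, 3, 4, 6, 7} ∪ (Zl 7 j).toFinset
  else if l = j + 6 then {0, 1, 2, 3, 4, 6, 7} ∪ (Zl 7 j).toFinset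
  else {0, 1, 2, 3, 4, 5, 6, 7} ∪ (Zl 7 j).toFinset

theorem qt1_mem_Zl (o k x : ℕ) : x ∈ Zl o k ↔ o < x ∧ x ≤ o + k := by
  induction k with
  | zero => simp [Zl]
  | succ k ih => simp only [Zl, List.mem_cons, ih]; omega

theorem qt1_length_Zl (o k : ℕ) : (Zl o k).length = k := by
  induction k with
  | zero => rfl
  | succ k ih => simp [Zl, ih]

theorem qt1_penult (l : List ℕ) (x y : ℕ) : (l ++ [x, y])[(l ++ [x, y]).length - 2]? = some x := by
  simp

theorem qt1_cp_preA (z a c : ℕ) : cp z (preA a c) (fun _ => []) = preA a c := by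
  funext l
  cases l with
  | zero => rfl
  | succ l => simp

theorem qt1_stepL (a b c z x1 x2 x3 x4 k2 u2 : ℕ) (S0 K0 U0 : List ℕ) (hS : 4 ≤ S0.length)
    (nd : (a :: b :: c :: (S0 ++ [x1, x2, z])).Nodup)
    (hp : (x2 :: k2 :: (K0 ++ [x3, x4])).Perm (a :: b :: c :: (S0 ++ [x1, x2])))
    (hp2 : (x4 :: u2 :: U0).Perm (x2 :: k2 :: (K0 ++ [x3, x4])))
    (h1 : k2 ≠ x1) (h2 : u2 ≠ x3) (h3 : k2 ≠ a) (h4 : k2 ≠ b) :
    ∃ mL, AB (a :: b :: c :: (S0 ++ [x1, x2, z])) (z :: x4 :: u2 :: U0) (preA a c) mL ∧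
      (∀ k, 4 ≤ k → k < S0.length + 5 →
        Early (preA a c) mL ((fl (a :: b :: c :: (S0 ++ [x1, x2])) k).erase b)) ∧
      (∀ k, 1 ≤ k → k ≤ S0.length + 5 →
        Early (preA a c) mL (insert z (fl (x2 :: k2 :: (K0 ++ [x3, x4])) k))) ∧
      (∀ x ∈ x2 :: k2 :: (K0 ++ [x3, x4]), x ≠ x4 → x ≠ u2 → Early (preA a c) mL
        (insert z (((x2 :: k2 :: (K0 ++ [x3, x4])).toFinset.erase x4).erase x))) ∧
      (∀ x ∈ x2 :: k2 :: (K0 ++ [x3, x4]), x ∉ x4 :: u2 :: U0.take 1 → Early (preA a c) mL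
        (insert z (((x2 :: k2 :: (K0 ++ [x3, x4])).toFinset.erase u2).erase x))) := by
  have eS : S0 ++ [x1, x2, z] = (S0 ++ [x1, x2]) ++ [z] := by simp
  have nd' : ((a :: b :: c :: (S0 ++ [x1, x2])) ++ [z]).Nodup := by
    rw [eS] at nd; exact nd
  have nd1 : (a :: b :: c :: (S0 ++ [x1, x2])).Nodup := (List.nodup_append.1 nd').1
  have hz : z ∉ a :: b :: c :: (S0 ++ [x1, x2]) := by
    intro h
    exact (List.nodup_append.1 nd').2.2 _ h _ (by simp) rfl
  have hndk : (x2 :: k2 :: (K0 ++ [x3, x4])).Nodup := hp.nodup_iff.2 nd1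
  have hlenk : (x2 :: k2 :: (K0 ++ [x3, x4])).length = S0.length + 5 := by
    rw [hp.length_eq]; simp
  obtain ⟨mA, hA⟩ := A_exists a b c (S0 ++ [x1, x2]) (x2 :: k2 :: (K0 ++ [x3, x4]))
    (by simp; omega) nd1 hp (by simp) (by
      rw [qt1_penult]
      simpa using h1)
  obtain ⟨mF, hF⟩ := F_exists (x2 :: k2 :: (K0 ++ [x3, x4])) (x4 :: u2 :: U0)
    (by rw [hlenk]; omega) hndk hp2 (by
      rw [← List.cons_append, ← List.cons_append]
      rw [show (x2 :: k2 :: K0) ++ [x3, x4] = (x2 :: k2 :: K0) ++ [x3, x4] from rfl]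
      rw [List.getLast?_append]
      simp) (by
      have := qt1_penult (x2 :: k2 :: K0) x3 x4
      simp only [List.cons_append] at this
      rw [this]
      simpa using h2)
  have hzk : z ∉ (x2 :: k2 :: (K0 ++ [x3, x4])).toFinset := by
    rw [List.mem_toFinset, hp.mem_iff]; exact hz
  have hAB := hA.ab.comp hF.ab hz (fun l => Or.inr rfl) (by
    intro l x hx; simp at hx)
  rw [qt1_cp_preA] at hAB
  have er : ∀ x, z ∉ x → Early (fun _ => []) mF x →
      Early (preA a c) (cp z mA mF) (insert z x) := by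
    intro x hx h
    have := early_comp_right (pL := preA a c) (mL := mA) hx h
    rwa [qt1_cp_preA] at this
  have el : ∀ x, Early (preA a c) mA x → Early (preA a c) (cp z mA mF) x := by
    intro x h
    have := early_comp_left (z := z) (pU := fun _ => []) (mU := mF) h
    rwa [qt1_cp_preA] at this
  refine ⟨cp z mA mF, ?_, ?_, ?_, ?_, ?_⟩
  · rw [eS]; exact hAB
  · intro k hk1 hk2
    exact el _ (hA.K x2 k2 (K0 ++ [x3, x4]) rfl h3 h4 k hk1 (by simp; omega)).2
  · intro k hk1 hk2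
    refine er _ (fun h => hzk (fl_subset _ _ h)) ?_
    exact hF.ab.early_head hk1 (by rw [hlenk]; exact hk2)
  · intro x hx hx1 hx2
    refine er _ (fun h => hzk (Finset.mem_of_mem_erase (Finset.mem_of_mem_erase h))) ?_
    exact hF.ek 0 (by norm_num) (by norm_num) x4 (by simp) x hx (by simp [hx1, hx2])
  · intro x hx hx1
    refine er _ (fun h => hzk (Finset.mem_of_mem_erase (Finset.mem_of_mem_erase h))) ?_
    exact hF.ek 1 (by norm_num) (by norm_num) u2 (by simp) x hx (by simpa using hx1)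

theorem gT1_succ (j l : ℕ) (hl : 1 ≤ l) : gT1 (j + 1) (l + 1) = insert (8 + j) (gT1 j l) := by
  obtain ⟨l', rfl⟩ : ∃ l', l = l' + 1 := ⟨l - 1, by omega⟩
  have hZ : Zl 7 (j + 1) = (8 + j) :: Zl 7 j := by
    rw [Zl]; congr 1; omega
  unfold gT1
  by_cases h1 : l' + 1 ≤ j + 3
  · have h2 : l' + 1 + 1 ≤ j + 1 + 3 := by omega
    have h3 : (j + 1 + (l' + 1 + 1)) % 2 = (j + (l' + 1)) % 2 := by omega
    rw [if_pos h1, if_pos h2, h3, hZ]
    simp only [Nat.add_sub_cancel, List.cons_append, fl_cons_succ]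
    rw [Finset.union_insert]
  · have h2 : ¬ (l' + 1 + 1 ≤ j + 1 + 3) := by omega
    rw [if_neg h1, if_neg h2, hZ]
    simp only [List.toFinset_cons]
    by_cases h3 : l' + 1 = j + 4
    · rw [if_pos h3, if_pos (by omega), Finset.union_insert]
    · rw [if_neg h3, if_neg (by omega)]
      by_cases h4 : l' + 1 = j + 5
      · rw [if_pos h4, if_pos (by omega), Finset.union_insert]
      · rw [if_neg h4, if_neg (by omega)]
        by_cases h5 : l' + 1 = j + 6
        · rw [if_pos h5, if_pos (by omega), Finset.union_insert]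
        · rw [if_neg h5, if_neg (by omega), Finset.union_insert]

/-- the values of `gT1` -/
theorem gT1_cases (j l : ℕ) (P : Finset ℕ → Prop)
    (h1 : ∀ l', l = l' + 1 → l' ≤ j + 2 → (j + l) % 2 = 1 →
      P ({5, 6} ∪ fl (Zl 7 j ++ [7, 3]) l'))
    (h2 : ∀ l', l = l' + 1 → l' ≤ j + 2 → (j + l) % 2 = 0 →
      P ({0, 2} ∪ fl (Zl 7 j ++ [7, 3]) l'))
    (h3 : l = j + 4 → P ({0, 2, 3, 4, 7} ∪ (Zl 7 j).toFinset))
    (h4 : l = j + 5 → P ({0, 2, 3, 4, 6, 7} ∪ (Zl 7 j).toFinset))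
    (h5 : l = j + 6 → P ({0, 1, 2, 3, 4, 6, 7} ∪ (Zl 7 j).toFinset))
    (h6 : l = j + 7 → P ({0, 1, 2, 3, 4, 5, 6, 7} ∪ (Zl 7 j).toFinset))
    (hl : 1 ≤ l) (hl2 : l ≤ j + 7) : P (gT1 j l) := by
  unfold gT1
  split_ifs with c1 c2 c3 c4 c5
  · exact h1 (l - 1) (by omega) (by omega) c2
  · exact h2 (l - 1) (by omega) (by omega) (by omega)
  · exact h3 c3
  · exact h4 c4
  · exact h5 c5
  · exact h6 (by omega)

theorem fl_Z73 (j l' : ℕ) (T : List ℕ) (h : l' ≤ j + 2) :
    fl (Zl 7 j ++ (7 :: 3 :: T)) l' = fl (Zl 7 j ++ [7, 3]) l' := by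
  have : Zl 7 j ++ (7 :: 3 :: T) = (Zl 7 j ++ [7, 3]) ++ T := by simp
  rw [this, fl_append_left (by simp [qt1_length_Zl]; omega)]

theorem mem_fl_Z {j l' x : ℕ} (h : x ∈ fl (Zl 7 j ++ [7, 3]) l') : x = 3 ∨ 7 ≤ x := by
  have := fl_subset _ _ h
  rw [List.mem_toFinset, List.mem_append, qt1_mem_Zl] at this
  simp only [List.mem_cons, List.not_mem_nil, or_false] at this
  omega

/-- prefixes of `Z ++ [3, 7, ...]` and of `Z ++ [7, 3]` agree except at length `j + 1` -/
theorem fl_Z37 (j l' : ℕ) (T : List ℕ) (h : l' ≤ j ∨ l' = j + 2) :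
    fl (Zl 7 j ++ (3 :: 7 :: T)) l' = fl (Zl 7 j ++ [7, 3]) l' := by
  rcases h with h | rfl
  · rw [fl_append_left (by rw [qt1_length_Zl]; exact h),
      fl_append_left (by rw [qt1_length_Zl]; exact h)]
  · have e1 : ∀ T' : List ℕ, fl (Zl 7 j ++ T') (j + 2) = (Zl 7 j).toFinset ∪ fl T' 2 := by
      intro T'
      have := fl_append_right (Zl 7 j) T' 2
      rwa [qt1_length_Zl] at this
    rw [e1, e1]
    congr 1
    show fl (3 :: 7 :: T) (0 + 1 + 1) = fl [7, 3] (0 + 1 + 1)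
    simp only [fl_cons_succ, fl_zero]
    exact Finset.insert_comm _ _ _

theorem qt1_Zsucc (k : ℕ) : Zl 7 (k + 1) = (8 + k) :: Zl 7 k := by
  rw [Zl]; congr 1; omega

/-- step from odd `k` to `k + 1` -/
theorem qt1_stepE (k : ℕ) (hk : 1 ≤ k) (hodd : k % 2 = 1)
    (hU : ∃ p m, Q1 ([6, 4, 5] ++ Zl 7 k ++ [3, 7, 1, 2, 0, 8 + k]) (gT1 (k + 1)) p m) :
    ∃ p m, Q1 ([0, 1, 2] ++ Zl 7 (k + 1) ++ [7, 3, 4, 5, 6, 8 + (k + 1)])
      (gT1 (k + 1 + 1)) p m := by
  obtain ⟨p, m, hU⟩ := hU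
  have hndU := hU.nd
  have hperm : ([6, 4, 5] ++ Zl 7 k ++ [3, 7, 1, 2, 0, 8 + k]).Perm
      (0 :: 1 :: 2 :: ((Zl 7 (k + 1) ++ [7, 3]) ++ [4, 5, 6])) := by
    rw [qt1_Zsucc]; (
    rw [List.perm_iff_count]
    intro x
    simp only [List.count_append, List.count_cons, List.count_nil, List.cons_append,
      List.nil_append, List.append_assoc]
    omega)
  have hnd := hperm.nodup_iff.1 hndU
  obtain ⟨k', rfl⟩ : ∃ k', k = k' + 1 := ⟨k - 1, by omega⟩
  obtain ⟨mL, hAB, E1, E2, E3, E4⟩ := qt1_stepL 0 1 2 6 4 5 1 4 (8 + (k' + 1)) 5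
    (Zl 7 (k' + 1 + 1) ++ [7, 3]) (Zl 7 (k' + 1) ++ [3, 7, 2, 0])
    (Zl 7 (k' + 1) ++ [3, 7, 1, 2, 0, 8 + (k' + 1)])
    (by simp [qt1_length_Zl]) hnd (by rw [qt1_Zsucc (k' + 1)]; (
    rw [List.perm_iff_count]
    intro x
    simp only [List.count_append, List.count_cons, List.count_nil, List.cons_append,
      List.nil_append, List.append_assoc]
    omega)) (by (
    rw [List.perm_iff_count]
    intro x
    simp only [List.count_append, List.count_cons, List.count_nil, List.cons_append,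
      List.nil_append, List.append_assoc]
    omega))
    (by omega) (by omega) (by omega) (by omega)
  have hlenS : (Zl 7 (k' + 1 + 1) ++ [7, 3]).length = k' + 4 := by simp [qt1_length_Zl]
  rw [hlenS] at E1 E2
  have hτ : [6, 4, 5] ++ Zl 7 (k' + 1) ++ [3, 7, 1, 2, 0, 8 + (k' + 1)] =
    6 :: 4 :: 5 :: (Zl 7 (k' + 1) ++ [3, 7, 1, 2, 0, 8 + (k' + 1)]) := by simp
  rw [hτ] at hU
  have hκ : 5 :: (8 + (k' + 1)) :: (Zl 7 (k' + 1) ++ [3, 7, 2, 0] ++ [1, 4]) =
      5 :: (Zl 7 (k' + 1 + 1) ++ (3 :: 7 :: [2, 0, 1, 4])) := by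
    rw [qt1_Zsucc (k' + 1)]; simp
  rw [hκ] at E2 E3 E4
  have hσ : (0 :: 1 :: 2 :: (Zl 7 (k' + 1 + 1) ++ [7, 3] ++ [4, 5, 6])).length = k' + 10 := by
    simp [qt1_length_Zl]
  have hlenτ : (6 :: 4 :: 5 :: (Zl 7 (k' + 1) ++ [3, 7, 1, 2, 0, 8 + (k' + 1)])).length =
      k' + 10 := by simp [qt1_length_Zl]
  have hres := Q1_step (g' := gT1 (k' + 1 + 1 + 1)) (z := 8 + (k' + 1 + 1)) hAB hU ?_ ?_ ?_ ?_
  · have : 0 :: 1 :: 2 :: (Zl 7 (k' + 1 + 1) ++ [7, 3] ++ [4, 5, 6] ++ [8 + (k' + 1 + 1)]) =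
      [0, 1, 2] ++ Zl 7 (k' + 1 + 1) ++ [7, 3, 4, 5, 6, 8 + (k' + 1 + 1)] := by simp
    rwa [this] at hres
  · simp only [List.mem_cons, List.mem_append, qt1_mem_Zl, List.not_mem_nil, or_false]
    omega
  · intro l hl1 hl2
    rw [hlenτ] at hl2
    refine gT1_cases (k' + 1 + 1) l _ ?_ ?_ ?_ ?_ ?_ ?_ hl1 (by omega)
    · intro l' hl' hle hpar
      have := E2 (l' + 1) (by omega) (by omega)
      rw [fl_cons_succ, fl_Z37 _ _ _ (by omega)] at this
      have e : ({5, 6} ∪ fl (Zl 7 (k' + 1 + 1) ++ [7, 3]) l' : Finset ℕ) =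
          insert 6 (insert 5 (fl (Zl 7 (k' + 1 + 1) ++ [7, 3]) l')) := by
        ext x; simp only [Finset.mem_union, Finset.mem_insert, Finset.mem_singleton]; tauto
      rwa [e]
    · intro l' hl' hle hpar
      have := E1 (l' + 3) (by omega) (by omega)
      rw [fl_cons_succ, fl_cons_succ, fl_cons_succ,
        fl_append_left (by simp [qt1_length_Zl]; omega)] at this
      have e : ({0, 2} ∪ fl (Zl 7 (k' + 1 + 1) ++ [7, 3]) l' : Finset ℕ) =
          (insert 0 (insert 1 (insert 2 (fl (Zl 7 (k' + 1 + 1) ++ [7, 3]) l')))).erase 1 := by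
        ext x
        have := @mem_fl_Z (k' + 1 + 1) l' x
        simp only [Finset.mem_union, Finset.mem_insert, Finset.mem_singleton, Finset.mem_erase]
        constructor
        · rintro (h | h)
          · omega
          · exact ⟨by have := this h; omega, by tauto⟩
        · rintro ⟨h1, h2⟩
          tauto
      rwa [e]
    · intro hl
      have := E1 (k' + 1 + 1 + 6) (by omega) (by omega)
      have e : ({0, 2, 3, 4, 7} ∪ (Zl 7 (k' + 1 + 1)).toFinset : Finset ℕ) =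
          (fl (0 :: 1 :: 2 :: (Zl 7 (k' + 1 + 1) ++ [7, 3] ++ [4, 5])) (k' + 1 + 1 + 6)).erase 1 := by
        have e2 : fl (Zl 7 (k' + 1 + 1) ++ [7, 3] ++ [4, 5]) (k' + 1 + 1 + 3) =
            (Zl 7 (k' + 1 + 1)).toFinset ∪ {7, 3, 4} := by
          have h1 := fl_append_right (Zl 7 (k' + 1 + 1) ++ [7, 3]) [4, 5] 1
          have hl3 : (Zl 7 (k' + 1 + 1) ++ [7, 3]).length + 1 = k' + 1 + 1 + 3 := by
            simp [qt1_length_Zl]
          rw [hl3] at h1
          rw [h1]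
          ext x
          simp [fl]
        rw [show k' + 1 + 1 + 6 = (k' + 1 + 1 + 3) + 1 + 1 + 1 by ring, fl_cons_succ, fl_cons_succ,
          fl_cons_succ, e2]
        ext x
        simp only [Finset.mem_union, Finset.mem_insert, Finset.mem_singleton, Finset.mem_erase,
          List.mem_toFinset, qt1_mem_Zl]
        omega
      rwa [e]
    · intro hl
      have := E4 1 (by simp) (by
        rw [qt1_Zsucc]
        simp only [List.cons_append, List.take_succ_cons, List.take_zero, List.mem_cons,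
          List.not_mem_nil, or_false]
        omega)
      have e : ({0, 2, 3, 4, 6, 7} ∪ (Zl 7 (k' + 1 + 1)).toFinset : Finset ℕ) =
          insert 6 (((5 :: (Zl 7 (k' + 1 + 1) ++ (3 :: 7 :: [2, 0, 1, 4]))).toFinset.erase 5).erase
            1) := by
        ext x
        simp only [Finset.mem_union, Finset.mem_insert, Finset.mem_singleton, Finset.mem_erase,
          List.mem_toFinset, qt1_mem_Zl, List.mem_cons, List.mem_append, List.not_mem_nil,
          or_false]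
        omega
      rwa [e]
    · intro hl
      have := hAB.early_erase (by
        rw [hσ]; simp only [preA]; rw [if_neg (by omega)]) (x := 5) (by simp) (by
        rw [← List.cons_append, ← List.cons_append, ← List.cons_append, List.getLast?_append]
        simp
        omega)
      have e : ({0, 1, 2, 3, 4, 6, 7} ∪ (Zl 7 (k' + 1 + 1)).toFinset : Finset ℕ) =
          (0 :: 1 :: 2 :: (Zl 7 (k' + 1 + 1) ++ [7, 3] ++ [4, 5, 6])).toFinset.erase 5 := by
        ext x
        simp only [Finset.mem_union, Finset.mem_insert, Finset.mem_singleton, Finset.mem_erase,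
          List.mem_toFinset, qt1_mem_Zl, List.mem_cons, List.mem_append, List.not_mem_nil,
          or_false]
        omega
      rwa [e]
    · intro hl
      have := hAB.early_head (k := k' + 10) (by omega) (by rw [hσ])
      rw [← hσ, fl_length] at this
      have e : ({0, 1, 2, 3, 4, 5, 6, 7} ∪ (Zl 7 (k' + 1 + 1)).toFinset : Finset ℕ) =
          (0 :: 1 :: 2 :: (Zl 7 (k' + 1 + 1) ++ [7, 3] ++ [4, 5, 6])).toFinset := by
        ext x
        simp only [Finset.mem_union, Finset.mem_insert, Finset.mem_singleton,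
          List.mem_toFinset, qt1_mem_Zl, List.mem_cons, List.mem_append, List.not_mem_nil,
          or_false]
        omega
      rwa [e]
  · unfold gT1
    rw [if_pos (by omega), if_neg (by omega)]
    simp
  · intro l hl1 _
    exact gT1_succ (k' + 1 + 1) l hl1

/-- Steps with split element `0`. -/
theorem qt1_stepO (a b c x1 k : ℕ) (S0 : List ℕ) (g' : ℕ → Finset ℕ) (hk : 1 ≤ k)
    (heven : k % 2 = 0) (hSl : S0.length = k + 3)
    (hU : ∃ p m, Q1 ([0, 1, 2] ++ Zl 7 k ++ [7, 3, 4, 5, 6, 8 + k]) (gT1 (k + 1)) p m)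
    (hperm : ([0, 1, 2] ++ Zl 7 k ++ [7, 3, 4, 5, 6, 8 + k]).Perm
      (a :: b :: c :: (S0 ++ [x1, 2, 0])))
    (h1 : 8 + k ≠ x1) (h3 : 8 + k ≠ a) (h4 : 8 + k ≠ b)
    (hE : ∀ l', l' % 2 = 1 → l' ≤ k + 3 → {5, 6} ∪ fl (Zl 7 (k + 1) ++ [7, 3]) l' =
      (fl (a :: b :: c :: (S0 ++ [x1, 2])) (l' + 3)).erase b)
    (hg1 : g' 1 = {a, c})
    (hgs : ∀ l, 1 ≤ l → g' (l + 1) = insert (8 + (k + 1)) (gT1 (k + 1) l)) :
    ∃ p m, Q1 (a :: b :: c :: (S0 ++ [x1, 2, 0] ++ [8 + (k + 1)])) g' p m := by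
  obtain ⟨p, m, hU⟩ := hU
  have hndU := hU.nd
  have hnd := hperm.nodup_iff.1 hndU
  have hpk : (2 :: (8 + k) :: ((Zl 7 k ++ [7, 3, 4, 5]) ++ [6, 1])).Perm
      (a :: b :: c :: (S0 ++ [x1, 2])) := by
    have h0 : (0 :: (2 :: (8 + k) :: ((Zl 7 k ++ [7, 3, 4, 5]) ++ [6, 1]))).Perm
        ([0, 1, 2] ++ Zl 7 k ++ [7, 3, 4, 5, 6, 8 + k]) := by (
    rw [List.perm_iff_count]
    intro x
    simp only [List.count_append, List.count_cons, List.count_nil, List.cons_append,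
      List.nil_append, List.append_assoc]
    omega)
    have h5 : (a :: b :: c :: (S0 ++ [x1, 2, 0])).Perm
        (0 :: (a :: b :: c :: (S0 ++ [x1, 2]))) := by (
    rw [List.perm_iff_count]
    intro x
    simp only [List.count_append, List.count_cons, List.count_nil, List.cons_append,
      List.nil_append, List.append_assoc]
    omega)
    exact (List.perm_cons 0).1 (h0.trans (hperm.trans h5))
  obtain ⟨mL, hAB, E1, E2, E3, E4⟩ := qt1_stepL a b c 0 x1 2 6 1 (8 + k) 2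
    S0 (Zl 7 k ++ [7, 3, 4, 5]) (Zl 7 k ++ [7, 3, 4, 5, 6, 8 + k])
    (by omega) hnd hpk (by (
    rw [List.perm_iff_count]
    intro x
    simp only [List.count_append, List.count_cons, List.count_nil, List.cons_append,
      List.nil_append, List.append_assoc]
    omega)) h1 (by omega) h3 h4
  rw [hSl] at E1 E2
  have hτ : [0, 1, 2] ++ Zl 7 k ++ [7, 3, 4, 5, 6, 8 + k] =
    0 :: 1 :: 2 :: (Zl 7 k ++ [7, 3, 4, 5, 6, 8 + k]) := by simp
  rw [hτ] at hU hperm
  have hκ : 2 :: (8 + k) :: (Zl 7 k ++ [7, 3, 4, 5] ++ [6, 1]) =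
      2 :: (Zl 7 (k + 1) ++ (7 :: 3 :: [4, 5, 6, 1])) := by
    rw [qt1_Zsucc k]; simp
  rw [hκ] at E2 E3 E4
  have hσ : (a :: b :: c :: (S0 ++ [x1, 2, 0])).length = k + 9 := by
    simp [hSl]
  have hlenτ : (0 :: 1 :: 2 :: (Zl 7 k ++ [7, 3, 4, 5, 6, 8 + k])).length =
      k + 9 := by simp [qt1_length_Zl]
  have hset : (a :: b :: c :: (S0 ++ [x1, 2, 0])).toFinset =
      (0 :: 1 :: 2 :: (Zl 7 k ++ [7, 3, 4, 5, 6, 8 + k])).toFinset :=
    (List.toFinset_eq_of_perm _ _ hperm).symm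
  refine Q1_step (g' := g') (z := 8 + (k + 1)) hAB hU ?_ ?_ hg1 (fun l hl _ => hgs l hl)
  · rw [← hperm.mem_iff]
    simp only [List.mem_cons, List.mem_append, qt1_mem_Zl, List.not_mem_nil, or_false]
    omega
  · intro l hl1 hl2
    rw [hlenτ] at hl2
    refine gT1_cases (k + 1) l _ ?_ ?_ ?_ ?_ ?_ ?_ hl1 (by omega)
    · intro l' hl' hle hpar
      rw [hE l' (by omega) (by omega)]
      exact E1 (l' + 3) (by omega) (by omega)
    · intro l' hl' hle hpar
      have := E2 (l' + 1) (by omega) (by omega)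
      rw [fl_cons_succ, fl_Z73 _ _ _ (by omega)] at this
      have e : ({0, 2} ∪ fl (Zl 7 (k + 1) ++ [7, 3]) l' : Finset ℕ) =
          insert 0 (insert 2 (fl (Zl 7 (k + 1) ++ [7, 3]) l')) := by
        ext x; simp only [Finset.mem_union, Finset.mem_insert, Finset.mem_singleton]; tauto
      rwa [e]
    · intro hl
      have := E2 (k + 1 + 3 + 1) (by omega) (by omega)
      have e2 : fl (Zl 7 (k + 1) ++ (7 :: 3 :: [4, 5, 6, 1])) (k + 1 + 3) =
          (Zl 7 (k + 1)).toFinset ∪ {7, 3, 4} := by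
        have h1 := fl_append_right (Zl 7 (k + 1)) (7 :: 3 :: [4, 5, 6, 1]) 3
        rw [qt1_length_Zl] at h1
        rw [h1]
        ext x
        simp [fl]
      rw [fl_cons_succ, e2] at this
      have e : ({0, 2, 3, 4, 7} ∪ (Zl 7 (k + 1)).toFinset : Finset ℕ) =
          insert 0 (insert 2 ((Zl 7 (k + 1)).toFinset ∪ {7, 3, 4})) := by
        ext x
        simp only [Finset.mem_union, Finset.mem_insert, Finset.mem_singleton,
          List.mem_toFinset, qt1_mem_Zl]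
        omega
      rwa [e]
    · intro hl
      have := E3 5 (by simp) (by omega) (by omega)
      have e : ({0, 2, 3, 4, 6, 7} ∪ (Zl 7 (k + 1)).toFinset : Finset ℕ) =
          insert 0 (((2 :: (Zl 7 (k + 1) ++ (7 :: 3 :: [4, 5, 6, 1]))).toFinset.erase 1).erase
            5) := by
        ext x
        simp only [Finset.mem_union, Finset.mem_insert, Finset.mem_singleton, Finset.mem_erase,
          List.mem_toFinset, qt1_mem_Zl, List.mem_cons, List.mem_append, List.not_mem_nil,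
          or_false]
        omega
      rwa [e]
    · intro hl
      have := hAB.early_erase (by
        rw [hσ]; simp only [preA]; rw [if_neg (by omega)]) (x := 5)
        (by rw [← hperm.mem_iff]; simp) (by
        rw [← List.cons_append, ← List.cons_append, ← List.cons_append, List.getLast?_append]
        simp
        omega)
      have e : ({0, 1, 2, 3, 4, 6, 7} ∪ (Zl 7 (k + 1)).toFinset : Finset ℕ) =
          (a :: b :: c :: (S0 ++ [x1, 2, 0])).toFinset.erase 5 := by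
        rw [hset]
        ext x
        simp only [Finset.mem_union, Finset.mem_insert, Finset.mem_singleton, Finset.mem_erase,
          List.mem_toFinset, qt1_mem_Zl, List.mem_cons, List.mem_append, List.not_mem_nil,
          or_false]
        omega
      rwa [e]
    · intro hl
      have := hAB.early_head (k := k + 9) (by omega) (by rw [hσ])
      rw [← hσ, fl_length] at this
      have e : ({0, 1, 2, 3, 4, 5, 6, 7} ∪ (Zl 7 (k + 1)).toFinset : Finset ℕ) =
          (a :: b :: c :: (S0 ++ [x1, 2, 0])).toFinset := by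
        rw [hset]
        ext x
        simp only [Finset.mem_union, Finset.mem_insert, Finset.mem_singleton,
          List.mem_toFinset, qt1_mem_Zl, List.mem_cons, List.mem_append, List.not_mem_nil,
          or_false]
        omega
      rwa [e]

theorem qt1_stepOA (k : ℕ) (hk : 1 ≤ k) (heven : k % 2 = 0)
    (hU : ∃ p m, Q1 ([0, 1, 2] ++ Zl 7 k ++ [7, 3, 4, 5, 6, 8 + k]) (gT1 (k + 1)) p m) :
    ∃ p m, Q1 ([6, 4, 5] ++ Zl 7 (k + 1) ++ [3, 7, 1, 2, 0, 8 + (k + 1)])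
      (gT1 (k + 1 + 1)) p m := by
  have hres := qt1_stepO 6 4 5 1 k (Zl 7 (k + 1) ++ [3, 7]) (gT1 (k + 1 + 1)) hk heven
    (by simp [qt1_length_Zl]) hU (by rw [qt1_Zsucc]; (
    rw [List.perm_iff_count]
    intro x
    simp only [List.count_append, List.count_cons, List.count_nil, List.cons_append,
      List.nil_append, List.append_assoc]
    omega)) (by omega) (by omega)
    (by omega) ?_ ?_ (fun l hl => gT1_succ (k + 1) l hl)
  · have : 6 :: 4 :: 5 :: (Zl 7 (k + 1) ++ [3, 7] ++ [1, 2, 0] ++ [8 + (k + 1)]) =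
      [6, 4, 5] ++ Zl 7 (k + 1) ++ [3, 7, 1, 2, 0, 8 + (k + 1)] := by simp
    rwa [this] at hres
  · intro l' hl' hle
    have e0 : Zl 7 (k + 1) ++ [3, 7] ++ [1, 2] = Zl 7 (k + 1) ++ (3 :: 7 :: [1, 2]) := by simp
    rw [fl_cons_succ, fl_cons_succ, fl_cons_succ, e0, fl_Z37 _ _ _ (by omega)]
    ext x
    have := @mem_fl_Z (k + 1) l' x
    simp only [Finset.mem_union, Finset.mem_insert, Finset.mem_singleton, Finset.mem_erase]
    constructor
    · rintro (h | h)
      · omega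
      · exact ⟨by have := this h; omega, by tauto⟩
    · rintro ⟨h1, h2⟩
      tauto
  · unfold gT1
    rw [if_pos (by omega), if_pos (by omega)]
    simp [Finset.pair_comm]

theorem T1_family
    (hbase : ∃ p m, Q1 [6, 4, 5, 8, 3, 7, 1, 2, 0, 9] (gT1 2) p m) (k : ℕ) (hk : 1 ≤ k) :
    (k % 2 = 1 → ∃ p m, Q1 ([6, 4, 5] ++ Zl 7 k ++ [3, 7, 1, 2, 0, 8 + k]) (gT1 (k + 1)) p m) ∧
    (k % 2 = 0 → ∃ p m, Q1 ([0, 1, 2] ++ Zl 7 k ++ [7, 3, 4, 5, 6, 8 + k]) (gT1 (k + 1)) p m) := by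
  induction k, hk using Nat.le_induction with
  | base => exact ⟨fun _ => hbase, fun h => by omega⟩
  | succ k hk ih =>
    refine ⟨fun h => ?_, fun h => ?_⟩
    · exact qt1_stepOA k hk (by omega) (ih.2 (by omega))
    · exact qt1_stepE k hk (by omega) (ih.1 (by omega))

/-- last step of the first family -/
theorem T1_last
    (hbase : ∃ p m, Q1 [6, 4, 5, 8, 3, 7, 1, 2, 0, 9] (gT1 2) p m) (k : ℕ) (hk : 3 ≤ k)
    (hodd : k % 2 = 1) :
    ∃ p m, Q1 ([5, 1, 7 + k, 6] ++ Zl 7 (k - 1) ++ [7, 3, 4, 2, 0, 8 + k])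
      (fun l => if l = 1 then {5, 7 + k} else gT1 (k + 1) l) p m := by
  obtain ⟨j, rfl⟩ : ∃ j, k = j + 1 := ⟨k - 1, by omega⟩
  have hres := qt1_stepO 5 1 (8 + j) 4 j (6 :: (Zl 7 j ++ [7, 3]))
    (fun l => if l = 1 then {5, 7 + (j + 1)} else gT1 (j + 1 + 1) l) (by omega) (by omega)
    (by simp [qt1_length_Zl]) ((T1_family hbase j (by omega)).2 (by omega)) (by (
    rw [List.perm_iff_count]
    intro x
    simp only [List.count_append, List.count_cons, List.count_nil, List.cons_append,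
      List.nil_append, List.append_assoc]
    omega))
    (by omega) (by omega) (by omega) ?_ ?_ ?_
  · have : 5 :: 1 :: (8 + j) :: (6 :: (Zl 7 j ++ [7, 3]) ++ [4, 2, 0] ++ [8 + (j + 1)]) =
      [5, 1, 7 + (j + 1), 6] ++ Zl 7 (j + 1 - 1) ++ [7, 3, 4, 2, 0, 8 + (j + 1)] := by
      rw [show 7 + (j + 1) = 8 + j by ring, Nat.add_sub_cancel]
      simp
    rwa [this] at hres
  · intro l' hl' hle
    obtain ⟨l'', rfl⟩ : ∃ l'', l' = l'' + 1 := ⟨l' - 1, by omega⟩
    have e0 : 6 :: (Zl 7 j ++ [7, 3]) ++ [4, 2] = 6 :: ((Zl 7 j ++ [7, 3]) ++ [4, 2]) := by simp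
    have e1 : Zl 7 (j + 1) ++ [7, 3] = (8 + j) :: (Zl 7 j ++ [7, 3]) := by
      rw [qt1_Zsucc]; simp
    have e2 : fl ((Zl 7 j ++ [7, 3]) ++ [4, 2]) l'' = fl (Zl 7 j ++ [7, 3]) l'' :=
      fl_append_left (by simp [qt1_length_Zl]; omega)
    rw [e1, e0, fl_cons_succ, fl_cons_succ, fl_cons_succ, fl_cons_succ, fl_cons_succ, e2]
    ext x
    have := @mem_fl_Z j l'' x
    simp only [Finset.mem_union, Finset.mem_insert, Finset.mem_singleton, Finset.mem_erase]
    constructor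
    · rintro (h | h | h)
      · omega
      · omega
      · exact ⟨by have := this h; omega, by tauto⟩
    · rintro ⟨h1, h2⟩
      tauto
  · have : 7 + (j + 1) = 8 + j := by ring
    simp [this]
  · intro l hl
    show (if l + 1 = 1 then _ else gT1 (j + 1 + 1) (l + 1)) = _
    rw [if_neg (by omega)]
    exact gT1_succ (j + 1) l hl

end Pool.Agent.Lib.MP_bec39b_co
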