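import Pool.Agent.Lib.MP_bec39b_co.QStep
import Pool.Agent.Lib.MP_bec39b_co.AType

set_option autoImplicit false

namespace Pool.Agent.Lib.MP_bec39b_co

/-- The sets `g` of the third family. -/
def gT3 (j : ℕ) : ℕ → Finset ℕ := fun l =>
  if l ≤ j + 1 then (if (j + l) % 2 = 1 then {0, 2} else {5, 6}) ∪ fl (Zl 6 j) (l - 1)
  else if l = j + 2 then {3, 5, 6} ∪ (Zl 6 j).toFinset
  else if l = j + 3 then {0, 1, 5, 6} ∪ (Zl 6 j).toFinset
  else {0, 1, 3, 5, 6} ∪ (Zl 6 j).toFinset

namespace QT3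

theorem length_Zl (o k : ℕ) : (Zl o k).length = k := by
  induction k with
  | zero => rfl
  | succ k ih => simp [Zl, ih]

theorem mem_Zl (o k x : ℕ) : x ∈ Zl o k ↔ o < x ∧ x ≤ o + k := by
  induction k with
  | zero => simp [Zl]
  | succ k ih => simp only [Zl, List.mem_cons, ih]; omega

theorem nodup_Zl (o k : ℕ) : (Zl o k).Nodup := by
  induction k with
  | zero => simp [Zl]
  | succ k ih =>
    simp only [Zl, List.nodup_cons, mem_Zl, ih, and_true]
    omega

theorem mem_fl_Zl {o k l x : ℕ} (h : x ∈ fl (Zl o k) l) : o < x ∧ x ≤ o + k := by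
  have := fl_subset _ _ h
  rwa [List.mem_toFinset, mem_Zl] at this

theorem cp_nil (z : ℕ) : cp z (fun _ => []) (fun _ => []) = (fun _ => []) := by
  funext l; cases l <;> rfl

theorem cp_preA (z a c : ℕ) : cp z (preA a c) (fun _ => []) = preA a c := by
  funext l
  cases l with
  | zero => rfl
  | succ l => simp

theorem getElem?_sub2 (l : List ℕ) (x y : ℕ) :
    (l ++ [x, y])[(l ++ [x, y]).length - 2]? = some x := by
  have : (l ++ [x, y]).length - 2 = l.length := by simp
  rw [this]
  simp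

theorem getLast?_app (l : List ℕ) (l' : List ℕ) (x : ℕ) :
    (l ++ (l' ++ [x])).getLast? = some x := by
  rw [← List.append_assoc, List.getLast?_concat]

theorem upper {κ κ2 υ : List ℕ} {z : ℕ} {m1 m2 : ℕ → List (Finset ℕ)} (h1 : FS κ κ2 m1)
    (h2 : FS κ2 υ m2) (hz : z ∉ κ) :
    AB (κ ++ [z]) (z :: υ) (fun _ => []) (cp z m1 m2) := by
  have := h1.ab.comp h2.ab hz (fun l => Or.inl rfl) (fun l x hx => by simp at hx)
  rwa [cp_nil] at this

theorem lower {a b c z : ℕ} {σ' κ υ : List ℕ} {m1 m2 : ℕ → List (Finset ℕ)}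
    (h1 : AS a b c σ' κ m1) (h2 : AB κ υ (fun _ => []) m2) (hz : z ∉ a :: b :: c :: σ') :
    AB (a :: b :: c :: (σ' ++ [z])) (z :: υ) (preA a c) (cp z m1 m2) := by
  have := h1.ab.comp h2 hz (fun l => Or.inr rfl) (fun l x hx => by simp at hx)
  rwa [cp_preA] at this

/-- early sets of `C1(A, C1(F, F))` -/
theorem early_A {a c z : ℕ} {mA mU : ℕ → List (Finset ℕ)} {x : Finset ℕ}
    (h : Early (preA a c) mA x) : Early (preA a c) (cp z mA mU) x := by
  have := early_comp_left (z := z) (pU := fun _ => []) (mU := mU) h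
  rwa [cp_preA] at this

theorem early_U {a c z : ℕ} {mA mU : ℕ → List (Finset ℕ)} {x : Finset ℕ} (hz : z ∉ x)
    (h : Early (fun _ => []) mU x) : Early (preA a c) (cp z mA mU) (insert z x) := by
  have := early_comp_right (z := z) (pL := preA a c) (mL := mA) hz h
  rwa [cp_preA] at this

theorem early_UL {z : ℕ} {m1 m2 : ℕ → List (Finset ℕ)} {x : Finset ℕ}
    (h : Early (fun _ => []) m1 x) : Early (fun _ => []) (cp z m1 m2) x := by
  have := early_comp_left (z := z) (pU := fun _ => []) (mU := m2) h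
  rwa [cp_nil] at this

theorem early_UU {z : ℕ} {m1 m2 : ℕ → List (Finset ℕ)} {x : Finset ℕ} (hz : z ∉ x)
    (h : Early (fun _ => []) m2 x) : Early (fun _ => []) (cp z m1 m2) (insert z x) := by
  have := early_comp_right (z := z) (pL := fun _ => []) (mL := m1) hz h
  rwa [cp_nil] at this

theorem g_small {j l : ℕ} (h : l ≤ j + 1) : gT3 j l =
    (if (j + l) % 2 = 1 then {0, 2} else {5, 6}) ∪ fl (Zl 6 j) (l - 1) := if_pos h

theorem g_2 (j : ℕ) : gT3 j (j + 2) = {3, 5, 6} ∪ (Zl 6 j).toFinset := by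
  simp [gT3]

theorem g_3 (j : ℕ) : gT3 j (j + 3) = {0, 1, 5, 6} ∪ (Zl 6 j).toFinset := by
  simp [gT3]

theorem g_4 (j : ℕ) : gT3 j (j + 4) = {0, 1, 3, 5, 6} ∪ (Zl 6 j).toFinset := by
  simp [gT3]

/-- the recursion of the sets `g` -/
theorem g_succ (j l : ℕ) (h1 : 1 ≤ l) (hl : l ≤ j + 4) :
    gT3 (j + 1) (l + 1) = insert (7 + j) (gT3 j l) := by
  have hZ : Zl 6 (j + 1) = (7 + j) :: Zl 6 j := by
    simp only [Zl, List.cons.injEq, and_true]; omega
  obtain ⟨l, rfl⟩ : ∃ l', l = l' + 1 := ⟨l - 1, by omega⟩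
  rcases Nat.lt_or_ge (j + 1) (l + 1) with h | h
  · obtain rfl | rfl | rfl : l = j + 1 ∨ l = j + 2 ∨ l = j + 3 := by omega
    · rw [show j + 1 + 1 + 1 = (j + 1) + 2 by ring, g_2, show j + 1 + 1 = j + 2 by ring, g_2, hZ]
      ext x; simp only [List.toFinset_cons, Finset.mem_union, Finset.mem_insert,
        Finset.mem_singleton]; tauto
    · rw [show j + 2 + 1 + 1 = (j + 1) + 3 by ring, g_3, show j + 2 + 1 = j + 3 by ring, g_3, hZ]
      ext x; simp only [List.toFinset_cons, Finset.mem_union, Finset.mem_insert,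
        Finset.mem_singleton]; tauto
    · rw [show j + 3 + 1 + 1 = (j + 1) + 4 by ring, g_4, show j + 3 + 1 = j + 4 by ring, g_4, hZ]
      ext x; simp only [List.toFinset_cons, Finset.mem_union, Finset.mem_insert,
        Finset.mem_singleton]; tauto
  · rw [g_small (by omega), g_small h, hZ]
    have : (j + 1 + (l + 1 + 1)) % 2 = (j + (l + 1)) % 2 := by omega
    rw [this, Nat.add_sub_cancel, Nat.add_sub_cancel, fl_cons_succ]
    ext x; simp only [Finset.mem_union, Finset.mem_insert]; tauto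

theorem T3_even (k : ℕ) (hk : 3 ≤ k) (hodd : k % 2 = 1)
    (ih : ∃ p m, Q3 ([0, 3, 2] ++ Zl 6 k ++ [1, 4, 6, 5, 7 + k]) (gT3 (k + 1)) p m) :
    ∃ p m, Q3 ([5, 4, 6] ++ Zl 6 (k + 1) ++ [3, 1, 2, 0, 7 + (k + 1)]) (gT3 (k + 1 + 1)) p m := by
  obtain ⟨pU, mU, hU⟩ := ih
  have hZ : Zl 6 (k + 1) = (7 + k) :: Zl 6 k := by
    simp only [Zl, List.cons.injEq, and_true]; omega
  have hlen := length_Zl 6 k
  have hlen' := length_Zl 6 (k + 1)
  have hnd := nodup_Zl 6 (k + 1)
  have hmem := mem_Zl 6 (k + 1)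
  obtain ⟨m1, h1⟩ := F_exists ([2] ++ Zl 6 (k + 1) ++ [5, 6, 1, 4])
    ([4, 5, 6] ++ Zl 6 (k + 1) ++ [1, 2]) (by simp [hlen']; omega)
    (by simp [List.nodup_append, hnd, hmem]; omega) (by (rw [List.perm_iff_count]; intro xq; simp only [List.count_append, List.count_cons, List.count_nil, List.cons_append, List.nil_append, List.append_assoc]; omega))
    (by
      have := getLast?_app ([2] ++ Zl 6 (k + 1)) [5, 6, 1] 4
      simp only [List.cons_append, List.nil_append, List.head?_cons] at this ⊢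
      exact this.symm)
    (by
      rw [show [2] ++ Zl 6 (k + 1) ++ [5, 6, 1, 4] = ([2] ++ Zl 6 (k + 1) ++ [5, 6]) ++ [1, 4] by simp,
        getElem?_sub2]
      simp)
  obtain ⟨m2, h2⟩ := F_exists ([4, 5, 6] ++ Zl 6 (k + 1) ++ [1, 2])
    ([2] ++ Zl 6 k ++ [1, 4, 6, 5, 7 + k]) (by simp [hlen']; omega)
    (by simp [List.nodup_append, hnd, hmem]; omega) (by rw [hZ]; (rw [List.perm_iff_count]; intro xq; simp only [List.count_append, List.count_cons, List.count_nil, List.cons_append, List.nil_append, List.append_assoc]; omega))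
    (by
      have := getLast?_app ([4, 5, 6] ++ Zl 6 (k + 1)) [1] 2
      simp only [List.cons_append, List.nil_append, List.head?_cons] at this ⊢
      exact this.symm)
    (by
      rw [getElem?_sub2]
      obtain ⟨k, rfl⟩ : ∃ k', k = k' + 1 := ⟨k - 1, by omega⟩
      simp [Zl])
  obtain ⟨mA, hA⟩ := A_exists 5 4 6 (Zl 6 (k + 1) ++ [3, 1, 2])
    ([2] ++ Zl 6 (k + 1) ++ [5, 6, 1, 4, 3]) (by simp [hlen']; omega)
    (by simp [List.nodup_append, hnd, hmem]; omega) (by (rw [List.perm_iff_count]; intro xq; simp only [List.count_append, List.count_cons, List.count_nil, List.cons_append, List.nil_append, List.append_assoc]; omega))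
    (by
      have := getLast?_app (Zl 6 (k + 1)) [3, 1] 2
      simp only [List.cons_append, List.nil_append, List.head?_cons] at this ⊢
      exact this.symm)
    (by
      rw [show Zl 6 (k + 1) ++ [3, 1, 2] = (Zl 6 (k + 1) ++ [3]) ++ [1, 2] by simp,
        getElem?_sub2]
      simp [Zl])
  have hU2 := upper (z := 3) h1 h2 (by simp [hmem])
  rw [show [2] ++ Zl 6 (k + 1) ++ [5, 6, 1, 4, 3] = ([2] ++ Zl 6 (k + 1) ++ [5, 6, 1, 4]) ++ [3] by simp]
    at hA
  have hL := lower (z := 0) hA hU2 (by simp [hmem])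
  have e0 : 0 :: 3 :: ([2] ++ Zl 6 k ++ [1, 4, 6, 5, 7 + k]) =
    [0, 3, 2] ++ Zl 6 k ++ [1, 4, 6, 5, 7 + k] := by simp
  rw [e0] at hL
  have hlt : ([0, 3, 2] ++ Zl 6 k ++ [1, 4, 6, 5, 7 + k]).length = k + 8 := by
    simp [hlen]
  have := Q3_step (g' := gT3 (k + 1 + 1)) (z := 7 + (k + 1)) hL hU (by simp [hmem]; omega) ?_ ?_ ?_
  · simpa using this
  · intro l hl1 hl2
    rw [hlt] at hl2
    rcases Nat.lt_or_ge (k + 1 + 1) l with h | h
    · obtain rfl | rfl | rfl : l = k + 1 + 2 ∨ l = k + 1 + 3 ∨ l = k + 1 + 4 := by omega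
      · rw [g_2]
        refine early_A ?_
        have hK := (hA.K 2 (7 + k) (Zl 6 k ++ [5, 6, 1, 4] ++ [3]) (by rw [hZ]; simp) (by omega)
          (by omega) (k + 1 + 4) (by omega) (by simp [hlen'])).2
        convert hK using 1
        rw [show k + 1 + 4 = (k + 1 + 1) + 1 + 1 + 1 by ring, fl_cons_succ, fl_cons_succ, fl_cons_succ]
        have : fl (Zl 6 (k + 1) ++ [3, 1, 2]) (k + 1 + 1) = (Zl 6 (k + 1)).toFinset ∪ {3} := by
          have := fl_append_right (Zl 6 (k + 1)) [3, 1, 2] 1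
          rw [hlen'] at this
          rw [this]
          simp
        rw [this]
        ext x
        simp only [Finset.mem_union, Finset.mem_insert, Finset.mem_singleton, Finset.mem_erase,
          List.mem_toFinset, hmem]
        omega
      · rw [g_3]
        have := h1.ek 0 (by omega) (by omega) 4 (by simp) 2 (by simp) (by simp)
        have := early_U (a := 5) (c := 6) (z := 0) (mA := mA) (by simp [hmem])
          (early_UL (z := 3) (m2 := m2) this)
        convert this using 1
        ext x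
        simp only [Finset.mem_union, Finset.mem_insert, Finset.mem_singleton, Finset.mem_erase,
          List.mem_toFinset, hmem, List.mem_append, List.mem_cons, List.not_mem_nil, or_false]
        omega
      · rw [g_4]
        have := h2.ek 0 (by omega) (by omega) 2 (by simp) 4 (by simp)
          (by
            obtain ⟨k, rfl⟩ : ∃ k', k = k' + 1 := ⟨k - 1, by omega⟩
            simp [Zl]; omega)
        have := early_U (a := 5) (c := 6) (z := 0) (mA := mA) (by simp [hmem])
          (early_UU (z := 3) (m1 := m1) (by simp [hmem]) this)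
        convert this using 1
        ext x
        simp only [Finset.mem_union, Finset.mem_insert, Finset.mem_singleton, Finset.mem_erase,
          List.mem_toFinset, hmem, List.mem_append, List.mem_cons, List.not_mem_nil, or_false]
        omega
    · rw [g_small h]
      obtain ⟨l, rfl⟩ : ∃ l', l = l' + 1 := ⟨l - 1, by omega⟩
      rw [Nat.add_sub_cancel]
      split_ifs with hpar
      · have := hU2.early_head (k := l + 1) (by omega) (by simp [hlen']; omega)
        have := early_U (a := 5) (c := 6) (z := 0) (mA := mA) ?_ this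
        · convert this using 1
          rw [show [2] ++ Zl 6 (k + 1) ++ [5, 6, 1, 4] ++ [3] =
            2 :: (Zl 6 (k + 1) ++ ([5, 6, 1, 4] ++ [3])) by simp, fl_cons_succ,
            fl_append_left (by omega)]
          ext x
          simp only [Finset.mem_union, Finset.mem_insert, Finset.mem_singleton]
          tauto
        · intro h0
          have := fl_subset _ _ h0
          simp [hmem] at this
      · refine early_A ?_
        have hK := (hA.K 2 (7 + k) (Zl 6 k ++ [5, 6, 1, 4] ++ [3]) (by rw [hZ]; simp) (by omega)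
          (by omega) (l + 1 + 1 + 1) (by omega) (by simp [hlen']; omega)).2
        convert hK using 1
        rw [fl_cons_succ, fl_cons_succ, fl_cons_succ, fl_append_left (by omega)]
        ext x
        have : x ∈ fl (Zl 6 (k + 1)) l → 6 < x := fun h => (mem_fl_Zl h).1
        simp only [Finset.mem_union, Finset.mem_insert, Finset.mem_singleton, Finset.mem_erase]
        constructor
        · rintro ((h | h) | h)
          · omega
          · omega
          · have := this h
            exact ⟨by omega, Or.inr (Or.inr (Or.inr h))⟩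
        · rintro ⟨h1, h | h | h | h⟩
          · exact Or.inl (Or.inl h)
          · exact absurd h h1
          · exact Or.inl (Or.inr h)
          · exact Or.inr h
  · rw [g_small (by omega), if_neg (by omega)]
    simp
  · intro l hl1 hl2
    rw [hlt] at hl2
    exact g_succ (k + 1) l hl1 (by omega)

/-- the upper factor in the odd case -/
theorem U_odd (k : ℕ) (hk : 3 ≤ k) : ∃ m1 m2,
    FS ([6] ++ Zl 6 (k + 1) ++ [3, 0, 1, 2]) ([2, 0] ++ Zl 6 (k + 1) ++ [1, 3, 6]) m1 ∧
    AB ([6] ++ Zl 6 (k + 1) ++ [3, 0, 1, 2] ++ [4]) (4 :: ([6] ++ Zl 6 k ++ [3, 1, 2, 0, 7 + k]))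
      (fun _ => []) (cp 4 m1 m2) := by
  have hZ : Zl 6 (k + 1) = (7 + k) :: Zl 6 k := by
    simp only [Zl, List.cons.injEq, and_true]; omega
  have hlen := length_Zl 6 k
  have hlen' := length_Zl 6 (k + 1)
  have hnd := nodup_Zl 6 (k + 1)
  have hmem := mem_Zl 6 (k + 1)
  obtain ⟨m1, h1⟩ := F_exists ([6] ++ Zl 6 (k + 1) ++ [3, 0, 1, 2])
    ([2, 0] ++ Zl 6 (k + 1) ++ [1, 3, 6]) (by simp [hlen']; omega)
    (by simp [List.nodup_append, hnd, hmem]; omega) (by (rw [List.perm_iff_count]; intro xq; simp only [List.count_append, List.count_cons, List.count_nil, List.cons_append, List.nil_append, List.append_assoc]; omega))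
    (by
      have := getLast?_app ([6] ++ Zl 6 (k + 1)) [3, 0, 1] 2
      simp only [List.cons_append, List.nil_append, List.head?_cons] at this ⊢
      exact this.symm)
    (by
      rw [show [6] ++ Zl 6 (k + 1) ++ [3, 0, 1, 2] = ([6] ++ Zl 6 (k + 1) ++ [3, 0]) ++ [1, 2] by simp,
        getElem?_sub2]
      simp)
  obtain ⟨m2, h2⟩ := F_exists ([2, 0] ++ Zl 6 (k + 1) ++ [1, 3, 6])
    ([6] ++ Zl 6 k ++ [3, 1, 2, 0, 7 + k]) (by simp [hlen']; omega)
    (by simp [List.nodup_append, hnd, hmem]; omega) (by rw [hZ]; (rw [List.perm_iff_count]; intro xq; simp only [List.count_append, List.count_cons, List.count_nil, List.cons_append, List.nil_append, List.append_assoc]; omega))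
    (by
      have := getLast?_app ([2, 0] ++ Zl 6 (k + 1)) [1, 3] 6
      simp only [List.cons_append, List.nil_append, List.head?_cons] at this ⊢
      exact this.symm)
    (by
      rw [show [2, 0] ++ Zl 6 (k + 1) ++ [1, 3, 6] = ([2, 0] ++ Zl 6 (k + 1) ++ [1]) ++ [3, 6] by simp,
        getElem?_sub2]
      obtain ⟨k, rfl⟩ : ∃ k', k = k' + 1 := ⟨k - 1, by omega⟩
      simp [Zl]; omega)
  exact ⟨m1, m2, h1, upper (z := 4) h1 h2 (by simp [hmem])⟩

/-- the early sets in the odd case -/
theorem early_odd (k a c : ℕ) (hk : 3 ≤ k) (hev : k % 2 = 0) {υ : List ℕ}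
    {m1 m2 mA : ℕ → List (Finset ℕ)}
    (h1 : FS ([6] ++ Zl 6 (k + 1) ++ [3, 0, 1, 2]) ([2, 0] ++ Zl 6 (k + 1) ++ [1, 3, 6]) m1)
    (hU2 : AB ([6] ++ Zl 6 (k + 1) ++ [3, 0, 1, 2] ++ [4]) υ (fun _ => []) (cp 4 m1 m2))
    (hA : ∀ l, 1 ≤ l → l ≤ k + 1 →
      Early (preA a c) mA ({0, 2} ∪ fl (Zl 6 (k + 1)) l)) (l : ℕ) (hl1 : 1 ≤ l)
    (hl2 : l + 2 < k + 8) :
    Early (preA a c) (cp 5 mA (cp 4 m1 m2)) (gT3 (k + 1) l) := by
  have hlen' := length_Zl 6 (k + 1)
  have hnd := nodup_Zl 6 (k + 1)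
  have hmem := mem_Zl 6 (k + 1)
  rcases Nat.lt_or_ge (k + 1 + 1) l with h | h
  · obtain rfl | rfl | rfl : l = k + 1 + 2 ∨ l = k + 1 + 3 ∨ l = k + 1 + 4 := by omega
    · rw [g_2]
      have := hU2.early_head (k := k + 1 + 2) (by omega) (by simp [hlen'])
      have := early_U (a := a) (c := c) (z := 5) (mA := mA) ?_ this
      · convert this using 1
        rw [show [6] ++ Zl 6 (k + 1) ++ [3, 0, 1, 2] ++ [4] =
          6 :: (Zl 6 (k + 1) ++ [3, 0, 1, 2, 4]) by simp,
          show k + 1 + 2 = (k + 1 + 1) + 1 by ring, fl_cons_succ]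
        have : fl (Zl 6 (k + 1) ++ [3, 0, 1, 2, 4]) (k + 1 + 1) =
            (Zl 6 (k + 1)).toFinset ∪ {3} := by
          have := fl_append_right (Zl 6 (k + 1)) [3, 0, 1, 2, 4] 1
          rw [hlen'] at this
          rw [this]
          simp
        rw [this]
        ext x
        simp only [Finset.mem_union, Finset.mem_insert, Finset.mem_singleton]
        tauto
      · intro h0
        have := fl_subset _ _ h0
        simp [hmem] at this
    · rw [g_3]
      have := h1.ek 0 (by omega) (by omega) 2 (by simp) 3 (by simp) (by simp)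
      have := early_U (a := a) (c := c) (z := 5) (mA := mA) (by simp [hmem])
        (early_UL (z := 4) (m2 := m2) this)
      convert this using 1
      ext x
      simp only [Finset.mem_union, Finset.mem_insert, Finset.mem_singleton, Finset.mem_erase,
        List.mem_toFinset, hmem, List.mem_append, List.mem_cons, List.not_mem_nil, or_false]
      omega
    · rw [g_4]
      have := h1.ab.early_erase rfl (x := 2) (by simp) (by
        have := getLast?_app ([2, 0] ++ Zl 6 (k + 1)) [1, 3] 6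
        simp only [List.cons_append, List.nil_append] at this ⊢
        rw [this]
        simp)
      have := early_U (a := a) (c := c) (z := 5) (mA := mA) (by simp [hmem])
        (early_UL (z := 4) (m2 := m2) this)
      convert this using 1
      ext x
      simp only [Finset.mem_union, Finset.mem_insert, Finset.mem_singleton, Finset.mem_erase,
        List.mem_toFinset, hmem, List.mem_append, List.mem_cons, List.not_mem_nil, or_false]
      omega
  · rw [g_small h]
    obtain ⟨l, rfl⟩ : ∃ l', l = l' + 1 := ⟨l - 1, by omega⟩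
    rw [Nat.add_sub_cancel]
    split_ifs with hpar
    · exact early_A (hA l (by omega) (by omega))
    · have := hU2.early_head (k := l + 1) (by omega) (by simp [hlen']; omega)
      have := early_U (a := a) (c := c) (z := 5) (mA := mA) ?_ this
      · convert this using 1
        rw [show [6] ++ Zl 6 (k + 1) ++ [3, 0, 1, 2] ++ [4] =
          6 :: (Zl 6 (k + 1) ++ [3, 0, 1, 2, 4]) by simp, fl_cons_succ,
          fl_append_left (by omega)]
        ext x
        simp only [Finset.mem_union, Finset.mem_insert, Finset.mem_singleton]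
        tauto
      · intro h0
        have := fl_subset _ _ h0
        simp [hmem] at this

theorem T3_odd (k : ℕ) (hk : 3 ≤ k) (hev : k % 2 = 0)
    (ih : ∃ p m, Q3 ([5, 4, 6] ++ Zl 6 k ++ [3, 1, 2, 0, 7 + k]) (gT3 (k + 1)) p m) :
    ∃ p m, Q3 ([0, 3, 2] ++ Zl 6 (k + 1) ++ [1, 4, 6, 5, 7 + (k + 1)]) (gT3 (k + 1 + 1)) p m := by
  obtain ⟨pU, mU, hU⟩ := ih
  have hZ : Zl 6 (k + 1) = (7 + k) :: Zl 6 k := by
    simp only [Zl, List.cons.injEq, and_true]; omega
  have hlen := length_Zl 6 k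
  have hlen' := length_Zl 6 (k + 1)
  have hnd := nodup_Zl 6 (k + 1)
  have hmem := mem_Zl 6 (k + 1)
  obtain ⟨m1, m2, h1, hU2⟩ := U_odd k hk
  obtain ⟨mA, hA⟩ := A_exists 0 3 2 (Zl 6 (k + 1) ++ [1, 4, 6])
    ([6] ++ Zl 6 (k + 1) ++ [3, 0, 1, 2] ++ [4]) (by simp [hlen']; omega)
    (by simp [List.nodup_append, hnd, hmem]; omega) (by (rw [List.perm_iff_count]; intro xq; simp only [List.count_append, List.count_cons, List.count_nil, List.cons_append, List.nil_append, List.append_assoc]; omega))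
    (by
      have := getLast?_app (Zl 6 (k + 1)) [1, 4] 6
      simp only [List.cons_append, List.nil_append, List.head?_cons] at this ⊢
      exact this.symm)
    (by
      rw [show Zl 6 (k + 1) ++ [1, 4, 6] = (Zl 6 (k + 1) ++ [1]) ++ [4, 6] by simp,
        getElem?_sub2]
      simp [Zl]; omega)
  have hL := lower (z := 5) hA hU2 (by simp [hmem])
  have e0 : 5 :: 4 :: ([6] ++ Zl 6 k ++ [3, 1, 2, 0, 7 + k]) =
    [5, 4, 6] ++ Zl 6 k ++ [3, 1, 2, 0, 7 + k] := by simp
  rw [e0] at hL
  have hlt : ([5, 4, 6] ++ Zl 6 k ++ [3, 1, 2, 0, 7 + k]).length = k + 8 := by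
    simp [hlen]
  have := Q3_step (g' := gT3 (k + 1 + 1)) (z := 7 + (k + 1)) hL hU (by simp [hmem]; omega) ?_ ?_ ?_
  · simpa using this
  · intro l hl1 hl2
    rw [hlt] at hl2
    refine early_odd k 0 2 hk hev h1 hU2 ?_ l hl1 hl2
    intro l hl1 hl2
    have hK := (hA.K 6 (7 + k) (Zl 6 k ++ [3, 0, 1, 2] ++ [4]) (by rw [hZ]; simp) (by omega)
      (by omega) (l + 1 + 1 + 1) (by omega) (by simp [hlen']; omega)).2
    convert hK using 1
    rw [fl_cons_succ, fl_cons_succ, fl_cons_succ, fl_append_left (by omega)]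
    ext x
    have : x ∈ fl (Zl 6 (k + 1)) l → 6 < x := fun h => (mem_fl_Zl h).1
    simp only [Finset.mem_union, Finset.mem_insert, Finset.mem_singleton, Finset.mem_erase]
    constructor
    · rintro ((h | h) | h)
      · omega
      · omega
      · have := this h
        exact ⟨by omega, Or.inr (Or.inr (Or.inr h))⟩
    · rintro ⟨h1, h | h | h | h⟩
      · exact Or.inl (Or.inl h)
      · exact absurd h h1
      · exact Or.inl (Or.inr h)
      · exact Or.inr h
  · rw [g_small (by omega), if_pos (by omega)]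
    simp
  · intro l hl1 hl2
    rw [hlt] at hl2
    exact g_succ (k + 1) l hl1 (by omega)

end QT3

open QT3

theorem T3_family
    (hbase : ∃ p m, Q3 [0, 3, 2, 9, 8, 7, 1, 4, 6, 5, 10] (gT3 4) p m) (k : ℕ) (hk : 3 ≤ k) :
    (k % 2 = 1 → ∃ p m, Q3 ([0, 3, 2] ++ Zl 6 k ++ [1, 4, 6, 5, 7 + k]) (gT3 (k + 1)) p m) ∧
    (k % 2 = 0 → ∃ p m, Q3 ([5, 4, 6] ++ Zl 6 k ++ [3, 1, 2, 0, 7 + k]) (gT3 (k + 1)) p m) := by
  induction k, hk using Nat.le_induction with
  | base => exact ⟨fun _ => by simpa [Zl] using hbase, fun h => by omega⟩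
  | succ k hk ih =>
    refine ⟨fun h => ?_, fun h => ?_⟩
    · exact T3_odd k hk (by omega) (ih.2 (by omega))
    · exact T3_even k hk (by omega) (ih.1 (by omega))

theorem T3_last
    (hbase : ∃ p m, Q3 [0, 3, 2, 9, 8, 7, 1, 4, 6, 5, 10] (gT3 4) p m) (k : ℕ) (hk : 5 ≤ k)
    (hodd : k % 2 = 1) :
    ∃ p m, Q3 ([4, 0, 6 + k, 2] ++ Zl 6 (k - 1) ++ [1, 3, 6, 5, 7 + k])
      (fun l => if l = 1 then {4, 6 + k} else gT3 (k + 1) l) p m := by
  obtain ⟨k, rfl⟩ : ∃ k', k = k' + 1 := ⟨k - 1, by omega⟩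
  have hk : 3 ≤ k := by omega
  obtain ⟨pU, mU, hU⟩ := (T3_family hbase k hk).2 (by omega)
  rw [Nat.add_sub_cancel, show 6 + (k + 1) = 7 + k by ring]
  have hZ : Zl 6 (k + 1) = (7 + k) :: Zl 6 k := by
    simp only [Zl, List.cons.injEq, and_true]; omega
  have hlen := length_Zl 6 k
  have hlen' := length_Zl 6 (k + 1)
  have hnd := nodup_Zl 6 (k + 1)
  have hmem := mem_Zl 6 (k + 1)
  have hnd' := nodup_Zl 6 k
  have hmem' := mem_Zl 6 k
  obtain ⟨m1, m2, h1, hU2⟩ := U_odd k hk
  obtain ⟨mA, hA⟩ := A_exists 4 0 (7 + k) ([2] ++ Zl 6 k ++ [1, 3, 6])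
    ([6] ++ Zl 6 (k + 1) ++ [3, 0, 1, 2] ++ [4]) (by simp [hlen]; omega)
    (by
      simp [List.nodup_append, hnd', hmem']
      exact ⟨by omega, by omega, by omega, by omega⟩) (by rw [hZ]; (rw [List.perm_iff_count]; intro xq; simp only [List.count_append, List.count_cons, List.count_nil, List.cons_append, List.nil_append, List.append_assoc]; omega))
    (by
      have := getLast?_app ([2] ++ Zl 6 k) [1, 3] 6
      simp only [List.cons_append, List.nil_append, List.head?_cons] at this ⊢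
      exact this.symm)
    (by
      rw [show [2] ++ Zl 6 k ++ [1, 3, 6] = ([2] ++ Zl 6 k ++ [1]) ++ [3, 6] by simp,
        getElem?_sub2]
      simp [Zl]; omega)
  have hL := lower (z := 5) hA hU2 (by simp [hmem']; omega)
  have e0 : 5 :: 4 :: ([6] ++ Zl 6 k ++ [3, 1, 2, 0, 7 + k]) =
    [5, 4, 6] ++ Zl 6 k ++ [3, 1, 2, 0, 7 + k] := by simp
  rw [e0] at hL
  have hlt : ([5, 4, 6] ++ Zl 6 k ++ [3, 1, 2, 0, 7 + k]).length = k + 8 := by
    simp [hlen]
  have := Q3_step (g' := fun l => if l = 1 then {4, 7 + k} else gT3 (k + 1 + 1) l)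
    (z := 7 + (k + 1)) hL hU (by simp [hmem']; omega) ?_ ?_ ?_
  · simpa using this
  · intro l hl1 hl2
    rw [hlt] at hl2
    refine early_odd k 4 (7 + k) hk (by omega) h1 hU2 ?_ l hl1 hl2
    intro l hl1 hl2
    obtain ⟨l, rfl⟩ : ∃ l', l = l' + 1 := ⟨l - 1, by omega⟩
    have hK := (hA.K 6 (7 + k) (Zl 6 k ++ [3, 0, 1, 2] ++ [4]) (by rw [hZ]; simp) (by omega)
      (by omega) (l + 1 + 1 + 1 + 1) (by omega) (by simp [hlen]; omega)).1
    convert hK using 1
    rw [show [2] ++ Zl 6 k ++ [1, 3, 6] = 2 :: (Zl 6 k ++ [1, 3, 6]) by simp, hZ]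
    rw [fl_cons_succ, fl_cons_succ, fl_cons_succ, fl_cons_succ, fl_cons_succ,
      fl_append_left (by omega)]
    ext x
    have : x ∈ fl (Zl 6 k) l → 6 < x := fun h => (mem_fl_Zl h).1
    simp only [Finset.mem_union, Finset.mem_insert, Finset.mem_singleton, Finset.mem_erase]
    constructor
    · rintro ((h | h) | h | h)
      · exact ⟨by omega, Or.inr (Or.inl h)⟩
      · exact ⟨by omega, Or.inr (Or.inr (Or.inr (Or.inl h)))⟩
      · exact ⟨by omega, Or.inr (Or.inr (Or.inl h))⟩
      · have := this h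
        exact ⟨by omega, Or.inr (Or.inr (Or.inr (Or.inr h)))⟩
    · rintro ⟨h1, h | h | h | h | h⟩
      · exact absurd h h1
      · exact Or.inl (Or.inl h)
      · exact Or.inr (Or.inl h)
      · exact Or.inl (Or.inr h)
      · exact Or.inr (Or.inr h)
  · simp
  · intro l hl1 hl2
    rw [hlt] at hl2
    simp only [Nat.add_eq_right]
    rw [if_neg (by omega)]
    exact g_succ (k + 1) l hl1 (by omega)

end Pool.Agent.Lib.MP_bec39b_co
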