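import Pool.Agent.Lib.MP_bec39b_co.AP
import Pool.Agent.Lib.MP_bec39b_co.Conv2
import Pool.Agent.Lib.MP_bec39b_co.QT1
import Pool.Agent.Lib.MP_bec39b_co.QT3
import Pool.Agent.Lib.MP_bec39b_co.BaseData

set_option autoImplicit false

namespace Pool.Agent.Lib.MP_bec39b_co

theorem pD_eq_nil {n : ℕ} {D : List (List ℕ × List ℕ)} {l : ℕ} (h : D.length ≤ l) :
    pD n D l = [] := by
  rw [pD, List.getD_eq_default _ _ h]; rfl

/-- Comparison of the first segments with an explicit function. -/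
theorem pD_eq {n k : ℕ} {D : List (List ℕ × List ℕ)} {q : ℕ → List (Finset ℕ)}
    (hk : D.length = k) (h1 : ∀ l < k, pD n D l = q l) (h2 : ∀ l, k ≤ l → q l = []) :
    pD n D = q := by
  funext l
  by_cases hl : l < k
  · exact h1 l hl
  · rw [h2 l (by omega), pD_eq_nil (by omega)]

theorem apP_eq_nil (y1 y2 y3 p w t1 t2 q : ℕ) (l : ℕ) (hl : 10 ≤ l) :
    apP [y1, y2, y3] p w t1 t2 q l = [] := by
  unfold apP
  rw [if_neg, if_neg]
  · simp only [List.length_cons, List.length_nil]; omega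
  · simp only [List.length_cons, List.length_nil]; omega

theorem p_II1_can : pD 9 d_II1_can = apP [0, 1, 2] 5 6 3 4 8 :=
  pD_eq (k := 10) rfl (by decide +kernel) (apP_eq_nil _ _ _ _ _ _ _ _)
theorem p_II1_out : pD 9 d_II1_out = apP [0, 1, 2] 5 6 3 4 8 :=
  pD_eq (k := 10) rfl (by decide +kernel) (apP_eq_nil _ _ _ _ _ _ _ _)
theorem p_II3_can : pD 9 d_II3_can = apP [0, 1, 2] 5 6 3 4 8 :=
  pD_eq (k := 10) rfl (by decide +kernel) (apP_eq_nil _ _ _ _ _ _ _ _)
theorem p_II3_out : pD 9 d_II3_out = apP [0, 1, 2] 5 6 3 4 8 :=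
  pD_eq (k := 10) rfl (by decide +kernel) (apP_eq_nil _ _ _ _ _ _ _ _)
theorem p_I_can2 : pD 9 d_I_can2 = apP [0, 1, 2] 5 6 3 4 6 :=
  pD_eq (k := 10) rfl (by decide +kernel) (apP_eq_nil _ _ _ _ _ _ _ _)
theorem p_I_out3 : pD 9 d_I_out3 = apP [0, 1, 2] 5 6 3 4 6 :=
  pD_eq (k := 10) rfl (by decide +kernel) (apP_eq_nil _ _ _ _ _ _ _ _)

/-- Relabelling of a system on nine elements. -/
theorem AB.base {σ τ : List ℕ} {D : List (List ℕ × List ℕ)} {q : ℕ}
    (t1 t2 p w R1 X y1 y2 y3 : ℕ) (nd : [y1, y2, y3, t1, t2, p, w, R1, X].Nodup)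
    (h1 : checkSys 9 D = true) (h2 : checkFlags 9 D σ τ = true)
    (hp : pD 9 D = apP [0, 1, 2] 5 6 3 4 q) :
    ∃ m, AB (σ.map fun i => [y1, y2, y3, t1, t2, p, w, R1, X].getD i 0)
      (τ.map fun i => [y1, y2, y3, t1, t2, p, w, R1, X].getD i 0)
      (apP [y1, y2, y3] p w t1 t2 ([y1, y2, y3, t1, t2, p, w, R1, X].getD q 0)) m := by
  have h := checkAB h1 h2
  have hf := injOn_getD (n := 9) nd rfl
  have hR : σ.toFinset = Finset.range 9 := by
    obtain ⟨a1, a2, a3, _⟩ := of_decide_eq_true h2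
    exact toFinset_eq_range a1 a2 a3
  rw [← hR] at hf
  have h3 := h.relabel hf
  rw [hp, im_apP] at h3
  exact ⟨_, h3⟩

/-- type II, tail `t1 t2 w X p R1`, canonical first flag (data `II1_can`) -/
theorem base_II1_can (t1 t2 p w R1 X : ℕ) (y1 y2 y3 : ℕ)
    (nd : [y1, y2, y3, t1, t2, p, w, R1, X].Nodup) :
    ∃ m, AB [R1, y2, y3, t1, t2, X, p, w, y1] ([y1, y2, y3] ++ [t1, t2, w, X, p, R1])
      (apP [y1, y2, y3] p w t1 t2 X) m :=
  AB.base t1 t2 p w R1 X y1 y2 y3 nd c_II1_can cf_II1_can p_II1_can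

/-- type II, tail `t1 t2 w X p R1`, outer first flag (data `II1_out`) -/
theorem base_II1_out (t1 t2 p w R1 X : ℕ) (y1 y2 y3 : ℕ)
    (nd : [y1, y2, y3, t1, t2, p, w, R1, X].Nodup) :
    ∃ m, AB [X, y2, R1, y3, t1, t2, p, w, y1] ([y1, y2, y3] ++ [t1, t2, w, X, p, R1])
      (apP [y1, y2, y3] p w t1 t2 X) m :=
  AB.base t1 t2 p w R1 X y1 y2 y3 nd c_II1_out cf_II1_out p_II1_out

/-- type II, tail `t1 R1 w t2 p X`, canonical first flag (data `II3_can`) -/
theorem base_II3_can (t1 t2 p w R1 X : ℕ) (y1 y2 y3 : ℕ)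
    (nd : [y1, y2, y3, t1, t2, p, w, R1, X].Nodup) :
    ∃ m, AB [R1, y2, y3, t1, t2, X, p, w, y1] ([y1, y2, y3] ++ [t1, R1, w, t2, p, X])
      (apP [y1, y2, y3] p w t1 t2 X) m :=
  AB.base t1 t2 p w R1 X y1 y2 y3 nd c_II3_can cf_II3_can p_II3_can

/-- type II, tail `t1 R1 w t2 p X`, outer first flag (data `II3_out`) -/
theorem base_II3_out (t1 t2 p w R1 X : ℕ) (y1 y2 y3 : ℕ)
    (nd : [y1, y2, y3, t1, t2, p, w, R1, X].Nodup) :
    ∃ m, AB [X, y2, R1, y3, t1, t2, p, w, y1] ([y1, y2, y3] ++ [t1, R1, w, t2, p, X])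
      (apP [y1, y2, y3] p w t1 t2 X) m :=
  AB.base t1 t2 p w R1 X y1 y2 y3 nd c_II3_out cf_II3_out p_II3_out

/-- type I, tail `t1 t2 X R1 w p`, canonical first flag (data `I_can2`) -/
theorem base_I_can (t1 t2 p w R1 X : ℕ) (y1 y2 y3 : ℕ)
    (nd : [y1, y2, y3, t1, t2, p, w, R1, X].Nodup) :
    ∃ m, AB [R1, y2, y3, t1, t2, X, p, w, y1] ([y1, y2, y3] ++ [t1, t2, X, R1, w, p])
      (apP [y1, y2, y3] p w t1 t2 w) m :=
  AB.base t1 t2 p w R1 X y1 y2 y3 nd c_I_can2 cf_I_can2 p_I_can2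

/-- type I, tail `t1 t2 X R1 w p`, outer first flag of variant 3 (data `I_out3`) -/
theorem base_I_out3 (t1 t2 p w R1 X : ℕ) (y1 y2 y3 : ℕ)
    (nd : [y1, y2, y3, t1, t2, p, w, R1, X].Nodup) :
    ∃ m, AB [t2, R1, y2, y3, t1, X, p, w, y1] ([y1, y2, y3] ++ [t1, t2, X, R1, w, p])
      (apP [y1, y2, y3] p w t1 t2 w) m :=
  AB.base t1 t2 p w R1 X y1 y2 y3 nd c_I_out3 cf_I_out3 p_I_out3

/-- Systems of type `BB` from data. -/
theorem BB.base {D : List (List ℕ × List ℕ)} {E : List ℕ} {G : ℕ → Finset ℕ}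
    (h : checkSys 10 D = true) (hE : E.length = 10 ∧ E.Nodup ∧ ∀ a ∈ E, a < 10)
    (hp : ∀ l < 11, pD 10 D l = []) (h0 : mD 10 D 0 = [∅]) {x : ℕ}
    (h1 : (mD 10 D 1).head? = some {x})
    (hd : ∀ l < 10, 2 ≤ l → (mD 10 D l).head? = some (G l))
    (lt : ∀ l < 10, 1 ≤ l → (mD 10 D l).getLast? = some (fl E l))
    (G2 : ∀ a b c E', E = a :: b :: c :: E' → G 2 = {a, c})
    (htop : mD 10 D 10 = []) : BB E G (mD 10 D) := by
  obtain ⟨a1, a2, a3⟩ := hE
  have hS := checkSys_sys h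
  have hlen : D.length = 11 := by
    unfold checkSys at h
    rw [Bool.and_eq_true, Bool.and_eq_true] at h
    exact Nat.eq_of_beq_eq_true h.1.1
  have hp' : pD 10 D = fun _ => [] := pD_eq hlen hp (fun _ _ => rfl)
  rw [hp', ← toFinset_eq_range a1 a2 a3] at hS
  refine ⟨hS, a2, by omega, h0, ⟨x, h1⟩, ?_, ?_, G2, ?_, ?_⟩
  · intro l hl1 hl2; exact hd l (by omega) hl1
  · intro l hl1 hl2; exact lt l (by omega) hl1
  · intro _; rw [a1]; exact htop
  · intro ho; rw [a1] at ho; omega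

theorem BB_nested0 : BB [9, 8, 3, 5, 1, 2, 6, 0, 4, 7]
    (fun l => if l = 2 then {9, 3} else fl [0, 1, 2, 3, 4, 5, 6, 7, 8, 9] l)
    (mD 10 d_BB_nested) := by
  refine BB.base (x := 0) c_BB_nested (by decide) (by decide +kernel) (by decide +kernel)
    (by decide +kernel) (by decide +kernel) (by decide +kernel) ?_ (by decide +kernel)
  intro a b c E' hE
  injection hE with h1 h2
  injection h2 with h2 h3
  injection h3 with h3 h4
  subst h1 h3
  rfl

theorem BB_M0 : BB [9, 1, 3, 2, 4, 5, 6, 7, 8, 0] (GM [2, 3, 4, 5, 6, 7] 3 0 1 8 9)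
    (mD 10 d_BB_M) := by
  refine BB.base (x := 0) c_BB_M (by decide) (by decide +kernel) (by decide +kernel)
    (by decide +kernel) (by decide +kernel) (by decide +kernel) ?_ (by decide +kernel)
  intro a b c E' hE
  injection hE with h1 h2
  injection h2 with h2 h3
  injection h3 with h3 h4
  subst h1 h3
  rfl

/-- data `nested` of bbbase.json -/
theorem base_nested (h1 h2 h3 h4 h5 h6 h7 h8 h9 h10 : ℕ)
    (nd : [h1, h2, h3, h4, h5, h6, h7, h8, h9, h10].Nodup) :
    ∃ m, BB [h10, h9, h4, h6, h2, h3, h7, h1, h5, h8]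
      (fun l => if l = 2 then {h10, h4} else fl [h1, h2, h3, h4, h5, h6, h7, h8, h9, h10] l) m := by
  have hf := injOn_getD (n := 10) nd rfl
  have hR : [9, 8, 3, 5, 1, 2, 6, 0, 4, 7].toFinset = Finset.range 10 := by decide
  rw [← hR] at hf
  have h := BB_nested0.relabel hf
  have hG : (fun l => (if l = 2 then ({9, 3} : Finset ℕ)
      else fl [0, 1, 2, 3, 4, 5, 6, 7, 8, 9] l).image
        (fun i => [h1, h2, h3, h4, h5, h6, h7, h8, h9, h10].getD i 0)) =
      fun l => if l = 2 then {h10, h4} else fl [h1, h2, h3, h4, h5, h6, h7, h8, h9, h10] l := by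
    funext l
    split_ifs with hl
    · simp [Finset.image_insert]
    · rw [← fl_map]; rfl
  rw [hG] at h
  exact ⟨_, h⟩

/-- data `M` of bbbase.json -/
theorem base_M (w ws y1 y2 y3 y4 y5 y6 wt e : ℕ)
    (nd : [w, ws, y1, y2, y3, y4, y5, y6, wt, e].Nodup) :
    ∃ m, BB [e, ws, y2, y1, y3, y4, y5, y6, wt, w]
      (GM [y1, y2, y3, y4, y5, y6] y2 w ws wt e) m := by
  have hf := injOn_getD (n := 10) nd rfl
  have hR : [9, 1, 3, 2, 4, 5, 6, 7, 8, 0].toFinset = Finset.range 10 := by decide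
  rw [← hR] at hf
  have h := BB_M0.relabel hf
  have hG : (fun l => (GM [2, 3, 4, 5, 6, 7] 3 0 1 8 9 l).image
        (fun i => [w, ws, y1, y2, y3, y4, y5, y6, wt, e].getD i 0)) =
      GM [y1, y2, y3, y4, y5, y6] y2 w ws wt e := by
    funext l
    unfold GM
    simp only [List.length_cons, List.length_nil]
    split_ifs with hl
    · simp [Finset.image_insert]
    · rw [Finset.image_insert, Finset.image_insert, ← fl_map]; rfl
    · simp [Finset.image_insert]
    · simp [Finset.image_insert]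
  rw [hG] at h
  exact ⟨_, h⟩

/-- The condition `pp` of `Q1` and `Q3` for one phase. -/
def chkpp (n : ℕ) (D : List (List ℕ × List ℕ)) (g : ℕ → Finset ℕ) (l : ℕ) : Bool :=
  match (D.getD l ([], [])).1, (D.getD (l - 1) ([], [])).2.getLast? with
  | [f, h], some e => decide (bs n h = g l) && (decide ((bs n f).card = l) && nb n e f)
  | _, _ => false

theorem chkpp_spec {n : ℕ} {D : List (List ℕ × List ℕ)} {g : ℕ → Finset ℕ} {l : ℕ}
    (h : chkpp n D g l = true) : ∃ f e, pD n D l = [f, g l] ∧ f.card = l ∧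
      (mD n D (l - 1)).getLast? = some e ∧ Adj e f := by
  unfold chkpp at h
  split at h
  · rename_i f h' e he1 he2
    rw [Bool.and_eq_true, Bool.and_eq_true] at h
    obtain ⟨a1, a2, a3⟩ := h
    have a1 := of_decide_eq_true a1
    have a2 := of_decide_eq_true a2
    refine ⟨bs n f, bs n e, ?_, a2, ?_, nb_adj a3⟩
    · rw [pD, he1, ← a1]; rfl
    · rw [mD, List.getLast?_map, he2]; rfl
  · exact absurd h (by simp)

theorem base_Q1 : ∃ p m, Q1 [6, 4, 5, 8, 3, 7, 1, 2, 0, 9] (gT1 2) p m := by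
  refine ⟨pD 10 d_Q_T1, mD 10 d_Q_T1, ?_⟩
  have hR : [6, 4, 5, 8, 3, 7, 1, 2, 0, 9].toFinset = Finset.range 10 := by decide
  refine ⟨?_, by decide, by decide, ?_, by decide +kernel, ?_, by decide +kernel,
    by decide +kernel, by decide +kernel⟩
  · rw [hR]; exact checkSys_sys c_Q_T1
  · have : ∀ l < 9, (mD 10 d_Q_T1 l).head? =
        some (fl [6, 4, 5, 8, 3, 7, 1, 2, 0, 9] (l + 1)) := by decide +kernel
    intro l hl
    refine this l ?_
    simp only [List.length_cons, List.length_nil] at hl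
    omega
  · have : ∀ l < 10, 1 ≤ l → chkpp 10 d_Q_T1 (gT1 2) l = true := by decide +kernel
    intro l h1 hl
    exact chkpp_spec (this l (by simpa using hl) h1)

theorem base_Q3 : ∃ p m, Q3 [0, 3, 2, 9, 8, 7, 1, 4, 6, 5, 10] (gT3 4) p m := by
  refine ⟨pD 11 d_Q_T3, mD 11 d_Q_T3, ?_⟩
  have hR : [0, 3, 2, 9, 8, 7, 1, 4, 6, 5, 10].toFinset = Finset.range 11 := by decide
  refine ⟨?_, by decide, by decide, ?_, by decide +kernel, ?_, ?_, by decide +kernel,
    by decide +kernel, ?_, by decide +kernel, by decide +kernel⟩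
  · rw [hR]; exact checkSys_sys c_Q_T3
  · have : ∀ l < 9, (mD 11 d_Q_T3 l).head? =
        some (fl [0, 3, 2, 9, 8, 7, 1, 4, 6, 5, 10] (l + 1)) := by decide +kernel
    intro l hl
    refine this l ?_
    simp only [List.length_cons, List.length_nil] at hl
    omega
  · have : ∀ l < 9, 1 ≤ l → chkpp 11 d_Q_T3 (gT3 4) l = true := by decide +kernel
    intro l h1 hl
    simp only [List.length_cons, List.length_nil] at hl
    exact chkpp_spec (this l (by omega) h1)
  · refine ⟨(pD 11 d_Q_T3 9).dropLast, bs 11 2035, bs 11 2003, by decide +kernel,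
      by decide +kernel, by decide +kernel, nb_adj (by decide +kernel), by decide +kernel⟩
  · exact ⟨bs 11 2039, by decide +kernel⟩

/-- the small cases -/
theorem small_listing (n : ℕ) (h1 : 1 ≤ n) (h2 : n ≤ 12) : ∃ N : Finset ℕ, N.card = n ∧ Listing N := by
  refine ⟨Finset.range n, Finset.card_range n, ?_⟩
  interval_cases n
  · exact checkListing_listing cl_1
  · exact checkListing_listing cl_2
  · exact checkListing_listing cl_3
  · exact checkListing_listing cl_4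
  · exact checkListing_listing cl_5
  · exact checkListing_listing cl_6
  · exact checkListing_listing cl_7
  · exact checkListing_listing cl_8
  · exact checkListing_listing cl_9
  · exact checkListing_listing cl_10
  · exact checkListing_listing cl_11
  · exact checkListing_listing cl_12

end Pool.Agent.Lib.MP_bec39b_co
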