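import Pool.Agent.Lib.MP_bec39b_co.Defs

set_option autoImplicit false

namespace Pool.Agent.Lib.MP_bec39b_co

/-! ### Bit masks -/

/-- The set coded by the bit mask `x` (only the bits below `n` count). -/
def bs (n x : ℕ) : Finset ℕ := (Finset.range n).filter fun a => x.testBit a = true

theorem mem_bs {n x a : ℕ} : a ∈ bs n x ↔ a < n ∧ x.testBit a = true := by
  simp [bs]

theorem bs_subset (n x : ℕ) : bs n x ⊆ Finset.range n := Finset.filter_subset _ _

@[simp] theorem bs_zero (n : ℕ) : bs n 0 = ∅ := by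
  ext a; simp [mem_bs]

theorem testBit_xor_one_shiftLeft (x a b : ℕ) :
    (x ^^^ (1 <<< a)).testBit b = (if a = b then !x.testBit b else x.testBit b) := by
  rw [Nat.testBit_xor, Nat.one_shiftLeft, Nat.testBit_two_pow]
  by_cases h : a = b
  · subst h; simp
  · simp [h]

theorem bs_xor_erase {n x a : ℕ} (ha : x.testBit a = true) :
    bs n (x ^^^ (1 <<< a)) = (bs n x).erase a := by
  ext b
  rw [Finset.mem_erase, mem_bs, mem_bs, testBit_xor_one_shiftLeft]
  by_cases h : a = b
  · subst h; simp [ha]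
  · have h' : ¬ b = a := fun e => h e.symm
    simp [h, h']

theorem bs_xor_insert {n x a : ℕ} (han : a < n) (ha : x.testBit a = false) :
    bs n (x ^^^ (1 <<< a)) = insert a (bs n x) := by
  ext b
  rw [Finset.mem_insert, mem_bs, mem_bs, testBit_xor_one_shiftLeft]
  by_cases h : a = b
  · subst h; simp [ha, han]
  · have h' : ¬ b = a := fun e => h e.symm
    simp [h, h']

theorem bs_adj {n x a : ℕ} (han : a < n) : Adj (bs n x) (bs n (x ^^^ (1 <<< a))) := by
  cases ha : x.testBit a with
  | true =>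
    right
    refine ⟨a, ?_, ?_⟩
    · rw [bs_xor_erase ha]; exact Finset.notMem_erase _ _
    · rw [bs_xor_erase ha, Finset.insert_erase (mem_bs.2 ⟨han, ha⟩)]
  | false =>
    left
    refine ⟨a, ?_, bs_xor_insert han ha⟩
    rw [mem_bs, ha]; simp

/-- mask of a list of elements -/
def msk : List ℕ → ℕ
  | [] => 0
  | a :: s => (1 <<< a) ||| msk s

theorem testBit_msk (s : List ℕ) (b : ℕ) : (msk s).testBit b = true ↔ b ∈ s := by
  induction s with
  | nil => simp [msk]
  | cons a s ih =>
    rw [msk, Nat.testBit_or, Nat.one_shiftLeft, Nat.testBit_two_pow, List.mem_cons]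
    simp only [Bool.or_eq_true, decide_eq_true_eq, ih]
    exact or_congr_left eq_comm

theorem bs_msk {n : ℕ} {s : List ℕ} (hs : ∀ a ∈ s, a < n) : bs n (msk s) = s.toFinset := by
  ext b
  rw [mem_bs, testBit_msk, List.mem_toFinset]
  exact ⟨fun h => h.2, fun h => ⟨hs b h, h⟩⟩

theorem msk_lt {n : ℕ} {s : List ℕ} (hs : ∀ a ∈ s, a < n) : msk s < 2 ^ n := by
  induction s with
  | nil => simp [msk]
  | cons a s ih =>
    rw [msk]
    refine Nat.or_lt_two_pow ?_ (ih fun b hb => hs b (by simp [hb]))
    rw [Nat.one_shiftLeft]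
    exact Nat.pow_lt_pow_right (by norm_num) (hs a (by simp))

theorem exists_bs {n : ℕ} {x : Finset ℕ} (hx : x ⊆ Finset.range n) :
    ∃ y, y < 2 ^ n ∧ bs n y = x := by
  refine ⟨msk x.toList, msk_lt ?_, ?_⟩
  · intro a ha
    exact Finset.mem_range.1 (hx (Finset.mem_toList.1 ha))
  · rw [bs_msk]
    · simp
    · intro a ha
      exact Finset.mem_range.1 (hx (Finset.mem_toList.1 ha))

/-! ### Kernel friendly operations -/

/-- kernel friendly `testBit` -/
def tb (m a : ℕ) : Bool := Nat.beq (Nat.land (Nat.shiftRight m a) 1) 1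

theorem tb_eq (m a : ℕ) : tb m a = m.testBit a := by
  have h1 : Nat.land (Nat.shiftRight m a) 1 = (m >>> a) % 2 := by
    change (m >>> a) &&& 1 = _
    exact Nat.and_one_is_mod _
  unfold tb
  rw [h1, Nat.testBit_eq_decide_div_mod_eq, Nat.shiftRight_eq_div_pow]
  rcases Nat.mod_two_eq_zero_or_one (m / 2 ^ a) with h | h <;> rw [h] <;> rfl

/-- evaluate the argument first -/
def force {α : Type} (V : ℕ) (k : ℕ → α) : α :=
  Nat.rec (motive := fun _ => α) (k 0) (fun V' _ => k (Nat.succ V')) V

theorem force_eq {α : Type} (V : ℕ) (k : ℕ → α) : force V k = k V := by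
  cases V <;> rfl

/-- All facets of `x` obtained by deleting an element `< a` are in `V` or equal to `e`; finally
the number of elements is between `lo` and `hi`. -/
def fac (V x e lo hi : ℕ) : ℕ → ℕ → Bool
  | 0, c => Nat.ble lo c && Nat.ble c hi
  | a + 1, c =>
    match tb x a with
    | false => fac V x e lo hi a c
    | true =>
      match (tb V (Nat.xor x (Nat.shiftLeft 1 a)) || Nat.beq (Nat.xor x (Nat.shiftLeft 1 a)) e) with
      | false => false
      | true => fac V x e lo hi a (Nat.succ c)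

/-- neighbours: the two masks differ in exactly one bit `< n` -/
def nb (n x y : ℕ) : Bool :=
  Nat.beq (Nat.xor x y) (Nat.shiftLeft 1 (Nat.log2 (Nat.xor x y))) &&
    Nat.blt (Nat.log2 (Nat.xor x y)) n

theorem nb_adj {n x y : ℕ} (h : nb n x y = true) : Adj (bs n x) (bs n y) := by
  unfold nb at h
  rw [Bool.and_eq_true] at h
  obtain ⟨h1, h2⟩ := h
  have h1' : x ^^^ y = 1 <<< Nat.log2 (x ^^^ y) := Nat.eq_of_beq_eq_true h1
  have h2' : Nat.log2 (x ^^^ y) < n := by
    have : Nat.blt (Nat.log2 (x ^^^ y)) n = true := h2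
    rw [Nat.blt_eq] at this
    exact this
  obtain ⟨a, ha⟩ : ∃ a, a = Nat.log2 (x ^^^ y) := ⟨_, rfl⟩
  rw [← ha] at h1' h2'
  have e : y = x ^^^ (1 <<< a) := by
    rw [← h1', ← Nat.xor_assoc, Nat.xor_self, Nat.zero_xor]
  rw [e]
  exact bs_adj h2'

theorem fac_spec {n V x e lo hi : ℕ} : ∀ (a c : ℕ), a ≤ n → fac V x e lo hi a c = true →
    (∀ b < a, x.testBit b = true → V.testBit (x ^^^ (1 <<< b)) = true ∨ x ^^^ (1 <<< b) = e) ∧
    lo ≤ c + (bs a x).card ∧ c + (bs a x).card ≤ hi := by
  intro a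
  induction a with
  | zero =>
    intro c _ h
    rw [fac, Bool.and_eq_true, Nat.ble_eq, Nat.ble_eq] at h
    simpa [bs] using h
  | succ a ih =>
    intro c hn h
    have hbs : ∀ b : Bool, x.testBit a = b →
        (bs (a + 1) x).card = (bs a x).card + (if b = true then 1 else 0) := by
      intro b hb
      have : bs (a + 1) x = if b = true then insert a (bs a x) else bs a x := by
        ext i
        cases b with
        | true =>
          rw [if_pos rfl, Finset.mem_insert, mem_bs, mem_bs]
          constructor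
          · rintro ⟨h1, h2⟩
            rcases Nat.lt_succ_iff_lt_or_eq.1 h1 with h | h
            · exact Or.inr ⟨h, h2⟩
            · exact Or.inl h
          · rintro (rfl | ⟨h1, h2⟩)
            · exact ⟨by omega, hb⟩
            · exact ⟨by omega, h2⟩
        | false =>
          rw [if_neg (by simp), mem_bs, mem_bs]
          constructor
          · rintro ⟨h1, h2⟩
            rcases Nat.lt_succ_iff_lt_or_eq.1 h1 with h | h
            · exact ⟨h, h2⟩
            · rw [h, hb] at h2; simp at h2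
          · rintro ⟨h1, h2⟩
            exact ⟨by omega, h2⟩
      rw [this]
      cases b with
      | true =>
        rw [if_pos rfl, if_pos rfl, Finset.card_insert_of_notMem]
        rw [mem_bs]; omega
      | false => simp
    rw [fac] at h
    split at h
    · rename_i hb
      rw [tb_eq] at hb
      obtain ⟨h1, h2, h3⟩ := ih c (by omega) h
      rw [hbs false hb]
      refine ⟨?_, by simpa using h2, by simpa using h3⟩
      intro b hb' hxb
      rcases Nat.lt_succ_iff_lt_or_eq.1 hb' with h | rfl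
      · exact h1 b h hxb
      · rw [hb] at hxb; simp at hxb
    · rename_i hb
      rw [tb_eq] at hb
      split at h
      · exact absurd h (by simp)
      · rename_i hor
        obtain ⟨h1, h2, h3⟩ := ih (c + 1) (by omega) h
        rw [hbs true hb]
        refine ⟨?_, by simp; omega, by simp; omega⟩
        intro b hb' hxb
        rcases Nat.lt_succ_iff_lt_or_eq.1 hb' with h | rfl
        · exact h1 b h hxb
        · rw [Bool.or_eq_true, tb_eq] at hor
          exact hor.imp id Nat.eq_of_beq_eq_true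

/-- check the segment `x :: L`, the visited sets being the bits of `V` -/
def okC (n lo hi : ℕ) : List ℕ → ℕ → ℕ → (ℕ → Bool) → Bool
  | [], x, V, k =>
    match fac V x x lo hi n 0 with
    | false => false
    | true => force (Nat.lor V (Nat.shiftLeft 1 x)) k
  | y :: L, x, V, k =>
    match (nb n x y && fac V x y lo hi n 0) with
    | false => false
    | true => force (Nat.lor V (Nat.shiftLeft 1 x)) fun V' => okC n lo hi L y V' k

/-- check a segment -/
def okL (n lo hi : ℕ) : List ℕ → ℕ → (ℕ → Bool) → Bool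
  | [], V, k => k V
  | x :: L, V, k => okC n lo hi L x V k

/-- The bits of `V` code elements of `W`. -/
def Inv (n V : ℕ) (W : Set (Finset ℕ)) : Prop := ∀ y, V.testBit y = true → bs n y ∈ W

theorem Inv.step {n V x : ℕ} {W : Set (Finset ℕ)} (h : Inv n V W) :
    Inv n (V ||| (1 <<< x)) (insert (bs n x) W) := by
  intro y hy
  rw [Nat.testBit_or, Nat.one_shiftLeft, Nat.testBit_two_pow, Bool.or_eq_true] at hy
  rcases hy with hy | hy
  · exact Or.inr (h y hy)
  · rw [decide_eq_true_eq] at hy
    subst hy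
    exact Or.inl rfl

theorem fac_facets {n V x e lo hi : ℕ} {W : Set (Finset ℕ)} (hI : Inv n V W)
    (h : fac V x e lo hi n 0 = true) :
    (∀ a ∈ bs n x, (bs n x).erase a ∈ W ∨ (x ^^^ (1 <<< a) = e ∧ (bs n x).erase a = bs n e)) ∧
    lo ≤ (bs n x).card ∧ (bs n x).card ≤ hi := by
  obtain ⟨h1, h2, h3⟩ := fac_spec (n := n) n 0 le_rfl h
  refine ⟨?_, by omega, by omega⟩
  intro a ha
  obtain ⟨ha1, ha2⟩ := mem_bs.1 ha
  rw [← bs_xor_erase (n := n) ha2]
  rcases h1 a ha1 ha2 with h | h
  · exact Or.inl (hI _ h)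
  · exact Or.inr ⟨h, by rw [h]⟩

theorem okC_spec {n lo hi : ℕ} {k : ℕ → Bool} : ∀ (L : List ℕ) (x V : ℕ) (W : Set (Finset ℕ)),
    Inv n V W → okC n lo hi L x V k = true →
    Ok W ((x :: L).map (bs n)) none ∧ (∀ y ∈ x :: L, lo ≤ (bs n y).card ∧ (bs n y).card ≤ hi) ∧
    ∃ V', k V' = true ∧ Inv n V' (W ∪ {y | y ∈ (x :: L).map (bs n)}) := by
  intro L
  induction L with
  | nil =>
    intro x V W hI h
    rw [okC] at h
    split at h
    · exact absurd h (by simp)
    · rename_i hf
      rw [force_eq] at h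
      obtain ⟨h1, h2⟩ := fac_facets hI hf
      refine ⟨?_, ?_, ?_⟩
      · refine ⟨?_, by simp, trivial⟩
        intro a ha
        rcases h1 a ha with h | ⟨h, _⟩
        · exact Or.inl h
        · exfalso
          have h3 := congrArg (fun t => t.testBit a) h
          simp only [testBit_xor_one_shiftLeft, if_true] at h3
          simp at h3
      · intro y hy
        rw [List.mem_singleton] at hy
        rw [hy]; exact h2
      · refine ⟨_, h, ?_⟩
        have := hI.step (x := x)
        intro y hy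
        rcases this y hy with h | h
        · right; simp [h]
        · exact Or.inl h
  | cons y L ih =>
    intro x V W hI h
    rw [okC] at h
    split at h
    · exact absurd h (by simp)
    · rename_i hf
      rw [force_eq] at h
      rw [Bool.and_eq_true] at hf
      obtain ⟨hn, hf⟩ := hf
      obtain ⟨h1, h2⟩ := fac_facets hI hf
      obtain ⟨g1, g2, V', g3, g4⟩ := ih y _ _ (hI.step (x := x)) h
      refine ⟨?_, ?_, ?_⟩
      · rw [List.map_cons, Ok_cons]
        refine ⟨?_, ?_, g1⟩
        · intro a ha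
          rcases h1 a ha with h | ⟨_, h⟩
          · exact Or.inl h
          · right; rw [h]; rfl
        · intro z hz
          have hz' : bs n y = z := by simpa using hz
          rw [← hz']
          exact nb_adj hn
      · intro z hz
        rcases List.mem_cons.1 hz with rfl | hz
        · exact h2
        · exact g2 z hz
      · refine ⟨V', g3, ?_⟩
        intro z hz
        rcases g4 z hz with (h | h) | h
        · right; simp [h]
        · exact Or.inl h
        · right
          have h' : bs n z ∈ (y :: L).map (bs n) := h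
          show bs n z ∈ (x :: y :: L).map (bs n)
          rw [List.map_cons]
          exact List.mem_cons_of_mem _ h'

theorem okL_spec {n lo hi : ℕ} {k : ℕ → Bool} (L : List ℕ) (V : ℕ) (W : Set (Finset ℕ))
    (hI : Inv n V W) (h : okL n lo hi L V k = true) :
    Ok W (L.map (bs n)) none ∧ (∀ y ∈ L, lo ≤ (bs n y).card ∧ (bs n y).card ≤ hi) ∧
    ∃ V', k V' = true ∧ Inv n V' (W ∪ {y | y ∈ L.map (bs n)}) := by
  cases L with
  | nil =>
    refine ⟨trivial, by simp, V, h, ?_⟩
    intro y hy
    exact Or.inl (hI y hy)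
  | cons x L => exact okC_spec L x V W hI h

/-! ### Systems -/

/-- check the phases `l, l + 1, …` -/
def run (n : ℕ) (k : ℕ → Bool) : List (List ℕ × List ℕ) → ℕ → ℕ → Bool
  | [], _, V => k V
  | q :: D, l, V => okL n l (Nat.succ l) q.1 V fun V' => okL n l (Nat.succ l) q.2 V' fun V'' =>
      run n k D (Nat.succ l) V''

/-- The first segments coded by the data `D`. -/
def pD (n : ℕ) (D : List (List ℕ × List ℕ)) (l : ℕ) : List (Finset ℕ) :=
  (D.getD l ([], [])).1.map (bs n)

/-- The main segments coded by the data `D`. -/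
def mD (n : ℕ) (D : List (List ℕ × List ℕ)) (l : ℕ) : List (Finset ℕ) :=
  (D.getD l ([], [])).2.map (bs n)

theorem getD_of_drop {α : Type} {D D' : List α} {l : ℕ} {q d : α} (h : D.drop l = q :: D') :
    D.getD l d = q ∧ D.drop (l + 1) = D' ∧ l < D.length := by
  have hl : l < D.length := by
    by_contra hc
    rw [List.drop_eq_nil_of_le (by omega)] at h
    exact absurd h (by simp)
  rw [List.drop_eq_getElem_cons hl] at h
  injection h with h1 h2
  refine ⟨?_, h2, hl⟩
  rw [List.getD_eq_getElem _ _ hl]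
  exact h1

theorem run_spec {n : ℕ} {k : ℕ → Bool} {D : List (List ℕ × List ℕ)} :
    ∀ (D' : List (List ℕ × List ℕ)) (l V : ℕ), D.drop l = D' → l + D'.length = D.length →
    Inv n V (vis (pD n D) (mD n D) l) → run n k D' l V = true →
    (∀ j, l ≤ j → j < D.length →
      Ok (vis (pD n D) (mD n D) j) (pD n D j) none ∧
      Ok (vis (pD n D) (mD n D) j ∪ {x | x ∈ pD n D j}) (mD n D j) none ∧
      ∀ x, x ∈ pD n D j ∨ x ∈ mD n D j → j ≤ x.card ∧ x.card ≤ j + 1) ∧
    ∃ V', k V' = true ∧ Inv n V' (vis (pD n D) (mD n D) D.length) := by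
  intro D'
  induction D' with
  | nil =>
    intro l V _ hlen hI h
    have : l = D.length := by simpa using hlen
    subst this
    exact ⟨fun j h1 h2 => by omega, V, h, hI⟩
  | cons q D' ih =>
    intro l V hd hlen hI h
    obtain ⟨hq, hd', hl⟩ := getD_of_drop (d := ([], [])) hd
    rw [run] at h
    obtain ⟨a1, a2, V1, h1, hI1⟩ := okL_spec _ _ _ hI h
    obtain ⟨b1, b2, V2, h2, hI2⟩ := okL_spec _ _ _ hI1 h1
    have hp : pD n D l = q.1.map (bs n) := by rw [pD, hq]
    have hm : mD n D l = q.2.map (bs n) := by rw [mD, hq]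
    rw [← hp, ← hm, ← vis_succ] at hI2
    obtain ⟨c1, c2⟩ := ih (l + 1) V2 hd' (by simp only [List.length_cons] at hlen; omega) hI2 h2
    refine ⟨?_, c2⟩
    intro j h1 h2
    rcases Nat.eq_or_lt_of_le h1 with rfl | h1
    · refine ⟨?_, ?_, ?_⟩
      · rw [hp]; exact a1
      · rw [hp, hm]; exact b1
      · rw [hp, hm]
        rintro x (hx | hx)
        · obtain ⟨y, hy, rfl⟩ := List.mem_map.1 hx
          exact a2 y hy
        · obtain ⟨y, hy, rfl⟩ := List.mem_map.1 hx
          exact b2 y hy
    · exact c1 j h1 h2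

/-- total number of sets -/
def tot : List (List ℕ × List ℕ) → ℕ
  | [] => 0
  | q :: D => q.1.length + q.2.length + tot D

theorem tot_eq (D : List (List ℕ × List ℕ)) :
    tot D = ∑ l ∈ Finset.range D.length,
      ((D.getD l ([], [])).1.length + (D.getD l ([], [])).2.length) := by
  induction D with
  | nil => simp [tot]
  | cons q D ih =>
    rw [List.length_cons, Finset.sum_range_succ', tot, ih]
    simp only [List.getD_cons_succ, List.getD_cons_zero]
    rw [add_comm]

/-- The check of a system on `{0, …, n - 1}`. -/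
def checkSys (n : ℕ) (D : List (List ℕ × List ℕ)) : Bool :=
  Nat.beq D.length (Nat.succ n) && Nat.beq (tot D) (Nat.pow 2 n) &&
    run n (fun V => Nat.beq V (Nat.sub (Nat.pow 2 (Nat.pow 2 n)) 1)) D 0 0

theorem checkSys_sys {n : ℕ} {D : List (List ℕ × List ℕ)} (h : checkSys n D = true) :
    Sys (Finset.range n) (pD n D) (mD n D) := by
  unfold checkSys at h
  rw [Bool.and_eq_true, Bool.and_eq_true] at h
  obtain ⟨⟨hl, ht⟩, hr⟩ := h
  have hl : D.length = n + 1 := Nat.eq_of_beq_eq_true hl
  have ht : tot D = 2 ^ n := Nat.eq_of_beq_eq_true ht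
  have hI0 : Inv n 0 (vis (pD n D) (mD n D) 0) := by
    intro y hy
    simp at hy
  obtain ⟨h1, V, hV, hI⟩ := run_spec (D := D) D 0 0 (by simp) (by simp) hI0 hr
  have hV : V = 2 ^ (2 ^ n) - 1 := Nat.eq_of_beq_eq_true hV
  have hnil : ∀ l, n < l → pD n D l = [] ∧ mD n D l = [] := by
    intro l hln
    have : D.getD l ([], []) = ([], []) := by
      rw [List.getD_eq_default]
      omega
    rw [pD, mD, this]
    simp
  refine ⟨?_, ?_, ?_, ?_, ?_, ?_⟩
  · intro l
    by_cases hln : n < l
    · rw [(hnil l hln).1]; trivial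
    · exact (h1 l (by omega) (by omega)).1
  · intro l
    by_cases hln : n < l
    · rw [(hnil l hln).2]; trivial
    · exact (h1 l (by omega) (by omega)).2.1
  · intro l x hx
    by_cases hln : n < l
    · rw [(hnil l hln).1, (hnil l hln).2] at hx; simp at hx
    · refine ⟨?_, ((h1 l (by omega) (by omega)).2.2 x hx).2⟩
      rcases hx with hx | hx
      · obtain ⟨y, _, rfl⟩ := List.mem_map.1 hx; exact bs_subset _ _
      · obtain ⟨y, _, rfl⟩ := List.mem_map.1 hx; exact bs_subset _ _
  · intro l x hx hc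
    obtain ⟨y, hy, rfl⟩ := exists_bs hx
    have hin : bs n y ∈ vis (pD n D) (mD n D) D.length := by
      refine hI y ?_
      rw [hV, Nat.testBit_two_pow_sub_one]
      exact decide_eq_true hy
    obtain ⟨k, hk, hin⟩ := hin
    have := (h1 k (by omega) hk).2.2 _ hin
    exact ⟨k, by omega, hin⟩
  · intro l hln
    rw [Finset.card_range] at hln
    exact hnil l hln
  · rw [Finset.card_range, ← ht, tot_eq, hl]
    simp [pD, mD]

/-- An element found in an early phase. -/
theorem early_of {n : ℕ} {D : List (List ℕ × List ℕ)} {x : ℕ}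
    (h : ((List.range (bs n x).card).any fun k =>
      (D.getD k ([], [])).1.contains x || (D.getD k ([], [])).2.contains x) = true) :
    Early (pD n D) (mD n D) (bs n x) := by
  rw [List.any_eq_true] at h
  obtain ⟨k, hk, h⟩ := h
  rw [List.mem_range] at hk
  refine ⟨k, hk, ?_⟩
  rw [Bool.or_eq_true, List.contains_iff_mem, List.contains_iff_mem] at h
  exact h.imp (fun h => List.mem_map.2 ⟨x, h, rfl⟩) (fun h => List.mem_map.2 ⟨x, h, rfl⟩)

/-! ### Systems of type `AB` -/

/-- All conditions of `AB` except the ones in `checkSys`. -/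
def checkFlags (n : ℕ) (D : List (List ℕ × List ℕ)) (σ τ : List ℕ) : Bool :=
  decide (σ.length = n ∧ σ.Nodup ∧ (∀ a ∈ σ, a < n) ∧ τ.Perm σ ∧ 2 ≤ n ∧
    (∀ l < n, (D.getD l ([], [])).2.head? = some (msk (σ.take (l + 1)))) ∧
    (∀ l < n, (D.getD l ([], [])).2.getLast? = some (msk (τ.take l))) ∧
    (D.getD (n - 1) ([], [])).2 = [msk (σ.take n), msk (τ.take (n - 1))] ∧
    (D.getD n ([], [])).1 = [] ∧ (D.getD n ([], [])).2 = [] ∧ (D.getD 0 ([], [])).1 = [])

theorem toFinset_eq_range {n : ℕ} {σ : List ℕ} (h1 : σ.length = n) (h2 : σ.Nodup)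
    (h3 : ∀ a ∈ σ, a < n) : σ.toFinset = Finset.range n := by
  refine Finset.eq_of_subset_of_card_le ?_ ?_
  · intro a ha
    exact Finset.mem_range.2 (h3 a (List.mem_toFinset.1 ha))
  · rw [Finset.card_range, List.toFinset_card_of_nodup h2, h1]

theorem bs_msk_take {n : ℕ} {σ : List ℕ} (h3 : ∀ a ∈ σ, a < n) (k : ℕ) :
    bs n (msk (σ.take k)) = fl σ k := by
  rw [bs_msk, fl]
  intro a ha
  exact h3 a (List.mem_of_mem_take ha)

theorem checkAB {n : ℕ} {D : List (List ℕ × List ℕ)} {σ τ : List ℕ}
    (h : checkSys n D = true) (h' : checkFlags n D σ τ = true) :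
    AB σ τ (pD n D) (mD n D) := by
  have hS := checkSys_sys h
  obtain ⟨h1, h2, h3, h4, h5, h6, h7, h8, h9, h10, h11⟩ := of_decide_eq_true h'
  have h3' : ∀ a ∈ τ, a < n := fun a ha => h3 a (h4.mem_iff.1 ha)
  have hR := toFinset_eq_range h1 h2 h3
  refine ⟨?_, h2, h4, by omega, ?_, ?_, ?_, ?_, ?_, ?_⟩
  · rw [hR]; exact hS
  · intro l hl
    rw [mD, List.head?_map, h6 l (by omega), Option.map_some, bs_msk_take h3]
  · intro l hl
    rw [mD, List.getLast?_map, h7 l (by omega), Option.map_some, bs_msk_take h3']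
  · rw [h1, mD, h8, List.map_cons, List.map_cons, List.map_nil, bs_msk_take h3, bs_msk_take h3']
  · rw [h1, pD, h9]; rfl
  · rw [h1, mD, h10]; rfl
  · rw [pD, h11]; rfl

/-! ### Listings -/

/-- Check of a complete listing. -/
def checkListing (n : ℕ) (L : List ℕ) : Bool :=
  Nat.beq (L.headD 1) 0 && Nat.beq L.length (Nat.pow 2 n) &&
    okL n 0 n L 0 (fun V => Nat.beq V (Nat.sub (Nat.pow 2 (Nat.pow 2 n)) 1))

theorem checkListing_listing {n : ℕ} {L : List ℕ} (h : checkListing n L = true) :
    Listing (Finset.range n) := by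
  unfold checkListing at h
  rw [Bool.and_eq_true, Bool.and_eq_true] at h
  obtain ⟨⟨hh, ht⟩, hr⟩ := h
  have hh : L.headD 1 = 0 := Nat.eq_of_beq_eq_true hh
  have ht : L.length = 2 ^ n := Nat.eq_of_beq_eq_true ht
  have hI0 : Inv n 0 ∅ := by
    intro y hy
    simp at hy
  obtain ⟨h1, _, V, hV, hI⟩ := okL_spec _ _ _ hI0 hr
  have hV : V = 2 ^ (2 ^ n) - 1 := Nat.eq_of_beq_eq_true hV
  refine ⟨L.map (bs n), ?_, h1, ?_, ?_⟩
  · cases L with
    | nil => simp at hh
    | cons x L =>
      have : x = 0 := by simpa using hh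
      subst this
      simp
  · rw [List.length_map, ht, Finset.card_range]
  · intro x hx
    obtain ⟨y, hy, rfl⟩ := exists_bs hx
    have hin : bs n y ∈ (∅ : Set (Finset ℕ)) ∪ {y | y ∈ L.map (bs n)} := by
      refine hI y ?_
      rw [hV, Nat.testBit_two_pow_sub_one]
      exact decide_eq_true hy
    rcases hin with h | h
    · exact absurd h (Set.notMem_empty _)
    · exact h

/-! ### Compact data -/

/-- `k` digits of `w` bits of the number `X` -/
def dec (w : ℕ) : ℕ → ℕ → List ℕ
  | 0, _ => []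
  | k + 1, X => Nat.mod X (Nat.shiftLeft 1 w) :: dec w k (Nat.shiftRight X w)

/-- decode phases: `S` contains the lengths of the two segments of each phase -/
def mk (w : ℕ) : List (ℕ × ℕ) → ℕ → List (List ℕ × List ℕ)
  | [], _ => []
  | s :: S, X => (dec w s.1 X, dec w s.2 (Nat.shiftRight X (Nat.mul w s.1))) ::
      mk w S (Nat.shiftRight X (Nat.mul w (Nat.add s.1 s.2)))

/-! ### Relabelling -/

section relabel
variable {N : Finset ℕ} {f : ℕ → ℕ}

theorem image_erase_of_injOn (hf : Set.InjOn f (N : Set ℕ)) {x : Finset ℕ} (hx : x ⊆ N) {a : ℕ}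
    (ha : a ∈ x) : (x.erase a).image f = (x.image f).erase (f a) := by
  ext b
  simp only [Finset.mem_image, Finset.mem_erase]
  constructor
  · rintro ⟨c, ⟨hc1, hc2⟩, rfl⟩
    exact ⟨fun h => hc1 (hf (hx hc2) (hx ha) h), c, hc2, rfl⟩
  · rintro ⟨h, c, hc, rfl⟩
    exact ⟨c, ⟨fun h' => h (by rw [h']), hc⟩, rfl⟩

theorem notMem_image_of_injOn (hf : Set.InjOn f (N : Set ℕ)) {x : Finset ℕ} (hx : x ⊆ N) {a : ℕ}
    (haN : a ∈ N) (ha : a ∉ x) : f a ∉ x.image f := by
  intro h
  obtain ⟨b, hb, hab⟩ := Finset.mem_image.1 h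
  exact ha (hf (hx hb) haN hab ▸ hb)

theorem Adj.image (hf : Set.InjOn f (N : Set ℕ)) {x y : Finset ℕ} (hx : x ⊆ N) (hy : y ⊆ N)
    (h : Adj x y) : Adj (x.image f) (y.image f) := by
  rcases h with ⟨a, ha, rfl⟩ | ⟨a, ha, rfl⟩
  · refine Or.inl ⟨f a, notMem_image_of_injOn hf hx (hy (Finset.mem_insert_self _ _)) ha, ?_⟩
    rw [Finset.image_insert]
  · refine Or.inr ⟨f a, notMem_image_of_injOn hf hy (hx (Finset.mem_insert_self _ _)) ha, ?_⟩
    rw [Finset.image_insert]

theorem Ok.image (hf : Set.InjOn f (N : Set ℕ)) {V W : Set (Finset ℕ)} {L : List (Finset ℕ)}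
    {e : Option (Finset ℕ)} (h : Ok V L e) (hL : ∀ x ∈ L, x ⊆ N) (he : ∀ y, e = some y → y ⊆ N)
    (hV : ∀ v ∈ V, v ⊆ N → v.image f ∈ W) :
    Ok W (L.map (Finset.image f)) (e.map (Finset.image f)) := by
  have hnx : ∀ L : List (Finset ℕ),
      nx (L.map (Finset.image f)) (e.map (Finset.image f)) = (nx L e).map (Finset.image f) := by
    intro L; cases L <;> rfl
  induction L generalizing V W with
  | nil => trivial
  | cons x L ih =>
    obtain ⟨h1, h2, h3⟩ := h
    have hx : x ⊆ N := hL x (by simp)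
    rw [List.map_cons, Ok_cons, hnx]
    refine ⟨?_, ?_, ?_⟩
    · intro b hb
      obtain ⟨a, ha, rfl⟩ := Finset.mem_image.1 hb
      rw [← image_erase_of_injOn hf hx ha]
      rcases h1 a ha with h | h
      · exact Or.inl (hV _ h ((Finset.erase_subset _ _).trans hx))
      · right; rw [h]; rfl
    · intro y hy
      rw [Option.map_eq_some_iff] at hy
      obtain ⟨y', hy', rfl⟩ := hy
      refine (h2 y' hy').image hf hx ?_
      cases L with
      | nil => exact he y' hy'
      | cons y'' L => simp only [nx_cons, Option.some.injEq] at hy'; exact hL y' (by simp [hy'])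
    · refine ih h3 (fun x hx => hL x (by simp [hx])) ?_
      intro v hv hvN
      rcases hv with rfl | hv
      · exact Or.inl rfl
      · exact Or.inr (hV v hv hvN)

/-- relabelling of segments -/
def im (f : ℕ → ℕ) (p : ℕ → List (Finset ℕ)) : ℕ → List (Finset ℕ) :=
  fun l => (p l).map (Finset.image f)

theorem im_nil (f : ℕ → ℕ) : im f (fun _ => []) = fun _ => [] := by
  funext l; simp [im]

theorem vis_im {p m : ℕ → List (Finset ℕ)} {l : ℕ} {x : Finset ℕ} (h : x ∈ vis p m l) :
    x.image f ∈ vis (im f p) (im f m) l := by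
  obtain ⟨k, hk, h⟩ := h
  exact ⟨k, hk, h.imp (fun h => List.mem_map.2 ⟨x, h, rfl⟩) (fun h => List.mem_map.2 ⟨x, h, rfl⟩)⟩

theorem Sys.relabel {p m : ℕ → List (Finset ℕ)} (h : Sys N p m)
    (hf : Set.InjOn f (N : Set ℕ)) : Sys (N.image f) (im f p) (im f m) := by
  have hcard : (N.image f).card = N.card := Finset.card_image_of_injOn hf
  refine ⟨?_, ?_, ?_, ?_, ?_, ?_⟩
  · intro l
    exact (h.okp l).image hf (fun x hx => (h.sub l x (Or.inl hx)).1) (by simp)
      (fun v hv _ => vis_im hv)
  · intro l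
    refine (h.okm l).image hf (fun x hx => (h.sub l x (Or.inr hx)).1) (by simp) ?_
    intro v hv _
    rcases hv with hv | hv
    · exact Or.inl (vis_im hv)
    · exact Or.inr (List.mem_map.2 ⟨v, hv, rfl⟩)
  · intro l x hx
    have : ∃ y, (y ∈ p l ∨ y ∈ m l) ∧ y.image f = x := by
      rcases hx with hx | hx
      · obtain ⟨y, hy, rfl⟩ := List.mem_map.1 hx; exact ⟨y, Or.inl hy, rfl⟩
      · obtain ⟨y, hy, rfl⟩ := List.mem_map.1 hx; exact ⟨y, Or.inr hy, rfl⟩
    obtain ⟨y, hy, rfl⟩ := this
    obtain ⟨h1, h2⟩ := h.sub l y hy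
    exact ⟨Finset.image_subset_image h1, Finset.card_image_le.trans h2⟩
  · intro l x hx hc
    obtain ⟨y, hy, rfl⟩ := Finset.subset_image_iff.1 hx
    rw [Finset.card_image_of_injOn (hf.mono hy)] at hc
    exact vis_im (h.comp l y hy hc)
  · intro l hl
    rw [hcard] at hl
    obtain ⟨h1, h2⟩ := h.fin l hl
    rw [im, im, h1, h2]
    simp
  · rw [hcard, ← h.len]
    simp [im]

theorem Early.relabel {p m : ℕ → List (Finset ℕ)} {x : Finset ℕ} (h : Early p m x)
    (hf : Set.InjOn f (N : Set ℕ)) (hx : x ⊆ N) : Early (im f p) (im f m) (x.image f) := by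
  unfold Early
  rw [Finset.card_image_of_injOn (hf.mono hx)]
  exact vis_im h

theorem toFinset_map_image (σ : List ℕ) : (σ.map f).toFinset = σ.toFinset.image f := by
  ext a; simp

theorem fl_map (σ : List ℕ) (k : ℕ) : fl (σ.map f) k = (fl σ k).image f := by
  rw [fl, fl, ← toFinset_map_image, List.map_take]

theorem nodup_map {σ : List ℕ} (hf : Set.InjOn f (σ.toFinset : Set ℕ)) (h : σ.Nodup) :
    (σ.map f).Nodup := by
  refine h.map_on ?_
  intro x hx y hy hxy
  exact hf (by simpa using hx) (by simpa using hy) hxy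

theorem AB.relabel {σ τ : List ℕ} {p m : ℕ → List (Finset ℕ)} (h : AB σ τ p m)
    (hf : Set.InjOn f (σ.toFinset : Set ℕ)) : AB (σ.map f) (τ.map f) (im f p) (im f m) := by
  refine ⟨?_, nodup_map hf h.nd, h.perm.map f, ?_, ?_, ?_, ?_, ?_, ?_, ?_⟩
  · rw [toFinset_map_image]; exact h.sys.relabel hf
  · rw [List.length_map]; exact h.len2
  · intro l hl
    rw [List.length_map] at hl
    rw [im, List.head?_map, h.hd l hl, Option.map_some, fl_map]
  · intro l hl
    rw [List.length_map] at hl
    rw [im, List.getLast?_map, h.lt l hl, Option.map_some, fl_map]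
  · rw [List.length_map, im, h.top, List.map_cons, List.map_cons, List.map_nil, fl_map, fl_map]
  · rw [List.length_map, im, h.endp]; rfl
  · rw [List.length_map, im, h.endm]; rfl
  · rw [im, h.p0]; rfl

theorem BB.relabel {E : List ℕ} {G : ℕ → Finset ℕ} {m : ℕ → List (Finset ℕ)} (h : BB E G m)
    (hf : Set.InjOn f (E.toFinset : Set ℕ)) :
    BB (E.map f) (fun l => (G l).image f) (im f m) := by
  refine ⟨?_, nodup_map hf h.nd, ?_, ?_, ?_, ?_, ?_, ?_, ?_, ?_⟩
  · rw [toFinset_map_image]
    have := h.sys.relabel hf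
    rwa [im_nil] at this
  · rw [List.length_map]; exact h.len
  · rw [im, h.m0]; simp
  · obtain ⟨x, hx⟩ := h.m1
    refine ⟨f x, ?_⟩
    rw [im, List.head?_map, hx]
    simp
  · intro l h2 hl
    rw [List.length_map] at hl
    rw [im, List.head?_map, h.hd l h2 hl, Option.map_some]
  · intro l h1 hl
    rw [List.length_map] at hl
    rw [im, List.getLast?_map, h.lt l h1 hl, Option.map_some, fl_map]
  · intro a b c E' hE
    rcases E with _ | ⟨a', _ | ⟨b', _ | ⟨c', E⟩⟩⟩
    · simp at hE
    · simp at hE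
    · simp at hE
    · simp only [List.map_cons, List.cons.injEq] at hE
      obtain ⟨rfl, rfl, rfl, rfl⟩ := hE
      rw [h.G2 a' b' c' E rfl]
      simp [Finset.image_insert]
  · intro he
    rw [List.length_map] at he ⊢
    rw [im, h.even_top he]; rfl
  · intro ho
    rw [List.length_map] at ho ⊢
    obtain ⟨h1, h2⟩ := h.odd_top ho
    refine ⟨?_, ?_⟩
    · rw [im, h1, toFinset_map_image]; rfl
    · rw [fl_map, h2]

theorem injOn_getD {l : List ℕ} (h : l.Nodup) {n : ℕ} (hn : l.length = n) :
    Set.InjOn (fun i => l.getD i 0) (Finset.range n : Set ℕ) := by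
  intro i hi j hj hij
  rw [Finset.coe_range, Set.mem_Iio, ← hn] at hi hj
  simp only [List.getD_eq_getElem _ _ hi, List.getD_eq_getElem _ _ hj] at hij
  exact (h.getElem_inj_iff).1 hij

theorem im_apP (Y : List ℕ) (p w t1 t2 q : ℕ) :
    im f (apP Y p w t1 t2 q) = apP (Y.map f) (f p) (f w) (f t1) (f t2) (f q) := by
  funext l
  unfold im apP
  rw [List.length_map]
  split_ifs with h1 h2
  · simp only [List.map_cons, List.map_nil, List.toFinset_cons, Finset.image_insert,
      toFinset_map_image]
  · simp only [List.map_cons, List.map_nil, Finset.image_insert, fl_map]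
  · rfl

end relabel

end Pool.Agent.Lib.MP_bec39b_co
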