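import Pool.Agent.Lib.MP_bec39b_co.Core

set_option autoImplicit false

namespace Pool.Agent.Lib.MP_bec39b_co

section
variable {N : Finset ℕ} {z : ℕ} {pL mL pU mU : ℕ → List (Finset ℕ)}

theorem notMem_of_sub {p m : ℕ → List (Finset ℕ)} (h : Sys N p m) (hz : z ∉ N) {l : ℕ}
    {x : Finset ℕ} (hx : x ∈ p l ∨ x ∈ m l) : z ∉ x := fun hzx => hz ((h.sub l x hx).1 hzx)

/-- The upper part of a phase of the composition. -/
theorem ok_upper_m {V' : Set (Finset ℕ)} {l : ℕ} (hU : Sys N pU mU) (hz : z ∉ N)
    (h1 : ∀ k < l, ∀ x, x ∈ pU k ∨ x ∈ mU k → insert z x ∈ V')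
    (h2 : ∀ x ∈ pU l, insert z x ∈ V') (h3 : ∀ x, x ⊆ N → x.card ≤ l + 1 → x ∈ V') :
    Ok V' ((mU l).map (insert z)) none := by
  have := (hU.okm l).map (z := z) (W := V') (fun x hx => notMem_of_sub hU hz (Or.inr hx))
    (by simp) ?_ ?_
  · simpa using this
  · rintro v (⟨k, hk, hv⟩ | hv)
    · exact h1 k hk v hv
    · exact h2 v hv
  · intro x hx
    obtain ⟨a, b⟩ := hU.sub l x (Or.inr hx)
    exact h3 x a b

theorem ok_upper_p {V' : Set (Finset ℕ)} {l : ℕ} (hU : Sys N pU mU) (hz : z ∉ N)
    (h1 : ∀ k < l, ∀ x, x ∈ pU k ∨ x ∈ mU k → insert z x ∈ V')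
    (h3 : ∀ x ∈ pU l, x ∈ V') :
    Ok V' ((pU l).map (insert z)) none := by
  have := (hU.okp l).map (z := z) (W := V') (fun x hx => notMem_of_sub hU hz (Or.inl hx))
    (by simp) ?_ h3
  · simpa using this
  · rintro v ⟨k, hk, hv⟩
    exact h1 k hk v hv

/-- Joining the upper `p`-segment with a list starting at its last element. -/
theorem ok_join {V' : Set (Finset ℕ)} {l : ℕ} {A M : List (Finset ℕ)} {g : Finset ℕ}
    (hU : Sys N pU mU) (hz : z ∉ N) (hA : pU l = A ++ [g])
    (h1 : ∀ k < l, ∀ x, x ∈ pU k ∨ x ∈ mU k → insert z x ∈ V')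
    (h3 : ∀ x ∈ A, x ∈ V') (hM : M.head? = some g)
    (hM2 : Ok (V' ∪ {x | x ∈ (pU l).map (insert z)}) M none) :
    Ok V' ((pU l).map (insert z) ++ M) none := by
  rw [Ok_append]
  refine ⟨?_, hM2⟩
  have hnx : nx M none = some g := by
    cases M with
    | nil => simp at hM
    | cons y M => simpa using hM
  rw [hnx, hA, List.map_append, Ok_append]
  have hok := hU.okp l
  rw [hA, Ok_append] at hok
  have hg : z ∉ g := notMem_of_sub hU hz (l := l) (Or.inl (by rw [hA]; simp))
  constructor
  · have := hok.1.map (z := z) (W := V') (fun x hx => notMem_of_sub hU hz (l := l)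
      (Or.inl (by rw [hA]; simp [hx]))) (by intro y hy; simp at hy; subst hy; exact hg) ?_ h3
    · simpa using this
    · rintro v ⟨k, hk, hv⟩
      exact h1 k hk v hv
  · refine ⟨?_, ?_, trivial⟩
    · intro a ha
      rcases Finset.mem_insert.1 ha with rfl | ha
      · right; simp [Finset.erase_insert hg]
      · left
        have haz : a ≠ z := fun h => hg (h ▸ ha)
        rw [Finset.erase_insert_of_ne haz.symm]
        rcases hok.2.1 a ha with h | h
        · rcases h with ⟨k, hk, hv⟩ | h
          · exact Or.inl (h1 k hk _ hv)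
          · right
            exact List.mem_map.2 ⟨_, h, rfl⟩
        · simp at h
    · intro y hy
      simp at hy; subst hy
      exact (Adj.up hg).symm

/-- Composition of the first kind. -/
theorem Sys.comp1 (hL : Sys N pL mL) (hU : Sys N pU mU) (hz : z ∉ N)
    (hex : ∀ l, pL (l + 1) = [] ∨ pU l = [])
    (htop : ∀ l x, x ∈ pU l → x.card = l + 1 → x ∈ vis pL mL (l + 1))
    (hj : ∀ l x y, (mL (l + 1)).getLast? = some x → (mU l).head? = some y → y = x) :
    Sys (insert z N) (cp z pL pU) (cp z mL mU) := by
  have memL : ∀ {l : ℕ} {x : Finset ℕ}, x ∈ vis pL mL l →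
      x ∈ vis (cp z pL pU) (cp z mL mU) l := by
    intro l x hx
    refine mem_vis_comp_left (pL := pL) (mL := mL) (p' := cp z pL pU) (m' := cp z mL mU)
      (fun x hx => hx) ?_ hx
    intro l x hx
    simp only [cp_succ, List.mem_append]
    exact hx.imp Or.inl Or.inl
  have memU : ∀ {l k : ℕ} {x : Finset ℕ}, k < l → x ∈ pU k ∨ x ∈ mU k →
      insert z x ∈ vis (cp z pL pU) (cp z mL mU) (l + 1) := by
    intro l k x hk hx
    refine ⟨k + 1, by omega, ?_⟩
    simp only [cp_succ, List.mem_append, List.mem_map]
    rcases hx with hx | hx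
    · exact Or.inl (Or.inr ⟨x, hx, rfl⟩)
    · exact Or.inr (Or.inr ⟨x, hx, rfl⟩)
  refine hL.comp' hU hz (List.Perm.refl _) ?_ ?_ ?_
  · intro l
    simp only [cp_succ, List.map_append]
    have : ∀ a b c d : List (Finset ℕ), ((a ++ b) ++ (c ++ d)).Perm ((a ++ c) ++ (b ++ d)) := by
      intro a b c d
      rw [List.append_assoc, List.append_assoc]
      refine List.Perm.append_left a ?_
      rw [← List.append_assoc, ← List.append_assoc]
      exact List.Perm.append_right d List.perm_append_comm
    exact this _ _ _ _
  · intro l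
    cases l with
    | zero => exact (hL.okp 0).mono (fun x ⟨k, hk, _⟩ => absurd hk (by omega))
    | succ l =>
      rw [cp_succ]
      rcases hex l with h | h
      · rw [h, List.nil_append]
        refine ok_upper_p hU hz (fun k hk x hx => memU hk hx) ?_
        intro x hx
        obtain ⟨h1, h2⟩ := hU.sub l x (Or.inl hx)
        rcases Nat.lt_or_ge l x.card with h3 | h3
        · exact memL (htop l x hx (by omega))
        · exact memL (hL.comp l x h1 h3)
      · rw [h, List.map_nil, List.append_nil]
        exact (hL.okp (l + 1)).mono (fun x hx => memL hx)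
  · intro l
    cases l with
    | zero => exact (hL.okm 0).mono (fun x hx => hx.imp (fun ⟨k, hk, _⟩ => absurd hk (by omega)) id)
    | succ l =>
      rw [cp_succ, cp_succ, Ok_append]
      constructor
      · refine Ok.mono (V := vis pL mL (l + 1) ∪ {x | x ∈ pL (l + 1)}) ?_
          (fun x hx => hx.imp memL (fun (h : x ∈ pL (l + 1)) => ?_))
        · refine (hL.okm (l + 1)).exit ?_
          intro x y hx hy
          have hy' : ∃ y', (mU l).head? = some y' ∧ y = insert z y' := by
            cases hm : mU l with
            | nil => rw [hm] at hy; simp at hy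
            | cons y' B =>
              rw [hm] at hy; simp at hy
              exact ⟨y', by simp, hy.symm⟩
          obtain ⟨y', hy1, rfl⟩ := hy'
          have := hj l x y' hx hy1
          subst this
          refine Adj.up (notMem_of_sub hU hz (l := l) (Or.inr ?_))
          exact List.mem_of_mem_head? (by rw [hy1]; rfl)
        · simp only [Set.mem_ofPred_eq, List.mem_append]
          exact Or.inl h
      · refine ok_upper_m hU hz ?_ ?_ ?_
        · intro k hk x hx
          exact Or.inl (Or.inl (memU hk hx))
        · intro x hx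
          refine Or.inl (Or.inr ?_)
          simp only [Set.mem_ofPred_eq, List.mem_append, List.mem_map]
          exact Or.inr ⟨x, hx, rfl⟩
        · intro x hx hc
          have := hL.comp (l + 1) x hx hc
          rw [vis_succ] at this
          rcases this with (h | h) | h
          · exact Or.inl (Or.inl (memL h))
          · refine Or.inl (Or.inr ?_)
            simp only [Set.mem_ofPred_eq, List.mem_append]
            exact Or.inl h
          · exact Or.inr h

/-- The lists of a composition of the second kind. -/
def c2 (z : ℕ) (mL pU mU : ℕ → List (Finset ℕ)) : ℕ → List (Finset ℕ)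
  | 0 => mL 0
  | l + 1 => (pU l).map (insert z) ++ (mL (l + 1) ++ (mU l).map (insert z))

@[simp] theorem c2_zero (z : ℕ) (mL pU mU : ℕ → List (Finset ℕ)) : c2 z mL pU mU 0 = mL 0 := rfl
@[simp] theorem c2_succ (z : ℕ) (mL pU mU : ℕ → List (Finset ℕ)) (l : ℕ) :
    c2 z mL pU mU (l + 1) =
      (pU l).map (insert z) ++ (mL (l + 1) ++ (mU l).map (insert z)) := rfl

/-- Composition of the second kind. -/
theorem Sys.comp2 (hL : Sys N (fun _ => []) mL) (hU : Sys N pU mU) (hz : z ∉ N)
    (hp : ∀ l, pU l = [] ∨ ∃ A g, pU l = A ++ [g] ∧ (mL (l + 1)).head? = some g ∧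
      ∀ x ∈ A, x.card = l + 1 → x ∈ vis (fun _ => []) mL (l + 1))
    (hj : ∀ l x y, (mL (l + 1)).getLast? = some x → (mU l).head? = some y → y = x) :
    Sys (insert z N) (fun _ => []) (c2 z mL pU mU) := by
  have memL : ∀ {l : ℕ} {x : Finset ℕ}, x ∈ vis (fun _ => []) mL l →
      x ∈ vis (fun _ => []) (c2 z mL pU mU) l := by
    intro l x hx
    refine mem_vis_comp_left (pL := fun _ => []) (mL := mL) (p' := fun _ => [])
      (m' := c2 z mL pU mU) (fun x hx => hx) ?_ hx
    intro l x hx
    simp only [c2_succ, List.mem_append]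
    rcases hx with hx | hx
    · simp at hx
    · exact Or.inr (Or.inr (Or.inl hx))
  have memU : ∀ {l k : ℕ} {x : Finset ℕ}, k < l → x ∈ pU k ∨ x ∈ mU k →
      insert z x ∈ vis (fun _ => []) (c2 z mL pU mU) (l + 1) := by
    intro l k x hk hx
    refine ⟨k + 1, by omega, Or.inr ?_⟩
    simp only [c2_succ, List.mem_append, List.mem_map]
    rcases hx with hx | hx
    · exact Or.inl ⟨x, hx, rfl⟩
    · exact Or.inr (Or.inr ⟨x, hx, rfl⟩)
  refine hL.comp' hU hz (List.Perm.refl _) ?_ (fun l => trivial) ?_
  · intro l
    simp only [c2_succ, List.nil_append, List.map_append]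
    rw [← List.append_assoc, ← List.append_assoc]
    exact List.Perm.append_right _ List.perm_append_comm
  · intro l
    cases l with
    | zero => exact (hL.okm 0).mono (fun x hx => hx.imp (fun ⟨k, hk, _⟩ => absurd hk (by omega)) id)
    | succ l =>
      have key : Ok (vis (fun _ => []) (c2 z mL pU mU) (l + 1) ∪
          {x | x ∈ (pU l).map (insert z)}) (mL (l + 1) ++ (mU l).map (insert z)) none := by
        rw [Ok_append]
        constructor
        · refine Ok.mono (V := vis (fun _ => []) mL (l + 1) ∪ {x | x ∈ ([] : List (Finset ℕ))}) ?_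
            (fun x hx => ?_)
          · refine (hL.okm (l + 1)).exit ?_
            intro x y hx hy
            have hy' : ∃ y', (mU l).head? = some y' ∧ y = insert z y' := by
              cases hm : mU l with
              | nil => rw [hm] at hy; simp at hy
              | cons y' B =>
                rw [hm] at hy; simp at hy
                exact ⟨y', by simp, hy.symm⟩
            obtain ⟨y', hy1, rfl⟩ := hy'
            have := hj l x y' hx hy1
            subst this
            refine Adj.up (notMem_of_sub hU hz (l := l) (Or.inr ?_))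
            exact List.mem_of_mem_head? (by rw [hy1]; rfl)
          · rcases hx with hx | hx
            · exact Or.inl (memL hx)
            · simp at hx
        · refine ok_upper_m hU hz ?_ ?_ ?_
          · intro k hk x hx
            exact Or.inl (Or.inl (memU hk hx))
          · intro x hx
            exact Or.inl (Or.inr (List.mem_map.2 ⟨x, hx, rfl⟩))
          · intro x hx hc
            have := hL.comp (l + 1) x hx hc
            rw [vis_succ] at this
            rcases this with (h | h) | h
            · exact Or.inl (Or.inl (memL h))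
            · simp at h
            · exact Or.inr h
      rw [c2_succ]
      refine Ok.mono (V := vis (fun _ => []) (c2 z mL pU mU) (l + 1)) ?_ Set.subset_union_left
      rcases hp l with h | ⟨A, g, hA, hg, hA2⟩
      · rw [h] at key ⊢
        simpa using key
      · refine ok_join hU hz hA (fun k hk x hx => memU hk hx) ?_ ?_ key
        · intro x hx
          have hxp : x ∈ pU l := by rw [hA]; simp [hx]
          obtain ⟨h1, h2⟩ := hU.sub l x (Or.inl hxp)
          rcases Nat.lt_or_ge l x.card with h3 | h3
          · exact memL (hA2 x hx (by omega))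
          · exact memL (hL.comp l x h1 h3)
        · cases hm : mL (l + 1) with
          | nil => rw [hm] at hg; simp at hg
          | cons y B => rw [hm] at hg; simpa using hg

end

end Pool.Agent.Lib.MP_bec39b_co
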