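import Pool.Agent.Lib.MP_bec39b_co.Nested

set_option autoImplicit false

namespace Pool.Agent.Lib.MP_bec39b_co

/-- `G` after the first conversion (split `a`); `last` is the last element of the flag. -/
def GM1 (Y : List ℕ) (y2 w ws wt a : ℕ) (top : Finset ℕ) : ℕ → Finset ℕ := fun l =>
  if l = 2 then {a, y2}
  else if l ≤ Y.length + 2 then
    (if l % 2 = 0 then insert a (insert w (fl Y (l - 2))) else insert w (insert ws (fl Y (l - 2))))
  else if l = Y.length + 3 then insert w (insert ws (insert wt Y.toFinset))
  else top

private theorem apP_zero' (Y : List ℕ) (p w t1 t2 q : ℕ) : apP Y p w t1 t2 q 0 = [] := by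
  unfold apP
  rw [if_neg (by omega), if_neg (by omega)]

private theorem card_fl_le' (σ : List ℕ) (k : ℕ) : (fl σ k).card ≤ k := by
  unfold fl
  exact (List.toFinset_card_le _).trans (by rw [List.length_take]; omega)

private theorem apP_top' {Y : List ℕ} {p w t1 t2 q : ℕ} {l : ℕ} {x : Finset ℕ}
    (hx : x ∈ apP Y p w t1 t2 q l) (hc : x.card = l + 1) :
    (l = Y.length + 3 ∧ x = insert q (p :: t1 :: t2 :: Y).toFinset) ∨
    (1 ≤ l ∧ l ≤ Y.length + 1 ∧ (l + Y.length) % 2 = 1 ∧
      x = insert w (insert p (fl Y (l - 1)))) := by
  unfold apP at hx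
  split_ifs at hx with h1 h2
  · simp only [List.mem_cons, List.not_mem_nil, or_false] at hx
    rcases hx with rfl | rfl
    · exfalso
      have := List.toFinset_card_le (p :: t1 :: t2 :: Y)
      simp only [List.length_cons] at this
      omega
    · exact Or.inl ⟨h1, rfl⟩
  · simp only [List.mem_cons, List.not_mem_nil, or_false] at hx
    rcases hx with rfl | rfl
    · exfalso
      have := Finset.card_insert_le p (fl Y (l - 1))
      have := card_fl_le' Y (l - 1)
      omega
    · exact Or.inr ⟨h2.1, h2.2.1, h2.2.2, rfl⟩
  · simp at hx

/-- First conversion. `ρ` is the tail of the new flag. -/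
theorem conv1 (y1 y2 y3 : ℕ) (Yr : List ℕ) (t1 t2 w ws wt e a : ℕ) (ρ : List ℕ)
    (hY : Yr.length % 2 = 1)
    (nd : (a :: w :: ws :: wt :: e :: y1 :: y2 :: y3 :: (Yr ++ [t1, t2])).Nodup)
    (hρ : ρ.Perm [t1, t2, y1, ws, e, wt])
    (hAP : ∃ m, AB ([wt, y3, e] ++ Yr ++ [t1, t2, y1, ws, y2]) ([y2, y3] ++ Yr ++ ρ)
      (apP (y2 :: y3 :: Yr) y1 ws t1 t2 wt) m)
    (hB : ∃ m, BB (e :: ws :: y2 :: y1 :: y3 :: (Yr ++ [t1, t2, wt, w]))
      (GM (y1 :: y2 :: y3 :: (Yr ++ [t1, t2])) y2 w ws wt e) m) :
    ∃ m, BB (a :: w :: y2 :: y3 :: (Yr ++ ρ))
      (GM1 (y1 :: y2 :: y3 :: (Yr ++ [t1, t2])) y2 w ws wt a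
        (fl (a :: w :: y2 :: y3 :: (Yr ++ ρ)) (Yr.length + 9))) m := by
  obtain ⟨mU, hU⟩ := hAP
  obtain ⟨mB, hBB⟩ := hB
  have hne : ∀ x y : ℕ, [x, y].Nodup → x ≠ y := by
    intro x y h; simpa using h
  have hy3t2 : y3 ≠ t2 := hne _ _ (by (rw [List.nodup_iff_count_le_one]; intro xq; have hxq := List.nodup_iff_count_le_one.1 nd xq; simp only [List.count_append, List.count_cons, List.count_nil, List.cons_append, List.nil_append, List.append_assoc] at hxq ⊢; omega))
  have hy3e : y3 ≠ e := hne _ _ (by (rw [List.nodup_iff_count_le_one]; intro xq; have hxq := List.nodup_iff_count_le_one.1 nd xq; simp only [List.count_append, List.count_cons, List.count_nil, List.cons_append, List.nil_append, List.append_assoc] at hxq ⊢; omega))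
  have hy3ws : y3 ≠ ws := hne _ _ (by (rw [List.nodup_iff_count_le_one]; intro xq; have hxq := List.nodup_iff_count_le_one.1 nd xq; simp only [List.count_append, List.count_cons, List.count_nil, List.cons_append, List.nil_append, List.append_assoc] at hxq ⊢; omega))
  have het2 : e ≠ t2 := hne _ _ (by (rw [List.nodup_iff_count_le_one]; intro xq; have hxq := List.nodup_iff_count_le_one.1 nd xq; simp only [List.count_append, List.count_cons, List.count_nil, List.cons_append, List.nil_append, List.append_assoc] at hxq ⊢; omega))
  have hews : e ≠ ws := hne _ _ (by (rw [List.nodup_iff_count_le_one]; intro xq; have hxq := List.nodup_iff_count_le_one.1 nd xq; simp only [List.count_append, List.count_cons, List.count_nil, List.cons_append, List.nil_append, List.append_assoc] at hxq ⊢; omega))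
  have hwst : ws ≠ wt := hne _ _ (by (rw [List.nodup_iff_count_le_one]; intro xq; have hxq := List.nodup_iff_count_le_one.1 nd xq; simp only [List.count_append, List.count_cons, List.count_nil, List.cons_append, List.nil_append, List.append_assoc] at hxq ⊢; omega))
  -- the lower factor
  obtain ⟨mL, hL⟩ := A_exists e ws y2 (y1 :: y3 :: (Yr ++ [t1, t2, wt]))
    ([wt, y3, e] ++ Yr ++ [t1, t2, y1, ws, y2]) (by simp; omega)
    (by (rw [List.nodup_iff_count_le_one]; intro xq; have hxq := List.nodup_iff_count_le_one.1 nd xq; simp only [List.count_append, List.count_cons, List.count_nil, List.cons_append, List.nil_append, List.append_assoc] at hxq ⊢; omega)) (by (rw [List.perm_iff_count]; intro xq; simp only [List.count_append, List.count_cons, List.count_nil, List.cons_append, List.nil_append, List.append_assoc]; omega)) (by simp [List.getLast?_cons])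
    (by
      have e1 : (y1 :: y3 :: (Yr ++ [t1, t2, wt])).length - 2 = Yr.length + 3 := by simp
      rw [e1]
      simp only [List.cons_append, List.nil_append, List.getElem?_cons_succ,
        List.getElem?_cons_zero]
      rw [List.getElem?_append_right (by omega)]
      simpa using hy3t2)
  have hwσ : w ∉ e :: ws :: y2 :: y1 :: y3 :: (Yr ++ [t1, t2, wt]) := by
    have : (w :: (e :: ws :: y2 :: y1 :: y3 :: (Yr ++ [t1, t2, wt]))).Nodup := by (rw [List.nodup_iff_count_le_one]; intro xq; have hxq := List.nodup_iff_count_le_one.1 nd xq; simp only [List.count_append, List.count_cons, List.count_nil, List.cons_append, List.nil_append, List.append_assoc] at hxq ⊢; omega)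
    exact (List.nodup_cons.1 this).1
  have ndS : (e :: ws :: (wt :: y1 :: t1 :: t2 :: y2 :: y3 :: Yr)).Nodup := by (rw [List.nodup_iff_count_le_one]; intro xq; have hxq := List.nodup_iff_count_le_one.1 nd xq; simp only [List.count_append, List.count_cons, List.count_nil, List.cons_append, List.nil_append, List.append_assoc] at hxq ⊢; omega)
  have key := hL.ab.comp hU (z := w) hwσ ?_ ?_
  · -- BB_step
    have hσ : e :: ws :: y2 :: (y1 :: y3 :: (Yr ++ [t1, t2, wt])) ++ [w] =
        e :: ws :: y2 :: y1 :: y3 :: (Yr ++ [t1, t2, wt, w]) := by simp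
    rw [hσ] at key
    have hυ : w :: ([y2, y3] ++ Yr ++ ρ) = w :: y2 :: y3 :: (Yr ++ ρ) := by simp
    rw [hυ] at key
    have hElen : (e :: ws :: y2 :: y1 :: y3 :: (Yr ++ [t1, t2, wt, w])).length =
        Yr.length + 9 := by simp
    have hYlen : (y1 :: y2 :: y3 :: (Yr ++ [t1, t2])).length = Yr.length + 5 := by simp
    have hpl : (y2 :: y3 :: Yr).length = Yr.length + 2 := by simp
    have haE : a ∉ e :: ws :: y2 :: y1 :: y3 :: (Yr ++ [t1, t2, wt, w]) := by
      have : (a :: (e :: ws :: y2 :: y1 :: y3 :: (Yr ++ [t1, t2, wt, w]))).Nodup := by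
        (rw [List.nodup_iff_count_le_one]; intro xq; have hxq := List.nodup_iff_count_le_one.1 nd xq; simp only [List.count_append, List.count_cons, List.count_nil, List.cons_append, List.nil_append, List.append_assoc] at hxq ⊢; omega)
      exact (List.nodup_cons.1 this).1
    have hfl : ∀ k, 1 ≤ k → k ≤ Yr.length + 3 → fl (y1 :: y2 :: y3 :: (Yr ++ [t1, t2])) k =
        insert y1 (fl (y2 :: y3 :: Yr) (k - 1)) := by
      intro k hk1 hk2
      obtain ⟨k, rfl⟩ : ∃ k', k = k' + 1 := ⟨k - 1, by omega⟩
      have e1 : y1 :: y2 :: y3 :: (Yr ++ [t1, t2]) = y1 :: ((y2 :: y3 :: Yr) ++ [t1, t2]) := by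
        simp
      rw [e1, fl_cons_succ, fl_append_left (by rw [hpl]; omega)]
      rfl
    have hfl2 : fl (y1 :: y2 :: y3 :: (Yr ++ [t1, t2])) (Yr.length + 5) =
        (y1 :: t1 :: t2 :: y2 :: y3 :: Yr).toFinset := by
      rw [fl_of_le (by simp)]
      exact List.toFinset_eq_of_perm _ _ (by (rw [List.perm_iff_count]; intro xq; simp only [List.count_append, List.count_cons, List.count_nil, List.cons_append, List.nil_append, List.append_assoc]; omega))
    have hYset : (y1 :: y2 :: y3 :: (Yr ++ [t1, t2])).toFinset =
        (y1 :: t1 :: t2 :: y2 :: y3 :: Yr).toFinset :=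
      List.toFinset_eq_of_perm _ _ (by (rw [List.perm_iff_count]; intro xq; simp only [List.count_append, List.count_cons, List.count_nil, List.cons_append, List.nil_append, List.append_assoc]; omega))
    refine BB_step hBB key haE ?_ ?_ ?_ ?_
    · intro l hl
      rw [hElen] at hl
      obtain ⟨l, rfl⟩ : ∃ l', l = l' + 1 := ⟨l - 1, by omega⟩
      rw [cp_succ]
      unfold preA apP
      rw [if_neg (by omega), if_neg (by rw [hpl]; omega), if_neg (by rw [hpl]; omega)]
      rfl
    · intro a' b' c' E' h
      simp only [List.cons.injEq] at h
      obtain ⟨rfl, rfl, rfl, -⟩ := h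
      rfl
    · intro l hl1 hl2
      rw [hElen] at hl2
      obtain ⟨j, rfl⟩ : ∃ j, l = j + 2 := ⟨l - 2, by omega⟩
      have ej : j + 2 - 1 = j + 1 := rfl
      rw [ej, cp_succ]
      rcases Nat.eq_zero_or_pos j with rfl | hj
      · right
        refine ⟨{y2}, ?_, by simp, ?_⟩
        · rw [apP_zero']
          simp [preA, GM]
        · simp [GM1]
      · have e1 : preA e y2 (j + 1) = [] := by unfold preA; rw [if_neg (by omega)]
        rw [e1, List.nil_append]
        rcases Nat.even_or_odd' j with ⟨i, hi | hi⟩
        · -- j even
          right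
          rcases Nat.lt_or_ge j (Yr.length + 4) with hj2 | hj2
          · refine ⟨insert w (insert y1 (fl (y2 :: y3 :: Yr) (j - 1))), ?_, ?_, ?_⟩
            · unfold apP GM
              rw [if_neg (by rw [hpl]; omega), if_pos (by rw [hpl]; omega),
                if_neg (by omega), if_pos (by rw [hYlen]; omega), Nat.add_sub_cancel,
                hfl j hj (by omega)]
              rfl
            · have nd2 : (w :: y1 :: y2 :: y3 :: Yr).Nodup := by (rw [List.nodup_iff_count_le_one]; intro xq; have hxq := List.nodup_iff_count_le_one.1 nd xq; simp only [List.count_append, List.count_cons, List.count_nil, List.cons_append, List.nil_append, List.append_assoc] at hxq ⊢; omega)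
              have hc := card_fl nd2 (k := j + 1) (by simp; omega)
              obtain ⟨j', rfl⟩ : ∃ j', j = j' + 1 := ⟨j - 1, by omega⟩
              rw [fl_cons_succ, fl_cons_succ] at hc
              exact hc
            · unfold GM1
              rw [if_neg (by omega), if_pos (by rw [hYlen]; omega), if_pos (by omega),
                Nat.add_sub_cancel, hfl j hj (by omega)]
          · have hj3 : j = Yr.length + 5 := by omega
            refine ⟨insert w (y1 :: t1 :: t2 :: y2 :: y3 :: Yr).toFinset, ?_, ?_, ?_⟩
            · unfold apP GM
              rw [if_pos (by rw [hpl]; omega), if_neg (by omega), if_neg (by rw [hYlen]; omega),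
                if_pos (by rw [hYlen]; omega), hYset]
              rfl
            · have nd2 : (w :: y1 :: t1 :: t2 :: y2 :: y3 :: Yr).Nodup := by (rw [List.nodup_iff_count_le_one]; intro xq; have hxq := List.nodup_iff_count_le_one.1 nd xq; simp only [List.count_append, List.count_cons, List.count_nil, List.cons_append, List.nil_append, List.append_assoc] at hxq ⊢; omega)
              have hc := List.toFinset_card_of_nodup nd2
              rw [List.toFinset_cons] at hc
              rw [hc]
              simp only [List.length_cons]
              omega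
            · unfold GM1
              rw [if_neg (by omega), if_pos (by rw [hYlen]; omega), if_pos (by omega),
                Nat.add_sub_cancel, hj3, hfl2]
        · -- j odd
          left
          constructor
          · unfold apP
            rw [if_neg (by rw [hpl]; omega), if_neg (by rw [hpl]; omega)]
            rfl
          · unfold GM GM1
            rcases Nat.lt_or_ge j (Yr.length + 5) with hj2 | hj2
            · rw [if_neg (by omega), if_pos (by rw [hYlen]; omega), if_neg (by omega),
                if_neg (by omega), if_pos (by rw [hYlen]; omega)]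
            · rw [if_neg (by omega), if_neg (by rw [hYlen]; omega),
                if_pos (by rw [hYlen]; omega), if_neg (by omega), if_neg (by rw [hYlen]; omega),
                if_neg (by rw [hYlen]; omega)]
    · rw [hElen, if_pos (by omega)]
      unfold GM1
      rw [if_neg (by omega), if_neg (by rw [hYlen]; omega), if_neg (by rw [hYlen]; omega)]
  · intro l
    cases l with
    | zero => right; exact apP_zero' _ _ _ _ _ _
    | succ l => left; unfold preA; rw [if_neg (by omega)]
  · intro l x hx hc
    rcases apP_top' hx hc with ⟨h1, h2⟩ | ⟨h1, h2, h3, h4⟩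
    · simp only [List.length_cons] at h1
      have h5 : Early (preA e y2) mL x := by
        have hek := hL.ek 2 (by norm_num) (fun _ => by
            have e1 : (y1 :: y3 :: (Yr ++ [t1, t2, wt])).length - 2 = Yr.length + 3 := by simp
            rw [e1]
            simp only [List.cons_append, List.nil_append, List.getElem?_cons_succ,
              List.getElem?_cons_zero]
            rw [List.getElem?_append_right (by omega)]
            simpa using het2) e (by simp) ws (by simp) ?_
        · have e2 : (((e :: ws :: y2 :: (y1 :: y3 :: (Yr ++ [t1, t2, wt]))).toFinset.erase e).erase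
              ws) = insert wt (y1 :: t1 :: t2 :: y2 :: y3 :: Yr).toFinset := by
            have n1 := (List.nodup_cons.1 ndS).1
            have n2 := (List.nodup_cons.1 (List.nodup_cons.1 ndS).2).1
            have e3 : (e :: ws :: y2 :: (y1 :: y3 :: (Yr ++ [t1, t2, wt]))).toFinset =
                (e :: ws :: (wt :: y1 :: t1 :: t2 :: y2 :: y3 :: Yr)).toFinset :=
              List.toFinset_eq_of_perm _ _ (by (rw [List.perm_iff_count]; intro xq; simp only [List.count_append, List.count_cons, List.count_nil, List.cons_append, List.nil_append, List.append_assoc]; omega))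
            rw [e3, List.toFinset_cons, Finset.erase_insert (by rwa [List.mem_toFinset]),
              List.toFinset_cons, Finset.erase_insert (by rwa [List.mem_toFinset]),
              List.toFinset_cons]
          rw [e2] at hek
          rw [h2]
          exact hek
        · have n3 : (ws :: ([wt, y3, e] ++ Yr)).Nodup := by (rw [List.nodup_iff_count_le_one]; intro xq; have hxq := List.nodup_iff_count_le_one.1 nd xq; simp only [List.count_append, List.count_cons, List.count_nil, List.cons_append, List.nil_append, List.append_assoc] at hxq ⊢; omega)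
          intro hmem
          apply (List.nodup_cons.1 n3).1
          have hsub : List.take 4 ([wt, y3, e] ++ Yr ++ [t1, t2, y1, ws, y2]) =
              List.take 4 ([wt, y3, e] ++ Yr) := by
            rw [List.take_append_of_le_length]
            simp only [List.length_append, List.length_cons, List.length_nil]
            omega
          rw [hsub] at hmem
          exact List.mem_of_mem_take hmem
      unfold Early at h5
      rwa [hc] at h5
    · simp only [List.length_cons] at h2 h3
      have hK := (hL.K wt y3 (e :: (Yr ++ [t1, t2, y1, ws, y2])) (by simp) hy3e hy3ws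
        (l + 2) (by omega) (by simp; omega)).1
      have h5 : Early (preA e y2) mL x := by
        obtain ⟨j, rfl⟩ : ∃ j, l = j + 2 := ⟨l - 2, by omega⟩
        have e1 : e :: ws :: y2 :: (y1 :: y3 :: (Yr ++ [t1, t2, wt])) =
            e :: ws :: y2 :: y1 :: ((y3 :: Yr) ++ [t1, t2, wt]) := by simp
        rw [e1, show j + 2 + 2 = j + 1 + 1 + 1 + 1 by ring, fl_cons_succ, fl_cons_succ,
          fl_cons_succ, fl_cons_succ, fl_append_left (by simp only [List.length_cons]; omega),
          Finset.erase_insert] at hK
        · have e2 : insert ws (insert y1 (fl (y2 :: y3 :: Yr) (j + 2 - 1))) =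
              insert ws (insert y2 (insert y1 (fl (y3 :: Yr) j))) := by
            rw [show j + 2 - 1 = j + 1 by omega, fl_cons_succ, Finset.insert_comm y1 y2]
          rw [h4, e2]
          exact hK
        · intro hmem
          apply (List.nodup_cons.1 ndS).1
          simp only [Finset.mem_insert] at hmem
          simp only [List.mem_cons]
          rcases hmem with h | h | h | h
          · tauto
          · tauto
          · tauto
          · have := List.mem_toFinset.1 (fl_subset _ _ h)
            simp only [List.mem_cons] at this
            tauto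
      unfold Early at h5
      rwa [hc] at h5

end Pool.Agent.Lib.MP_bec39b_co
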