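import Mathlib

set_option autoImplicit false

namespace Pool.Agent.Lib.MP_bec39b_co

/-- Two sets are neighbours in the cube. -/
def Adj (x y : Finset ℕ) : Prop :=
  (∃ a, a ∉ x ∧ y = insert a x) ∨ (∃ a, a ∉ y ∧ x = insert a y)

/-- First element of `L` followed by `e`. -/
def nx (L : List (Finset ℕ)) (e : Option (Finset ℕ)) : Option (Finset ℕ) :=
  match L with
  | [] => e
  | y :: _ => some y

/-- The list `L` (followed by `e`) can be visited when the sets in `V` are already visited:
neighbouring steps, and every facet of a visited set is visited before or is the next set. -/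
def Ok (V : Set (Finset ℕ)) : List (Finset ℕ) → Option (Finset ℕ) → Prop
  | [], _ => True
  | x :: L, e => (∀ a ∈ x, x.erase a ∈ V ∨ nx L e = some (x.erase a)) ∧
      (∀ y, nx L e = some y → Adj x y) ∧ Ok (insert x V) L e

@[simp] theorem nx_nil (e : Option (Finset ℕ)) : nx [] e = e := rfl
@[simp] theorem nx_cons (x : Finset ℕ) (L : List (Finset ℕ)) (e : Option (Finset ℕ)) :
    nx (x :: L) e = some x := rfl
@[simp] theorem Ok_nil (V : Set (Finset ℕ)) (e : Option (Finset ℕ)) : Ok V [] e := trivial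
theorem Ok_cons (V : Set (Finset ℕ)) (x : Finset ℕ) (L : List (Finset ℕ))
    (e : Option (Finset ℕ)) : Ok V (x :: L) e ↔
      (∀ a ∈ x, x.erase a ∈ V ∨ nx L e = some (x.erase a)) ∧
      (∀ y, nx L e = some y → Adj x y) ∧ Ok (insert x V) L e := Iff.rfl

theorem nx_append (A B : List (Finset ℕ)) (e : Option (Finset ℕ)) :
    nx (A ++ B) e = nx A (nx B e) := by
  cases A <;> rfl

theorem nx_map (z : ℕ) (A : List (Finset ℕ)) (e : Option (Finset ℕ)) :
    nx (A.map (insert z)) (e.map (insert z)) = (nx A e).map (insert z) := by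
  cases A <;> rfl

theorem Ok.mono {V W : Set (Finset ℕ)} {L : List (Finset ℕ)} {e : Option (Finset ℕ)}
    (h : Ok V L e) (hVW : V ⊆ W) : Ok W L e := by
  induction L generalizing V W with
  | nil => trivial
  | cons x L ih =>
    obtain ⟨h1, h2, h3⟩ := h
    refine ⟨fun a ha => (h1 a ha).imp (fun h => hVW h) id, h2, ih h3 ?_⟩
    exact Set.insert_subset_insert hVW

theorem Ok_append {V : Set (Finset ℕ)} {A B : List (Finset ℕ)} {e : Option (Finset ℕ)} :
    Ok V (A ++ B) e ↔ Ok V A (nx B e) ∧ Ok (V ∪ {x | x ∈ A}) B e := by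
  induction A generalizing V with
  | nil => simp
  | cons x A ih =>
    rw [List.cons_append, Ok_cons, Ok_cons, ih, nx_append]
    have : (insert x V ∪ {y | y ∈ A} : Set (Finset ℕ)) = V ∪ {y | y ∈ x :: A} := by
      ext y; simp only [Set.mem_union, Set.mem_insert_iff, Set.mem_ofPred_eq, List.mem_cons]; tauto
    rw [this]
    tauto

theorem Ok.exit {V : Set (Finset ℕ)} {A : List (Finset ℕ)} {e : Option (Finset ℕ)}
    (h : Ok V A none) (he : ∀ x y, A.getLast? = some x → e = some y → Adj x y) : Ok V A e := by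
  induction A generalizing V with
  | nil => trivial
  | cons x A ih =>
    obtain ⟨h1, h2, h3⟩ := h
    cases A with
    | nil =>
      refine ⟨fun a ha => Or.inl ?_, fun y hy => he x y (by simp) hy, trivial⟩
      rcases h1 a ha with h | h
      · exact h
      · simp at h
    | cons y A => exact ⟨h1, h2, ih h3 (fun x' y' hx' hy' => he x' y' (by simpa using hx') hy')⟩

theorem Adj.symm {x y : Finset ℕ} (h : Adj x y) : Adj y x := h.elim Or.inr Or.inl

theorem Adj.insert {x y : Finset ℕ} {z : ℕ} (h : Adj x y) (hx : z ∉ x) (hy : z ∉ y) :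
    Adj (insert z x) (insert z y) := by
  rcases h with ⟨a, ha, rfl⟩ | ⟨a, ha, rfl⟩
  · refine Or.inl ⟨a, ?_, ?_⟩
    · simp only [Finset.mem_insert, not_or] at hy ⊢; exact ⟨fun h => hy.1 h.symm, ha⟩
    · exact Finset.insert_comm _ _ _
  · refine Or.inr ⟨a, ?_, ?_⟩
    · simp only [Finset.mem_insert, not_or] at hx ⊢; exact ⟨fun h => hx.1 h.symm, ha⟩
    · exact Finset.insert_comm _ _ _

theorem Adj.up {x : Finset ℕ} {z : ℕ} (h : z ∉ x) : Adj x (Insert.insert z x) :=
  Or.inl ⟨z, h, rfl⟩

theorem Ok.map {V W : Set (Finset ℕ)} {A : List (Finset ℕ)} {e : Option (Finset ℕ)} {z : ℕ}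
    (h : Ok V A e) (hA : ∀ x ∈ A, z ∉ x) (he : ∀ y, e = some y → z ∉ y)
    (hV : ∀ v ∈ V, insert z v ∈ W) (hW : ∀ x ∈ A, x ∈ W) :
    Ok W (A.map (insert z)) (e.map (insert z)) := by
  induction A generalizing V W with
  | nil => trivial
  | cons x A ih =>
    obtain ⟨h1, h2, h3⟩ := h
    have hx : z ∉ x := hA x (by simp)
    rw [List.map_cons, Ok_cons, nx_map]
    refine ⟨?_, ?_, ?_⟩
    · intro a ha
      rcases Finset.mem_insert.1 ha with rfl | ha
      · left
        rw [Finset.erase_insert hx]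
        exact hW x (by simp)
      · have haz : a ≠ z := fun h => hx (h ▸ ha)
        have e1 : (insert z x).erase a = insert z (x.erase a) := by
          rw [Finset.erase_insert_of_ne haz.symm]
        rw [e1]
        rcases h1 a ha with h | h
        · exact Or.inl (hV _ h)
        · right; rw [h]; rfl
    · intro y hy
      rw [Option.map_eq_some_iff] at hy
      obtain ⟨y', hy', rfl⟩ := hy
      refine (h2 y' hy').insert hx ?_
      cases A with
      | nil => exact he y' hy'
      | cons y'' A => simp only [nx_cons, Option.some.injEq] at hy'; exact hA y' (by simp [hy'])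
    · refine ih h3 (fun x hx => hA x (by simp [hx])) ?_ ?_
      · intro v hv
        rcases hv with rfl | hv
        · exact Or.inl rfl
        · exact Or.inr (hV v hv)
      · intro y hy
        exact Or.inr (hW y (by simp [hy]))

/-- Sets visited in phases before `l`. -/
def vis (p m : ℕ → List (Finset ℕ)) (l : ℕ) : Set (Finset ℕ) :=
  {x | ∃ k, k < l ∧ (x ∈ p k ∨ x ∈ m k)}

theorem vis_mono (p m : ℕ → List (Finset ℕ)) {k l : ℕ} (h : k ≤ l) : vis p m k ⊆ vis p m l :=
  fun _ ⟨j, hj, hx⟩ => ⟨j, by omega, hx⟩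

theorem vis_succ (p m : ℕ → List (Finset ℕ)) (l : ℕ) :
    vis p m (l + 1) = vis p m l ∪ {x | x ∈ p l} ∪ {x | x ∈ m l} := by
  ext x
  constructor
  · rintro ⟨k, hk, hx⟩
    rcases Nat.lt_succ_iff_lt_or_eq.1 hk with h | rfl
    · exact Or.inl (Or.inl ⟨k, h, hx⟩)
    · rcases hx with hx | hx
      · exact Or.inl (Or.inr hx)
      · exact Or.inr hx
  · rintro ((⟨k, hk, hx⟩ | hx) | hx)
    · exact ⟨k, by omega, hx⟩
    · exact ⟨l, by omega, Or.inl hx⟩
    · exact ⟨l, by omega, Or.inr hx⟩

/-- A system on the ground set `N`: in phase `l` the segments `p l` and `m l` are visited. -/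
structure Sys (N : Finset ℕ) (p m : ℕ → List (Finset ℕ)) : Prop where
  okp : ∀ l, Ok (vis p m l) (p l) none
  okm : ∀ l, Ok (vis p m l ∪ {x | x ∈ p l}) (m l) none
  sub : ∀ l x, x ∈ p l ∨ x ∈ m l → x ⊆ N ∧ x.card ≤ l + 1
  comp : ∀ l x, x ⊆ N → x.card ≤ l → x ∈ vis p m (l + 1)
  fin : ∀ l, N.card < l → p l = [] ∧ m l = []
  len : ∑ l ∈ Finset.range (N.card + 1), ((p l).length + (m l).length) = 2 ^ N.card

/-- `x` is visited before phase `|x|`. -/
def Early (p m : ℕ → List (Finset ℕ)) (x : Finset ℕ) : Prop := x ∈ vis p m x.card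

/-- Composition of lists of two systems. -/
def cp (z : ℕ) (f g : ℕ → List (Finset ℕ)) : ℕ → List (Finset ℕ)
  | 0 => f 0
  | l + 1 => f (l + 1) ++ (g l).map (insert z)

@[simp] theorem cp_zero (z : ℕ) (f g : ℕ → List (Finset ℕ)) : cp z f g 0 = f 0 := rfl
@[simp] theorem cp_succ (z : ℕ) (f g : ℕ → List (Finset ℕ)) (l : ℕ) :
    cp z f g (l + 1) = f (l + 1) ++ (g l).map (insert z) := rfl

section comp
variable {N : Finset ℕ} {z : ℕ} {pL mL pU mU p' m' : ℕ → List (Finset ℕ)}

theorem mem_vis_comp_left (h0 : ∀ x, x ∈ pL 0 ∨ x ∈ mL 0 → x ∈ p' 0 ∨ x ∈ m' 0)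
    (hs : ∀ l x, x ∈ pL (l + 1) ∨ x ∈ mL (l + 1) → x ∈ p' (l + 1) ∨ x ∈ m' (l + 1))
    {l : ℕ} {x : Finset ℕ} (hx : x ∈ vis pL mL l) : x ∈ vis p' m' l := by
  obtain ⟨k, hk, hx⟩ := hx
  refine ⟨k, hk, ?_⟩
  cases k with
  | zero => exact h0 x hx
  | succ k => exact hs k x hx

/-- General composition lemma: the visited sets are those of the composition; the order
conditions are to be checked. -/
theorem Sys.comp' (hL : Sys N pL mL) (hU : Sys N pU mU) (hz : z ∉ N)
    (h0 : (p' 0 ++ m' 0).Perm (pL 0 ++ mL 0))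
    (hs : ∀ l, (p' (l + 1) ++ m' (l + 1)).Perm
      ((pL (l + 1) ++ mL (l + 1)) ++ (pU l ++ mU l).map (insert z)))
    (okp : ∀ l, Ok (vis p' m' l) (p' l) none)
    (okm : ∀ l, Ok (vis p' m' l ∪ {x | x ∈ p' l}) (m' l) none) :
    Sys (insert z N) p' m' := by
  have m0 : ∀ x, (x ∈ p' 0 ∨ x ∈ m' 0) ↔ (x ∈ pL 0 ∨ x ∈ mL 0) := by
    intro x
    have := h0.mem_iff (a := x)
    simpa only [List.mem_append] using this
  have ms : ∀ l x, (x ∈ p' (l + 1) ∨ x ∈ m' (l + 1)) ↔
      ((x ∈ pL (l + 1) ∨ x ∈ mL (l + 1)) ∨ ∃ y, (y ∈ pU l ∨ y ∈ mU l) ∧ insert z y = x) := by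
    intro l x
    have := (hs l).mem_iff (a := x)
    simpa only [List.mem_append, List.mem_map] using this
  refine ⟨okp, okm, ?_, ?_, ?_, ?_⟩
  · intro l x hx
    cases l with
    | zero =>
      obtain ⟨h1, h2⟩ := hL.sub 0 x ((m0 x).1 hx)
      exact ⟨h1.trans (Finset.subset_insert _ _), h2⟩
    | succ l =>
      rcases (ms l x).1 hx with h | ⟨y, hy, rfl⟩
      · obtain ⟨h1, h2⟩ := hL.sub (l + 1) x h
        exact ⟨h1.trans (Finset.subset_insert _ _), h2⟩
      · obtain ⟨h1, h2⟩ := hU.sub l y hy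
        exact ⟨Finset.insert_subset_insert _ h1, (Finset.card_insert_le _ _).trans (by omega)⟩
  · intro l x hx hc
    by_cases hzx : z ∈ x
    · have hcard : (x.erase z).card + 1 = x.card := Finset.card_erase_add_one hzx
      obtain ⟨l', rfl⟩ : ∃ l', l = l' + 1 := ⟨l - 1, by omega⟩
      have hsub : x.erase z ⊆ N := by
        intro a ha
        have := hx (Finset.mem_of_mem_erase ha)
        rcases Finset.mem_insert.1 this with h | h
        · exact absurd h (Finset.ne_of_mem_erase ha)
        · exact h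
      obtain ⟨k, hk, hx'⟩ := hU.comp l' (x.erase z) hsub (by omega)
      refine ⟨k + 1, by omega, (ms k x).2 (Or.inr ⟨_, hx', Finset.insert_erase hzx⟩)⟩
    · have hsub : x ⊆ N := by
        intro a ha
        rcases Finset.mem_insert.1 (hx ha) with h | h
        · exact absurd (h ▸ ha) hzx
        · exact h
      exact mem_vis_comp_left (fun x hx => (m0 x).2 hx)
        (fun l x hx => (ms l x).2 (Or.inl hx)) (hL.comp l x hsub hc)
  · intro l hl
    rw [Finset.card_insert_of_notMem hz] at hl
    obtain ⟨l', rfl⟩ : ∃ l', l = l' + 1 := ⟨l - 1, by omega⟩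
    have hLf := hL.fin (l' + 1) (by omega)
    have hUf := hU.fin l' (by omega)
    have := hs l'
    rw [hLf.1, hLf.2, hUf.1, hUf.2] at this
    have h2 := this.eq_nil
    exact List.append_eq_nil_iff.1 (by simpa using h2)
  · rw [Finset.card_insert_of_notMem hz, Finset.sum_range_succ']
    have e0 : (p' 0).length + (m' 0).length = (pL 0).length + (mL 0).length := by
      have := h0.length_eq
      simpa using this
    have es : ∀ l, (p' (l + 1)).length + (m' (l + 1)).length =
        ((pL (l + 1)).length + (mL (l + 1)).length) + ((pU l).length + (mU l).length) := by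
      intro l
      have := (hs l).length_eq
      simp only [List.length_append, List.length_map] at this
      omega
    simp only [es, e0]
    rw [Finset.sum_add_distrib, hU.len, add_right_comm,
      ← Finset.sum_range_succ' (fun l => (pL l).length + (mL l).length)]
    rw [Finset.sum_range_succ, hL.len]
    have := hL.fin (N.card + 1) (by omega)
    rw [this.1, this.2, pow_succ]
    simp; ring

end comp

end Pool.Agent.Lib.MP_bec39b_co
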