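import Pool.Agent.Lib.MP_bec39b_co.Flags

set_option autoImplicit false

namespace Pool.Agent.Lib.MP_bec39b_co

/-- Systems without additional segments, together with the early sets guaranteed by Lemma F. -/
structure FS (σ τ : List ℕ) (m : ℕ → List (Finset ℕ)) : Prop where
  ab : AB σ τ (fun _ => []) m
  m1 : ∀ a b c σ', σ = a :: b :: c :: σ' → ∃ r, m 1 = {a, b} :: {b} :: {b, c} :: {c} :: r
  ek : ∀ i < 3, (i = 2 → τ[2]? ≠ σ[σ.length - 2]?) → ∀ t, τ[i]? = some t →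
    ∀ x ∈ σ, x ∉ τ.take (i + 2) → Early (fun _ => []) m ((σ.toFinset.erase t).erase x)
  K : ∀ a b c σ' t1 t2 τ', σ = a :: b :: c :: σ' → τ = t1 :: t2 :: τ' → t2 ≠ b → t2 ≠ c →
    ∀ k, 4 ≤ k → k < σ.length →
      Early (fun _ => []) m ((fl σ k).erase b) ∧ Early (fun _ => []) m ((fl σ k).erase c)

/-- The additional segment of a system of type `A`. -/
def preA (a c : ℕ) : ℕ → List (Finset ℕ) := fun l => if l = 1 then [{c}, {a, c}] else []

/-- Systems of type `A`, with the guaranteed early sets. -/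
structure AS (a b c : ℕ) (σ' τ : List ℕ) (m : ℕ → List (Finset ℕ)) : Prop where
  ab : AB (a :: b :: c :: σ') τ (preA a c) m
  ek : ∀ i < 3, (i = 2 → τ[2]? ≠ σ'[σ'.length - 2]?) → ∀ t, τ[i]? = some t →
    ∀ x ∈ a :: b :: c :: σ', x ∉ τ.take (i + 2) →
      Early (preA a c) m (((a :: b :: c :: σ').toFinset.erase t).erase x)
  K : ∀ t1 t2 τ', τ = t1 :: t2 :: τ' → t2 ≠ a → t2 ≠ b → ∀ k, 4 ≤ k → k < σ'.length + 3 →
      Early (preA a c) m ((fl (a :: b :: c :: σ') k).erase a) ∧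
      Early (preA a c) m ((fl (a :: b :: c :: σ') k).erase b)

/-- The pairs of the `AP` systems: `({p} ∪ {y_1, ..., y_{l-1}}, ∪ w)` for `1 ≤ l ≤ r + 1`,
`l ≡ r + 1 mod 2`, and the top pair `({p, t1, t2} ∪ Y, ∪ q)` for `l = r + 3`. -/
def apP (Y : List ℕ) (p w t1 t2 q : ℕ) : ℕ → List (Finset ℕ) := fun l =>
  if l = Y.length + 3 then [(p :: t1 :: t2 :: Y).toFinset, insert q (p :: t1 :: t2 :: Y).toFinset]
  else if 1 ≤ l ∧ l ≤ Y.length + 1 ∧ (l + Y.length) % 2 = 1 then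
    [insert p (fl Y (l - 1)), insert w (insert p (fl Y (l - 1)))]
  else []

/-- Systems of type `BB`: phase `l` goes from `G l` to the first `l` elements of `E`. -/
structure BB (E : List ℕ) (G : ℕ → Finset ℕ) (m : ℕ → List (Finset ℕ)) : Prop where
  sys : Sys E.toFinset (fun _ => []) m
  nd : E.Nodup
  len : 6 ≤ E.length
  m0 : m 0 = [∅]
  m1 : ∃ x, (m 1).head? = some {x}
  hd : ∀ l, 2 ≤ l → l < E.length → (m l).head? = some (G l)
  lt : ∀ l, 1 ≤ l → l < E.length → (m l).getLast? = some (fl E l)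
  G2 : ∀ a b c E', E = a :: b :: c :: E' → G 2 = {a, c}
  even_top : E.length % 2 = 0 → m E.length = []
  odd_top : E.length % 2 = 1 → m E.length = [E.toFinset] ∧ G (E.length - 1) = fl E (E.length - 1)

/-- Systems of type `Q`, first kind. -/
structure Q1 (σ : List ℕ) (g : ℕ → Finset ℕ) (p m : ℕ → List (Finset ℕ)) : Prop where
  sys : Sys σ.toFinset p m
  nd : σ.Nodup
  len : 6 ≤ σ.length
  hd : ∀ l, l + 1 < σ.length → (m l).head? = some (fl σ (l + 1))
  p0 : p 0 = []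
  pp : ∀ l, 1 ≤ l → l < σ.length → ∃ f e, p l = [f, g l] ∧ f.card = l ∧
    (m (l - 1)).getLast? = some e ∧ Adj e f
  mtop : m (σ.length - 1) = []
  endp : p σ.length = []
  endm : m σ.length = []

/-- Systems of type `Q`, second kind. -/
structure Q3 (σ : List ℕ) (g : ℕ → Finset ℕ) (p m : ℕ → List (Finset ℕ)) : Prop where
  sys : Sys σ.toFinset p m
  nd : σ.Nodup
  len : 6 ≤ σ.length
  hd : ∀ l, l + 2 < σ.length → (m l).head? = some (fl σ (l + 1))
  p0 : p 0 = []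
  pp : ∀ l, 1 ≤ l → l + 2 < σ.length → ∃ f e, p l = [f, g l] ∧ f.card = l ∧
    (m (l - 1)).getLast? = some e ∧ Adj e f
  plong : ∃ A B e, p (σ.length - 2) = A ++ [fl σ (σ.length - 1)] ∧
    (p (σ.length - 2)).head? = some B ∧ (m (σ.length - 3)).getLast? = some e ∧ Adj e B ∧
    ∀ x ∈ A, x ≠ fl σ (σ.length - 1)
  m2 : m (σ.length - 2) = []
  p1 : p (σ.length - 1) = []
  mtop : ∃ y, m (σ.length - 1) = [σ.toFinset, y]
  endp : p σ.length = []
  endm : m σ.length = []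

/-- All subsets of `N` can be listed in an admissible way. -/
def Listing (N : Finset ℕ) : Prop :=
  ∃ L : List (Finset ℕ), L.head? = some ∅ ∧ Ok ∅ L none ∧ L.length = 2 ^ N.card ∧
    ∀ x, x ⊆ N → x ∈ L

end Pool.Agent.Lib.MP_bec39b_co
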