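import Pool.Agent.Lib.MP_bec39b_co.F9Chk

set_option autoImplicit false

namespace Pool.Agent.Lib.MP_bec39b_co.F9Data

theorem cov0 : cov leaf 7 [1, 2, 3, 4, 5, 6, 7] [0] C0 = true := by decide +kernel

theorem cov1 : cov leaf 7 [0, 2, 3, 4, 5, 6, 7] [1] C1 = true := by decide +kernel

theorem cov2 : cov leaf 7 [0, 1, 3, 4, 5, 6, 7] [2] C2 = true := by decide +kernel

end Pool.Agent.Lib.MP_bec39b_co.F9Data
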