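import Pool.Agent.Lib.MP_bec39b_co.F9Chk

set_option autoImplicit false

namespace Pool.Agent.Lib.MP_bec39b_co.F9Data

theorem cov3 : cov leaf 7 [0, 1, 2, 4, 5, 6, 7] [3] C3 = true := by decide +kernel

theorem cov4 : cov leaf 7 [0, 1, 2, 3, 5, 6, 7] [4] C4 = true := by decide +kernel

theorem cov5 : cov leaf 7 [0, 1, 2, 3, 4, 6, 7] [5] C5 = true := by decide +kernel

end Pool.Agent.Lib.MP_bec39b_co.F9Data
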