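import Pool.Agent.Lib.MP_bec39b_co.F9Chk

set_option autoImplicit false

namespace Pool.Agent.Lib.MP_bec39b_co.F9Data

theorem cov6 : cov leaf 7 [0, 1, 2, 3, 4, 5, 7] [6] C6 = true := by decide +kernel

theorem cov7 : cov leaf 7 [0, 1, 2, 3, 4, 5, 6] [7] C7 = true := by decide +kernel

theorem tab7 : tab 6 T6 13 T6 13 T7 c7 false false 115 = true := by decide +kernel

theorem tab7p : tab 6 T6 13 T6 13 T7p c7p true false 83 = true := by decide +kernel

theorem tabx7 : tab 6 X6 1 T6 13 X7 cx7 false true 9 = true := by decide +kernel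

theorem tab8 : tab 7 T7 115 T7 115 T8 c8 true false 284 = true := by decide +kernel

theorem tab8p : tab 7 T7 115 T7p 83 T8p c8p true false 2932 = true := by decide +kernel

theorem tabx8 : tab 7 X7 9 T7 115 X8 cx8 false true 74 = true := by decide +kernel

end Pool.Agent.Lib.MP_bec39b_co.F9Data
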