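import Pool.Agent.Lib.MP_bec39b_co.F9Base
import Pool.Agent.Lib.MP_bec39b_co.F9CovA
import Pool.Agent.Lib.MP_bec39b_co.F9CovB
import Pool.Agent.Lib.MP_bec39b_co.F9CovC

set_option autoImplicit false

namespace Pool.Agent.Lib.MP_bec39b_co

namespace F9Data

theorem all7 : ∀ i < 115, P 7 0 false (get T7 i) ∧ dig (get T7 i) 0 = 6 :=
  tab_sound (by norm_num) all6 all6 0 (by norm_num) (by simp) 115 tab7

theorem all7p : ∀ i < 83, P 7 1 false (get T7p i) ∧ dig (get T7p i) 0 = 6 :=
  tab_sound (by norm_num) all6 all6 1 (by norm_num) (by simp) 83 tab7p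

theorem allx7 : ∀ i < 9, P 7 0 true (get X7 i) ∧ dig (get X7 i) 0 = 6 :=
  tab_sound (by norm_num) allX6 all6 0 (by norm_num) (by simp) 9 tabx7

theorem all8 : ∀ i < 284, P 8 1 false (get T8 i) ∧ dig (get T8 i) 0 = 7 :=
  tab_sound (by norm_num) (fun i hi => (all7 i hi).1) (fun i hi => (all7 i hi).1) 1 (by norm_num)
    (by simp) 284 tab8

theorem all8p : ∀ i < 2932, P 8 2 false (get T8p i) ∧ dig (get T8p i) 0 = 7 :=
  tab_sound (by norm_num) (fun i hi => (all7 i hi).1) (fun i hi => (all7p i hi).1) 2 (by norm_num)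
    (by simp) 2932 tab8p

theorem allx8 : ∀ i < 74, P 8 0 true (get X8 i) ∧ dig (get X8 i) 0 = 7 :=
  tab_sound (by norm_num) (fun i hi => (allx7 i hi).1) (fun i hi => (all7 i hi).1) 0 (by norm_num)
    (by simp) 74 tabx8

/-- What the coverage gives for a permutation of `0..7`. -/
def Good (l : List ℕ) : Prop := l[0]? = some 7 ∨ ∃ κ ν x j k, P 8 j x κ ∧ P 8 k false ν ∧
  dig ν 0 = 7 ∧ l = (List.range l.length).map (fun i => dig κ (dig ν i)) ∧
  ((x = true ∧ l[0]? ≠ some 1 ∧ l[0]? ≠ some 2) ∨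
    (x = false ∧ (l[0]? = some 1 ∨ l[0]? = some 2))) ∧
  (k = 2 ∨ (k = 1 ∧ l[1]? = some 7))

theorem beq_false_ne {a b : ℕ} (h : Nat.beq a b = false) : a ≠ b := by
  rintro rfl
  rw [Nat.beq_refl] at h
  exact absurd h (by decide)

theorem leaf_sound (acc : List ℕ) (C : ℕ) (h : leaf acc C = true) : Good acc := by
  rcases acc with _ | ⟨t0, _ | ⟨t1, t⟩⟩
  · simp [leaf] at h
  · simp [leaf] at h
  · rw [leaf] at h
    simp only [Bool.or_eq_true, Bool.and_eq_true, Bool.not_eq_true'] at h
    rcases h with ((h | h) | h) | h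
    · left
      rw [Nat.eq_of_beq_eq_true h]; rfl
    · right
      obtain ⟨h0, hi, hj, hc⟩ := h
      have hi' := all8 _ (Nat.le_of_ble_eq_true hi)
      have hj' := all8p _ (Nat.le_of_ble_eq_true hj)
      refine ⟨_, _, false, 1, 2, hi'.1, hj'.1, hj'.2, chkL_sound _ _ _ hc, Or.inr ⟨rfl, ?_⟩,
        Or.inl rfl⟩
      rcases h0 with h0 | h0
      · left; rw [Nat.eq_of_beq_eq_true h0]; rfl
      · right; rw [Nat.eq_of_beq_eq_true h0]; rfl
    · right
      obtain ⟨⟨⟨h0, h1⟩, h2⟩, hi, hj, hc⟩ := h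
      have hi' := allx8 _ (Nat.le_of_ble_eq_true hi)
      have hj' := all8 _ (Nat.le_of_ble_eq_true hj)
      refine ⟨_, _, true, 0, 1, hi'.1, hj'.1, hj'.2, chkL_sound _ _ _ hc, Or.inl ⟨rfl, ?_, ?_⟩,
        Or.inr ⟨rfl, ?_⟩⟩
      · simpa using beq_false_ne h1
      · simpa using beq_false_ne h2
      · rw [Nat.eq_of_beq_eq_true h0]; rfl
    · right
      obtain ⟨⟨h1, h2⟩, hi, hj, hc⟩ := h
      have hi' := allx8 _ (Nat.le_of_ble_eq_true hi)
      have hj' := all8p _ (Nat.le_of_ble_eq_true hj)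
      refine ⟨_, _, true, 0, 2, hi'.1, hj'.1, hj'.2, chkL_sound _ _ _ hc, Or.inl ⟨rfl, ?_, ?_⟩,
        Or.inl rfl⟩
      · simpa using beq_false_ne h1
      · simpa using beq_false_ne h2

theorem good_all (l : List ℕ) (hl : l.Perm (List.range 8)) : Good l := by
  have hlen : l.length = 8 := by rw [hl.length_eq, List.length_range]
  have hne : l ≠ [] := by rintro rfl; simp at hlen
  obtain ⟨l', a, rfl⟩ : ∃ l' a, l = l' ++ [a] :=
    ⟨l.dropLast, l.getLast hne, (List.dropLast_append_getLast hne).symm⟩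
  have ha : a ∈ List.range 8 := hl.mem_iff.1 (by simp)
  have h2 : l'.Perm ((List.range 8).erase a) :=
    (List.cons_perm_iff_perm_erase.1 ((List.perm_append_singleton a l').symm.trans hl)).2
  rw [List.mem_range] at ha
  interval_cases a
  · exact cov_sound leaf Good leaf_sound 7 _ _ _ cov0 rfl l' h2
  · exact cov_sound leaf Good leaf_sound 7 _ _ _ cov1 rfl l' h2
  · exact cov_sound leaf Good leaf_sound 7 _ _ _ cov2 rfl l' h2
  · exact cov_sound leaf Good leaf_sound 7 _ _ _ cov3 rfl l' h2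
  · exact cov_sound leaf Good leaf_sound 7 _ _ _ cov4 rfl l' h2
  · exact cov_sound leaf Good leaf_sound 7 _ _ _ cov5 rfl l' h2
  · exact cov_sound leaf Good leaf_sound 7 _ _ _ cov6 rfl l' h2
  · exact cov_sound leaf Good leaf_sound 7 _ _ _ cov7 rfl l' h2

end F9Data

open F9Data

/-- base n = 9 (closure computation in the kernel from explicit systems on 6 elements) -/
theorem F9 (σ τ : List ℕ) (hn : σ.length = 9) (nd : σ.Nodup) (hp : τ.Perm σ)
    (h1 : τ.head? = σ.getLast?) (h2 : τ[1]? ≠ σ[σ.length - 2]?) : ∃ m, FS σ τ m := by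
  have hne : σ ≠ [] := by rintro rfl; simp at hn
  obtain ⟨σ0, z, rfl⟩ : ∃ l' a, σ = l' ++ [a] :=
    ⟨σ.dropLast, σ.getLast hne, (List.dropLast_append_getLast hne).symm⟩
  simp only [List.length_append, List.length_singleton, Nat.reduceEqDiff] at hn
  rw [List.nodup_append] at nd
  have hz : z ∉ σ0 := fun h => nd.2.2 z h z (by simp) rfl
  obtain ⟨τ0, rfl⟩ : ∃ τ0, τ = z :: τ0 := by
    cases τ with
    | nil => simp at h1
    | cons t τ0 => simp at h1; exact ⟨τ0, by rw [h1]⟩
  have hp0 : τ0.Perm σ0 := by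
    have : (z :: τ0).Perm (z :: σ0) := hp.trans (List.perm_append_singleton z σ0)
    exact (List.perm_cons z).1 this
  set l := τ0.map (σ0.idxOf ·) with hl
  have hidx : ∀ t ∈ τ0, σ0.getD (σ0.idxOf t) 0 = t := by
    intro t ht
    have ht' : t ∈ σ0 := hp0.mem_iff.1 ht
    rw [List.getD_eq_getElem _ _ (List.idxOf_lt_length_of_mem ht')]
    exact List.getElem_idxOf _
  have hτ0 : τ0 = l.map (fun i => σ0.getD i 0) := by
    rw [hl, List.map_map]
    conv_lhs => rw [← List.map_id τ0]
    refine List.map_congr_left ?_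
    intro t ht
    simp only [id_eq, Function.comp_apply]
    exact (hidx t ht).symm
  have hσidx : σ0.map (σ0.idxOf ·) = List.range 8 := by
    apply List.ext_getElem
    · simp [hn]
    · intro i h1 h2
      simp only [List.getElem_map, List.getElem_range]
      exact nd.1.idxOf_getElem i _
  have hlp : l.Perm (List.range 8) := by
    rw [hl, ← hσidx]
    exact hp0.map _
  have hllen : l.length = 8 := by rw [hlp.length_eq, List.length_range]
  have hτ0l : τ0.length = 8 := by rw [hp0.length_eq, hn]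
  have hget : ∀ i, i < 8 → τ0[i]? = some (σ0.getD (l.getD i 0) 0) := by
    intro i hi
    rw [hτ0, List.getElem?_map, List.getElem?_eq_getElem (by omega)]
    simp [hllen, hi]
  have hσget : ∀ i, i < 8 → (σ0 ++ [z])[i]? = some (σ0.getD i 0) := by
    intro i hi
    rw [List.getElem?_append_left (by omega), List.getElem?_eq_getElem (by omega),
      List.getD_eq_getElem _ _ (by omega)]
  have hslen : (σ0 ++ [z]).length = 9 := by simp [hn]
  have hl0 : l[0]? ≠ some 7 := by
    intro h
    apply h2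
    rw [hslen, List.getElem?_cons_succ, hget 0 (by norm_num)]
    have : l.getD 0 0 = 7 := by
      rw [List.getD_eq_getElem?_getD, h]; rfl
    rw [this]
    exact (hσget 7 (by norm_num)).symm
  rcases good_all l hlp with h | ⟨κ, ν, x, j, k, g1, g2, g3, g4, g5, g6⟩
  · exact absurd h hl0
  have hτ0' : τ0 = (List.range 8).map (fun i => σ0.getD (dig κ (dig ν i)) 0) := by
    rw [hτ0]
    conv_lhs => rw [g4]
    rw [hllen, List.map_map]
    rfl
  have hlval : ∀ i, i < 8 → l[i]? = some (dig κ (dig ν i)) := by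
    intro i hi
    conv_lhs => rw [g4]
    rw [hllen, List.getElem?_map, List.getElem?_range hi]
    rfl
  have hx : x = true → dig κ (8 - 1) ≠ 1 ∧ dig κ (8 - 1) ≠ 2 := by
    intro hx
    rcases g5 with ⟨_, h3, h4⟩ | ⟨h3, _⟩
    · rw [hlval 0 (by norm_num), g3] at h3 h4
      exact ⟨fun e => h3 (by rw [← e]), fun e => h4 (by rw [← e])⟩
    · rw [hx] at h3; exact absurd h3 (by decide)
  obtain ⟨m, hm⟩ := P_comp_list g1 g2 (by norm_num) (k + 1) le_rfl (fun _ => g3) hx nd.1 hn hz
  rw [← hτ0'] at hm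
  refine ⟨m, hm.ab, hm.m1, ?_, ?_⟩
  · intro i hi hi2 t ht x hx hxt
    refine hm.ek i ?_ t ht x hx hxt
    rcases g6 with rfl | ⟨rfl, h7⟩
    · exact hi
    · by_contra hc
      have hi3 : i = 2 := by omega
      apply hi2 hi3
      rw [hslen, List.getElem?_cons_succ, hget 1 (by norm_num)]
      have : l.getD 1 0 = 7 := by
        rw [List.getD_eq_getElem?_getD, h7]; rfl
      rw [this]
      exact (hσget 7 (by norm_num)).symm
  · intro a b c σ' t1 t2 τ' hs ht hb hc k hk hk2
    refine hm.K ?_ a b c σ' hs k hk hk2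
    rcases g5 with ⟨hx, _⟩ | ⟨_, h5⟩
    · exact hx
    · exfalso
      have hb' : b = σ0.getD 1 0 := by
        have := hσget 1 (by norm_num)
        rw [hs] at this
        simpa using this
      have hc' : c = σ0.getD 2 0 := by
        have := hσget 2 (by norm_num)
        rw [hs] at this
        simpa using this
      have ht2 : t2 = σ0.getD (l.getD 0 0) 0 := by
        have := hget 0 (by norm_num)
        simp only [List.cons.injEq] at ht
        rw [ht.2] at this
        simpa using this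
      rcases h5 with h5 | h5
      · apply hb
        have h6 : l.getD 0 0 = 1 := by rw [List.getD_eq_getElem?_getD, h5]; rfl
        rw [ht2, hb', h6]
      · apply hc
        have h6 : l.getD 0 0 = 2 := by rw [List.getD_eq_getElem?_getD, h5]; rfl
        rw [ht2, hc', h6]

end Pool.Agent.Lib.MP_bec39b_co
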