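import Pool.Agent.Lib.MP_bec39b_co.F9Chk
import Pool.Agent.Lib.MP_bec39b_co.Check

set_option autoImplicit false

namespace Pool.Agent.Lib.MP_bec39b_co.F9Data

/-- Checks for the explicit systems on 6 elements. -/
def chk6 (D : List (List ℕ × List ℕ)) (c : ℕ) (x : Bool) : Bool :=
  checkSys 6 D && checkFlags 6 D (List.range 6) ((List.range 6).map (dig c)) &&
    ((List.range 7).all fun l => (D.getD l ([], [])).1.isEmpty) && Nat.beq D.length 7 &&
    decide ((D.getD 1 ([], [])).2.take 4 = [3, 2, 6, 4]) &&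
    ((List.range 6).all fun i => Nat.blt (dig c i) 6) &&
    (!x || ([13, 29, 11, 27].all fun s => ((List.range (bs 6 s).card).any fun k =>
      (D.getD k ([], [])).1.contains s || (D.getD k ([], [])).2.contains s)))

theorem map_getD_range {σ : List ℕ} {n : ℕ} (h : σ.length = n) :
    (List.range n).map (fun i => σ.getD i 0) = σ := by
  apply List.ext_getElem
  · simp [h]
  · intro i h1 h2
    simp [h2]

theorem base6 {D : List (List ℕ × List ℕ)} {c : ℕ} {x : Bool} (h : chk6 D c x = true) :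
    P 6 0 x c := by
  unfold chk6 at h
  simp only [Bool.and_eq_true, decide_eq_true_eq, List.all_eq_true, List.mem_range,
    List.isEmpty_iff, Bool.or_eq_true, Bool.not_eq_true'] at h
  obtain ⟨⟨⟨⟨⟨⟨h1, h2⟩, h3⟩, h4⟩, h5⟩, h6⟩, h7⟩ := h
  have h4 := Nat.eq_of_beq_eq_true h4
  have h6 : ∀ i < 6, dig c i < 6 := fun i hi => Nat.le_of_ble_eq_true (h6 i hi)
  have hAB := checkAB h1 h2
  have hp : pD 6 D = fun _ => [] := by
    funext l
    unfold pD
    rcases Nat.lt_or_ge l 7 with hl | hl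
    · rw [h3 l hl]; rfl
    · rw [List.getD_eq_default _ _ (by omega)]; rfl
  refine ⟨h6, ?_⟩
  intro σ nd hlen
  set f : ℕ → ℕ := fun i => σ.getD i 0 with hf
  have hσ : (List.range 6).map f = σ := map_getD_range hlen
  have hR : (List.range 6).toFinset = Finset.range 6 := by
    ext a; simp
  have hinj : Set.InjOn f (((List.range 6).toFinset : Finset ℕ) : Set ℕ) := by
    rw [hR]; exact injOn_getD nd hlen
  have hinj' : Set.InjOn f ((Finset.range 6 : Finset ℕ) : Set ℕ) := injOn_getD nd hlen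
  have hAB2 := hAB.relabel hinj
  rw [hp, im_nil, hσ] at hAB2
  have happ : app σ c = ((List.range 6).map (dig c)).map f := by
    unfold app
    rw [hlen, List.map_map]
    rfl
  refine ⟨im f (mD 6 D), ?_, ?_, ?_, ?_⟩
  · rw [happ]; exact hAB2
  · intro a b c' σ' hs
    have ha : f 0 = a := by rw [hf]; simp [hs]
    have hb : f 1 = b := by rw [hf]; simp [hs]
    have hc : f 2 = c' := by rw [hf]; simp [hs]
    refine ⟨((D.getD 1 ([], [])).2.drop 4).map (fun s => (bs 6 s).image f), ?_⟩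
    have e1 : (D.getD 1 ([], [])).2 = [3, 2, 6, 4] ++ (D.getD 1 ([], [])).2.drop 4 := by
      rw [← h5, List.take_append_drop]
    unfold im mD
    rw [e1]
    have b3 : bs 6 3 = {0, 1} := by decide
    have b2 : bs 6 2 = {1} := by decide
    have b6 : bs 6 6 = {1, 2} := by decide
    have b4 : bs 6 4 = {2} := by decide
    simp [b3, b2, b6, b4, Finset.image_insert, ha, hb, hc, Function.comp_def]
  · intro i hi; omega
  · intro hx a b c' σ' hs k hk hk2
    have ha : f 0 = a := by rw [hf]; simp [hs]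
    have hb : f 1 = b := by rw [hf]; simp [hs]
    have hc : f 2 = c' := by rw [hf]; simp [hs]
    have key : ∀ s ∈ [13, 29, 11, 27], Early (fun _ => []) (im f (mD 6 D)) ((bs 6 s).image f) := by
      intro s hs
      have h7' := h7.resolve_left (by rw [hx]; simp)
      have := (early_of (h7' s hs)).relabel hinj' (bs_subset 6 s)
      rw [hp, im_nil] at this
      exact this
    have hfl : ∀ k, fl σ k = (fl (List.range 6) k).image f := by
      intro k
      rw [← fl_map, hσ]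
    have hsub : ∀ k, fl (List.range 6) k ⊆ Finset.range 6 := by
      intro k
      rw [← hR]; exact fl_subset _ _
    rw [hlen] at hk2
    obtain rfl | rfl : k = 4 ∨ k = 5 := by omega
    · have g1 : (fl (List.range 6) 4).erase 1 = bs 6 13 := by decide
      have g2 : (fl (List.range 6) 4).erase 2 = bs 6 11 := by decide
      rw [hfl, ← hb, ← hc, ← image_erase_of_injOn hinj' (hsub 4) (by decide),
        ← image_erase_of_injOn hinj' (hsub 4) (by decide), g1, g2]
      exact ⟨key _ (by simp), key _ (by simp)⟩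
    · have g1 : (fl (List.range 6) 5).erase 1 = bs 6 29 := by decide
      have g2 : (fl (List.range 6) 5).erase 2 = bs 6 27 := by decide
      rw [hfl, ← hb, ← hc, ← image_erase_of_injOn hinj' (hsub 5) (by decide),
        ← image_erase_of_injOn hinj' (hsub 5) (by decide), g1, g2]
      exact ⟨key _ (by simp), key _ (by simp)⟩

/-- The system with last flag [5, 3, 4, 0, 1, 2]. -/
def D6_0 : List (List ℕ × List ℕ) :=
  [([], [1, 0]),
   ([], [3, 2, 6, 4, 12, 8, 24, 16, 48, 32]),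
   ([], [7, 5, 13, 9, 11, 10, 26, 18, 22, 20, 21, 17, 49, 33, 35, 34, 38, 36, 44, 40]),
   ([], [15, 14, 30, 28, 29, 25, 27, 19, 51, 50, 54, 52, 53, 37, 45, 41, 43, 42, 58, 56]),
   ([], [31, 23, 55, 39, 47, 46, 62, 60, 61, 57]),
   ([], [63, 59]),
   ([], [])]

/-- The system with last flag [5, 0, 2, 3, 1, 4]. -/
def D6_1 : List (List ℕ × List ℕ) :=
  [([], [1, 0]),
   ([], [3, 2, 6, 4, 12, 8, 24, 16, 48, 32]),
   ([], [7, 5, 13, 9, 11, 10, 26, 18, 50, 34, 42, 40, 44, 36, 52, 20, 21, 17, 49, 33]),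
   ([], [15, 14, 46, 38, 54, 22, 23, 19, 27, 25, 29, 28, 60, 56, 57, 41, 43, 35, 39, 37]),
   ([], [31, 30, 62, 58, 59, 51, 55, 53, 61, 45]),
   ([], [63, 47]),
   ([], [])]

/-- The system with last flag [4, 3, 5, 0, 2, 1]. -/
def D6_2 : List (List ℕ × List ℕ) :=
  [([], [1, 0]),
   ([], [3, 2, 6, 4, 12, 8, 40, 32, 48, 16]),
   ([], [7, 5, 13, 9, 11, 10, 42, 34, 38, 36, 37, 33, 49, 17, 19, 18, 22, 20, 28, 24]),
   ([], [15, 14, 30, 26, 27, 25, 29, 21, 53, 52, 54, 50, 51, 35, 43, 41, 45, 44, 60, 56]),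
   ([], [31, 23, 55, 39, 47, 46, 62, 58, 59, 57]),
   ([], [63, 61]),
   ([], [])]

/-- The system with last flag [5, 4, 3, 2, 1, 0]. -/
def D6_3 : List (List ℕ × List ℕ) :=
  [([], [1, 0]),
   ([], [3, 2, 6, 4, 20, 16, 24, 8, 40, 32]),
   ([], [7, 5, 21, 17, 19, 18, 26, 10, 14, 12, 13, 9, 41, 33, 35, 34, 38, 36, 52, 48]),
   ([], [15, 11, 27, 25, 29, 28, 30, 22, 54, 50, 51, 49, 53, 37, 45, 44, 46, 42, 58, 56]),
   ([], [31, 23, 55, 39, 47, 43, 59, 57, 61, 60]),
   ([], [63, 62]),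
   ([], [])]

/-- The system with last flag [5, 2, 3, 4, 1, 0]. -/
def D6_4 : List (List ℕ × List ℕ) :=
  [([], [1, 0]),
   ([], [3, 2, 6, 4, 20, 16, 24, 8, 40, 32]),
   ([], [7, 5, 21, 17, 19, 18, 26, 10, 14, 12, 13, 9, 41, 33, 35, 34, 50, 48, 52, 36]),
   ([], [15, 11, 27, 25, 29, 28, 30, 22, 54, 38, 39, 37, 53, 49, 57, 56, 58, 42, 46, 44]),
   ([], [31, 23, 55, 51, 59, 43, 47, 45, 61, 60]),
   ([], [63, 62]),
   ([], [])]

/-- The system with last flag [5, 4, 3, 1, 2, 0]. -/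
def D6_5 : List (List ℕ × List ℕ) :=
  [([], [1, 0]),
   ([], [3, 2, 6, 4, 20, 16, 24, 8, 40, 32]),
   ([], [7, 5, 21, 17, 19, 18, 26, 10, 14, 12, 13, 9, 41, 33, 37, 36, 38, 34, 50, 48]),
   ([], [15, 11, 27, 25, 29, 28, 30, 22, 54, 52, 53, 49, 51, 35, 43, 42, 46, 44, 60, 56]),
   ([], [31, 23, 55, 39, 47, 45, 61, 57, 59, 58]),
   ([], [63, 62]),
   ([], [])]

/-- The system with last flag [5, 1, 3, 4, 2, 0]. -/
def D6_6 : List (List ℕ × List ℕ) :=
  [([], [1, 0]),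
   ([], [3, 2, 6, 4, 20, 16, 24, 8, 40, 32]),
   ([], [7, 5, 21, 17, 19, 18, 26, 10, 14, 12, 13, 9, 41, 33, 37, 36, 52, 48, 50, 34]),
   ([], [15, 11, 27, 25, 29, 28, 30, 22, 54, 38, 39, 35, 51, 49, 57, 56, 60, 44, 46, 42]),
   ([], [31, 23, 55, 53, 61, 45, 47, 43, 59, 58]),
   ([], [63, 62]),
   ([], [])]

/-- The system with last flag [5, 2, 3, 1, 4, 0]. -/
def D6_7 : List (List ℕ × List ℕ) :=
  [([], [1, 0]),
   ([], [3, 2, 6, 4, 20, 16, 24, 8, 40, 32]),
   ([], [7, 5, 21, 17, 19, 18, 26, 10, 14, 12, 13, 9, 41, 33, 49, 48, 50, 34, 38, 36]),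
   ([], [15, 11, 27, 25, 29, 28, 30, 22, 54, 52, 53, 37, 39, 35, 43, 42, 58, 56, 60, 44]),
   ([], [31, 23, 55, 51, 59, 57, 61, 45, 47, 46]),
   ([], [63, 62]),
   ([], [])]

/-- The system with last flag [5, 1, 3, 2, 4, 0]. -/
def D6_8 : List (List ℕ × List ℕ) :=
  [([], [1, 0]),
   ([], [3, 2, 6, 4, 20, 16, 24, 8, 40, 32]),
   ([], [7, 5, 21, 17, 19, 18, 26, 10, 14, 12, 13, 9, 41, 33, 49, 48, 52, 36, 38, 34]),
   ([], [15, 11, 27, 25, 29, 28, 30, 22, 54, 50, 51, 35, 39, 37, 45, 44, 60, 56, 58, 42]),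
   ([], [31, 23, 55, 53, 61, 57, 59, 43, 47, 46]),
   ([], [63, 62]),
   ([], [])]

/-- The system with last flag [3, 4, 5, 1, 2, 0]. -/
def D6_9 : List (List ℕ × List ℕ) :=
  [([], [1, 0]),
   ([], [3, 2, 6, 4, 20, 16, 48, 32, 40, 8]),
   ([], [7, 5, 21, 17, 19, 18, 50, 34, 38, 36, 37, 33, 41, 9, 11, 10, 14, 12, 28, 24]),
   ([], [15, 13, 29, 25, 27, 26, 30, 22, 54, 52, 53, 49, 51, 35, 43, 42, 46, 44, 60, 56]),
   ([], [31, 23, 55, 39, 47, 45, 61, 57, 59, 58]),
   ([], [63, 62]),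
   ([], [])]

/-- The system with last flag [3, 4, 5, 0, 1, 2]. -/
def D6_10 : List (List ℕ × List ℕ) :=
  [([], [1, 0]),
   ([], [3, 2, 6, 4, 20, 16, 48, 32, 40, 8]),
   ([], [7, 5, 21, 17, 49, 33, 41, 9, 11, 10, 14, 12, 44, 36, 38, 34, 50, 18, 26, 24]),
   ([], [15, 13, 45, 37, 53, 52, 54, 22, 30, 28, 29, 25, 27, 19, 51, 35, 43, 42, 58, 56]),
   ([], [31, 23, 55, 39, 47, 46, 62, 60, 61, 57]),
   ([], [63, 59]),
   ([], [])]

/-- The system with last flag [4, 5, 3, 2, 0, 1]. -/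
def D6_11 : List (List ℕ × List ℕ) :=
  [([], [1, 0]),
   ([], [3, 2, 6, 4, 36, 32, 40, 8, 24, 16]),
   ([], [7, 5, 37, 33, 35, 34, 42, 10, 14, 12, 13, 9, 25, 17, 19, 18, 22, 20, 52, 48]),
   ([], [15, 11, 27, 26, 30, 28, 29, 21, 53, 49, 51, 50, 54, 38, 46, 44, 45, 41, 57, 56]),
   ([], [31, 23, 55, 39, 47, 43, 59, 58, 62, 60]),
   ([], [63, 61]),
   ([], [])]

/-- The system with last flag [3, 5, 4, 1, 0, 2]. -/
def D6_12 : List (List ℕ × List ℕ) :=
  [([], [1, 0]),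
   ([], [3, 2, 6, 4, 36, 32, 48, 16, 24, 8]),
   ([], [7, 5, 37, 33, 35, 34, 50, 18, 22, 20, 21, 17, 25, 9, 11, 10, 14, 12, 44, 40]),
   ([], [15, 13, 29, 28, 30, 26, 27, 19, 51, 49, 53, 52, 54, 38, 46, 42, 43, 41, 57, 56]),
   ([], [31, 23, 55, 39, 47, 45, 61, 60, 62, 58]),
   ([], [63, 59]),
   ([], [])]

theorem all6 : ∀ i < 13, P 6 0 false (get T6 i) := by
  intro i hi
  interval_cases i
  · exact base6 (D := D6_0) (by decide +kernel)
  · exact base6 (D := D6_1) (by decide +kernel)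
  · exact base6 (D := D6_2) (by decide +kernel)
  · exact base6 (D := D6_3) (by decide +kernel)
  · exact base6 (D := D6_4) (by decide +kernel)
  · exact base6 (D := D6_5) (by decide +kernel)
  · exact base6 (D := D6_6) (by decide +kernel)
  · exact base6 (D := D6_7) (by decide +kernel)
  · exact base6 (D := D6_8) (by decide +kernel)
  · exact base6 (D := D6_9) (by decide +kernel)
  · exact base6 (D := D6_10) (by decide +kernel)
  · exact base6 (D := D6_11) (by decide +kernel)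
  · exact base6 (D := D6_12) (by decide +kernel)

theorem allX6 : ∀ i < 1, P 6 0 true (get X6 i) := by
  intro i hi
  interval_cases i
  exact base6 (D := D6_1) (by decide +kernel)

end Pool.Agent.Lib.MP_bec39b_co.F9Data
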