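import Pool.Agent.Lib.MP_bec39b_co.F9Comp
import Pool.Agent.Lib.MP_bec39b_co.F9Data

set_option autoImplicit false

namespace Pool.Agent.Lib.MP_bec39b_co.F9Data

/-- The `i`-th base 8 digit of `c`. -/
def dig (c i : ℕ) : ℕ := Nat.mod (Nat.shiftRight c (Nat.mul 3 i)) 8

/-- The `i`-th block (24 bits) of `T`. -/
def get (T i : ℕ) : ℕ := Nat.mod (Nat.shiftRight T (Nat.mul 24 i)) 16777216

/-- `acc` is the composition of the permutations with codes `a` and `b`. -/
def chkL (a : ℕ) : ℕ → List ℕ → Bool
  | _, [] => true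
  | b, x :: t => (Nat.beq (dig a (Nat.mod b 8)) x) && chkL a (Nat.shiftRight b 3) t

/-- Leaf check. -/
def leaf (acc : List ℕ) (C : ℕ) : Bool :=
  match acc with
  | t0 :: t1 :: _ =>
    Nat.beq t0 7 || ((Nat.beq t0 1 || Nat.beq t0 2) &&
      (Nat.blt (Nat.mod C 4096) 284 && (Nat.blt (Nat.mod (Nat.shiftRight C 12) 4096) 2932 &&
        (chkL (get T8 (Nat.mod C 4096)) (get T8p (Nat.mod (Nat.shiftRight C 12) 4096)) acc)))) ||
    (Nat.beq t1 7 && !(Nat.beq t0 1) && !(Nat.beq t0 2) &&
      (Nat.blt (Nat.mod C 4096) 74 && (Nat.blt (Nat.mod (Nat.shiftRight C 12) 4096) 284 &&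
        (chkL (get X8 (Nat.mod C 4096)) (get T8 (Nat.mod (Nat.shiftRight C 12) 4096)) acc)))) ||
    (!(Nat.beq t0 1) && !(Nat.beq t0 2) &&
      (Nat.blt (Nat.mod C 4096) 74 && (Nat.blt (Nat.mod (Nat.shiftRight C 12) 4096) 2932 &&
        (chkL (get X8 (Nat.mod C 4096)) (get T8p (Nat.mod (Nat.shiftRight C 12) 4096)) acc))))
  | _ => false

/-- Choose the elements of the list one after the other. -/
def loop (blk : ℕ) (f : List ℕ → ℕ → ℕ → Bool) : List ℕ → List ℕ → ℕ → Bool
  | _, [], _ => true
  | pre, a :: post, C =>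
    f (List.reverseAux pre post) a (Nat.mod C (Nat.pow 2 blk)) &&
      loop blk f (a :: pre) post (Nat.shiftRight C blk)

def blk : ℕ → ℕ
  | 0 => 24
  | 1 => 24
  | 2 => 48
  | 3 => 144
  | 4 => 576
  | 5 => 2880
  | 6 => 17280
  | _ => 120960

def cov (fc : List ℕ → ℕ → Bool) : ℕ → List ℕ → List ℕ → ℕ → Bool
  | 0, _, acc, C => fc acc C
  | k + 1, rem, acc, C => loop (blk k) (fun rem' a C' => cov fc k rem' (a :: acc) C') [] rem C

/-- `c` is the code of `n ::` (composition of `a` and `b`). -/
def chkD (a : ℕ) : ℕ → ℕ → ℕ → Bool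
  | 0, _, _ => true
  | k + 1, b, c => (Nat.beq (dig a (Nat.mod b 8)) (Nat.mod c 8)) &&
      chkD a k (Nat.shiftRight b 3) (Nat.shiftRight c 3)

/-- Check of a table. -/
def tab (n TA lenA TB lenB TC cert : ℕ) (hd x : Bool) : ℕ → Bool
  | 0 => true
  | i + 1 =>
    (Nat.blt (Nat.mod (get cert i) 4096) lenA && (Nat.blt (Nat.shiftRight (get cert i) 12) lenB &&
      (Nat.beq (Nat.mod (get TC i) 8) n && (chkD (get TA (Nat.mod (get cert i) 4096)) n
        (get TB (Nat.shiftRight (get cert i) 12)) (Nat.shiftRight (get TC i) 3) &&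
      ((!hd || Nat.beq (Nat.mod (get TB (Nat.shiftRight (get cert i) 12)) 8) (n - 1)) &&
      (!x || (!(Nat.beq (dig (get TA (Nat.mod (get cert i) 4096)) (n - 1)) 1) &&
        !(Nat.beq (dig (get TA (Nat.mod (get cert i) 4096)) (n - 1)) 2))))))))
    && tab n TA lenA TB lenB TC cert hd x i

theorem dig_lt (c i : ℕ) : dig c i < 8 := Nat.mod_lt _ (by norm_num)

theorem dig_zero (c : ℕ) : dig c 0 = Nat.mod c 8 := rfl

theorem dig_shift (c i : ℕ) : dig (Nat.shiftRight c 3) i = dig c (i + 1) := by
  unfold dig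
  have : Nat.shiftRight (Nat.shiftRight c 3) (Nat.mul 3 i) = Nat.shiftRight c (Nat.mul 3 (i + 1)) := by
    change (c >>> 3) >>> (3 * i) = c >>> (3 * (i + 1))
    rw [← Nat.shiftRight_add]
    congr 1
    ring
  rw [this]

theorem chkL_sound (a : ℕ) : ∀ (l : List ℕ) (b : ℕ), chkL a b l = true →
    l = (List.range l.length).map (fun i => dig a (dig b i)) := by
  intro l
  induction l with
  | nil => intro b _; rfl
  | cons x t ih =>
    intro b h
    rw [chkL, Bool.and_eq_true] at h
    have h1 := Nat.eq_of_beq_eq_true h.1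
    have h2 := ih _ h.2
    rw [List.length_cons, List.range_succ_eq_map, List.map_cons, List.map_map]
    rw [dig_zero, h1]
    congr 1
    rw [List.map_congr_left (g := fun i => dig a (dig (Nat.shiftRight b 3) i))]
    · exact h2
    · intro i _
      simp only [Function.comp_apply]
      rw [dig_shift]

theorem chkD_sound (a : ℕ) : ∀ (k b c : ℕ), chkD a k b c = true →
    ∀ i < k, dig c i = dig a (dig b i) := by
  intro k
  induction k with
  | zero => intro b c _ i hi; omega
  | succ k ih =>
    intro b c h i hi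
    rw [chkD, Bool.and_eq_true] at h
    have h1 := Nat.eq_of_beq_eq_true h.1
    cases i with
    | zero => rw [dig_zero, dig_zero, h1]
    | succ i =>
      rw [← dig_shift, ← dig_shift]
      exact ih _ _ h.2 i (by omega)

theorem loop_sound (blk : ℕ) (f : List ℕ → ℕ → ℕ → Bool) : ∀ (post pre : List ℕ) (C : ℕ),
    loop blk f pre post C = true → ∀ a ∈ post, ∃ rem' C', (a :: rem').Perm (pre ++ post) ∧
      f rem' a C' = true := by
  intro post
  induction post with
  | nil => intro pre C _ a ha; simp at ha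
  | cons b post ih =>
    intro pre C h a ha
    rw [loop, Bool.and_eq_true] at h
    rcases List.mem_cons.1 ha with rfl | ha
    · refine ⟨_, _, ?_, h.1⟩
      rw [List.reverseAux_eq]
      refine (List.Perm.cons a ((List.reverse_perm pre).append_right post)).trans ?_
      exact List.perm_middle.symm
    · obtain ⟨rem', C', h1, h2⟩ := ih _ _ h.2 a ha
      refine ⟨rem', C', h1.trans ?_, h2⟩
      rw [List.cons_append]
      exact List.perm_middle.symm

theorem cov_sound (fc : List ℕ → ℕ → Bool) (G : List ℕ → Prop)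
    (hfc : ∀ acc C, fc acc C = true → G acc) : ∀ (k : ℕ) (rem acc : List ℕ) (C : ℕ),
    cov fc k rem acc C = true → rem.length = k → ∀ l : List ℕ, l.Perm rem → G (l ++ acc) := by
  intro k
  induction k with
  | zero =>
    intro rem acc C h hr l hl
    have : l = [] := by
      have := hl.length_eq
      rw [hr] at this
      exact List.length_eq_zero_iff.1 this
    subst this
    exact hfc _ _ h
  | succ k ih =>
    intro rem acc C h hr l hl
    rw [cov] at h
    have hlen : l.length = k + 1 := by rw [hl.length_eq, hr]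
    have hne : l ≠ [] := by rintro rfl; simp at hlen
    obtain ⟨l', a, rfl⟩ : ∃ l' a, l = l' ++ [a] :=
      ⟨l.dropLast, l.getLast hne, (List.dropLast_append_getLast hne).symm⟩
    have ha : a ∈ rem := hl.mem_iff.1 (by simp)
    obtain ⟨rem', C', h1, h2⟩ := loop_sound _ _ _ _ _ h a ha
    rw [List.nil_append] at h1
    have h3 : l'.Perm rem' := by
      have : (a :: l').Perm (a :: rem') :=
        ((List.perm_append_singleton a l').symm.trans hl).trans h1.symm
      exact (List.perm_cons a).1 this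
    have h4 := ih rem' (a :: acc) C' h2 (by
      have := h1.length_eq
      rw [hr, List.length_cons] at this
      omega) l' h3
    rw [List.append_assoc]
    exact h4

/-- The flag with code `c` relative to `σ`. -/
def app (σ : List ℕ) (c : ℕ) : List ℕ := (List.range σ.length).map (fun i => σ.getD (dig c i) 0)

def P (n k : ℕ) (x : Bool) (c : ℕ) : Prop :=
  (∀ i < n, dig c i < n) ∧ ∀ σ : List ℕ, σ.Nodup → σ.length = n → ∃ m, PS σ (app σ c) k x m

theorem app_length (σ : List ℕ) (c : ℕ) : (app σ c).length = σ.length := by simp [app]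

theorem app_getD {σ : List ℕ} {c i : ℕ} (hi : i < σ.length) :
    (app σ c).getD i 0 = σ.getD (dig c i) 0 := by
  simp [app, hi]

theorem app_app {σ : List ℕ} {c d : ℕ} (hd : ∀ i < σ.length, dig d i < σ.length) :
    app (app σ c) d = (List.range σ.length).map (fun i => σ.getD (dig c (dig d i)) 0) := by
  unfold app
  rw [List.length_map, List.length_range]
  refine List.map_congr_left ?_
  intro i hi
  have := app_getD (c := c) (hd i (List.mem_range.1 hi))
  exact this

theorem app_head {σ : List ℕ} {c : ℕ} (h : 0 < σ.length) :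
    (app σ c).head? = some (σ.getD (dig c 0) 0) := by
  obtain ⟨n, hn⟩ : ∃ n, σ.length = n + 1 := ⟨σ.length - 1, by omega⟩
  simp [app, hn, List.range_succ_eq_map]

theorem app_getLast {σ : List ℕ} {c : ℕ} (h : 0 < σ.length) :
    (app σ c).getLast? = some (σ.getD (dig c (σ.length - 1)) 0) := by
  obtain ⟨n, hn⟩ : ∃ n, σ.length = n + 1 := ⟨σ.length - 1, by omega⟩
  simp [app, hn, List.range_succ]

theorem PS.mono {σ τ : List ℕ} {k k' : ℕ} {x : Bool} {m : ℕ → List (Finset ℕ)}
    (h : PS σ τ k x m) (hk : k' ≤ k) : PS σ τ k' x m :=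
  ⟨h.ab, h.m1, fun i hi => h.ek i (by omega), h.K⟩

theorem P_comp_list {n j k : ℕ} {x y : Bool} {c1 c2 : ℕ} (h1 : P n j x c1) (h2 : P n k y c2)
    (hn : 4 ≤ n) (k' : ℕ) (hk' : k' ≤ k + 1) (hh : k' ≠ 0 → dig c2 0 = n - 1)
    (hx : x = true → dig c1 (n - 1) ≠ 1 ∧ dig c1 (n - 1) ≠ 2)
    {σ : List ℕ} (nd : σ.Nodup) (hlen : σ.length = n) {z : ℕ} (hz : z ∉ σ) :
    ∃ m, PS (σ ++ [z]) (z :: (List.range n).map (fun i => σ.getD (dig c1 (dig c2 i)) 0)) k' x m := by
  obtain ⟨mL, hL⟩ := h1.2 σ nd hlen
  have hndκ : (app σ c1).Nodup := hL.ab.perm.nodup_iff.2 nd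
  obtain ⟨mU, hU⟩ := h2.2 (app σ c1) hndκ (by rw [app_length, hlen])
  have e1 : app (app σ c1) c2 = (List.range n).map (fun i => σ.getD (dig c1 (dig c2 i)) 0) := by
    rw [app_app (by rw [hlen]; exact h2.1), hlen]
  refine ⟨cp z mL mU, ?_⟩
  rw [← e1]
  refine hL.comp hU hz (by omega) k' hk' ?_ ?_
  · intro hk0
    rw [app_head (by rw [app_length]; omega), app_getLast (by omega), hh hk0, hlen,
      app_getD (by omega)]
  · intro hxt a b c σ' hσ
    obtain ⟨g1, g2⟩ := hx hxt
    rw [app_getLast (by omega), hlen]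
    have hd : dig c1 (n - 1) < n := h1.1 _ (by omega)
    have hinj : ∀ i j : ℕ, i < σ.length → j < σ.length → σ.getD i 0 = σ.getD j 0 → i = j := by
      intro i j hi hj he
      rw [List.getD_eq_getElem _ _ hi, List.getD_eq_getElem _ _ hj] at he
      exact (List.Nodup.getElem_inj_iff nd).1 he
    have hb : σ.getD 1 0 = b := by rw [hσ]; rfl
    have hc : σ.getD 2 0 = c := by rw [hσ]; rfl
    constructor
    · intro he
      simp only [Option.some.injEq] at he
      exact g1 (hinj _ _ (by omega) (by omega) (he.trans hb.symm))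
    · intro he
      simp only [Option.some.injEq] at he
      exact g2 (hinj _ _ (by omega) (by omega) (he.trans hc.symm))

theorem P_comp {n j k : ℕ} {x y : Bool} {c1 c2 c : ℕ} (h1 : P n j x c1) (h2 : P n k y c2)
    (hn : 4 ≤ n) (k' : ℕ) (hk' : k' ≤ k + 1) (h0 : dig c 0 = n)
    (hc : ∀ i < n, dig c (i + 1) = dig c1 (dig c2 i)) (hh : k' ≠ 0 → dig c2 0 = n - 1)
    (hx : x = true → dig c1 (n - 1) ≠ 1 ∧ dig c1 (n - 1) ≠ 2) : P (n + 1) k' x c := by
  refine ⟨?_, ?_⟩
  · intro i hi
    cases i with
    | zero => omega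
    | succ i =>
      rw [hc i (by omega)]
      have := h1.1 _ (h2.1 i (by omega))
      omega
  · intro σ nd hlen
    have hne : σ ≠ [] := by rintro rfl; simp at hlen
    obtain ⟨σ0, z, rfl⟩ : ∃ l' a, σ = l' ++ [a] :=
      ⟨σ.dropLast, σ.getLast hne, (List.dropLast_append_getLast hne).symm⟩
    simp only [List.length_append, List.length_singleton, Nat.add_right_cancel_iff] at hlen
    rw [List.nodup_append] at nd
    have hz : z ∉ σ0 := fun h => nd.2.2 z h z (by simp) rfl
    obtain ⟨m, hm⟩ := P_comp_list h1 h2 hn k' hk' hh hx nd.1 hlen hz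
    refine ⟨m, ?_⟩
    have e : app (σ0 ++ [z]) c =
        z :: (List.range n).map (fun i => σ0.getD (dig c1 (dig c2 i)) 0) := by
      unfold app
      rw [List.length_append, List.length_singleton, hlen, List.range_succ_eq_map, List.map_cons,
        List.map_map, h0]
      congr 1
      · rw [List.getD_eq_getElem _ _ (by simp [hlen])]
        simp [← hlen]
      · refine List.map_congr_left ?_
        intro i hi
        simp only [Function.comp_apply, Nat.succ_eq_add_one]
        have hi := List.mem_range.1 hi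
        rw [hc i hi]
        have := h1.1 _ (h2.1 i hi)
        rw [List.getD_append _ _ _ _ (by omega)]
    rw [e]
    exact hm

theorem tab_sound {n TA lenA TB lenB TC cert : ℕ} {hd x : Bool} {j k : ℕ} {y : Bool} (hn : 4 ≤ n)
    (hA : ∀ i < lenA, P n j x (get TA i)) (hB : ∀ i < lenB, P n k y (get TB i)) (k' : ℕ)
    (hk' : k' ≤ k + 1) (hk2 : k' ≠ 0 → hd = true) :
    ∀ len, tab n TA lenA TB lenB TC cert hd x len = true →
      ∀ i < len, P (n + 1) k' x (get TC i) ∧ dig (get TC i) 0 = n := by
  intro len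
  induction len with
  | zero => intro _ i hi; omega
  | succ len ih =>
    intro h i hi
    rw [tab, Bool.and_eq_true] at h
    rcases Nat.lt_succ_iff_lt_or_eq.1 hi with hi' | rfl
    · exact ih h.2 i hi'
    · have h' := h.1
      simp only [Bool.and_eq_true, Bool.or_eq_true, Bool.not_eq_true'] at h'
      obtain ⟨a1, a2, a3, a4, a5, a6⟩ := h'
      have b1 := hA _ (Nat.le_of_ble_eq_true a1)
      have b2 := hB _ (Nat.le_of_ble_eq_true a2)
      refine ⟨P_comp b1 b2 hn k' hk' ?_ ?_ ?_ ?_, Nat.eq_of_beq_eq_true a3⟩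
      · exact Nat.eq_of_beq_eq_true a3
      · intro l hl
        rw [← dig_shift]
        exact chkD_sound _ _ _ _ a4 l hl
      · intro hk0
        rw [hk2 hk0] at a5
        simp only [Bool.true_eq_false, false_or] at a5
        exact Nat.eq_of_beq_eq_true a5
      · intro hxt
        rw [hxt] at a6
        simp only [Bool.true_eq_false, false_or] at a6
        exact ⟨fun e => by rw [e] at a6; exact absurd a6.1 (by decide),
          fun e => by rw [e] at a6; exact absurd a6.2 (by decide)⟩

end Pool.Agent.Lib.MP_bec39b_co.F9Data
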