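import Pool.Agent.Lib.MP_bec39b_co.Defs

set_option autoImplicit false

namespace Pool.Agent.Lib.MP_bec39b_co

/-- Systems without additional segments: the first `k` families of early sets, and (if `x`) the
`K`-sets. -/
structure PS (σ τ : List ℕ) (k : ℕ) (x : Bool) (m : ℕ → List (Finset ℕ)) : Prop where
  ab : AB σ τ (fun _ => []) m
  m1 : ∀ a b c σ', σ = a :: b :: c :: σ' → ∃ r, m 1 = {a, b} :: {b} :: {b, c} :: {c} :: r
  ek : ∀ i < k, ∀ t, τ[i]? = some t →
    ∀ x ∈ σ, x ∉ τ.take (i + 2) → Early (fun _ => []) m ((σ.toFinset.erase t).erase x)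
  K : x = true → ∀ a b c σ', σ = a :: b :: c :: σ' →
    ∀ k, 4 ≤ k → k < σ.length →
      Early (fun _ => []) m ((fl σ k).erase b) ∧ Early (fun _ => []) m ((fl σ k).erase c)

theorem cp_nil (z : ℕ) : cp z (fun _ => []) (fun _ => []) = fun _ => [] := by
  funext l
  cases l <;> rfl

theorem PS.comp {σ κ υ : List ℕ} {z j k : ℕ} {x y : Bool} {mL mU : ℕ → List (Finset ℕ)}
    (hL : PS σ κ j x mL) (hU : PS κ υ k y mU) (hz : z ∉ σ) (h4 : 4 ≤ σ.length) (k' : ℕ)
    (hk' : k' ≤ k + 1) (hh : k' ≠ 0 → υ.head? = κ.getLast?)
    (hx : x = true → ∀ a b c σ', σ = a :: b :: c :: σ' →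
      κ.getLast? ≠ some b ∧ κ.getLast? ≠ some c) :
    PS (σ ++ [z]) (z :: υ) k' x (cp z mL mU) := by
  have hset : κ.toFinset = σ.toFinset := List.toFinset_eq_of_perm _ _ hL.ab.perm
  have hsetU : (σ ++ [z]).toFinset = insert z σ.toFinset := by
    ext a; simp
  refine ⟨?_, ?_, ?_, ?_⟩
  · have := hL.ab.comp hU.ab hz (fun l => Or.inl rfl) (by intro l x hx; simp at hx)
    rw [cp_nil] at this
    exact this
  · intro a b c σ' h
    match σ, h4, h, hL.m1 with
    | a' :: b' :: c' :: σ'', h4, h, hm =>
      simp only [List.cons_append, List.cons.injEq] at h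
      obtain ⟨rfl, rfl, rfl, h⟩ := h
      obtain ⟨r, hr⟩ := hm a' b' c' σ'' rfl
      refine ⟨r ++ (mU 0).map (insert z), ?_⟩
      rw [cp_succ, hr]
      rfl
  · intro i hi t ht x hxm hxt
    have hxz : x ≠ z := by
      rintro rfl
      apply hxt
      simp
    have hxσ : x ∈ σ := by
      rcases List.mem_append.1 hxm with h | h
      · exact h
      · simp at h; exact absurd h hxz
    cases i with
    | zero =>
      simp only [List.getElem?_cons_zero, Option.some.injEq] at ht
      subst ht
      have e1 : ((σ ++ [z]).toFinset.erase z).erase x = σ.toFinset.erase x := by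
        rw [hsetU, Finset.erase_insert (by simpa using hz)]
      rw [e1]
      have hlast : κ.getLast? ≠ some x := by
        rw [← hh (by omega)]
        intro h
        apply hxt
        cases υ with
        | nil => simp at h
        | cons u υ => simp at h; simp [h]
      have := hL.ab.early_erase rfl hxσ hlast
      have h2 := early_comp_left (z := z) (pU := fun _ => []) (mU := mU) this
      rw [cp_nil] at h2
      exact h2
    | succ i =>
      simp only [List.getElem?_cons_succ] at ht
      have htκ : t ∈ κ := by
        have : t ∈ υ := List.mem_of_getElem? ht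
        exact hU.ab.perm.mem_iff.1 this
      have htσ : t ∈ σ := hL.ab.perm.mem_iff.1 htκ
      have htz : t ≠ z := fun h => hz (h ▸ htσ)
      have hxκ : x ∈ κ := hL.ab.perm.mem_iff.2 hxσ
      have hxυ : x ∉ υ.take (i + 2) := by
        intro h
        apply hxt
        rw [List.take_succ_cons]
        exact List.mem_cons_of_mem _ h
      have h1 := hU.ek i (by omega) t ht x hxκ hxυ
      have h2 := early_comp_right (z := z) (pL := fun _ => []) (mL := mL) (by
        rw [Finset.mem_erase, Finset.mem_erase, List.mem_toFinset]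
        intro h
        exact hz (hL.ab.perm.mem_iff.1 h.2.2)) h1
      rw [cp_nil] at h2
      have e1 : ((σ ++ [z]).toFinset.erase t).erase x =
          insert z ((κ.toFinset.erase t).erase x) := by
        rw [hsetU, hset, Finset.erase_insert_of_ne (fun h => htz h.symm),
          Finset.erase_insert_of_ne (fun h => hxz h.symm)]
      rw [e1]
      exact h2
  · intro hxt a b c σ' h k hk hk2
    match σ, h4, hz, h, hL, hx, hk2, hset, hsetU with
    | a' :: b' :: c' :: σ'', h4, hz, h, hL, hx, hk2, hset, hsetU =>
      simp only [List.cons_append, List.cons.injEq] at h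
      obtain ⟨rfl, rfl, rfl, h⟩ := h
      simp only [List.length_append, List.length_singleton] at hk2
      have hnd := hL.ab.nd
      rcases Nat.lt_or_ge k (a' :: b' :: c' :: σ'').length with hk3 | hk3
      · have := hL.K hxt a' b' c' σ'' rfl k hk hk3
        rw [fl_append_left hk3.le]
        have h1 := early_comp_left (z := z) (pU := fun _ => []) (mU := mU) this.1
        have h2 := early_comp_left (z := z) (pU := fun _ => []) (mU := mU) this.2
        rw [cp_nil] at h1 h2
        exact ⟨h1, h2⟩
      · have hk4 : k = (a' :: b' :: c' :: σ'').length := by omega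
        rw [fl_append_left hk4.le, hk4, fl_length]
        obtain ⟨hb, hc⟩ := hx hxt a' b' c' σ'' rfl
        have h1 := early_comp_left (z := z) (pU := fun _ => []) (mU := mU)
          (hL.ab.early_erase rfl (by simp) hb)
        have h2 := early_comp_left (z := z) (pU := fun _ => []) (mU := mU)
          (hL.ab.early_erase rfl (by simp) hc)
        rw [cp_nil] at h1 h2
        exact ⟨h1, h2⟩

end Pool.Agent.Lib.MP_bec39b_co
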