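import Pool.Agent.Lib.MP_bec39b_co.F9

set_option autoImplicit false

namespace Pool.Agent.Lib.MP_bec39b_co

theorem FLemma_cp_nil (z : ℕ) :
    cp z (fun _ => ([] : List (Finset ℕ))) (fun _ => []) = fun _ => [] := by
  funext l
  cases l <;> simp [cp]

/-- The choice of the intermediate flag. -/
theorem FLemma_kappa {σ : List ℕ} (nd : σ.Nodup) (hn : 9 ≤ σ.length) (b c s t3 u t2 : ℕ)
    (hu : u ∈ σ) (ht : t2 ∈ σ) (hut : t2 ≠ u) :
    ∃ x y R, (u :: x :: (R ++ [y, t2])).Perm σ ∧ x ≠ s ∧ x ≠ b ∧ x ≠ c ∧ y ≠ t3 := by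
  have hcard : σ.toFinset.card = σ.length := List.toFinset_card_of_nodup nd
  have ex : ∀ l : List ℕ, l.length ≤ 5 → ∃ x, x ∈ σ ∧ x ∉ l := by
    intro l hl
    have h1 : l.toFinset.card < σ.toFinset.card := by
      have := List.toFinset_card_le l
      omega
    obtain ⟨x, hx, hx'⟩ := Finset.exists_mem_notMem_of_card_lt_card h1
    exact ⟨x, by simpa using hx, by simpa using hx'⟩
  obtain ⟨x, hx, hx'⟩ := ex [u, t2, s, b, c] (by simp)
  obtain ⟨y, hy, hy'⟩ := ex [u, t2, x, t3] (by simp)
  simp only [List.mem_cons, List.not_mem_nil, or_false, not_or] at hx' hy'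
  obtain ⟨hxu, hxt, hxs, hxb, hxc⟩ := hx'
  obtain ⟨hyu, hyt, hyx, hy3⟩ := hy'
  refine ⟨x, y, (((σ.erase u).erase t2).erase x).erase y, ?_, hxs, hxb, hxc, hy3⟩
  have p1 := List.perm_cons_erase hu
  have p2 := List.perm_cons_erase ((List.mem_erase_of_ne hut).2 ht)
  have p3 := List.perm_cons_erase ((List.mem_erase_of_ne hxt).2 ((List.mem_erase_of_ne hxu).2 hx))
  have p4 := List.perm_cons_erase ((List.mem_erase_of_ne hyx).2 ((List.mem_erase_of_ne hyt).2
    ((List.mem_erase_of_ne hyu).2 hy)))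
  have q : σ.Perm (u :: t2 :: x :: y :: (((σ.erase u).erase t2).erase x).erase y) :=
    p1.trans ((p2.trans ((p3.trans (p4.cons x)).cons t2)).cons u)
  refine List.Perm.trans ?_ q.symm
  generalize (((σ.erase u).erase t2).erase x).erase y = R
  (rw [List.perm_iff_count]; intro xq; simp only [List.count_append, List.count_cons, List.count_nil, List.cons_append, List.nil_append, List.append_assoc]; omega)

/-- The composition step. -/
theorem FLemma_step {σ0 τ' R : List ℕ} {z u x y t2 a b c s3 : ℕ} {σ' τ'' : List ℕ}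
    {mL mU : ℕ → List (Finset ℕ)} (nd : (σ0 ++ [z]).Nodup)
    (hσ : σ0 = a :: b :: c :: s3 :: σ') (hτ : τ' = t2 :: τ'')
    (hxb : x ≠ b) (hxc : x ≠ c)
    (hL : FS σ0 (u :: x :: (R ++ [y, t2])) mL)
    (hU : FS (u :: x :: (R ++ [y, t2])) τ' mU) :
    FS (σ0 ++ [z]) (z :: τ') (cp z mL mU) := by
  have hz : z ∉ σ0 := by
    intro h
    exact (List.nodup_append.1 nd).2.2 z h z (by simp) rfl
  have hlast : (u :: x :: (R ++ [y, t2])).getLast? = some t2 := by
    have : u :: x :: (R ++ [y, t2]) = (u :: x :: (R ++ [y])) ++ [t2] := by simp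
    rw [this, List.getLast?_concat]
  have hset : (u :: x :: (R ++ [y, t2])).toFinset = σ0.toFinset :=
    List.toFinset_eq_of_perm _ _ hL.ab.perm
  have hset2 : (σ0 ++ [z]).toFinset = insert z σ0.toFinset := by
    ext a; simp
  have hzs : z ∉ σ0.toFinset := by simpa using hz
  have hT : τ'.Perm σ0 := hU.ab.perm.trans hL.ab.perm
  have he0 : ∀ w ∈ σ0, w ≠ t2 → Early (fun _ => []) (cp z mL mU) (σ0.toFinset.erase w) := by
    intro w hw hwt
    have h1 : Early (fun _ => []) mL (σ0.toFinset.erase w) :=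
      hL.ab.early_erase rfl hw (by rw [hlast]; simpa using Ne.symm hwt)
    have := early_comp_left (z := z) (pU := fun _ => []) (mU := mU) h1
    rwa [FLemma_cp_nil] at this
  refine ⟨?_, ?_, ?_, ?_⟩
  · have := hL.ab.comp hU.ab hz (fun l => Or.inl rfl) (fun l x hx => by simp at hx)
    rwa [FLemma_cp_nil] at this
  · intro a' b' c' σ1 h
    rw [hσ] at h
    simp only [List.cons_append, List.cons.injEq] at h
    obtain ⟨rfl, rfl, rfl, _⟩ := h
    obtain ⟨r, hr⟩ := hL.m1 a b c (s3 :: σ') hσ
    exact ⟨r ++ (mU 0).map (insert z), by rw [cp_succ, hr]; rfl⟩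
  · intro i hi _ t ht w hw hwt
    cases i with
    | zero =>
      simp only [List.getElem?_cons_zero, Option.some.injEq] at ht
      subst ht
      rw [hτ] at hwt
      simp only [List.take_succ_cons, List.take_zero, List.mem_cons,
        List.not_mem_nil, or_false, not_or, zero_add] at hwt
      rw [hset2, Finset.erase_insert hzs]
      refine he0 w ?_ hwt.2
      rcases List.mem_append.1 hw with h | h
      · exact h
      · simp at h; exact absurd h hwt.1
    | succ j =>
      simp only [List.getElem?_cons_succ] at ht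
      have e : j + 1 + 2 = (j + 2) + 1 := by omega
      rw [e, List.take_succ_cons, List.mem_cons, not_or] at hwt
      have hw0 : w ∈ σ0 := by
        rcases List.mem_append.1 hw with h | h
        · exact h
        · simp at h; exact absurd h hwt.1
      have htm : t ∈ τ' := List.mem_of_getElem? ht
      have ht0 : t ∈ σ0 := hT.mem_iff.1 htm
      have htz : t ≠ z := fun h => hz (h ▸ ht0)
      have hwz : w ≠ z := hwt.1
      have h1 := hU.ek j (by omega) (by omega) t ht w (hL.ab.perm.mem_iff.2 hw0) hwt.2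
      rw [hset] at h1
      have hzn : z ∉ (σ0.toFinset.erase t).erase w := fun h =>
        hzs (Finset.mem_of_mem_erase (Finset.mem_of_mem_erase h))
      have h2 := early_comp_right (pL := fun _ => []) (mL := mL) hzn h1
      rw [FLemma_cp_nil] at h2
      rw [hset2, Finset.erase_insert_of_ne htz.symm, Finset.erase_insert_of_ne hwz.symm]
      exact h2
  · intro a' b' c' σ1 t1 t2' τ1 h h' hb hc k hk4 hk
    rw [hσ] at h
    simp only [List.cons_append, List.cons.injEq] at h
    obtain ⟨rfl, rfl, rfl, _⟩ := h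
    rw [hτ] at h'
    simp only [List.cons.injEq] at h'
    obtain ⟨rfl, rfl, rfl⟩ := h'
    simp only [List.length_append, List.length_singleton] at hk
    rw [fl_append_left (by omega)]
    rcases Nat.lt_or_ge k σ0.length with hk' | hk'
    · obtain ⟨h1, h2⟩ := hL.K a b c (s3 :: σ') u x (R ++ [y, t2]) hσ rfl hxb hxc k hk4 hk'
      have h1' := early_comp_left (z := z) (pU := fun _ => []) (mU := mU) h1
      have h2' := early_comp_left (z := z) (pU := fun _ => []) (mU := mU) h2
      rw [FLemma_cp_nil] at h1' h2'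
      exact ⟨h1', h2'⟩
    · rw [fl_of_le hk']
      exact ⟨he0 b (by rw [hσ]; simp) hb.symm, he0 c (by rw [hσ]; simp) hc.symm⟩

theorem F_exists (σ τ : List ℕ) (hn : 9 ≤ σ.length) (nd : σ.Nodup) (hp : τ.Perm σ)
    (h1 : τ.head? = σ.getLast?) (h2 : τ[1]? ≠ σ[σ.length - 2]?) : ∃ m, FS σ τ m := by
  obtain ⟨n, hlen⟩ : ∃ n, σ.length = n := ⟨_, rfl⟩
  rw [hlen] at hn
  induction n, hn using Nat.le_induction generalizing σ τ with
  | base => exact F9 σ τ hlen nd hp h1 h2
  | succ n hn ih =>
    -- split `σ` and `τ`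
    obtain ⟨σ0, z, rfl⟩ : ∃ σ0 z, σ = σ0 ++ [z] := by
      have hne : σ ≠ [] := by intro h; rw [h] at hlen; simp at hlen
      exact ⟨_, _, (List.dropLast_append_getLast hne).symm⟩
    have hlen0 : σ0.length = n := by simpa using hlen
    rw [List.getLast?_concat] at h1
    obtain ⟨τ', rfl⟩ : ∃ τ', τ = z :: τ' := by
      cases τ with
      | nil => simp at h1
      | cons z' τ' =>
        simp only [List.head?_cons, Option.some.injEq] at h1
        exact ⟨τ', by rw [h1]⟩
    have hp' : τ'.Perm σ0 := by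
      have : (z :: τ').Perm (z :: σ0) := hp.trans (List.perm_append_singleton z σ0)
      exact this.cons_inv
    have nd0 : σ0.Nodup := (List.nodup_append.1 nd).1
    have hτlen : τ'.length = n := by rw [hp'.length_eq, hlen0]
    obtain ⟨t2, t3, τ'', rfl⟩ : ∃ t2 t3 τ'', τ' = t2 :: t3 :: τ'' := by
      rcases τ' with _ | ⟨t2, _ | ⟨t3, τ''⟩⟩
      · simp at hτlen; omega
      · simp at hτlen; omega
      · exact ⟨_, _, _, rfl⟩
    obtain ⟨a, b, c, s3, σ', hσ⟩ : ∃ a b c s3 σ', σ0 = a :: b :: c :: s3 :: σ' := by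
      rcases σ0 with _ | ⟨a, _ | ⟨b, _ | ⟨c, _ | ⟨s3, σ'⟩⟩⟩⟩
      · simp at hlen0; omega
      · simp at hlen0; omega
      · simp at hlen0; omega
      · simp at hlen0; omega
      · exact ⟨_, _, _, _, _, rfl⟩
    obtain ⟨R1, s, u, hR1⟩ : ∃ R1 s u, σ0 = R1 ++ [s, u] := by
      have hne : σ0 ≠ [] := by intro h; rw [h] at hσ; simp at hσ
      have hne' : σ0.dropLast ≠ [] := by
        intro h
        have := congrArg List.length h
        simp at this
        omega
      refine ⟨σ0.dropLast.dropLast, σ0.dropLast.getLast hne', σ0.getLast hne, ?_⟩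
      have e1 := List.dropLast_append_getLast hne
      have e2 := List.dropLast_append_getLast hne'
      conv_lhs => rw [← e1, ← e2]
      simp
    have hu : u ∈ σ0 := by rw [hR1]; simp
    have ht2 : t2 ∈ σ0 := hp'.mem_iff.1 (by simp)
    have hut : t2 ≠ u := by
      intro h
      apply h2
      rw [hR1, h]
      simp
    obtain ⟨x, y, R, hperm, hxs, hxb, hxc, hy3⟩ :=
      FLemma_kappa nd0 (by omega) b c s t3 u t2 hu ht2 hut
    have hκlen : (u :: x :: (R ++ [y, t2])).length = n := by rw [hperm.length_eq, hlen0]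
    obtain ⟨mL, hL⟩ := ih σ0 (u :: x :: (R ++ [y, t2])) nd0 hperm (by rw [hR1]; simp)
      (by rw [hR1]; simp; exact hxs) hlen0
    obtain ⟨mU, hU⟩ := ih (u :: x :: (R ++ [y, t2])) (t2 :: t3 :: τ'') (hperm.nodup_iff.2 nd0)
      (hp'.trans hperm.symm) (by
        have : u :: x :: (R ++ [y, t2]) = (u :: x :: (R ++ [y])) ++ [t2] := by simp
        rw [this, List.getLast?_concat]; rfl) (by
        have : u :: x :: (R ++ [y, t2]) = (u :: x :: R) ++ [y, t2] := by simp
        rw [this]
        simp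
        exact Ne.symm hy3) hκlen
    exact ⟨_, FLemma_step nd hσ rfl hxb hxc hL hU⟩

end Pool.Agent.Lib.MP_bec39b_co
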