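import Pool.Agent.Lib.MP_bec39b_co.Comp

set_option autoImplicit false

namespace Pool.Agent.Lib.MP_bec39b_co

/-- The set of the first `k` elements of a flag. -/
def fl (σ : List ℕ) (k : ℕ) : Finset ℕ := (σ.take k).toFinset

@[simp] theorem fl_zero (σ : List ℕ) : fl σ 0 = ∅ := rfl
@[simp] theorem fl_nil (k : ℕ) : fl [] k = ∅ := by simp [fl]
@[simp] theorem fl_cons_succ (a : ℕ) (σ : List ℕ) (k : ℕ) :
    fl (a :: σ) (k + 1) = insert a (fl σ k) := by simp [fl]
theorem fl_of_le {σ : List ℕ} {k : ℕ} (h : σ.length ≤ k) : fl σ k = σ.toFinset := by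
  rw [fl, List.take_of_length_le h]
@[simp] theorem fl_length (σ : List ℕ) : fl σ σ.length = σ.toFinset := fl_of_le le_rfl
theorem fl_append_left {σ τ : List ℕ} {k : ℕ} (h : k ≤ σ.length) : fl (σ ++ τ) k = fl σ k := by
  rw [fl, fl, List.take_append_of_le_length h]
theorem fl_append_right (σ τ : List ℕ) (k : ℕ) :
    fl (σ ++ τ) (σ.length + k) = σ.toFinset ∪ fl τ k := by
  rw [fl, fl, List.take_length_add_append, List.toFinset_append]
theorem fl_subset (σ : List ℕ) (k : ℕ) : fl σ k ⊆ σ.toFinset := by
  intro x hx
  rw [fl, List.mem_toFinset] at hx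
  exact List.mem_toFinset.2 (List.mem_of_mem_take hx)
theorem card_fl {σ : List ℕ} (h : σ.Nodup) {k : ℕ} (hk : k ≤ σ.length) : (fl σ k).card = k := by
  rw [fl, List.toFinset_card_of_nodup (h.sublist (List.take_sublist k σ)), List.length_take]
  omega

/-- A system of type `AB` (with additional segments `p`): the main segment of phase `l` starts
with the first `l + 1` elements of `σ` and ends with the first `l` elements of `τ`. -/
structure AB (σ τ : List ℕ) (p m : ℕ → List (Finset ℕ)) : Prop where
  sys : Sys σ.toFinset p m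
  nd : σ.Nodup
  perm : τ.Perm σ
  len2 : 2 ≤ σ.length
  hd : ∀ l < σ.length, (m l).head? = some (fl σ (l + 1))
  lt : ∀ l < σ.length, (m l).getLast? = some (fl τ l)
  top : m (σ.length - 1) = [fl σ σ.length, fl τ (σ.length - 1)]
  endp : p σ.length = []
  endm : m σ.length = []
  p0 : p 0 = []

section
variable {σ κ υ τ : List ℕ} {z : ℕ} {p m pL mL pU mU : ℕ → List (Finset ℕ)}

theorem AB.card (h : AB σ τ p m) : σ.toFinset.card = σ.length :=
  List.toFinset_card_of_nodup h.nd

theorem AB.tau_length (h : AB σ τ p m) : τ.length = σ.length := h.perm.length_eq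

theorem AB.m_eq_nil (h : AB σ τ p m) {l : ℕ} (hl : σ.length ≤ l) : p l = [] ∧ m l = [] := by
  rcases Nat.eq_or_lt_of_le hl with rfl | hl
  · exact ⟨h.endp, h.endm⟩
  · exact h.sys.fin l (by rw [h.card]; exact hl)

/-- Composition of systems of type `AB`. -/
theorem AB.comp (hL : AB σ κ pL mL) (hU : AB κ υ pU mU) (hz : z ∉ σ)
    (hex : ∀ l, pL (l + 1) = [] ∨ pU l = [])
    (htop : ∀ l x, x ∈ pU l → x.card = l + 1 → x ∈ vis pL mL (l + 1)) :
    AB (σ ++ [z]) (z :: υ) (cp z pL pU) (cp z mL mU) := by
  have hlen : κ.length = σ.length := hL.tau_length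
  have hset : κ.toFinset = σ.toFinset := List.toFinset_eq_of_perm _ _ hL.perm
  have h2 := hL.len2
  obtain ⟨n, hn⟩ : ∃ n, σ.length = n + 1 := ⟨σ.length - 1, by omega⟩
  have hUsys : Sys σ.toFinset pU mU := hset ▸ hU.sys
  have hzN : z ∉ σ.toFinset := by simpa using hz
  have hLend := hL.endm
  have hLendp := hL.endp
  have hUend := hU.endm
  have hUendp := hU.endp
  have hUtop := hU.top
  have hLtop := hL.top
  rw [hn] at hLend hLendp
  rw [hlen, hn] at hUend hUendp hUtop
  simp only [Nat.add_sub_cancel] at hUtop
  refine ⟨?_, ?_, ?_, ?_, ?_, ?_, ?_, ?_, ?_, ?_⟩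
  · have := hL.sys.comp1 hUsys hzN hex htop ?_
    · rw [List.toFinset_append]
      have e : σ.toFinset ∪ [z].toFinset = insert z σ.toFinset := by
        ext a; simp
      rw [e]; exact this
    · intro l x y hx hy
      rcases Nat.lt_or_ge (l + 1) σ.length with hl | hl
      · rw [hL.lt _ hl] at hx
        rw [hU.hd l (by omega)] at hy
        simp only [Option.some.injEq] at hx hy
        rw [← hx, ← hy]
      · rw [(hL.m_eq_nil hl).2] at hx
        simp at hx
  · exact hL.nd.append (List.nodup_singleton z) (by
      intro a ha hb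
      simp at hb
      exact hz (hb ▸ ha))
  · refine (List.Perm.cons z (hU.perm.trans hL.perm)).trans ?_
    exact (List.perm_append_singleton z σ).symm
  · simp; omega
  · intro l hl
    simp only [List.length_append, List.length_singleton] at hl
    cases l with
    | zero =>
      rw [cp_zero, hL.hd 0 (by omega), fl_append_left (by omega)]
    | succ l =>
      rw [cp_succ]
      rcases Nat.lt_or_ge (l + 1) σ.length with hl' | hl'
      · rw [List.head?_append, hL.hd _ hl', fl_append_left (by omega)]
        rfl
      · have e : l = n := by omega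
        subst e
        rw [hLend, List.nil_append, List.head?_map, hU.hd _ (by omega)]
        have e1 : fl κ (l + 1) = κ.toFinset := fl_of_le (by omega)
        have e2 : fl (σ ++ [z]) (l + 1 + 1) = (σ ++ [z]).toFinset := fl_of_le (by simp; omega)
        rw [e1, e2, hset]
        simp only [Option.map_some, List.toFinset_append, Option.some.injEq]
        ext a; simp
  · intro l hl
    simp only [List.length_append, List.length_singleton] at hl
    cases l with
    | zero =>
      rw [cp_zero, hL.lt 0 (by omega)]
      rfl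
    | succ l =>
      rw [cp_succ, List.getLast?_append, List.getLast?_map, hU.lt l (by omega)]
      simp
  · have e1 : (σ ++ [z]).length - 1 = n + 1 := by simp; omega
    have e2 : (σ ++ [z]).length = n + 2 := by simp; omega
    rw [e1, e2, cp_succ, hLend, List.nil_append, hUtop]
    have e3 : fl κ (n + 1) = κ.toFinset := fl_of_le (by omega)
    have e4 : fl (σ ++ [z]) (n + 2) = (σ ++ [z]).toFinset := fl_of_le (by simp; omega)
    simp only [List.map_cons, List.map_nil, fl_cons_succ, e3, e4, hset]
    congr 1
    ext a; simp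
  · have e2 : (σ ++ [z]).length = n + 2 := by simp; omega
    rw [e2, cp_succ, (hL.m_eq_nil (by omega : σ.length ≤ n + 1 + 1)).1, hUendp]
    rfl
  · have e2 : (σ ++ [z]).length = n + 2 := by simp; omega
    rw [e2, cp_succ, (hL.m_eq_nil (by omega : σ.length ≤ n + 1 + 1)).2, hUend]
    rfl
  · exact hL.p0

theorem early_comp_left {x : Finset ℕ} (h : Early pL mL x) :
    Early (cp z pL pU) (cp z mL mU) x := by
  unfold Early at *
  refine mem_vis_comp_left (pL := pL) (mL := mL) (p' := cp z pL pU) (m' := cp z mL mU)
    (fun x hx => hx) ?_ h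
  intro l x hx
  simp only [cp_succ, List.mem_append]
  exact hx.imp Or.inl Or.inl

theorem early_comp_right {x : Finset ℕ} (hz : z ∉ x) (h : Early pU mU x) :
    Early (cp z pL pU) (cp z mL mU) (insert z x) := by
  obtain ⟨k, hk, hx⟩ := h
  refine ⟨k + 1, ?_, ?_⟩
  · rw [Finset.card_insert_of_notMem hz]; omega
  · simp only [cp_succ, List.mem_append, List.mem_map]
    rcases hx with hx | hx
    · exact Or.inl (Or.inr ⟨x, hx, rfl⟩)
    · exact Or.inr (Or.inr ⟨x, hx, rfl⟩)

theorem AB.early_head (h : AB σ τ p m) {k : ℕ} (h1 : 1 ≤ k) (hk : k ≤ σ.length) :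
    Early p m (fl σ k) := by
  refine ⟨k - 1, ?_, Or.inr ?_⟩
  · rw [card_fl h.nd hk]; omega
  · have := h.hd (k - 1) (by omega)
    rw [Nat.sub_add_cancel h1] at this
    exact List.mem_of_mem_head? (by rw [this]; rfl)

theorem AB.early_erase (h : AB σ τ p m) (hp : p (σ.length - 1) = []) {x : ℕ} (hx : x ∈ σ)
    (hx2 : τ.getLast? ≠ some x) : Early p m (σ.toFinset.erase x) := by
  have hcard : (σ.toFinset.erase x).card = σ.length - 1 := by
    rw [Finset.card_erase_of_mem (by simpa using hx), h.card]
  have h2 := h.len2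
  have := h.sys.comp (σ.length - 1) (σ.toFinset.erase x) (Finset.erase_subset _ _)
    (by rw [hcard])
  rw [vis_succ, hp, h.top] at this
  unfold Early
  rw [hcard]
  rcases this with (h' | h') | h'
  · exact h'
  · simp at h'
  · exfalso
    simp only [Set.mem_ofPred_eq, List.mem_cons, List.not_mem_nil, or_false] at h'
    rcases h' with h' | h'
    · rw [fl_length] at h'
      have := congrArg Finset.card h'
      rw [hcard, h.card] at this
      omega
    · -- the last element of τ is x
      have hlen := h.tau_length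
      have hne : τ ≠ [] := by
        intro h0; rw [h0] at hlen; simp at hlen; omega
      have hlast : τ.getLast hne ≠ x := by
        intro he
        apply hx2
        rw [List.getLast?_eq_some_getLast hne, he]
      have hmem : τ.getLast hne ∈ σ.toFinset.erase x := by
        rw [Finset.mem_erase, List.mem_toFinset]
        exact ⟨hlast, h.perm.mem_iff.1 (List.getLast_mem hne)⟩
      rw [h'] at hmem
      rw [fl, List.mem_toFinset] at hmem
      have hnd : τ.Nodup := h.perm.nodup_iff.2 h.nd
      have hsplit := List.dropLast_append_getLast hne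
      rw [← hlen, ← List.dropLast_eq_take] at hmem
      rw [← hsplit] at hnd
      exact (List.nodup_append.1 hnd).2.2 _ hmem _ (by simp) rfl

end

end Pool.Agent.Lib.MP_bec39b_co
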