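import Pool.Agent.Lib.MP_bec39b_co.Defs

set_option autoImplicit false

namespace Pool.Agent.Lib.MP_bec39b_co

theorem Ok.facet {V : Set (Finset ℕ)} {L : List (Finset ℕ)} {e : Option (Finset ℕ)}
    (h : Ok V L e) : ∀ (i : ℕ) (hi : i < L.length), ∀ a ∈ L[i],
      (L[i].erase a ∈ V ∨ ∃ (k : ℕ) (hk : k < L.length), k < i ∧ L[k] = L[i].erase a) ∨
      nx (L.drop (i + 1)) e = some (L[i].erase a) := by
  induction L generalizing V with
  | nil => intro i hi; simp at hi
  | cons x L ih =>
    obtain ⟨h1, h2, h3⟩ := h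
    intro i hi a ha
    cases i with
    | zero =>
      simp only [List.getElem_cons_zero] at ha ⊢
      rcases h1 a ha with h | h
      · exact Or.inl (Or.inl h)
      · right; simpa using h
    | succ i =>
      simp only [List.length_cons, Nat.add_lt_add_iff_right] at hi
      simp only [List.getElem_cons_succ] at ha ⊢
      rcases ih h3 i hi a ha with (h | ⟨k, hk, hki, hk2⟩) | h
      · rcases h with h | h
        · left; right
          exact ⟨0, by simp, by omega, by simpa using h.symm⟩
        · exact Or.inl (Or.inl h)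
      · left; right
        exact ⟨k + 1, by simpa using hk, by omega, by simpa using hk2⟩
      · right; simpa using h

theorem Ok.adj {V : Set (Finset ℕ)} {L : List (Finset ℕ)} {e : Option (Finset ℕ)}
    (h : Ok V L e) : ∀ (i : ℕ) (hi : i + 1 < L.length), Adj L[i] L[i + 1] := by
  induction L generalizing V with
  | nil => intro i hi; simp at hi
  | cons x L ih =>
    obtain ⟨h1, h2, h3⟩ := h
    intro i hi
    cases i with
    | zero =>
      cases L with
      | nil => simp at hi
      | cons y L => exact h2 y rfl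
    | succ i =>
      simp only [List.length_cons, Nat.add_lt_add_iff_right] at hi
      exact ih h3 i hi

theorem Ok.facet' {L : List (Finset ℕ)} (h : Ok ∅ L none) (i : ℕ) (hi : i < L.length) (a : ℕ)
    (ha : a ∈ L[i]) : ∃ (k : ℕ) (hk : k < L.length), (k < i ∨ k = i + 1) ∧
      L[k] = L[i].erase a := by
  rcases h.facet i hi a ha with (h | ⟨k, hk, hki, hk2⟩) | h
  · simp at h
  · exact ⟨k, hk, Or.inl hki, hk2⟩
  · rcases Nat.lt_or_ge (i + 1) L.length with h1 | h1
    · rw [List.drop_eq_getElem_cons h1, nx_cons] at h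
      exact ⟨i + 1, h1, Or.inr rfl, Option.some.inj h⟩
    · rw [List.drop_eq_nil_of_le h1] at h
      simp at h

/-- Every proper subset of a listed set is listed before it or directly after it. -/
theorem Ok.subset {L : List (Finset ℕ)} (h : Ok ∅ L none) (j : ℕ) :
    ∀ (hj : j < L.length) (B : Finset ℕ), B ⊂ L[j] →
      ∃ (i : ℕ) (hi : i < L.length), (i < j ∨ i = j + 1) ∧ L[i] = B := by
  induction j using Nat.strong_induction_on with
  | _ j ih =>
    intro hj B hB
    have hBA : B ⊆ L[j] := hB.1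
    obtain ⟨a, haA, haB⟩ := Finset.exists_of_ssubset hB
    by_cases hone : B = L[j].erase a
    · obtain ⟨k, hk, hk1, hk2⟩ := h.facet' j hj a haA
      exact ⟨k, hk, hk1, hk2.trans hone.symm⟩
    · -- another element
      have hsub : B ⊆ L[j].erase a := fun x hx =>
        Finset.mem_erase.2 ⟨fun hxa => haB (hxa ▸ hx), hBA hx⟩
      have hss : B ⊂ L[j].erase a := lt_of_le_of_ne hsub hone
      obtain ⟨b, hb, hbB⟩ := Finset.exists_of_ssubset hss
      have hba : b ≠ a := Finset.ne_of_mem_erase hb
      have hbA : b ∈ L[j] := Finset.mem_of_mem_erase hb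
      have hsub2 : B ⊂ L[j].erase b := by
        refine lt_of_le_of_ne (fun x hx =>
          Finset.mem_erase.2 ⟨fun hxb => hbB (hxb ▸ hx), hBA hx⟩) ?_
        intro hB2
        exact haB (hB2 ▸ Finset.mem_erase.2 ⟨hba.symm, haA⟩)
      obtain ⟨k, hk, hk1, hk2⟩ := h.facet' j hj a haA
      obtain ⟨l, hl, hl1, hl2⟩ := h.facet' j hj b hbA
      have hkl : k ≠ l := by
        rintro rfl
        rw [hk2] at hl2
        have : b ∈ L[j].erase a := hb
        rw [hl2] at this
        exact (Finset.ne_of_mem_erase this) rfl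
      -- one of the two facets is earlier
      have key : ∃ (k : ℕ) (hk : k < L.length), k < j ∧ B ⊂ L[k] := by
        rcases hk1 with h1 | h1
        · exact ⟨k, hk, h1, by rw [hk2]; exact hss⟩
        · rcases hl1 with h2 | h2
          · exact ⟨l, hl, h2, by rw [hl2]; exact hsub2⟩
          · exact absurd (h1.trans h2.symm) hkl
      obtain ⟨k, hk, hkj, hBk⟩ := key
      obtain ⟨i, hi, hi1, hi2⟩ := ih k hkj hk B hBk
      refine ⟨i, hi, ?_, hi2⟩
      rcases hi1 with h1 | h1
      · left; omega
      · left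
        rcases Nat.lt_or_ge i j with h2 | h2
        · exact h2
        · exfalso
          have : i = j := by omega
          subst this
          rw [hi2] at hB
          exact lt_irrefl _ hB

/-- A listing of the subsets of some `n`-set gives the statement for `n`. -/
theorem transfer (n : ℕ) (N : Finset ℕ) (hN : N.card = n) (h : Listing N) :
    ∃ A : Fin (2 ^ n) ≃ Finset (Fin n),
        (∀ i : Fin (2 ^ n), i.val = 0 → A i = ∅) ∧
        (∀ i j : Fin (2 ^ n), j.val = i.val + 1 →
            (A i ⊂ A j ∨ A j ⊂ A i) ∧ (symmDiff (A i) (A j)).card = 1) ∧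
        (∀ i j : Fin (2 ^ n), A i ⊂ A j → j < i → i.val = j.val + 1) := by
  classical
  obtain ⟨L, hhead, hok, hlen, hall⟩ := h
  rw [hN] at hlen
  -- the elements of `L`
  have hsubset : N.powerset ⊆ L.toFinset := by
    intro x hx
    rw [List.mem_toFinset]
    exact hall x (Finset.mem_powerset.1 hx)
  have hcard : N.powerset.card = 2 ^ n := by rw [Finset.card_powerset, hN]
  have hle : L.toFinset.card ≤ 2 ^ n := by
    rw [← hlen]; exact List.toFinset_card_le L
  have heq : N.powerset = L.toFinset := Finset.eq_of_subset_of_card_le hsubset (by rw [hcard]; exact hle)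
  have hnd : L.Nodup := by
    have h1 : L.toFinset.card = L.length := by rw [← heq, hcard, hlen]
    have h2 : (L : Multiset (Finset ℕ)).toFinset.card = Multiset.card (L : Multiset (Finset ℕ)) := h1
    exact Multiset.coe_nodup.1 (Multiset.toFinset_card_eq_card_iff_nodup.1 h2)
  have hmem : ∀ x ∈ L, x ⊆ N := by
    intro x hx
    rw [← Finset.mem_powerset, heq, List.mem_toFinset]
    exact hx
  -- the relabelling
  let eq := (Finset.equivFinOfCardEq hN).symm
  let f : Fin n → ℕ := fun i => (eq i : ℕ)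
  have hf : Function.Injective f := fun i j hij => eq.injective (Subtype.ext hij)
  have hfN : ∀ x ∈ N, ∃ i, f i = x := by
    intro x hx
    exact ⟨eq.symm ⟨x, hx⟩, by simp [f]⟩
  let F : Finset ℕ → Finset (Fin n) := fun x => Finset.univ.filter fun i => f i ∈ x
  have hF : ∀ x i, i ∈ F x ↔ f i ∈ x := by
    intro x i; simp [F]
  have hFsub : ∀ x y, x ⊆ N → (F x ⊆ F y ↔ x ⊆ y) := by
    intro x y hx
    constructor
    · intro hxy a ha
      obtain ⟨i, rfl⟩ := hfN a (hx ha)
      exact (hF y i).1 (hxy ((hF x i).2 ha))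
    · intro hxy i hi
      exact (hF y i).2 (hxy ((hF x i).1 hi))
  have hFssub : ∀ x y, x ⊆ N → y ⊆ N → (F x ⊂ F y ↔ x ⊂ y) := by
    intro x y hx hy
    rw [Finset.ssubset_iff_subset_ne, Finset.ssubset_iff_subset_ne, hFsub x y hx]
    constructor
    · rintro ⟨h1, h2⟩; exact ⟨h1, fun h => h2 (by rw [h])⟩
    · rintro ⟨h1, h2⟩
      refine ⟨h1, fun h => h2 ?_⟩
      exact Finset.Subset.antisymm h1 ((hFsub y x hy).1 h.ge)
  have hget : ∀ i : Fin (2 ^ n), (i : ℕ) < L.length := fun i => by rw [hlen]; exact i.2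
  let A0 : Fin (2 ^ n) → Finset (Fin n) := fun i => F (L[(i : ℕ)]'(hget i))
  have hsubN : ∀ i : Fin (2 ^ n), L[(i : ℕ)]'(hget i) ⊆ N := fun i =>
    hmem _ (List.getElem_mem _)
  have hA0 : Function.Injective A0 := by
    intro i j hij
    have h1 : L[(i : ℕ)]'(hget i) = L[(j : ℕ)]'(hget j) := by
      apply Finset.Subset.antisymm
      · exact (hFsub _ _ (hsubN i)).1 (le_of_eq hij)
      · exact (hFsub _ _ (hsubN j)).1 (le_of_eq hij.symm)
    exact Fin.ext ((List.Nodup.getElem_inj_iff hnd).1 h1)
  have hbij : Function.Bijective A0 := by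
    rw [Fintype.bijective_iff_injective_and_card]
    exact ⟨hA0, by simp⟩
  refine ⟨Equiv.ofBijective A0 hbij, ?_, ?_, ?_⟩
  · intro i hi
    change F (L[(i : ℕ)]'(hget i)) = ∅
    have h1 : L[(i : ℕ)]'(hget i) = ∅ := by
      have h0 : 0 < L.length := by rw [hlen]; positivity
      have h2 : L[0]'h0 = ∅ := by
        cases L with
        | nil => simp at h0
        | cons x L => simpa using hhead
      have : ∀ (k : ℕ) (hk : k < L.length), k = 0 → L[k] = ∅ := by
        rintro k hk rfl; exact h2
      exact this _ _ hi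
    rw [h1]
    ext k; simp [F]
  · intro i j hij
    change (F (L[(i : ℕ)]'(hget i)) ⊂ F (L[(j : ℕ)]'(hget j)) ∨
      F (L[(j : ℕ)]'(hget j)) ⊂ F (L[(i : ℕ)]'(hget i))) ∧
      (symmDiff (F (L[(i : ℕ)]'(hget i))) (F (L[(j : ℕ)]'(hget j)))).card = 1
    have hadj : Adj (L[(i : ℕ)]'(hget i)) (L[(j : ℕ)]'(hget j)) := by
      have : ∀ (k : ℕ) (hk : k < L.length), k = i + 1 → Adj (L[(i : ℕ)]'(hget i)) L[k] := by
        rintro k hk rfl; exact hok.adj _ hk
      exact this _ _ hij
    -- one insertion
    have key : ∀ x y : Finset ℕ, x ⊆ N → y ⊆ N → (∃ a, a ∉ x ∧ y = insert a x) →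
        F x ⊂ F y ∧ (symmDiff (F x) (F y)).card = 1 := by
      rintro x y hx hy ⟨a, ha, rfl⟩
      constructor
      · rw [hFssub _ _ hx hy]
        exact Finset.ssubset_insert ha
      · obtain ⟨k, rfl⟩ := hfN a (hy (Finset.mem_insert_self _ _))
        rw [Finset.card_eq_one]
        refine ⟨k, ?_⟩
        ext l
        rw [Finset.mem_symmDiff, hF, hF, Finset.mem_insert, Finset.mem_singleton]
        constructor
        · rintro (⟨h1, h2⟩ | ⟨h1, h2⟩)
          · exact absurd (Or.inr h1) h2
          · rcases h1 with h1 | h1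
            · exact hf h1
            · exact absurd h1 h2
        · rintro rfl
          exact Or.inr ⟨Or.inl rfl, ha⟩
    rcases hadj with h1 | h1
    · obtain ⟨h2, h3⟩ := key _ _ (hsubN i) (hsubN j) h1
      exact ⟨Or.inl h2, h3⟩
    · obtain ⟨h2, h3⟩ := key _ _ (hsubN j) (hsubN i) h1
      exact ⟨Or.inr h2, by rw [symmDiff_comm]; exact h3⟩
  · intro i j hij hlt
    change F (L[(i : ℕ)]'(hget i)) ⊂ F (L[(j : ℕ)]'(hget j)) at hij
    rw [hFssub _ _ (hsubN i) (hsubN j)] at hij
    obtain ⟨k, hk, hk1, hk2⟩ := hok.subset j (hget j) _ hij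
    have h1 : k = i := (List.Nodup.getElem_inj_iff hnd).1 hk2
    have h2 : (j : ℕ) < i := hlt
    omega

end Pool.Agent.Lib.MP_bec39b_co
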