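import Pool.Agent.Lib.MP_bec39b_co.Bases
import Pool.Agent.Lib.MP_bec39b_co.Assemble
import Pool.Agent.Lib.MP_bec39b_co.Transfer

set_option autoImplicit false

namespace Pool.Agent.Lib.MP_bec39b_co

theorem APII_V1 (y2 y3 : ℕ) (Yr : List ℕ) (t1 t2 p w R1 X : ℕ) (hY : Yr.length % 2 = 1)
    (nd : (y2 :: y3 :: (Yr ++ [t1, t2, p, w, R1, X])).Nodup) :
    ∃ m, AB ([X, y3, R1] ++ Yr ++ [t1, t2, p, w, y2]) ([y2, y3] ++ Yr ++ [t1, t2, w, X, p, R1])
      (apP (y2 :: y3 :: Yr) p w t1 t2 X) m := by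
  rcases Nat.lt_or_ge Yr.length 3 with h | h
  · obtain ⟨y4, rfl⟩ : ∃ y4, Yr = [y4] := List.length_eq_one_iff.1 (by omega)
    have := base_II1_out t1 t2 p w R1 X y2 y3 y4 (by (rw [List.nodup_iff_count_le_one]; intro xq; have hxq := List.nodup_iff_count_le_one.1 nd xq; simp only [List.count_append, List.count_cons, List.count_nil, List.cons_append, List.nil_append, List.append_assoc] at hxq ⊢; omega))
    simpa using this
  · have := AP_exists t1 t2 p w R1 X X [t1, t2, w, X, p, R1] (Or.inr rfl)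
      (fun y1 y2 y3 nd => base_II1_can t1 t2 p w R1 X y1 y2 y3 nd) y2 y3 t2 Yr
      ([X, y3, R1] ++ Yr ++ [t1]) h hY nd (by (rw [List.perm_iff_count]; intro xq; simp only [List.count_append, List.count_cons, List.count_nil, List.cons_append, List.nil_append, List.append_assoc]; omega)) (by rintro rfl; simp at nd)
    simpa using this

theorem APII_V3 (y2 y3 : ℕ) (Yr : List ℕ) (t1 t2 p w R1 X : ℕ) (hY : Yr.length % 2 = 1)
    (nd : (y2 :: y3 :: (Yr ++ [t1, t2, p, w, R1, X])).Nodup) :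
    ∃ m, AB ([X, y3, R1] ++ Yr ++ [t1, t2, p, w, y2]) ([y2, y3] ++ Yr ++ [t1, R1, w, t2, p, X])
      (apP (y2 :: y3 :: Yr) p w t1 t2 X) m := by
  rcases Nat.lt_or_ge Yr.length 3 with h | h
  · obtain ⟨y4, rfl⟩ : ∃ y4, Yr = [y4] := List.length_eq_one_iff.1 (by omega)
    have := base_II3_out t1 t2 p w R1 X y2 y3 y4 (by (rw [List.nodup_iff_count_le_one]; intro xq; have hxq := List.nodup_iff_count_le_one.1 nd xq; simp only [List.count_append, List.count_cons, List.count_nil, List.cons_append, List.nil_append, List.append_assoc] at hxq ⊢; omega))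
    simpa using this
  · have := AP_exists t1 t2 p w R1 X X [t1, R1, w, t2, p, X] (Or.inr rfl)
      (fun y1 y2 y3 nd => base_II3_can t1 t2 p w R1 X y1 y2 y3 nd) y2 y3 t2 Yr
      ([X, y3, R1] ++ Yr ++ [t1]) h hY nd (by (rw [List.perm_iff_count]; intro xq; simp only [List.count_append, List.count_cons, List.count_nil, List.cons_append, List.nil_append, List.append_assoc]; omega)) (by rintro rfl; simp at nd)
    simpa using this

theorem API_V1 (y2 y3 : ℕ) (Yr : List ℕ) (t1 t2 p w R1 X : ℕ) (hY : Yr.length % 2 = 1)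
    (nd : (y2 :: y3 :: (Yr ++ [t1, t2, p, w, R1, X])).Nodup) :
    ∃ m, AB ([R1, y3] ++ Yr ++ [t1, t2, X, p, w, y2]) ([y2, y3] ++ Yr ++ [t1, t2, X, R1, w, p])
      (apP (y2 :: y3 :: Yr) p w t1 t2 w) m := by
  rcases Nat.lt_or_ge Yr.length 3 with h | h
  · obtain ⟨y4, rfl⟩ : ∃ y4, Yr = [y4] := List.length_eq_one_iff.1 (by omega)
    have := base_I_can t1 t2 p w R1 X y2 y3 y4 (by (rw [List.nodup_iff_count_le_one]; intro xq; have hxq := List.nodup_iff_count_le_one.1 nd xq; simp only [List.count_append, List.count_cons, List.count_nil, List.cons_append, List.nil_append, List.append_assoc] at hxq ⊢; omega))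
    simpa using this
  · have := AP_exists t1 t2 p w R1 X w [t1, t2, X, R1, w, p] (Or.inl rfl)
      (fun y1 y2 y3 nd => base_I_can t1 t2 p w R1 X y1 y2 y3 nd) y2 y3 X Yr
      ([R1, y3] ++ Yr ++ [t1, t2]) h hY nd (by (rw [List.perm_iff_count]; intro xq; simp only [List.count_append, List.count_cons, List.count_nil, List.cons_append, List.nil_append, List.append_assoc]; omega)) (by rintro rfl; simp at nd)
    simpa using this

theorem API_V3 (y2 y3 : ℕ) (Yr : List ℕ) (t1 t2 p w R1 X : ℕ) (hY : Yr.length % 2 = 1)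
    (nd : (y2 :: y3 :: (Yr ++ [t1, t2, p, w, R1, X])).Nodup) :
    ∃ m, AB ([t2, R1, y3] ++ Yr ++ [t1, X, p, w, y2]) ([y2, y3] ++ Yr ++ [t1, t2, X, R1, w, p])
      (apP (y2 :: y3 :: Yr) p w t1 t2 w) m := by
  rcases Nat.lt_or_ge Yr.length 3 with h | h
  · obtain ⟨y4, rfl⟩ : ∃ y4, Yr = [y4] := List.length_eq_one_iff.1 (by omega)
    have := base_I_out3 t1 t2 p w R1 X y2 y3 y4 (by (rw [List.nodup_iff_count_le_one]; intro xq; have hxq := List.nodup_iff_count_le_one.1 nd xq; simp only [List.count_append, List.count_cons, List.count_nil, List.cons_append, List.nil_append, List.append_assoc] at hxq ⊢; omega))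
    simpa using this
  · have := AP_exists t1 t2 p w R1 X w [t1, t2, X, R1, w, p] (Or.inl rfl)
      (fun y1 y2 y3 nd => base_I_can t1 t2 p w R1 X y1 y2 y3 nd) y2 y3 X Yr
      ([t2, R1, y3] ++ Yr ++ [t1]) h hY nd (by (rw [List.perm_iff_count]; intro xq; simp only [List.count_append, List.count_cons, List.count_nil, List.cons_append, List.nil_append, List.append_assoc]; omega)) (by rintro rfl; simp at nd)
    simpa using this

theorem BBC_V1 (y1 y2 y3 : ℕ) (Yr : List ℕ) (t1 t2 w ws wt e a b : ℕ) (S : List ℕ)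
    (hY : Yr.length % 2 = 1)
    (nd : (b :: a :: w :: ws :: wt :: e :: y1 :: y2 :: y3 :: (Yr ++ [t1, t2])).Nodup)
    (hS : S.Perm (a :: w :: ws :: wt :: y1 :: y3 :: (Yr ++ [t1, t2]))) (hS1 : S.head? ≠ some w) :
    ∃ m, BB (b :: e :: y2 :: S)
      (GM2 (y1 :: y2 :: y3 :: (Yr ++ [t1, t2])) y2 w ws wt a b
        (fl (a :: w :: y2 :: y3 :: (Yr ++ [t1, t2, ws, wt, y1, e])) (Yr.length + 9))
        (e :: y2 :: S).toFinset) m := by
  have nda := (List.nodup_cons.1 nd).2
  have hM := BBM_exists base_nested base_M y1 y2 y3 Yr t1 t2 w ws wt e hY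
    (List.nodup_cons.1 nda).2
  have hρ : [t1, t2, ws, wt, y1, e].Perm [t1, t2, y1, ws, e, wt] := by (rw [List.perm_iff_count]; intro xq; simp only [List.count_append, List.count_cons, List.count_nil, List.cons_append, List.nil_append, List.append_assoc]; omega)
  have h1 := conv1 y1 y2 y3 Yr t1 t2 w ws wt e a _ hY nda hρ
    (APII_V1 y2 y3 Yr t1 t2 y1 ws e wt hY (by (rw [List.nodup_iff_count_le_one]; intro xq; have hxq := List.nodup_iff_count_le_one.1 nd xq; simp only [List.count_append, List.count_cons, List.count_nil, List.cons_append, List.nil_append, List.append_assoc] at hxq ⊢; omega))) hM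
  exact conv2_V1 y1 y2 y3 Yr t1 t2 w ws wt e a b S hY nd hS hS1
    (API_V1 a y3 Yr t1 t2 y2 w wt ws hY (by (rw [List.nodup_iff_count_le_one]; intro xq; have hxq := List.nodup_iff_count_le_one.1 nd xq; simp only [List.count_append, List.count_cons, List.count_nil, List.cons_append, List.nil_append, List.append_assoc] at hxq ⊢; omega))) h1

theorem BBC_V3 (y1 y2 y3 : ℕ) (Yr : List ℕ) (t1 t2 w ws wt e a b : ℕ) (S : List ℕ)
    (hY : Yr.length % 2 = 1)
    (nd : (b :: a :: w :: ws :: wt :: e :: y1 :: y2 :: y3 :: (Yr ++ [t1, t2])).Nodup)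
    (hS : S.Perm (a :: w :: ws :: e :: y1 :: y3 :: (Yr ++ [t1, t2]))) (hS1 : S.head? ≠ some w) :
    ∃ m, BB (b :: wt :: y2 :: S)
      (GM2 (y1 :: y2 :: y3 :: (Yr ++ [t1, t2])) y2 w ws wt a b
        (fl (a :: w :: y2 :: y3 :: (Yr ++ [t1, e, ws, t2, y1, wt])) (Yr.length + 9))
        (wt :: y2 :: S).toFinset) m := by
  have nda := (List.nodup_cons.1 nd).2
  have hM := BBM_exists base_nested base_M y1 y2 y3 Yr t1 t2 w ws wt e hY
    (List.nodup_cons.1 nda).2
  have hρ : [t1, e, ws, t2, y1, wt].Perm [t1, t2, y1, ws, e, wt] := by (rw [List.perm_iff_count]; intro xq; simp only [List.count_append, List.count_cons, List.count_nil, List.cons_append, List.nil_append, List.append_assoc]; omega)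
  have h1 := conv1 y1 y2 y3 Yr t1 t2 w ws wt e a _ hY nda hρ
    (APII_V3 y2 y3 Yr t1 t2 y1 ws e wt hY (by (rw [List.nodup_iff_count_le_one]; intro xq; have hxq := List.nodup_iff_count_le_one.1 nd xq; simp only [List.count_append, List.count_cons, List.count_nil, List.cons_append, List.nil_append, List.append_assoc] at hxq ⊢; omega))) hM
  exact conv2_V3 y1 y2 y3 Yr t1 t2 w ws wt e a b S hY nd hS hS1
    (API_V3 a y3 Yr t1 t2 y2 w e ws hY (by (rw [List.nodup_iff_count_le_one]; intro xq; have hxq := List.nodup_iff_count_le_one.1 nd xq; simp only [List.count_append, List.count_cons, List.count_nil, List.cons_append, List.nil_append, List.append_assoc] at hxq ⊢; omega))) h1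

theorem mem_Zl (o k x : ℕ) : x ∈ Zl o k ↔ o < x ∧ x ≤ o + k := by
  induction k with
  | zero => simp [Zl]
  | succ k ih => simp only [Zl, List.mem_cons, ih]; omega

theorem nodup_Zl (o k : ℕ) : (Zl o k).Nodup := by
  induction k with
  | zero => simp [Zl]
  | succ k ih => simp only [Zl, List.nodup_cons, mem_Zl]; exact ⟨by omega, ih⟩

theorem length_Zl (o k : ℕ) : (Zl o k).length = k := by
  induction k with
  | zero => simp [Zl]
  | succ k ih => simp [Zl, ih]

theorem listing_odd (q : ℕ) (hq : q % 2 = 1) : ∃ N : Finset ℕ, N.card = q + 12 ∧ Listing N := by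
  obtain ⟨p, mQ, hQ⟩ := T1_last base_Q1 (q + 2) (by omega) (by omega)
  have e0 : q + 2 - 1 = q + 1 := by omega
  rw [e0] at hQ
  have nd : (5 :: 6 :: 0 :: 2 :: 4 :: 1 :: (8 + (q + 2)) :: (7 + (q + 2)) :: (7 + q + 1) ::
      (Zl 7 q ++ [7, 3])).Nodup := by
    simp only [List.nodup_cons, List.mem_cons, List.mem_append, mem_Zl, List.nodup_append,
      nodup_Zl, List.not_mem_nil, List.nodup_nil, true_and, or_false]
    refine ⟨by omega, by omega, by omega, by omega, by omega, by omega, by omega, by omega,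
      by omega, by simp, ?_⟩
    intro a ha b hb
    omega
  obtain ⟨mB, hB⟩ := BBC_V1 (8 + (q + 2)) (7 + (q + 2)) (7 + q + 1) (Zl 7 q) 7 3 0 2 4 1 6 5
    (6 :: (Zl 7 (q + 1) ++ [7, 3, 4, 2, 0, 8 + (q + 2)])) (by rw [length_Zl]; exact hq) nd
    (by simp only [Zl]; (rw [List.perm_iff_count]; intro xq; simp only [List.count_append, List.count_cons, List.count_nil, List.cons_append, List.nil_append, List.append_assoc]; omega)) (by simp)
  have hE : ([5, 1, 7 + (q + 2), 6] ++ Zl 7 (q + 1) ++ [7, 3, 4, 2, 0, 8 + (q + 2)] : List ℕ) =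
      5 :: 1 :: (7 + (q + 2)) :: (6 :: (Zl 7 (q + 1) ++ [7, 3, 4, 2, 0, 8 + (q + 2)])) := by simp
  rw [hE] at hQ
  have hlen : (5 :: 1 :: (7 + (q + 2)) :: (6 :: (Zl 7 (q + 1) ++
      [7, 3, 4, 2, 0, 8 + (q + 2)]))).length = q + 11 := by
    simp [length_Zl]
  have hz : 11 + q ∉ 5 :: 1 :: (7 + (q + 2)) :: (6 :: (Zl 7 (q + 1) ++
      [7, 3, 4, 2, 0, 8 + (q + 2)])) := by
    simp only [List.mem_cons, List.mem_append, mem_Zl, List.not_mem_nil, or_false]; omega
  refine ⟨_, ?_, listing_Q1 hB hQ hz (by rw [hlen]; omega) ?_⟩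
  · rw [Finset.card_insert_of_notMem (by rw [List.mem_toFinset]; exact hz), List.toFinset_card_of_nodup hB.nd, hlen]
  · intro l h1 hl
    rw [hlen] at hl
    have hYY : (8 + (q + 2)) :: (7 + (q + 2)) :: (7 + q + 1) :: (Zl 7 q ++ [7, 3]) =
        Zl 7 (q + 3) ++ [7, 3] := by
      simp only [Zl, List.cons_append, List.cons.injEq, and_true]
      omega
    have hYl : (Zl 7 (q + 3) ++ [7, 3]).length = q + 5 := by simp [length_Zl]
    rw [hYY]
    show GM2 _ _ _ _ _ _ _ _ _ (l + 1) = if l = 1 then _ else _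
    unfold GM2 gT1
    rw [hYl, length_Zl]
    by_cases hl1 : l = 1
    · subst hl1; simp
    have n1 : ¬ l + 1 = 2 := by omega
    rw [if_neg n1, if_neg hl1]
    by_cases h2 : l + 1 ≤ q + 5 + 2
    · have h2' : l ≤ q + 2 + 1 + 3 := by omega
      rw [if_pos h2, if_pos h2']
      have e1 : l + 1 - 2 = l - 1 := by omega
      rw [e1]
      by_cases h3 : (l + 1) % 2 = 0
      · have h3' : (q + 2 + 1 + l) % 2 = 1 := by omega
        rw [if_pos h3, if_pos h3']
        ext x; simp only [Finset.mem_insert, Finset.mem_union, Finset.mem_singleton]; tauto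
      · have h3' : ¬ (q + 2 + 1 + l) % 2 = 1 := by omega
        rw [if_neg h3, if_neg h3']
        ext x; simp only [Finset.mem_insert, Finset.mem_union, Finset.mem_singleton]; tauto
    have h2' : ¬ l ≤ q + 2 + 1 + 3 := by omega
    rw [if_neg h2, if_neg h2']
    by_cases h3 : l + 1 = q + 5 + 3
    · have h3' : l = q + 2 + 1 + 4 := by omega
      rw [if_pos h3, if_pos h3']
      ext x
      simp only [Finset.mem_insert, Finset.mem_union, Finset.mem_singleton, List.mem_toFinset,
        List.mem_append, List.mem_cons, List.not_mem_nil]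
      tauto
    have h3' : ¬ l = q + 2 + 1 + 4 := by omega
    rw [if_neg h3, if_neg h3']
    by_cases h4 : l + 1 = q + 5 + 4
    · have h4' : l = q + 2 + 1 + 5 := by omega
      rw [if_pos h4, if_pos h4']
      have e2 : (6 :: 0 :: (7 + (q + 2)) :: (7 + q + 1) :: (Zl 7 q ++ [7, 3, 2, 4, 8 + (q + 2), 1])) =
          (6 :: 0 :: (7 + (q + 2)) :: (7 + q + 1) :: (Zl 7 q ++ [7, 3, 2, 4, 8 + (q + 2)])) ++ [1] := by
        simp
      rw [e2, fl_append_left (by simp [length_Zl]), fl_of_le (by simp [length_Zl])]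
      ext x
      simp only [Finset.mem_insert, Finset.mem_union, Finset.mem_singleton, List.mem_toFinset,
        List.mem_append, List.mem_cons, List.not_mem_nil, mem_Zl, or_false]
      omega
    · have h4' : ¬ l = q + 2 + 1 + 5 := by omega
      have h5' : l = q + 2 + 1 + 6 := by omega
      rw [if_neg h4, if_neg h4', if_pos h5']
      ext x
      simp only [Finset.mem_insert, Finset.mem_union, Finset.mem_singleton, List.mem_toFinset,
        List.mem_append, List.mem_cons, List.not_mem_nil, mem_Zl, or_false]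
      omega

theorem listing_even (r : ℕ) (hr : r % 2 = 1) : ∃ N : Finset ℕ, N.card = r + 13 ∧ Listing N := by
  obtain ⟨p, mQ, hQ⟩ := T3_last base_Q3 (r + 4) (by omega) (by omega)
  have e0 : r + 4 - 1 = r + 3 := by omega
  rw [e0] at hQ
  have nd : (2 :: 0 :: 5 :: 6 :: 3 :: 1 :: (7 + (r + 4)) :: (6 + (r + 4)) :: (9 + r) ::
      (Zl 8 r ++ [8, 7])).Nodup := by
    simp only [List.nodup_cons, List.mem_cons, List.mem_append, mem_Zl, List.nodup_append,
      nodup_Zl, List.not_mem_nil, List.nodup_nil, true_and, or_false]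
    refine ⟨by omega, by omega, by omega, by omega, by omega, by omega, by omega, by omega,
      by omega, by simp, ?_⟩
    intro a ha b hb
    omega
  obtain ⟨mB, hB⟩ := BBC_V3 (7 + (r + 4)) (6 + (r + 4)) (9 + r) (Zl 8 r) 8 7 5 6 3 1 0 2
    (1 :: 5 :: 6 :: (7 + (r + 4)) :: (9 + r) :: (Zl 8 r ++ [8, 7, 0]))
    (by rw [length_Zl]; exact hr) nd (by (rw [List.perm_iff_count]; intro xq; simp only [List.count_append, List.count_cons, List.count_nil, List.cons_append, List.nil_append, List.append_assoc]; omega)) (by simp)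
  have hZ : Zl 6 (r + 3) = (9 + r) :: (Zl 8 r ++ [8, 7]) := by
    have h : ∀ s, Zl 6 (s + 2) = Zl 8 s ++ [8, 7] := by
      intro s
      induction s with
      | zero => rfl
      | succ s ih =>
        rw [show s + 1 + 2 = (s + 2) + 1 by omega, Zl, ih, Zl, List.cons_append]
        congr 1; omega
    rw [show r + 3 = (r + 1) + 2 by omega, h, Zl, List.cons_append]
    congr 1; omega
  have hE : ([4, 0, 6 + (r + 4), 2] ++ Zl 6 (r + 3) ++ [1, 3, 6, 5, 7 + (r + 4)] : List ℕ) =
      4 :: 0 :: (6 + (r + 4)) :: 2 :: (9 + r) :: (Zl 8 r ++ [8, 7, 1, 3, 6, 5, 7 + (r + 4)]) := by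
    rw [hZ]; simp
  rw [hE] at hQ
  have hlenS : (1 :: 5 :: 6 :: (7 + (r + 4)) :: (9 + r) :: (Zl 8 r ++ [8, 7, 0])).length =
      r + 8 := by simp [length_Zl]
  have hlenB : (2 :: 3 :: (6 + (r + 4)) :: (1 :: 5 :: 6 :: (7 + (r + 4)) :: (9 + r) ::
      (Zl 8 r ++ [8, 7, 0]))).length = r + 11 := by simp [length_Zl]
  have hperm : (0 :: (6 + (r + 4)) :: 2 :: (9 + r) :: (Zl 8 r ++ [8, 7, 1, 3, 6, 5, 7 + (r + 4)])).Perm
      (2 :: 3 :: (6 + (r + 4)) :: (1 :: 5 :: 6 :: (7 + (r + 4)) :: (9 + r) ::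
      (Zl 8 r ++ [8, 7, 0]))) := by (rw [List.perm_iff_count]; intro xq; simp only [List.count_append, List.count_cons, List.count_nil, List.cons_append, List.nil_append, List.append_assoc]; omega)
  obtain ⟨mU, hU⟩ := A_exists 2 3 (6 + (r + 4))
    (1 :: 5 :: 6 :: (7 + (r + 4)) :: (9 + r) :: (Zl 8 r ++ [8, 7, 0]))
    (0 :: (6 + (r + 4)) :: 2 :: (9 + r) :: (Zl 8 r ++ [8, 7, 1, 3, 6, 5, 7 + (r + 4)]))
    (by rw [hlenS]; omega) hB.nd hperm
    (by
      rw [show (1 :: 5 :: 6 :: (7 + (r + 4)) :: (9 + r) :: (Zl 8 r ++ [8, 7, 0])) =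
        (1 :: 5 :: 6 :: (7 + (r + 4)) :: (9 + r) :: (Zl 8 r ++ [8, 7])) ++ [0] by simp,
        List.getLast?_append]
      rfl)
    (by
      have : (1 :: 5 :: 6 :: (7 + (r + 4)) :: (9 + r) :: (Zl 8 r ++ [8, 7, 0])) =
        (1 :: 5 :: 6 :: (7 + (r + 4)) :: (9 + r) :: (Zl 8 r ++ [8])) ++ [7, 0] := by simp
      rw [hlenS, this, List.getElem?_append_right (by simp [length_Zl])]
      simp [length_Zl]
      omega)
  set G' : ℕ → Finset ℕ := fun l => if l = 2 then {4, 6 + (r + 4)} else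
    if l = r + 11 then fl (4 :: (0 :: (6 + (r + 4)) :: 2 :: (9 + r) ::
      (Zl 8 r ++ [8, 7, 1, 3, 6, 5, 7 + (r + 4)]))) (r + 11)
    else GM2 ((7 + (r + 4)) :: (6 + (r + 4)) :: (9 + r) :: (Zl 8 r ++ [8, 7])) (6 + (r + 4))
      5 6 3 0 2
      (fl (0 :: 5 :: (6 + (r + 4)) :: (9 + r) :: (Zl 8 r ++ [8, 1, 6, 7, 7 + (r + 4), 3]))
        ((Zl 8 r).length + 9))
      (3 :: (6 + (r + 4)) :: (1 :: 5 :: 6 :: (7 + (r + 4)) :: (9 + r) ::
        (Zl 8 r ++ [8, 7, 0]))).toFinset l with hG'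
  have hz4 : 4 ∉ 2 :: 3 :: (6 + (r + 4)) :: (1 :: 5 :: 6 :: (7 + (r + 4)) :: (9 + r) ::
      (Zl 8 r ++ [8, 7, 0])) := by
    simp only [List.mem_cons, List.mem_append, mem_Zl, List.not_mem_nil, or_false]; omega
  obtain ⟨mC, hC⟩ := BB_step (G' := G') hB hU.ab hz4
    (by intro l hl; rw [hlenB] at hl; simp only [preA]; rw [if_neg (by omega)])
    (by
      intro a b c E' h
      simp only [List.cons.injEq] at h
      obtain ⟨rfl, _, rfl, _⟩ := h
      simp [hG'])
    (by
      intro l h2 hl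
      rw [hlenB] at hl
      by_cases h : l = 2
      · right
        subst h
        refine ⟨{6 + (r + 4)}, ?_, by simp, ?_⟩
        · simp [preA, GM2]
        · simp [hG']
      · left
        refine ⟨?_, ?_⟩
        · simp only [preA]; rw [if_neg (by omega)]
        · simp only [hG']; rw [if_neg h, if_neg (by omega)])
    (by
      rw [hlenB, if_pos (by omega)]
      simp only [hG']
      rw [if_neg (by omega), if_pos trivial])
  have hlen : (4 :: 0 :: (6 + (r + 4)) :: 2 :: (9 + r) ::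
      (Zl 8 r ++ [8, 7, 1, 3, 6, 5, 7 + (r + 4)])).length = r + 12 := by
    simp [length_Zl]
  have hz : 12 + r ∉ 4 :: 0 :: (6 + (r + 4)) :: 2 :: (9 + r) ::
      (Zl 8 r ++ [8, 7, 1, 3, 6, 5, 7 + (r + 4)]) := by
    simp only [List.mem_cons, List.mem_append, mem_Zl, List.not_mem_nil, or_false]; omega
  refine ⟨_, ?_, listing_Q3 hC hQ hz (by rw [hlen]; omega) ?_⟩
  · rw [Finset.card_insert_of_notMem (by rw [List.mem_toFinset]; exact hz),
      List.toFinset_card_of_nodup hC.nd, hlen]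
  · intro l h1 hl
    rw [hlen] at hl
    have hYY : (7 + (r + 4)) :: (6 + (r + 4)) :: (9 + r) :: (Zl 8 r ++ [8, 7]) =
        Zl 6 (r + 5) := by
      rw [show r + 5 = (r + 3) + 1 + 1 by omega, Zl, Zl, hZ]
      simp only [List.cons.injEq, and_true]
      omega
    show G' (l + 1) = if l = 1 then _ else _
    simp only [hG']
    by_cases hl1 : l = 1
    · subst hl1; simp
    have n1 : ¬ l + 1 = 2 := by omega
    have n2 : ¬ l + 1 = r + 11 := by omega
    rw [if_neg n1, if_neg n2, if_neg hl1, hYY]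
    unfold GM2 gT3
    rw [length_Zl, length_Zl, if_neg n1]
    by_cases h2 : l + 1 ≤ r + 5 + 2
    · have h2' : l ≤ r + 4 + 1 + 1 := by omega
      rw [if_pos h2, if_pos h2']
      have e1 : l + 1 - 2 = l - 1 := by omega
      rw [e1]
      by_cases h3 : (l + 1) % 2 = 0
      · have h3' : (r + 4 + 1 + l) % 2 = 1 := by omega
        rw [if_pos h3, if_pos h3']
        ext x; simp only [Finset.mem_insert, Finset.mem_union, Finset.mem_singleton]; tauto
      · have h3' : ¬ (r + 4 + 1 + l) % 2 = 1 := by omega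
        rw [if_neg h3, if_neg h3']
        ext x; simp only [Finset.mem_insert, Finset.mem_union, Finset.mem_singleton]; tauto
    have h2' : ¬ l ≤ r + 4 + 1 + 1 := by omega
    rw [if_neg h2, if_neg h2']
    by_cases h3 : l + 1 = r + 5 + 3
    · have h3' : l = r + 4 + 1 + 2 := by omega
      rw [if_pos h3, if_pos h3']
      ext x
      simp only [Finset.mem_insert, Finset.mem_union, Finset.mem_singleton, List.mem_toFinset]
      tauto
    have h3' : ¬ l = r + 4 + 1 + 2 := by omega
    rw [if_neg h3, if_neg h3']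
    by_cases h4 : l + 1 = r + 5 + 4
    · have h4' : l = r + 4 + 1 + 3 := by omega
      rw [if_pos h4, if_pos h4']
      have e2 : (0 :: 5 :: (6 + (r + 4)) :: (9 + r) ::
          (Zl 8 r ++ [8, 1, 6, 7, 7 + (r + 4), 3])) =
          (0 :: 5 :: (6 + (r + 4)) :: (9 + r) :: (Zl 8 r ++ [8, 1, 6, 7, 7 + (r + 4)])) ++ [3] := by
        simp
      rw [e2, fl_append_left (by simp [length_Zl]), fl_of_le (by simp [length_Zl])]
      ext x
      simp only [Finset.mem_insert, Finset.mem_union, Finset.mem_singleton, List.mem_toFinset,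
        List.mem_append, List.mem_cons, List.not_mem_nil, mem_Zl, or_false]
      omega
    · have h4' : ¬ l = r + 4 + 1 + 3 := by omega
      rw [if_neg h4, if_neg h4']
      ext x
      simp only [Finset.mem_insert, Finset.mem_union, Finset.mem_singleton, List.mem_toFinset,
        List.mem_append, List.mem_cons, List.not_mem_nil, mem_Zl, or_false]
      omega

theorem listing_all (n : ℕ) (hn : 1 ≤ n) : ∃ N : Finset ℕ, N.card = n ∧ Listing N := by
  rcases Nat.lt_or_ge 12 n with h | h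
  · rcases Nat.mod_two_eq_zero_or_one n with h2 | h2
    · obtain ⟨r, rfl⟩ : ∃ r, n = r + 13 := ⟨n - 13, by omega⟩
      exact listing_even r (by omega)
    · obtain ⟨q, rfl⟩ : ∃ q, n = q + 12 := ⟨n - 12, by omega⟩
      exact listing_odd q (by omega)
  · exact small_listing n hn h

/-- The frozen statement S11161. -/
theorem main (n : ℕ) (hn : 1 ≤ n) :
    ∃ A : Fin (2 ^ n) ≃ Finset (Fin n),
        (∀ i : Fin (2 ^ n), i.val = 0 → A i = ∅) ∧
        (∀ i j : Fin (2 ^ n), j.val = i.val + 1 →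
            (A i ⊂ A j ∨ A j ⊂ A i) ∧ (symmDiff (A i) (A j)).card = 1) ∧
        (∀ i j : Fin (2 ^ n), A i ⊂ A j → j < i → i.val = j.val + 1) := by
  obtain ⟨N, hN, h⟩ := listing_all n hn
  exact transfer n N hN h

end Pool.Agent.Lib.MP_bec39b_co
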