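import Pool.Agent.Lib.MP_bec39b_co.AType
import Pool.Agent.Lib.MP_bec39b_co.BBStep

set_option autoImplicit false

namespace Pool.Agent.Lib.MP_bec39b_co

/-- One step of the nested chain with an upper factor of type `A`. -/
theorem BB_stepA {a b c r z : ℕ} {S υ' : List ℕ} {G G' : ℕ → Finset ℕ}
    {mL : ℕ → List (Finset ℕ)} (hL : BB (a :: b :: c :: (S ++ [r])) G mL) (hS : 5 ≤ S.length)
    (hz : z ∉ a :: b :: c :: (S ++ [r]))
    (hυ : (r :: c :: υ').Perm (a :: b :: c :: (S ++ [r])))
    (hG2 : G' 2 = {z, c})
    (hG : ∀ l, 3 ≤ l → l < S.length + 4 → G' l = G l)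
    (hGn : G' (S.length + 4) = if S.length % 2 = 0 then fl (z :: r :: c :: υ') (S.length + 4)
      else (a :: b :: c :: (S ++ [r])).toFinset) :
    ∃ m, BB (z :: r :: c :: υ') G' m := by
  have hElen : (a :: b :: c :: (S ++ [r])).length = S.length + 4 := by simp
  have hcS : c ∉ S ++ [r] := by
    have := hL.nd
    simp only [List.nodup_cons] at this
    exact this.2.2.1
  obtain ⟨mU, hU⟩ := A_exists a b c (S ++ [r]) (r :: c :: υ') (by simp; omega) hL.nd hυ
    (by simp) (by
      intro h
      simp only [List.getElem?_cons_succ, List.getElem?_cons_zero] at h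
      exact hcS (List.mem_of_getElem? h.symm))
  refine BB_step hL hU.ab hz ?_ ?_ ?_ ?_
  · intro l hl
    rw [hElen] at hl
    unfold preA
    rw [if_neg (by omega)]
  · intro a' b' c' E' h
    simp only [List.cons.injEq] at h
    obtain ⟨rfl, rfl, rfl, -⟩ := h
    exact hG2
  · intro l h2 hl
    rw [hElen] at hl
    rcases Nat.eq_or_lt_of_le h2 with h | h
    · right
      subst h
      refine ⟨{c}, ?_, by simp, ?_⟩
      · rw [hL.G2 a b c _ rfl]; rfl
      · rw [hG2]
    · left
      refine ⟨?_, hG l h hl⟩
      unfold preA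
      rw [if_neg (by omega)]
  · rw [hElen, hGn]
    have : (S.length + 4) % 2 = S.length % 2 := by omega
    rw [this]

theorem nested_append_two {H : List ℕ} (h : 2 ≤ H.length) : ∃ H' a b, H = H' ++ [a, b] := by
  have hne : H ≠ [] := by rintro rfl; simp at h
  have h1 := List.dropLast_append_getLast hne
  have hne2 : H.dropLast ≠ [] := by
    intro h0
    have := congrArg List.length h0
    simp at this; omega
  have h2 := List.dropLast_append_getLast hne2
  refine ⟨H.dropLast.dropLast, H.dropLast.getLast hne2, H.getLast hne, ?_⟩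
  calc H = H.dropLast ++ [H.getLast hne] := h1.symm
    _ = (H.dropLast.dropLast ++ [H.dropLast.getLast hne2]) ++ [H.getLast hne] := by rw [h2]
    _ = _ := by simp

theorem nested_append_one {H : List ℕ} (h : 1 ≤ H.length) : ∃ H' a, H = H' ++ [a] := by
  have hne : H ≠ [] := by rintro rfl; simp at h
  exact ⟨_, _, (List.dropLast_append_getLast hne).symm⟩

theorem nested_nodup {l₁ l₂ : List ℕ} (h : l₁.Subperm l₂) (nd : l₂.Nodup) : l₁.Nodup := by
  obtain ⟨l, hp, hs⟩ := h
  exact hp.nodup_iff.1 (nd.sublist hs)

/-- The nested chain. -/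
theorem nested_exists
    (hbase : ∀ h1 h2 h3 h4 h5 h6 h7 h8 h9 h10 : ℕ, [h1, h2, h3, h4, h5, h6, h7, h8, h9, h10].Nodup →
      ∃ m, BB [h10, h9, h4, h6, h2, h3, h7, h1, h5, h8]
        (fun l => if l = 2 then {h10, h4} else fl [h1, h2, h3, h4, h5, h6, h7, h8, h9, h10] l) m)
    (h1 h2 h3 h4 : ℕ) (H : List ℕ) (u v : ℕ) (hH : 4 ≤ H.length) (hev : H.length % 2 = 0)
    (nd : (h1 :: h2 :: h3 :: h4 :: (H ++ [u, v])).Nodup) :
    ∃ R m, R.Perm (h1 :: h2 :: h3 :: H) ∧ R.getLast? ≠ some h2 ∧
      BB (v :: u :: h4 :: R)
        (fun l => if l = 2 then {v, h4} else fl (h1 :: h2 :: h3 :: h4 :: (H ++ [u, v])) l) m := by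
  obtain ⟨k, hk⟩ : ∃ k, H.length = 2 * k + 4 := ⟨H.length / 2 - 2, by omega⟩
  clear hH hev
  induction k generalizing H u v with
  | zero =>
    obtain ⟨h5, h6, h7, h8, rfl⟩ : ∃ h5 h6 h7 h8, H = [h5, h6, h7, h8] := by
      match H, hk with
      | [h5, h6, h7, h8], _ => exact ⟨h5, h6, h7, h8, rfl⟩
    obtain ⟨m, hm⟩ := hbase h1 h2 h3 h4 h5 h6 h7 h8 u v nd
    refine ⟨[h6, h2, h3, h7, h1, h5, h8], m, ?_, ?_, hm⟩
    · rw [List.perm_iff_count]
      intro x
      simp only [List.count_cons, List.count_nil]
      omega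
    · intro h
      simp only [List.getLast?_cons_cons, List.getLast?_singleton, Option.some.injEq] at h
      subst h
      simp at nd
  | succ k ih =>
    obtain ⟨H', a, b, rfl⟩ := nested_append_two (H := H) (by omega)
    have hH'len : H'.length = 2 * k + 4 := by simp at hk; omega
    have nd1 : (h1 :: h2 :: h3 :: h4 :: (H' ++ [a, u])).Nodup := by
      refine nd.sublist ?_
      refine List.Sublist.cons_cons _ (List.Sublist.cons_cons _ (List.Sublist.cons_cons _
        (List.Sublist.cons_cons _ ?_)))
      rw [List.append_assoc]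
      refine List.Sublist.append_left ?_ _
      simp
    obtain ⟨R0, mL, hR0, hR0l, hL⟩ := ih H' a u nd1 hH'len
    have hR0len : R0.length = 2 * k + 7 := by rw [hR0.length_eq]; simp [hH'len]
    obtain ⟨S, r, rfl⟩ := nested_append_one (H := R0) (by omega)
    have hSlen : S.length = 2 * k + 6 := by simp at hR0len; omega
    -- the ground lists
    have hperm1 : (u :: a :: h4 :: (S ++ [r])).Perm (h1 :: h2 :: h3 :: h4 :: (H' ++ [a, u])) := by
      have e := hR0
      rw [List.perm_iff_count] at e ⊢
      intro x
      have := e x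
      simp only [List.count_cons, List.count_append, List.count_nil] at this ⊢
      omega
    have hndAll := nd
    have hbnot : b ∉ u :: a :: h4 :: (S ++ [r]) := by
      rw [hperm1.mem_iff]
      intro hb
      have h0 : (b :: (h1 :: h2 :: h3 :: h4 :: (H' ++ [a, u]))).Nodup → False := by
        intro h; rw [List.nodup_cons] at h; exact h.1 hb
      apply h0
      have hsub : (b :: (h1 :: h2 :: h3 :: h4 :: (H' ++ [a, u]))).Subperm
          (h1 :: h2 :: h3 :: h4 :: ((H' ++ [a, b]) ++ [u, v])) := by
        rw [List.subperm_ext_iff]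
        intro x _
        simp only [List.count_cons, List.count_append, List.count_nil]
        omega
      exact nested_nodup hsub nd
    obtain ⟨m1, hm1⟩ : ∃ m1, BB (b :: r :: h4 :: (S ++ [a, u])) (fun l => if l = 2 then {b, h4} else
        fl (h1 :: h2 :: h3 :: h4 :: (H' ++ [a, b, u])) l) m1 := by
     refine BB_stepA (z := b) (υ' := S ++ [a, u])
      (G' := fun l => if l = 2 then {b, h4} else
        fl (h1 :: h2 :: h3 :: h4 :: (H' ++ [a, b, u])) l) hL (by omega) hbnot ?_ (by simp) ?_ ?_
     · rw [List.perm_iff_count]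
       intro x
       simp only [List.count_cons, List.count_append, List.count_nil]
       omega
     · intro l h3l hl
       rw [if_neg (by omega), if_neg (by omega)]
       have e1 : (h1 :: h2 :: h3 :: h4 :: (H' ++ [a, b, u])) =
           (h1 :: h2 :: h3 :: h4 :: (H' ++ [a])) ++ [b, u] := by simp
       have e2 : (h1 :: h2 :: h3 :: h4 :: (H' ++ [a, u])) =
           (h1 :: h2 :: h3 :: h4 :: (H' ++ [a])) ++ [u] := by simp
       rw [e1, e2, fl_append_left (by simp; omega), fl_append_left (by simp; omega)]
     · rw [if_neg (by omega), if_pos (by omega)]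
       have e1 : (h1 :: h2 :: h3 :: h4 :: (H' ++ [a, b, u])) =
           (h1 :: h2 :: h3 :: h4 :: (H' ++ [a, b])) ++ [u] := by simp
       have e2 : (b :: r :: h4 :: (S ++ [a, u])) = (b :: r :: h4 :: (S ++ [a])) ++ [u] := by simp
       rw [e1, e2, fl_append_left (by simp; omega), fl_append_left (by simp),
         fl_of_le (by simp; omega), fl_of_le (by simp)]
       ext x
       have hx := hR0.mem_iff (a := x)
       simp only [List.mem_append, List.mem_cons, List.not_mem_nil, or_false,
         List.mem_toFinset] at hx ⊢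
       constructor
       · rintro (h | h | h | h | h | h | h)
         · have := hx.2 (Or.inl h); tauto
         · have := hx.2 (Or.inr (Or.inl h)); tauto
         · have := hx.2 (Or.inr (Or.inr (Or.inl h))); tauto
         · tauto
         · have := hx.2 (Or.inr (Or.inr (Or.inr h))); tauto
         · tauto
         · tauto
       · rintro (h | h | h | h | h)
         · tauto
         · have := hx.1 (Or.inr h); tauto
         · tauto
         · have := hx.1 (Or.inl h); tauto
         · tauto
    -- second step
    have e0 : (b :: r :: h4 :: (S ++ [a, u])) = b :: r :: h4 :: ((S ++ [a]) ++ [u]) := by simp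
    rw [e0] at hm1
    have hperm2 : (b :: r :: h4 :: ((S ++ [a]) ++ [u])).Perm
        (h1 :: h2 :: h3 :: h4 :: (H' ++ [a, b, u])) := by
      have e := hR0
      rw [List.perm_iff_count] at e ⊢
      intro x
      have := e x
      simp only [List.count_cons, List.count_append, List.count_nil] at this ⊢
      omega
    have hvnot : v ∉ b :: r :: h4 :: ((S ++ [a]) ++ [u]) := by
      rw [hperm2.mem_iff]
      have hnd2 : ((h1 :: h2 :: h3 :: h4 :: (H' ++ [a, b, u])) ++ [v]).Nodup := by
        have : ((h1 :: h2 :: h3 :: h4 :: (H' ++ [a, b, u])) ++ [v]) =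
          (h1 :: h2 :: h3 :: h4 :: (H' ++ [a, b] ++ [u, v])) := by simp
        rw [this]; exact nd
      intro hv
      exact (List.nodup_append.1 hnd2).2.2 _ hv _ (by simp) rfl
    obtain ⟨m2, hm2⟩ : ∃ m2, BB (v :: u :: h4 :: (h1 :: h2 :: h3 :: (H' ++ [a, b])))
      (fun l => if l = 2 then {v, h4} else
        fl (h1 :: h2 :: h3 :: h4 :: ((H' ++ [a, b]) ++ [u, v])) l) m2 := by
     refine BB_stepA (z := v) (υ' := h1 :: h2 :: h3 :: (H' ++ [a, b]))
      (G' := fun l => if l = 2 then {v, h4} else
        fl (h1 :: h2 :: h3 :: h4 :: ((H' ++ [a, b]) ++ [u, v])) l) hm1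
        (by simp; omega) hvnot ?_ (by simp) ?_ ?_
     · rw [List.perm_iff_count]
       intro x
       have := (List.perm_iff_count.1 hR0) x
       simp only [List.count_cons, List.count_append, List.count_nil] at this ⊢
       omega
     · intro l h3l hl
       simp only [List.length_append, List.length_singleton] at hl
       rw [if_neg (by omega), if_neg (by omega)]
       have e1 : (h1 :: h2 :: h3 :: h4 :: ((H' ++ [a, b]) ++ [u, v])) =
           (h1 :: h2 :: h3 :: h4 :: (H' ++ [a, b, u])) ++ [v] := by simp
       rw [e1, fl_append_left (by simp; omega)]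
     · simp only [List.length_append, List.length_singleton]
       rw [if_neg (by omega), if_neg (by omega)]
       have e1 : (h1 :: h2 :: h3 :: h4 :: ((H' ++ [a, b]) ++ [u, v])) =
           (h1 :: h2 :: h3 :: h4 :: (H' ++ [a, b, u])) ++ [v] := by simp
       rw [e1, fl_append_left (by simp; omega), fl_of_le (by simp; omega),
         List.toFinset_eq_of_perm _ _ hperm2]
    · refine ⟨h1 :: h2 :: h3 :: (H' ++ [a, b]), m2, List.Perm.refl _, ?_, hm2⟩
      intro h
      have e3 : (h1 :: h2 :: h3 :: (H' ++ [a, b])) = (h1 :: h2 :: h3 :: (H' ++ [a])) ++ [b] := by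
        simp
      rw [e3, List.getLast?_append] at h
      simp at h
      subst h
      simp at nd

/-- `G` of the system `BB_M` (`Y` of even length `s`). -/
def GM (Y : List ℕ) (y2 w ws wt e : ℕ) : ℕ → Finset ℕ := fun l =>
  if l = 2 then {e, y2}
  else if l ≤ Y.length + 1 then insert w (insert ws (fl Y (l - 2)))
  else if l = Y.length + 2 then insert w (insert wt Y.toFinset)
  else insert w (insert ws (insert wt Y.toFinset))

theorem BBM_exists
    (hbaseN : ∀ h1 h2 h3 h4 h5 h6 h7 h8 h9 h10 : ℕ,
      [h1, h2, h3, h4, h5, h6, h7, h8, h9, h10].Nodup →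
      ∃ m, BB [h10, h9, h4, h6, h2, h3, h7, h1, h5, h8]
        (fun l => if l = 2 then {h10, h4} else fl [h1, h2, h3, h4, h5, h6, h7, h8, h9, h10] l) m)
    (hbaseM : ∀ w ws y1 y2 y3 y4 y5 y6 wt e : ℕ, [w, ws, y1, y2, y3, y4, y5, y6, wt, e].Nodup →
      ∃ m, BB [e, ws, y2, y1, y3, y4, y5, y6, wt, w]
        (GM [y1, y2, y3, y4, y5, y6] y2 w ws wt e) m)
    (y1 y2 y3 : ℕ) (Yr : List ℕ) (t1 t2 w ws wt e : ℕ) (hY : Yr.length % 2 = 1)
    (nd : (w :: ws :: wt :: e :: y1 :: y2 :: y3 :: (Yr ++ [t1, t2])).Nodup) :
    ∃ m, BB (e :: ws :: y2 :: y1 :: y3 :: (Yr ++ [t1, t2, wt, w]))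
      (GM (y1 :: y2 :: y3 :: (Yr ++ [t1, t2])) y2 w ws wt e) m := by
  rcases Nat.lt_or_ge Yr.length 3 with hlt | hge
  · obtain ⟨y4, rfl⟩ : ∃ y4, Yr = [y4] := by
      rcases Yr with _ | ⟨y4, _ | ⟨y5, Yr⟩⟩
      · simp at hY
      · exact ⟨y4, rfl⟩
      · simp only [List.length_cons] at hlt hY; omega
    refine hbaseM w ws y1 y2 y3 y4 t1 t2 wt e ?_
    refine List.Perm.nodup ?_ nd
    rw [List.perm_iff_count]
    intro x
    simp only [List.count_cons, List.count_append, List.count_nil]
    omega
  · have nd1 : (w :: ws :: y1 :: y2 :: ((y3 :: Yr) ++ [t1, t2])).Nodup := by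
      have hsub : (w :: ws :: y1 :: y2 :: ((y3 :: Yr) ++ [t1, t2])).Subperm
          (w :: ws :: wt :: e :: y1 :: y2 :: y3 :: (Yr ++ [t1, t2])) := by
        rw [List.subperm_ext_iff]
        intro x _
        simp only [List.count_cons, List.count_append, List.count_nil]
        omega
      exact nested_nodup hsub nd
    obtain ⟨R, mL, hR, hRl, hL⟩ := nested_exists hbaseN w ws y1 y2 (y3 :: Yr) t1 t2
      (by simp; omega) (by simp; omega) nd1
    have hRlen : R.length = Yr.length + 4 := by rw [hR.length_eq]; simp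
    obtain ⟨S, r, rfl⟩ := nested_append_one (H := R) (by omega)
    have hSlen : S.length = Yr.length + 3 := by simp at hRlen; omega
    have hrws : r ≠ ws := by
      intro h; apply hRl; simp [h]
    have hwsS : ws ∈ S := by
      have : ws ∈ S ++ [r] := hR.mem_iff.2 (by simp)
      rcases List.mem_append.1 this with h | h
      · exact h
      · simp at h; exact absurd h.symm hrws
    have hSperm : S.Perm (ws :: S.erase ws) := List.perm_cons_erase hwsS
    have hperm1 : (t2 :: t1 :: y2 :: (S ++ [r])).Perm
        (w :: ws :: y1 :: y2 :: ((y3 :: Yr) ++ [t1, t2])) := by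
      have e := hR
      rw [List.perm_iff_count] at e ⊢
      intro x
      have := e x
      simp only [List.count_cons, List.count_append, List.count_nil] at this ⊢
      omega
    have hmem1 : ∀ x, x ∈ t2 :: t1 :: y2 :: (S ++ [r]) ↔
        x ∈ w :: ws :: y1 :: y2 :: ((y3 :: Yr) ++ [t1, t2]) := fun x => hperm1.mem_iff
    have hwtnot : wt ∉ t2 :: t1 :: y2 :: (S ++ [r]) := by
      rw [hperm1.mem_iff]
      intro hb
      have h0 : (wt :: (w :: ws :: y1 :: y2 :: ((y3 :: Yr) ++ [t1, t2]))).Nodup → False := by
        intro h; rw [List.nodup_cons] at h; exact h.1 hb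
      apply h0
      have hsub : (wt :: (w :: ws :: y1 :: y2 :: ((y3 :: Yr) ++ [t1, t2]))).Subperm
          (w :: ws :: wt :: e :: y1 :: y2 :: y3 :: (Yr ++ [t1, t2])) := by
        rw [List.subperm_ext_iff]
        intro x _
        simp only [List.count_cons, List.count_append, List.count_nil]
        omega
      exact nested_nodup hsub nd
    set X := S.erase ws ++ [t1, t2] with hX
    have hXlen : X.length = Yr.length + 4 := by
      rw [hX, List.length_append, List.length_erase_of_mem hwsS]
      simp; omega
    have hυ1 : (r :: y2 :: (X ++ [ws])).Perm (t2 :: t1 :: y2 :: (S ++ [r])) := by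
      have e := hSperm
      rw [List.perm_iff_count] at e ⊢
      intro x
      have := e x
      simp only [hX, List.count_cons, List.count_append, List.count_nil] at this ⊢
      omega
    have hnd1 : (r :: y2 :: (X ++ [ws])).Nodup := hυ1.nodup_iff.2 hL.nd
    have hallperm : (wt :: r :: y2 :: (X ++ [ws])).Perm
        (w :: ws :: wt :: y1 :: y2 :: y3 :: (Yr ++ [t1, t2])) := by
      have e := hυ1.trans hperm1
      rw [List.perm_iff_count] at e ⊢
      intro x
      have := e x
      simp only [List.count_cons, List.count_append, List.count_nil] at this ⊢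
      omega
    have hwsX : ws ∉ wt :: r :: y2 :: X := by
      have hnd2 : ((wt :: r :: y2 :: X) ++ [ws]).Nodup := by
        have : ((wt :: r :: y2 :: X) ++ [ws]) = wt :: (r :: y2 :: (X ++ [ws])) := by simp
        rw [this, List.nodup_cons]
        exact ⟨fun h => hwtnot (hυ1.mem_iff.1 h), hnd1⟩
      intro hv
      exact (List.nodup_append.1 hnd2).2.2 _ hv _ (by simp) rfl
    have hwsall : ws ∉ w :: wt :: y1 :: y2 :: y3 :: (Yr ++ [t1, t2]) := by
      intro hb
      have h0 : (ws :: (w :: wt :: y1 :: y2 :: y3 :: (Yr ++ [t1, t2]))).Nodup → False := by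
        intro h; rw [List.nodup_cons] at h; exact h.1 hb
      apply h0
      have hsub : (ws :: (w :: wt :: y1 :: y2 :: y3 :: (Yr ++ [t1, t2]))).Subperm
          (w :: ws :: wt :: e :: y1 :: y2 :: y3 :: (Yr ++ [t1, t2])) := by
        rw [List.subperm_ext_iff]
        intro x _
        simp only [List.count_cons, List.count_append, List.count_nil]
        omega
      exact nested_nodup hsub nd
    have hset : (wt :: r :: y2 :: X).toFinset =
        insert w (insert wt (y1 :: y2 :: y3 :: (Yr ++ [t1, t2])).toFinset) := by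
      have h1 : (wt :: r :: y2 :: (X ++ [ws])).toFinset =
          (w :: ws :: wt :: y1 :: y2 :: y3 :: (Yr ++ [t1, t2])).toFinset :=
        List.toFinset_eq_of_perm _ _ hallperm
      have h2 : (wt :: r :: y2 :: X).toFinset = ((wt :: r :: y2 :: (X ++ [ws])).toFinset).erase ws := by
        have : (wt :: r :: y2 :: (X ++ [ws])) = (wt :: r :: y2 :: X) ++ [ws] := by simp
        rw [this, List.toFinset_append]
        ext x
        simp only [Finset.mem_erase, Finset.mem_union, List.mem_toFinset, List.mem_singleton]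
        constructor
        · intro hx
          exact ⟨fun h => hwsX (h ▸ hx), Or.inl hx⟩
        · rintro ⟨h, h' | h'⟩
          · exact h'
          · exact absurd h' h
      rw [h2, h1]
      ext x
      simp only [Finset.mem_erase, Finset.mem_insert, List.mem_toFinset, List.mem_cons]
      constructor
      · rintro ⟨h, h'⟩; tauto
      · intro h'
        refine ⟨fun h => hwsall ?_, by tauto⟩
        subst h
        simp only [List.mem_cons]
        tauto
    obtain ⟨m1, hm1⟩ : ∃ m1, BB (wt :: r :: y2 :: (X ++ [ws]))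
      (fun l => if l = 2 then {wt, y2} else if l < S.length + 4 then
        fl (w :: ws :: y1 :: y2 :: ((y3 :: Yr) ++ [t1, t2])) l else
        insert w (insert wt (y1 :: y2 :: y3 :: (Yr ++ [t1, t2])).toFinset)) m1 := by
     refine BB_stepA (z := wt) (υ' := X ++ [ws])
      (G' := fun l => if l = 2 then {wt, y2} else if l < S.length + 4 then
        fl (w :: ws :: y1 :: y2 :: ((y3 :: Yr) ++ [t1, t2])) l else
        insert w (insert wt (y1 :: y2 :: y3 :: (Yr ++ [t1, t2])).toFinset))
      hL (by omega) hwtnot hυ1 (by simp) ?_ ?_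
     · intro l h3l hl
       rw [if_neg (by omega), if_pos hl, if_neg (by omega)]
     · rw [if_neg (by omega), if_neg (by omega), if_pos (by omega)]
       have e2 : (wt :: r :: y2 :: (X ++ [ws])) = (wt :: r :: y2 :: X) ++ [ws] := by simp
       rw [e2, fl_append_left (by simp; omega), fl_of_le (by simp; omega), hset]
    have henot : e ∉ wt :: r :: y2 :: (X ++ [ws]) := by
      rw [hallperm.mem_iff]
      intro hb
      have h0 : (e :: (w :: ws :: wt :: y1 :: y2 :: y3 :: (Yr ++ [t1, t2]))).Nodup → False := by
        intro h; rw [List.nodup_cons] at h; exact h.1 hb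
      apply h0
      refine List.Perm.nodup ?_ nd
      rw [List.perm_iff_count]
      intro x
      simp only [List.count_cons, List.count_append, List.count_nil]
      omega
    have hυ2 : (ws :: y2 :: (y1 :: y3 :: (Yr ++ [t1, t2, wt, w]))).Perm
        (wt :: r :: y2 :: (X ++ [ws])) := by
      have e := hallperm
      rw [List.perm_iff_count] at e ⊢
      intro x
      have := e x
      simp only [List.count_cons, List.count_append, List.count_nil] at this ⊢
      omega
    refine BB_stepA hm1 (by omega) henot hυ2 ?_ ?_ ?_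
    · simp [GM]
    · intro l h3l hl
      have hYlen : (y1 :: y2 :: y3 :: (Yr ++ [t1, t2])).length = Yr.length + 5 := by simp
      simp only [GM, hYlen]
      by_cases hl2 : l ≤ Yr.length + 6
      · rw [if_neg (show ¬ l = 2 by omega), if_pos (show l ≤ Yr.length + 5 + 1 by omega),
          if_neg (show ¬ l = 2 by omega), if_pos (show l < S.length + 4 by omega)]
        obtain ⟨j, rfl⟩ : ∃ j, l = j + 2 := ⟨l - 2, by omega⟩
        simp
      · rw [if_neg (show ¬ l = 2 by omega), if_neg (show ¬ l ≤ Yr.length + 5 + 1 by omega),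
          if_pos (show l = Yr.length + 5 + 2 by omega),
          if_neg (show ¬ l = 2 by omega), if_neg (show ¬ l < S.length + 4 by omega)]
    · unfold GM
      rw [if_neg (by omega), if_neg (by simp; omega), if_neg (by simp; omega), if_neg (by omega)]
      rw [List.toFinset_eq_of_perm _ _ hallperm]
      simp

end Pool.Agent.Lib.MP_bec39b_co
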