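import Pool.Agent.Lib.MP_bec39b_co.Defs

set_option autoImplicit false

namespace Pool.Agent.Lib.MP_bec39b_co

theorem preA_ne {a c l : ℕ} (h : l ≠ 1) : preA a c l = [] := by simp [preA, h]

theorem preA_one (a c : ℕ) : preA a c 1 = [{c}, {a, c}] := by simp [preA]

section
variable {a b c z : ℕ} {σ' τ : List ℕ} {g : ℕ → Finset ℕ} {mL pU mU : ℕ → List (Finset ℕ)}

theorem snoc_toFinset (σ : List ℕ) (z : ℕ) : (σ ++ [z]).toFinset = insert z σ.toFinset := by
  ext x; simp

theorem snoc_cons3 (a b c : ℕ) (σ' : List ℕ) (z : ℕ) :
    a :: b :: c :: (σ' ++ [z]) = (a :: b :: c :: σ') ++ [z] := by simp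

theorem nodup_snoc {σ : List ℕ} {z : ℕ} (h : σ.Nodup) (hz : z ∉ σ) : (σ ++ [z]).Nodup :=
  h.append (List.nodup_singleton z) (by
    intro x hx hb
    simp at hb
    exact hz (hb ▸ hx))

/-- The head of a main segment of the composition. -/
theorem cp_head {σ κ : List ℕ} {pL : ℕ → List (Finset ℕ)} (hL : AB σ κ pL mL) {l : ℕ}
    (hl : l < σ.length) : (cp z mL mU l).head? = some (fl (σ ++ [z]) (l + 1)) := by
  cases l with
  | zero => rw [cp_zero, hL.hd 0 (by omega), fl_append_left (by omega)]
  | succ l =>
    rw [cp_succ, List.head?_append, hL.hd _ hl, fl_append_left (by omega)]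
    rfl

/-- The last element of a main segment of the composition. -/
theorem cp_last {l : ℕ} {e : Finset ℕ} (h : (mU l).getLast? = some e) :
    (cp z mL mU (l + 1)).getLast? = some (insert z e) := by
  rw [cp_succ, List.getLast?_append, List.getLast?_map, h]
  simp

end

theorem Q1_step {a b c : ℕ} {σ' τ : List ℕ} {g g' : ℕ → Finset ℕ}
    {mL pU mU : ℕ → List (Finset ℕ)} {z : ℕ}
    (hL : AB (a :: b :: c :: σ') τ (preA a c) mL) (hU : Q1 τ g pU mU)
    (hz : z ∉ a :: b :: c :: σ')
    (hg : ∀ l, 1 ≤ l → l < τ.length → Early (preA a c) mL (g l))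
    (hg1 : g' 1 = {a, c}) (hgs : ∀ l, 1 ≤ l → l < τ.length → g' (l + 1) = insert z (g l)) :
    ∃ p m, Q1 (a :: b :: c :: (σ' ++ [z])) g' p m := by
  rw [snoc_cons3]
  set σ := a :: b :: c :: σ' with hσ
  have hlen : τ.length = σ.length := hL.tau_length
  have hset : τ.toFinset = σ.toFinset := List.toFinset_eq_of_perm _ _ hL.perm
  have hUlen := hU.len
  have hUsys : Sys σ.toFinset pU mU := hset ▸ hU.sys
  have hzN : z ∉ σ.toFinset := by simpa using hz
  have hcard : σ.toFinset.card = σ.length := hL.card
  have hzm : ∀ {l : ℕ} {x : Finset ℕ}, x ∈ pU l ∨ x ∈ mU l → z ∉ x :=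
    fun hx => notMem_of_sub hUsys hzN hx
  have hUfin : ∀ l, σ.length ≤ l → pU l = [] ∧ mU l = [] := by
    intro l hl
    rcases Nat.eq_or_lt_of_le hl with rfl | hl
    · rw [← hlen]; exact ⟨hU.endp, hU.endm⟩
    · exact hUsys.fin l (by rw [hcard]; exact hl)
  refine ⟨cp z (preA a c) pU, cp z mL mU, ?_, ?_, ?_, ?_, ?_, ?_, ?_, ?_, ?_⟩
  · rw [snoc_toFinset]
    refine hL.sys.comp1 hUsys hzN ?_ ?_ ?_
    · intro l
      rcases Nat.eq_zero_or_pos l with rfl | hl
      · exact Or.inr hU.p0
      · exact Or.inl (preA_ne (by omega))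
    · intro l x hx hc
      rcases Nat.eq_zero_or_pos l with rfl | hl
      · rw [hU.p0] at hx; simp at hx
      · rcases Nat.lt_or_ge l σ.length with hl2 | hl2
        · obtain ⟨f, e, hp, hf, -, -⟩ := hU.pp l hl (by omega)
          rw [hp] at hx
          simp only [List.mem_cons, List.not_mem_nil, or_false] at hx
          rcases hx with rfl | rfl
          · omega
          · have := hg l hl (by omega)
            unfold Early at this
            rwa [hc] at this
        · rw [(hUfin l hl2).1] at hx; simp at hx
    · intro l x y hx hy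
      rcases Nat.lt_or_ge (l + 1) σ.length with hl | hl
      · rw [hL.lt _ hl] at hx
        rw [hU.hd l (by omega)] at hy
        simp only [Option.some.injEq] at hx hy
        rw [← hx, ← hy]
      · rw [(hL.m_eq_nil hl).2] at hx
        simp at hx
  · exact nodup_snoc hL.nd hz
  · simp only [List.length_append, List.length_singleton]; omega
  · intro l hl
    simp only [List.length_append, List.length_singleton] at hl
    exact cp_head hL (by omega)
  · rw [cp_zero]; exact preA_ne (by omega)
  · intro l hl hl2
    simp only [List.length_append, List.length_singleton] at hl2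
    obtain ⟨k, rfl⟩ : ∃ k, l = k + 1 := ⟨l - 1, by omega⟩
    rcases Nat.eq_zero_or_pos k with rfl | hk
    · refine ⟨{c}, ∅, ?_, by simp, ?_, Or.inl ⟨c, by simp, by simp⟩⟩
      · rw [cp_succ, hU.p0, hg1]
        simp [preA_one]
      · simp only [zero_add, cp_zero, Nat.sub_self]
        rw [hL.lt 0 (by omega)]; rfl
    · obtain ⟨f, e, hp, hf, he, hadj⟩ := hU.pp k hk (by omega)
      have hzf : z ∉ f := hzm (l := k) (Or.inl (by rw [hp]; simp))
      have hze : z ∉ e := hzm (l := k - 1) (Or.inr (List.mem_of_getLast? he))
      refine ⟨insert z f, insert z e, ?_, ?_, ?_, hadj.insert hze hzf⟩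
      · rw [cp_succ, preA_ne (by omega), hp, hgs k hk (by omega)]
        simp
      · rw [Finset.card_insert_of_notMem hzf, hf]
      · obtain ⟨j, rfl⟩ : ∃ j, k = j + 1 := ⟨k - 1, by omega⟩
        exact cp_last he
  · simp only [List.length_append, List.length_singleton, Nat.add_sub_cancel]
    obtain ⟨k, hk⟩ : ∃ k, σ.length = k + 1 := ⟨σ.length - 1, by omega⟩
    have h1 := hL.endm
    have h2 := hU.mtop
    rw [hlen, hk, Nat.add_sub_cancel] at h2
    rw [hk] at h1
    rw [hk, cp_succ, h1, h2]; simp
  · simp only [List.length_append, List.length_singleton]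
    rw [cp_succ, preA_ne (by omega), (hUfin _ le_rfl).1]; simp
  · simp only [List.length_append, List.length_singleton]
    rw [cp_succ, (hL.m_eq_nil (by omega)).2, (hUfin _ le_rfl).2]; simp

theorem Q3_step {a b c : ℕ} {σ' τ : List ℕ} {g g' : ℕ → Finset ℕ}
    {mL pU mU : ℕ → List (Finset ℕ)} {z : ℕ}
    (hL : AB (a :: b :: c :: σ') τ (preA a c) mL) (hU : Q3 τ g pU mU)
    (hz : z ∉ a :: b :: c :: σ')
    (hg : ∀ l, 1 ≤ l → l + 2 < τ.length → Early (preA a c) mL (g l))
    (hg1 : g' 1 = {a, c}) (hgs : ∀ l, 1 ≤ l → l + 2 < τ.length → g' (l + 1) = insert z (g l)) :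
    ∃ p m, Q3 (a :: b :: c :: (σ' ++ [z])) g' p m := by
  rw [snoc_cons3]
  set σ := a :: b :: c :: σ' with hσ
  have hlen : τ.length = σ.length := hL.tau_length
  have hset : τ.toFinset = σ.toFinset := List.toFinset_eq_of_perm _ _ hL.perm
  have hUlen := hU.len
  have hUsys : Sys σ.toFinset pU mU := hset ▸ hU.sys
  have hzN : z ∉ σ.toFinset := by simpa using hz
  have hcard : σ.toFinset.card = σ.length := hL.card
  have hτnd : τ.Nodup := hU.nd
  have hzm : ∀ {l : ℕ} {x : Finset ℕ}, x ∈ pU l ∨ x ∈ mU l → z ∉ x :=
    fun hx => notMem_of_sub hUsys hzN hx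
  obtain ⟨n, hn⟩ : ∃ n, σ.length = n + 3 := ⟨σ.length - 3, by omega⟩
  have hn3 : 3 ≤ n := by omega
  obtain ⟨A, B, e0, hA, hB, he0, hadj0, hAne⟩ := hU.plong
  have hm2 := hU.m2
  have hp1 := hU.p1
  obtain ⟨y, hy⟩ := hU.mtop
  have hUendp := hU.endp
  have hUendm := hU.endm
  have hLtop := hL.top
  have hLend := hL.endm
  rw [hn] at hLtop hLend
  rw [hlen, hn] at hA hB he0 hAne hm2 hp1 hy hUendp hUendm
  simp only [show n + 3 - 1 = n + 2 by omega, show n + 3 - 2 = n + 1 by omega,
    show n + 3 - 3 = n by omega] at hA hB he0 hAne hm2 hp1 hy hLtop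
  have hflN : fl σ (n + 3) = σ.toFinset := fl_of_le (by omega)
  rw [hflN] at hLtop
  set g0 : Finset ℕ := fl τ (n + 2) with hg0
  have hUfin : ∀ l, n + 3 ≤ l → pU l = [] ∧ mU l = [] := by
    intro l hl
    rcases Nat.eq_or_lt_of_le hl with rfl | hl
    · exact ⟨hUendp, hUendm⟩
    · exact hUsys.fin l (by rw [hcard]; omega)
  have hLfin : ∀ l, n + 3 ≤ l → mL l = [] := fun l hl => (hL.m_eq_nil (by omega)).2
  -- the last element of `τ`
  have hτne : τ ≠ [] := by
    intro h
    rw [h, hn] at hlen
    simp at hlen
  obtain ⟨τ0, q, hτ⟩ : ∃ τ0 q, τ = τ0 ++ [q] :=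
    ⟨τ.dropLast, τ.getLast hτne, (List.dropLast_append_getLast hτne).symm⟩
  have hτ0 : τ0.length = n + 2 := by
    have := hlen; rw [hτ, hn] at this; simp at this; omega
  have hg0' : g0 = τ0.toFinset := by
    rw [hg0, hτ, fl_append_left (by omega), ← hτ0, fl_length]
  have hq0 : q ∉ τ0 := by
    rw [hτ] at hτnd
    intro h
    exact (List.nodup_append.1 hτnd).2.2 q h q (by simp) rfl
  have hNq : σ.toFinset = insert q g0 := by
    rw [← hset, hτ, snoc_toFinset, hg0']
  have hqg0 : q ∉ g0 := by rw [hg0']; simpa using hq0
  have hg0card : g0.card = n + 2 := by rw [hg0]; exact card_fl hτnd (by omega)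
  have hlastτ : τ.getLast? = some q := by rw [hτ]; simp
  -- facets of `N`
  have hfacet : ∀ x ∈ σ.toFinset, x ≠ q → σ.toFinset.erase x ∈ vis (preA a c) mL (n + 2) := by
    intro x hx hxq
    have := hL.early_erase (preA_ne (by omega)) (by simpa using hx)
      (by rw [hlastτ]; intro h; exact hxq (Option.some.inj h).symm)
    unfold Early at this
    rw [Finset.card_erase_of_mem hx, hcard, hn] at this
    exact this
  -- the new system
  set p' : ℕ → List (Finset ℕ) := fun l => if l = n + 2 then
    (pU (n + 1)).map (insert z) ++ [g0, σ.toFinset] else cp z (preA a c) pU l with hp'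
  set m' : ℕ → List (Finset ℕ) := fun l => if l = n + 2 then [] else cp z mL mU l with hm'
  have hp'1 : p' (n + 2) = (pU (n + 1)).map (insert z) ++ [g0, σ.toFinset] := by simp [hp']
  have hm'1 : m' (n + 2) = [] := by simp [hm']
  have hp'2 : ∀ l, l ≠ n + 2 → p' l = cp z (preA a c) pU l := fun l hl => by simp [hp', hl]
  have hm'2 : ∀ l, l ≠ n + 2 → m' l = cp z mL mU l := fun l hl => by simp [hm', hl]
  have h0 : (p' 0 ++ m' 0).Perm (preA a c 0 ++ mL 0) := by
    rw [hp'2 0 (by omega), hm'2 0 (by omega)]; exact List.Perm.refl _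
  have hperm : ∀ l, (p' (l + 1) ++ m' (l + 1)).Perm
      ((preA a c (l + 1) ++ mL (l + 1)) ++ (pU l ++ mU l).map (insert z)) := by
    intro l
    by_cases hl : l + 1 = n + 2
    · obtain rfl : l = n + 1 := by omega
      rw [hp'1, hm'1, preA_ne (by omega), hm2, hLtop, List.append_nil, List.append_nil,
        List.nil_append]
      refine (List.perm_append_comm).trans ?_
      exact List.Perm.append_right _ (List.Perm.swap _ _ _)
    · rw [hp'2 _ hl, hm'2 _ hl]
      simp only [cp_succ, List.map_append]
      have : ∀ a b c d : List (Finset ℕ), ((a ++ b) ++ (c ++ d)).Perm ((a ++ c) ++ (b ++ d)) := by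
        intro a b c d
        rw [List.append_assoc, List.append_assoc]
        refine List.Perm.append_left a ?_
        rw [← List.append_assoc, ← List.append_assoc]
        exact List.Perm.append_right d List.perm_append_comm
      exact this _ _ _ _
  have memL : ∀ {l : ℕ} {x : Finset ℕ}, x ∈ vis (preA a c) mL l → x ∈ vis p' m' l := by
    intro l x hx
    refine mem_vis_comp_left (pL := preA a c) (mL := mL) ?_ ?_ hx
    · intro x hx
      have := (h0.mem_iff (a := x)).2 (by simpa only [List.mem_append] using hx)
      simpa only [List.mem_append] using this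
    · intro l x hx
      have := ((hperm l).mem_iff (a := x)).2
        (by rw [List.mem_append]; exact Or.inl (by simpa only [List.mem_append] using hx))
      simpa only [List.mem_append] using this
  have memU : ∀ {l k : ℕ} {x : Finset ℕ}, k < l → x ∈ pU k ∨ x ∈ mU k →
      insert z x ∈ vis p' m' (l + 1) := by
    intro l k x hk hx
    refine ⟨k + 1, by omega, ?_⟩
    have := ((hperm k).mem_iff (a := insert z x)).2
      (by
        rw [List.mem_append]
        refine Or.inr (List.mem_map.2 ⟨x, ?_, rfl⟩)
        simpa only [List.mem_append] using hx)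
    simpa only [List.mem_append] using this
  have hsys : Sys (insert z σ.toFinset) p' m' := by
    refine hL.sys.comp' hUsys hzN h0 hperm ?_ ?_
    · intro l
      rcases Nat.eq_zero_or_pos l with rfl | hl
      · rw [hp'2 0 (by omega), cp_zero, preA_ne (by omega)]; trivial
      obtain ⟨l, rfl⟩ : ∃ k, l = k + 1 := ⟨l - 1, by omega⟩
      by_cases hl2 : l + 1 = n + 2
      · obtain rfl : l = n + 1 := by omega
        rw [show n + 1 + 1 = n + 2 by omega, hp'1]
        refine ok_join hUsys hzN hA (fun k hk x hx => memU hk hx) ?_ rfl ?_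
        · intro x hx
          obtain ⟨h1, h2⟩ := hUsys.sub (n + 1) x (Or.inl (by rw [hA]; simp [hx]))
          rcases Nat.lt_or_ge x.card (n + 2) with h3 | h3
          · exact memL (hL.sys.comp (n + 1) x h1 (by omega))
          · have h4 : (σ.toFinset \ x).card = 1 := by
              rw [Finset.card_sdiff_of_subset h1, hcard, hn]; omega
            obtain ⟨r, hr⟩ := Finset.card_eq_one.1 h4
            have hrσ : r ∈ σ.toFinset := by
              have : r ∈ σ.toFinset \ x := by rw [hr]; simp
              exact (Finset.mem_sdiff.1 this).1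
            have hx' : x = σ.toFinset.erase r := by
              rw [Finset.erase_eq, ← hr, Finset.sdiff_sdiff_eq_self h1]
            have hrq : r ≠ q := by
              rintro rfl
              apply hAne x hx
              rw [hx', hNq, Finset.erase_insert hqg0]
            rw [hx']
            exact memL (hfacet r hrσ hrq)
        · refine ⟨?_, ?_, ?_⟩
          · intro x hx
            left; left
            refine memL (hL.sys.comp (n + 1) _ ?_ ?_)
            · rw [hNq]; exact (Finset.erase_subset _ _).trans (Finset.subset_insert _ _)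
            · rw [Finset.card_erase_of_mem hx, hg0card]; omega
          · intro x hx
            simp only [nx_cons, Option.some.injEq] at hx
            rw [← hx, hNq]
            exact Adj.up hqg0
          · refine ⟨?_, ?_, trivial⟩
            · intro x hx
              left
              by_cases hxq : x = q
              · subst hxq
                left
                rw [hNq, Finset.erase_insert hqg0]
              · right; left
                exact memL (hfacet x hx hxq)
            · intro x hx; simp at hx
      · rw [hp'2 _ hl2, cp_succ]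
        rcases Nat.eq_zero_or_pos l with rfl | hl3
        · rw [hU.p0, List.map_nil, List.append_nil]
          exact (hL.sys.okp 1).mono (fun x hx => memL hx)
        · rw [preA_ne (by omega), List.nil_append]
          refine ok_upper_p hUsys hzN (fun k hk x hx => memU hk hx) ?_
          intro x hx
          obtain ⟨h1, h2⟩ := hUsys.sub l x (Or.inl hx)
          rcases Nat.lt_or_ge l x.card with h3 | h3
          · rcases Nat.lt_or_ge l (n + 1) with h5 | h5
            · obtain ⟨f, e, hp, hf, -, -⟩ := hU.pp l hl3 (by omega)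
              rw [hp] at hx
              simp only [List.mem_cons, List.not_mem_nil, or_false] at hx
              rcases hx with rfl | rfl
              · omega
              · have := hg l hl3 (by omega)
                unfold Early at this
                rw [show (g l).card = l + 1 by omega] at this
                exact memL this
            · exfalso
              rcases Nat.lt_or_ge l (n + 3) with h6 | h6
              · obtain rfl : l = n + 2 := by omega
                rw [hp1] at hx; simp at hx
              · rw [(hUfin l h6).1] at hx; simp at hx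
          · exact memL (hL.sys.comp l x h1 h3)
    · intro l
      rcases Nat.eq_zero_or_pos l with rfl | hl
      · rw [hp'2 0 (by omega), hm'2 0 (by omega), cp_zero, cp_zero]
        exact (hL.sys.okm 0).mono (fun x hx => hx.imp (fun ⟨k, hk, _⟩ => absurd hk (by omega)) id)
      obtain ⟨l, rfl⟩ : ∃ k, l = k + 1 := ⟨l - 1, by omega⟩
      by_cases hl2 : l + 1 = n + 2
      · rw [hl2, hm'1]; trivial
      · rw [hp'2 _ hl2, hm'2 _ hl2, cp_succ, cp_succ, Ok_append]
        constructor
        · refine Ok.mono (V := vis (preA a c) mL (l + 1) ∪ {x | x ∈ preA a c (l + 1)}) ?_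
            (fun x hx => hx.imp memL (fun (h : x ∈ preA a c (l + 1)) => ?_))
          · refine (hL.sys.okm (l + 1)).exit ?_
            intro x y hx hy
            have hy' : ∃ y', (mU l).head? = some y' ∧ y = insert z y' := by
              cases hm : mU l with
              | nil => rw [hm] at hy; simp at hy
              | cons y' B =>
                rw [hm] at hy; simp at hy
                exact ⟨y', by simp, hy.symm⟩
            obtain ⟨y', hy1, rfl⟩ := hy'
            have hln : l + 1 < n + 3 := by
              by_contra h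
              rw [hLfin (l + 1) (by omega)] at hx
              simp at hx
            have hx2 := hL.lt (l + 1) (by omega)
            have hy2 := hU.hd l (by omega)
            rw [hx] at hx2
            rw [hy1] at hy2
            have hxy : y' = x := by
              simp only [Option.some.injEq] at hx2 hy2
              rw [hx2, hy2]
            subst hxy
            refine Adj.up (hzm (l := l) (Or.inr ?_))
            exact List.mem_of_mem_head? (by rw [hy1]; rfl)
          · simp only [Set.mem_ofPred_eq, List.mem_append]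
            exact Or.inl h
        · refine ok_upper_m hUsys hzN ?_ ?_ ?_
          · intro k hk x hx
            exact Or.inl (Or.inl (memU hk hx))
          · intro x hx
            refine Or.inl (Or.inr ?_)
            simp only [Set.mem_ofPred_eq, List.mem_append, List.mem_map]
            exact Or.inr ⟨x, hx, rfl⟩
          · intro x hx hc
            have := hL.sys.comp (l + 1) x hx hc
            rw [vis_succ] at this
            rcases this with (h | h) | h
            · exact Or.inl (Or.inl (memL h))
            · refine Or.inl (Or.inr ?_)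
              simp only [Set.mem_ofPred_eq, List.mem_append]
              exact Or.inl h
            · exact Or.inr h
  have hlenS : (σ ++ [z]).length = n + 4 := by simp; omega
  refine ⟨p', m', ?_, ?_, ?_, ?_, ?_, ?_, ?_, ?_, ?_, ?_, ?_, ?_⟩
  · rw [snoc_toFinset]; exact hsys
  · exact nodup_snoc hL.nd hz
  · omega
  · intro l hl
    rw [hlenS] at hl
    rw [hm'2 l (by omega)]
    exact cp_head hL (by omega)
  · rw [hp'2 0 (by omega), cp_zero]; exact preA_ne (by omega)
  · intro l hl hl2
    rw [hlenS] at hl2
    obtain ⟨k, rfl⟩ : ∃ k, l = k + 1 := ⟨l - 1, by omega⟩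
    rw [hp'2 _ (by omega), hm'2 _ (by omega)]
    rcases Nat.eq_zero_or_pos k with rfl | hk
    · refine ⟨{c}, ∅, ?_, by simp, ?_, Or.inl ⟨c, by simp, by simp⟩⟩
      · rw [cp_succ, hU.p0, hg1]
        simp [preA_one]
      · simp only [zero_add, cp_zero, Nat.sub_self]
        rw [hL.lt 0 (by omega)]; rfl
    · obtain ⟨f, e, hp, hf, he, hadj⟩ := hU.pp k hk (by omega)
      have hzf : z ∉ f := hzm (l := k) (Or.inl (by rw [hp]; simp))
      have hze : z ∉ e := hzm (l := k - 1) (Or.inr (List.mem_of_getLast? he))
      refine ⟨insert z f, insert z e, ?_, ?_, ?_, hadj.insert hze hzf⟩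
      · rw [cp_succ, preA_ne (by omega), hp, hgs k hk (by omega)]
        simp
      · rw [Finset.card_insert_of_notMem hzf, hf]
      · obtain ⟨j, rfl⟩ : ∃ j, k = j + 1 := ⟨k - 1, by omega⟩
        exact cp_last he
  · rw [hlenS]
    have hflS : fl (σ ++ [z]) (n + 3) = σ.toFinset := by
      rw [fl_append_left (by omega), hflN]
    have hBmem : B ∈ pU (n + 1) := List.mem_of_mem_head? (by rw [hB]; rfl)
    have hzB : z ∉ B := hzm (l := n + 1) (Or.inl hBmem)
    have hze : z ∉ e0 := hzm (l := n) (Or.inr (List.mem_of_getLast? he0))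
    refine ⟨(pU (n + 1)).map (insert z) ++ [g0], insert z B, insert z e0, ?_, ?_, ?_,
      hadj0.insert hze hzB, ?_⟩
    · rw [show n + 4 - 2 = n + 2 by omega, show n + 4 - 1 = n + 3 by omega, hp'1, hflS]
      simp
    · rw [show n + 4 - 2 = n + 2 by omega, hp'1, List.head?_append, List.head?_map, hB]
      rfl
    · rw [show n + 4 - 3 = n + 1 by omega, hm'2 _ (by omega)]
      exact cp_last he0
    · rw [show n + 4 - 1 = n + 3 by omega, hflS]
      intro x hx
      rcases List.mem_append.1 hx with hx | hx
      · obtain ⟨x', hx', rfl⟩ := List.mem_map.1 hx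
        intro h
        exact hzN (h ▸ Finset.mem_insert_self z x')
      · simp only [List.mem_cons, List.not_mem_nil, or_false] at hx
        rw [hx]
        intro h
        rw [h, hcard] at hg0card
        omega
  · rw [hlenS]; exact hm'1
  · rw [hlenS, show n + 4 - 1 = n + 3 by omega, hp'2 _ (by omega), cp_succ,
      preA_ne (by omega), hp1]; simp
  · refine ⟨insert z y, ?_⟩
    rw [hlenS, show n + 4 - 1 = n + 3 by omega, hm'2 _ (by omega), cp_succ,
      hLfin _ le_rfl, hy, snoc_toFinset, hset]
    simp
  · rw [hlenS, hp'2 _ (by omega), cp_succ, preA_ne (by omega), (hUfin _ le_rfl).1]; simp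
  · rw [hlenS, hm'2 _ (by omega), cp_succ, hLfin _ (by omega), (hUfin _ le_rfl).2]; simp

/-- `[o + k, ..., o + 1]` -/
def Zl (o : ℕ) : ℕ → List ℕ
  | 0 => []
  | k + 1 => (o + k + 1) :: Zl o k

end Pool.Agent.Lib.MP_bec39b_co
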